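import Pool.Agent.DWG.St
import Pool.Agent.Helper8.HomFil

/-!
# DWG [BarO]: conjugation of the matrix of a class
-/

set_option autoImplicit false

namespace DWG

open scoped ComplexConjugate
open Module
open GAM (H E F pd pdl PLat IsTh OddTor IsDel Gro IsLat)
open PST DWC DWZ
open DWY (cx cy XX XT NS d4 qb)
open Pool.Agent.GPC (AbVar hermForm bilForm)
open Pool.Agent.Helper7 (pData exists_bettiBasis isBetti_iff)

private lemma BarO_zd (d : ℚ) : conj (zd d) = -zd d := by
  simp [zd]

private lemma BarO_rot (n m : ℕ) (i : Fin (n + 1)) :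
    ((((finRotate (n + 1)) ^ m) i : Fin (n + 1)) : ℕ) = ((i : ℕ) + m) % (n + 1) := by
  induction m with
  | zero => simp [Nat.mod_eq_of_lt i.2]
  | succ m ih =>
    rw [pow_succ', Equiv.Perm.mul_apply, finRotate_apply, Fin.val_add, ih]
    rcases n with _ | n
    · simp
    · rw [Fin.val_one, Nat.mod_add_mod, add_assoc]

private lemma BarO_left {V : Type} {a b : ℕ} (x : Fin a → V) (y : Fin b → V) (i : Fin (a + b))
    (j : Fin a) (h : (i : ℕ) = j) : Fin.append x y i = x j := by
  have h1 : i = Fin.castAdd b j := Fin.ext h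
  rw [h1, Fin.append_left]

private lemma BarO_right {V : Type} {a b : ℕ} (x : Fin a → V) (y : Fin b → V) (i : Fin (a + b))
    (j : Fin b) (h : (i : ℕ) = a + j) : Fin.append x y i = y j := by
  have h1 : i = Fin.natAdd a j := Fin.ext h
  rw [h1, Fin.append_right]

private lemma BarO_swap {V : Type} [AddCommGroup V] [Module ℂ V] (n a b : ℕ) (h : n = a + b)
    (h' : n = b + a) (γ : V [⋀^Fin n]→ₗ[ℂ] ℂ) (x : Fin a → V) (y : Fin b → V) :
    γ (Fin.append x y ∘ Fin.cast h) = (-1) ^ (a * b) * γ (Fin.append y x ∘ Fin.cast h') := by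
  rcases n with _ | n
  · have ha : a = 0 := by omega
    subst ha
    rw [zero_mul, pow_zero, one_mul]
    congr 1
    funext i
    exact i.elim0
  · obtain ⟨σ, hσ⟩ : ∃ σ : Equiv.Perm (Fin (n + 1)), σ = (finRotate (n + 1)) ^ b := ⟨_, rfl⟩
    have h1 : Fin.append x y ∘ Fin.cast h = (Fin.append y x ∘ Fin.cast h') ∘ σ := by
      funext i
      have h2 := BarO_rot n b i
      rw [← hσ] at h2
      have h3 := i.2
      rw [Function.comp_apply, Function.comp_apply, Function.comp_apply]
      by_cases hi : (i : ℕ) < a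
      · rw [Nat.mod_eq_of_lt (by omega)] at h2
        rw [BarO_left x y _ ⟨i, hi⟩ rfl, BarO_right y x _ ⟨i, hi⟩ (by
          rw [Fin.val_cast, h2]
          exact Nat.add_comm _ _)]
      · have h6 : (i : ℕ) + b = (i - a) + (n + 1) := by omega
        rw [h6, Nat.add_mod_right, Nat.mod_eq_of_lt (by omega)] at h2
        have h7 : (i : ℕ) - a < b := by omega
        rw [BarO_right x y _ ⟨i - a, h7⟩ (by
          rw [Fin.val_cast]
          show (i : ℕ) = a + (i - a)
          omega), BarO_left y x _ ⟨i - a, h7⟩ (by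
          rw [Fin.val_cast, h2])]
    have h2 : Equiv.Perm.sign σ = (-1) ^ (a * b) := by
      rw [hσ, map_pow, sign_finRotate, Nat.add_sub_cancel, ← pow_mul]
      have h3 : n * b + b = a * b + b * b := by
        have : n + 1 = a + b := h
        calc n * b + b = (n + 1) * b := by ring
          _ = a * b + b * b := by rw [this]; ring
      have h4 : Even (b * b + b) := by
        have : b * b + b = b * (b + 1) := by ring
        rw [this]
        exact Nat.even_mul_succ_self b
      have h5 : (-1 : ℤˣ) ^ (n * b + b + b) = (-1) ^ (a * b) := by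
        have : n * b + b + b = a * b + (b * b + b) := by omega
        rw [this, pow_add, h4.neg_one_pow, mul_one]
      rw [← h5, add_assoc, pow_add, ← two_mul, pow_mul (-1) 2 b, neg_one_sq, one_pow, mul_one]
    rw [h1]
    have h3 := γ.map_perm (Fin.append y x ∘ Fin.cast h') σ
    rw [h3, h2]
    rcases Nat.even_or_odd (a * b) with h | h
    · rw [h.neg_one_pow, h.neg_one_pow, one_smul, one_mul]
    · rw [h.neg_one_pow, h.neg_one_pow, Units.neg_smul, one_smul, neg_one_mul]

section mats

variable {α β α' β' : Type} [Fintype α] [Fintype β] [Fintype α'] [Fintype β']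
  [DecidableEq α] [DecidableEq β] [DecidableEq α'] [DecidableEq β']

private lemma BarO_blg (P : α ⊕ β → ℂ) (q : α ⊕ β) :
    blg P (Pi.single q 1) = P q * Jm α β q q := by
  unfold blg Jm
  rcases q with q | q
  · have h1 : ∑ S : α, P (Sum.inl S) *
        (Pi.single (Sum.inl q) (1 : ℂ) : α ⊕ β → ℂ) (Sum.inl S) = P (Sum.inl q) := by
      rw [Finset.sum_eq_single q]
      · rw [Pi.single_eq_same, mul_one]
      · intro b _ hb
        rw [Pi.single_eq_of_ne (fun h => hb (Sum.inl_injective h)), mul_zero]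
      · intro h
        exact absurd (Finset.mem_univ _) h
    have h2 : ∑ S : β, P (Sum.inr S) *
        (Pi.single (Sum.inl q) (1 : ℂ) : α ⊕ β → ℂ) (Sum.inr S) = 0 := by
      refine Finset.sum_eq_zero fun b _ => ?_
      rw [Pi.single_eq_of_ne (by simp), mul_zero]
    rw [h1, h2, Matrix.fromBlocks_apply₁₁, Matrix.one_apply_eq, mul_one, sub_zero]
  · have h1 : ∑ S : α, P (Sum.inl S) *
        (Pi.single (Sum.inr q) (1 : ℂ) : α ⊕ β → ℂ) (Sum.inl S) = 0 := by
      refine Finset.sum_eq_zero fun b _ => ?_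
      rw [Pi.single_eq_of_ne (by simp), mul_zero]
    have h2 : ∑ S : β, P (Sum.inr S) *
        (Pi.single (Sum.inr q) (1 : ℂ) : α ⊕ β → ℂ) (Sum.inr S) = P (Sum.inr q) := by
      rw [Finset.sum_eq_single q]
      · rw [Pi.single_eq_same, mul_one]
      · intro b _ hb
        rw [Pi.single_eq_of_ne (fun h => hb (Sum.inr_injective h)), mul_zero]
      · intro h
        exact absurd (Finset.mem_univ _) h
    rw [h1, h2, Matrix.fromBlocks_apply₂₂, Matrix.neg_apply, Matrix.one_apply_eq, zero_sub,
      mul_neg, mul_one]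

omit [Fintype α] [Fintype β] in
private lemma BarO_Jd : Jm α β =
    Matrix.diagonal (Sum.elim (fun _ => (1 : ℂ)) (fun _ => -1)) := by
  unfold Jm
  ext a b
  rcases a with a | a <;> rcases b with b | b
  · simp [Matrix.diagonal_apply, Matrix.one_apply]
  · simp
  · simp
  · simp only [Matrix.fromBlocks_apply₂₂, Matrix.neg_apply, Matrix.one_apply,
      Matrix.diagonal_apply, Sum.inr.injEq, Sum.elim_inr]
    split_ifs <;> simp

private lemma BarO_J (B : Matrix (α ⊕ β) (α' ⊕ β') ℂ) (q : α' ⊕ β') (p : α ⊕ β) :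
    (Jm α' β' * B.transpose * Jm α β) q p = Jm α' β' q q * B p q * Jm α β p p := by
  rw [BarO_Jd, BarO_Jd, Matrix.mul_diagonal, Matrix.diagonal_mul, Matrix.diagonal_apply_eq,
    Matrix.diagonal_apply_eq, Matrix.transpose_apply]

omit [Fintype α] [Fintype β] in
private lemma BarO_Jsq (q : α ⊕ β) : Jm α β q q * Jm α β q q = 1 := by
  unfold Jm
  rcases q with q | q
  · rw [Matrix.fromBlocks_apply₁₁, Matrix.one_apply_eq, mul_one]
  · rw [Matrix.fromBlocks_apply₂₂, Matrix.neg_apply, Matrix.one_apply_eq, neg_mul_neg, mul_one]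

omit [Fintype α] [Fintype β] in
private lemma BarO_Jconj (q : α ⊕ β) : conj (Jm α β q q) = Jm α β q q := by
  unfold Jm
  rcases q with q | q
  · rw [Matrix.fromBlocks_apply₁₁, Matrix.one_apply_eq, map_one]
  · rw [Matrix.fromBlocks_apply₂₂, Matrix.neg_apply, Matrix.one_apply_eq, map_neg, map_one]

end mats

private lemma BarO_conj (X : AbVar) (n k : ℕ) (c : X.H1 → X.H1) (hc : IsCc X c)
    (γ : X.H1 [⋀^Fin n]→ₗ[ℂ] ℂ)
    (hγ : ∀ v : Fin n → X.H1, (∀ i, X.IsBetti (v i)) →
      ∃ r : ℚ, γ v = (2 * (Real.pi : ℂ) * Complex.I) ^ k * r)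
    (w : Fin n → X.H1) : conj (γ w) = (-1) ^ k * γ (fun i => c (w i)) := by
  have key : ∀ (u : Fin n → X.H1) i x,
      (fun j => c (Function.update u i x j)) = Function.update (fun j => c (u j)) i (c x) := by
    intro u i x
    funext j
    by_cases h : j = i
    · subst h
      rw [Function.update_self, Function.update_self]
    · rw [Function.update_of_ne h, Function.update_of_ne h]
  let β : MultilinearMap ℂ (fun _ : Fin n => X.H1) ℂ :=
    { toFun := fun w => conj (γ fun i => c (w i))
      map_update_add' := by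
        intro inst u i x y
        obtain rfl : inst = instDecidableEqFin _ := Subsingleton.elim _ _
        show conj (γ _) = conj (γ _) + conj (γ _)
        rw [key, key, key, hc.add, γ.map_update_add, map_add]
      map_update_smul' := by
        intro inst u i r x
        obtain rfl : inst = instDecidableEqFin _ := Subsingleton.elim _ _
        show conj (γ _) = r • conj (γ _)
        rw [key, key, hc.smul, γ.map_update_smul, smul_eq_mul, map_mul, Complex.conj_conj,
          smul_eq_mul] }
  obtain ⟨ι, fι, b, hb⟩ := exists_bettiBasis X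
  have hbB : ∀ i, X.IsBetti (b i) := by
    intro i
    rw [isBetti_iff, ← hb]
    exact Submodule.subset_span ⟨i, rfl⟩
  have hmul : β = ((-1 : ℂ) ^ k) • γ.toMultilinearMap := by
    refine Module.Basis.ext_multilinear (fun _ => b) fun v => ?_
    show conj (γ fun i => c (b (v i))) = (-1 : ℂ) ^ k • γ _
    have e1 : (fun i => c (b (v i))) = fun i => b (v i) := by
      funext i
      exact hc.betti _ (hbB _)
    rw [e1]
    obtain ⟨r, hr⟩ := hγ (fun i => b (v i)) fun r => hbB _
    rw [hr, smul_eq_mul, map_mul, map_pow]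
    simp only [map_mul, Complex.conj_ofReal, Complex.conj_I, map_ofNat, map_ratCast]
    rw [← mul_assoc, ← mul_pow]
    congr 2
    ring
  have e1 := congrArg (fun f => f w) hmul
  have e2 : conj (γ fun i => c (w i)) = (-1) ^ k * γ w := e1
  have e3 := congrArg conj e2
  rw [Complex.conj_conj, map_mul, map_pow, map_neg, map_one] at e3
  rw [e3, ← mul_assoc, ← mul_pow, neg_one_mul, neg_neg, one_pow, one_mul]

private lemma BarO_cc (X : AbVar) (c : X.H1 → X.H1) (hc : IsCc X c) (J : Module.End ℂ X.H1)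
    (hJ : ∀ v, X.IsBetti v → X.IsBetti (J v)) (v : X.H1) : c (J (c v)) = J v := by
  obtain ⟨ι, fι, b, hb⟩ := exists_bettiBasis X
  have hbB : ∀ i, X.IsBetti (b i) := by
    intro i
    rw [isBetti_iff, ← hb]
    exact Submodule.subset_span ⟨i, rfl⟩
  let g : X.H1 →ₗ[ℂ] X.H1 :=
    { toFun := fun v => c (J (c v))
      map_add' := fun x y => by rw [hc.add, map_add, hc.add]
      map_smul' := fun r x => by
        rw [hc.smul, map_smul, hc.smul, Complex.conj_conj, RingHom.id_apply] }
  have h1 : g = J := by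
    refine b.ext fun i => ?_
    show c (J (c (b i))) = J (b i)
    rw [hc.betti _ (hbB i), hc.betti _ (hJ _ (hbB i))]
  exact congrArg (fun f : X.H1 →ₗ[ℂ] X.H1 => f v) h1

theorem thm_BarO (h1 : St_Cc) : St_BarO := by
  intro X d J k a b h h' α₁ β₁ α₂ β₂ _ _ _ _ _ _ _ _ u₁ wx₁ wt₁ u₂ wx₂ wt₂ γ A B hJ ha hb hγ hA hB
  obtain ⟨c, hc⟩ := h1 X
  have hJB := hJ.endo.betti
  have hcc : ∀ v, c (c v) = v := BarO_cc X c hc 1 (fun v hv => hv)
  have hcJ : ∀ v, J (c v) = c (J v) := by
    intro v
    have e1 := BarO_cc X c hc J hJB v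
    rw [← e1, hcc]
  have heig : ∀ v, J v = zd d • v → J (c v) = (-zd d) • c v := by
    intro v hv
    rw [hcJ, hv, hc.smul, BarO_zd]
  ext q p
  rw [Matrix.map_apply, Matrix.smul_apply, BarO_J, smul_eq_mul]
  have a1 := hA (u₁ p) (fun i => c (u₂ q i)) (ha.eig p) (fun i => heig _ (hb.eig q i))
  have a2 := hB (u₂ q) (fun i => c (u₁ p i)) (hb.eig q) (fun i => heig _ (ha.eig p i))
  have w1 : wt₂ (fun i => c (u₂ q i)) = Pi.single q 1 := by
    funext s
    rw [hb.cc c hc _ (fun i => heig _ (hb.eig q i))]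
    simp only [hcc]
    have : (fun i => u₂ q i) = u₂ q := rfl
    rw [this, hb.one]
    by_cases hs : s = q
    · subst hs
      rw [Pi.single_eq_same, map_one]
    · rw [Pi.single_eq_of_ne hs, map_zero]
  have w2 : wt₁ (fun i => c (u₁ p i)) = Pi.single p 1 := by
    funext s
    rw [ha.cc c hc _ (fun i => heig _ (ha.eig p i))]
    simp only [hcc]
    have : (fun i => u₁ p i) = u₁ p := rfl
    rw [this, ha.one]
    by_cases hs : s = p
    · subst hs
      rw [Pi.single_eq_same, map_one]
    · rw [Pi.single_eq_of_ne hs, map_zero]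
  rw [ha.one, w1, BarO_blg, Matrix.mulVec_single_one] at a1
  rw [hb.one, w2, BarO_blg, Matrix.mulVec_single_one] at a2
  have a3 := BarO_conj X (2 * k) k c hc γ hγ
    (Fin.append (u₁ p) (fun i => c (u₂ q i)) ∘ Fin.cast h)
  have a4 : (fun i => c ((Fin.append (u₁ p) (fun i => c (u₂ q i)) ∘ Fin.cast h) i)) =
      Fin.append (fun i => c (u₁ p i)) (u₂ q) ∘ Fin.cast h := by
    funext i
    rw [Function.comp_apply, Function.comp_apply]
    generalize Fin.cast h i = j
    induction j using Fin.addCases with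
    | left j => rw [Fin.append_left, Fin.append_left]
    | right j => rw [Fin.append_right, Fin.append_right, hcc]
  rw [a4, BarO_swap (2 * k) a b h h' γ (fun i => c (u₁ p i)) (u₂ q), a1, a2, map_mul, map_pow, Complex.conj_ofReal,
    map_mul, BarO_Jconj] at a3
  have hpi : (Real.pi : ℂ) ^ k ≠ 0 :=
    pow_ne_zero _ (Complex.ofReal_ne_zero.2 Real.pi_ne_zero)
  have a5 : conj (A q p) * Jm α₂ β₂ q q = (-1) ^ (k + a * b) * (B p q * Jm α₁ β₁ p p) := by
    refine mul_left_cancel₀ hpi (Eq.trans a3 ?_)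
    rw [pow_add]
    show _ = (Real.pi : ℂ) ^ k * ((-1) ^ k * (-1) ^ (a * b) * (B.col q p * Jm α₁ β₁ p p))
    ring
  have a8 := BarO_Jsq (α := α₂) (β := β₂) q
  linear_combination (Jm α₂ β₂ q q) * a5 - conj (A q p) * a8

end DWG
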