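import Pool.Agent.DWG.St

/-!
# DWG [BetO]: the matrix of a rational class respects the lattices, up to isogeny
-/

set_option autoImplicit false
set_option linter.unusedSectionVars false

namespace DWG

open scoped ComplexConjugate
open Module
open GAM (H E PLat)
open PST DWC DWZ
open DWY (d4)
open Pool.Agent.GPC (AbVar)

/-! ## The field `ℚ(i √d)` -/

private def BetO_K (d : ℚ) (c : ℂ) : Prop := ∃ a b : ℚ, c = (a : ℂ) + (b : ℂ) * zd d

private lemma BetO_zd2 (d : ℚ) (hd : 0 < d) : zd d * zd d = -(d : ℂ) := by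
  unfold zd
  have h1 : ((Real.sqrt (d : ℝ) : ℝ) : ℂ) * ((Real.sqrt (d : ℝ) : ℝ) : ℂ) = (d : ℂ) := by
    rw [← Complex.ofReal_mul, Real.mul_self_sqrt (by exact_mod_cast hd.le)]
    push_cast
    rfl
  have h2 : Complex.I * Complex.I = -1 := Complex.I_mul_I
  linear_combination Complex.I * Complex.I * h1 + (d : ℂ) * h2

private lemma BetO_zdc (d : ℚ) : conj (zd d) = -zd d := by
  unfold zd
  rw [map_mul, Complex.conj_ofReal, Complex.conj_I]
  ring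

private lemma BetO_Kadd {d : ℚ} {x y : ℂ} (hx : BetO_K d x) (hy : BetO_K d y) :
    BetO_K d (x + y) := by
  obtain ⟨a, b, rfl⟩ := hx
  obtain ⟨a', b', rfl⟩ := hy
  exact ⟨a + a', b + b', by push_cast; ring⟩

private lemma BetO_Kmul {d : ℚ} (hd : 0 < d) {x y : ℂ} (hx : BetO_K d x) (hy : BetO_K d y) :
    BetO_K d (x * y) := by
  obtain ⟨a, b, rfl⟩ := hx
  obtain ⟨a', b', rfl⟩ := hy
  refine ⟨a * a' - d * (b * b'), a * b' + b * a', ?_⟩
  push_cast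
  linear_combination ((b : ℂ) * b') * BetO_zd2 d hd

private lemma BetO_Kq (d q : ℚ) : BetO_K d (q : ℂ) := ⟨q, 0, by rw [Rat.cast_zero]; ring⟩

private lemma BetO_Kz (d q : ℚ) : BetO_K d ((q : ℂ) * zd d) := ⟨0, q, by rw [Rat.cast_zero]; ring⟩

/-! ## Multilinear maps -/

private lemma BetO_ml {V : Type} [AddCommGroup V] [Module ℂ V] {m : ℕ} (d : ℚ) (hd : 0 < d)
    (ϖ : ℂ) (f : MultilinearMap ℂ (fun _ : Fin m => V) ℂ) (B : V → Prop)
    (hf : ∀ v : Fin m → V, (∀ i, B (v i)) → ∃ c, BetO_K d c ∧ f v = ϖ * c)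
    (s : Finset (Fin m)) :
    ∀ v : Fin m → V, (∀ i, i ∉ s → B (v i)) →
      (∀ i, i ∈ s → ∃ (c c' : ℂ) (b b' : V), BetO_K d c ∧ BetO_K d c' ∧ B b ∧ B b' ∧
        v i = c • b + c' • b') → ∃ c, BetO_K d c ∧ f v = ϖ * c := by
  classical
  induction s using Finset.induction_on with
  | empty =>
    intro v hv _
    exact hf v (fun i => hv i (Finset.notMem_empty i))
  | insert i s hi ih =>
    intro v hv hs
    obtain ⟨c, c', b, b', hc, hc', hb, hb', he⟩ := hs i (Finset.mem_insert_self _ _)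
    have h1 : f v = c * f (Function.update v i b) + c' * f (Function.update v i b') := by
      have h2 : v = Function.update v i (c • b + c' • b') := by
        rw [← he, Function.update_eq_self]
      conv_lhs => rw [h2]
      rw [f.map_update_add, f.map_update_smul, f.map_update_smul, smul_eq_mul, smul_eq_mul]
    have key : ∀ b₀, B b₀ → ∃ c, BetO_K d c ∧ f (Function.update v i b₀) = ϖ * c := by
      intro b₀ hb₀
      apply ih
      · intro j hj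
        by_cases hji : j = i
        · subst hji
          rw [Function.update_self]
          exact hb₀
        · rw [Function.update_of_ne hji]
          exact hv j (fun h => (Finset.mem_insert.1 h).elim hji hj)
      · intro j hj
        have hji : j ≠ i := fun h => hi (h ▸ hj)
        rw [Function.update_of_ne hji]
        exact hs j (Finset.mem_insert_of_mem hj)
    obtain ⟨x, hx, hx'⟩ := key b hb
    obtain ⟨y, hy, hy'⟩ := key b' hb'
    exact ⟨c * x + c' * y, BetO_Kadd (BetO_Kmul hd hc hx) (BetO_Kmul hd hc' hy), by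
      rw [h1, hx', hy']; ring⟩

/-! ## Coordinates -/

section gen

variable {α β : Type}

private lemma BetO_sw (x : Ix α β Unit → ℂ) : sw (sw x) = x := by
  funext p
  rcases p with ⟨p | p, u⟩
  · rfl
  · simp [sw]

private lemma BetO_swa (x y : Ix α β Unit → ℂ) : sw (x + y) = sw x + sw y := by
  funext p
  rcases p with ⟨p | p, u⟩
  · rfl
  · simp [sw]

private lemma BetO_sws (r : ℝ) (x : Ix α β Unit → ℂ) : sw ((r : ℂ) • x) = (r : ℂ) • sw x := by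
  funext p
  rcases p with ⟨p | p, u⟩
  · rfl
  · simp [sw]

private lemma BetO_zs {ι : Type} (m : ℤ) (x : ι → ℂ) : m • x = ((m : ℝ) : ℂ) • x := by
  funext p
  rw [Pi.smul_apply, Pi.smul_apply, zsmul_eq_mul, smul_eq_mul, Complex.ofReal_intCast]

private lemma BetO_El {ι : Type} [Fintype ι] (r : ℝ) (x y : ι → ℂ) :
    E ((r : ℂ) • x) y = r * E x y := by
  unfold E
  rw [GAM.H_smul_left, Complex.im_ofReal_mul]

private lemma BetO_Er {ι : Type} [Fintype ι] (r : ℝ) (x y : ι → ℂ) :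
    E x ((r : ℂ) • y) = r * E x y := by
  unfold E
  rw [GAM.H_smul_right, Complex.conj_ofReal, Complex.im_ofReal_mul]

end gen
/-! ## Rationality -/

private lemma BetO_im (x y : ℝ) : ((x : ℂ) + (y : ℂ) * Complex.I).im = y := by
  simp

private lemma BetO_rat (d : ℚ) (hd : 0 < d) (n k : ℕ) (c : ℂ) (hc : BetO_K d c) :
    ∃ q : ℚ, ((n : ℝ) * d4 d ^ k) * ((n : ℝ) * d4 d ^ k) *
      ((2 * Complex.I) ^ (k + 1) * c).im = q := by
  obtain ⟨a, b, rfl⟩ := hc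
  obtain ⟨t, ht⟩ : ∃ t : ℝ, t = Real.sqrt (d : ℝ) := ⟨_, rfl⟩
  have hdR : (0 : ℝ) < d := by exact_mod_cast hd
  have ht0 : 0 < t := by rw [ht]; exact Real.sqrt_pos.2 hdR
  have htt : t * t = d := by rw [ht]; exact Real.mul_self_sqrt hdR.le
  have h4 : d4 d * d4 d = t⁻¹ := by
    unfold d4
    rw [← ht, ← mul_inv, Real.mul_self_sqrt ht0.le]
  have h5 : ((n : ℝ) * d4 d ^ k) * ((n : ℝ) * d4 d ^ k) = (n : ℝ) * n * (t⁻¹) ^ k := by
    rw [← h4, mul_pow]; ring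
  have hz : zd d = (t : ℂ) * Complex.I := by rw [ht]; rfl
  rw [h5, hz]
  have hI4 : ∀ j : ℕ, ((2 * Complex.I) ^ (2 * j) : ℂ) = (((-4 : ℝ) ^ j : ℝ) : ℂ) := by
    intro j
    rw [pow_mul, mul_pow, Complex.I_sq]
    push_cast
    norm_num
  have hd0 : (d : ℝ) ≠ 0 := hdR.ne'
  have htne : t ≠ 0 := ht0.ne'
  have htj : ∀ j : ℕ, (t⁻¹) ^ (2 * j) = ((d : ℝ) ^ j)⁻¹ := by
    intro j
    rw [inv_pow, pow_mul, pow_two, htt]
  rcases Nat.even_or_odd' k with ⟨j, hj | hj⟩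
  · subst hj
    refine ⟨n * n * (d ^ j)⁻¹ * ((-4) ^ j * (2 * a)), ?_⟩
    rw [htj, pow_succ, hI4]
    have h6 : ((((-4 : ℝ) ^ j : ℝ) : ℂ) * (2 * Complex.I) *
        ((a : ℂ) + (b : ℂ) * ((t : ℂ) * Complex.I))).im = (-4) ^ j * (2 * a) := by
      have h7 : (((-4 : ℝ) ^ j : ℝ) : ℂ) * (2 * Complex.I) *
          ((a : ℂ) + (b : ℂ) * ((t : ℂ) * Complex.I)) =
          (((-4 : ℝ) ^ j * (-(2 * b * t)) : ℝ) : ℂ) +
            (((-4 : ℝ) ^ j * (2 * a) : ℝ) : ℂ) * Complex.I := by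
        push_cast
        linear_combination (2 * (-4 : ℂ) ^ j * b * t) * Complex.I_mul_I
      rw [h7]
      exact BetO_im _ _
    rw [h6]
    push_cast
    ring
  · subst hj
    refine ⟨n * n * (d ^ j)⁻¹ * ((-4) ^ (j + 1) * b), ?_⟩
    have h8 : 2 * j + 1 + 1 = 2 * (j + 1) := by ring
    rw [h8, hI4, pow_succ, htj]
    have h6 : ((((-4 : ℝ) ^ (j + 1) : ℝ) : ℂ) *
        ((a : ℂ) + (b : ℂ) * ((t : ℂ) * Complex.I))).im = (-4) ^ (j + 1) * (b * t) := by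
      have h7 : (((-4 : ℝ) ^ (j + 1) : ℝ) : ℂ) *
          ((a : ℂ) + (b : ℂ) * ((t : ℂ) * Complex.I)) =
          (((-4 : ℝ) ^ (j + 1) * a : ℝ) : ℂ) +
            (((-4 : ℝ) ^ (j + 1) * (b * t) : ℝ) : ℂ) * Complex.I := by
        push_cast
        ring
      rw [h7]
      exact BetO_im _ _
    rw [h6]
    push_cast
    field_simp


private lemma BetO_Kc {d : ℚ} {x : ℂ} (hx : BetO_K d x) : BetO_K d (conj x) := by
  obtain ⟨a, b, rfl⟩ := hx
  refine ⟨a, -b, ?_⟩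
  rw [map_add, map_mul, map_ratCast, map_ratCast, BetO_zdc]
  push_cast
  ring

private lemma BetO_Kh {d : ℚ} (hd : 0 < d) : BetO_K d ((1 / 2 : ℂ) * (zd d)⁻¹) := by
  have hz : zd d ≠ 0 := by
    intro h0
    have h1 := BetO_zd2 d hd
    rw [h0, mul_zero] at h1
    have h2 : (d : ℂ) ≠ 0 := by exact_mod_cast hd.ne'
    exact h2 (neg_eq_zero.mp h1.symm)
  refine ⟨0, -1 / (2 * d), ?_⟩
  have hd0 : (d : ℂ) ≠ 0 := by exact_mod_cast hd.ne'
  push_cast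
  field_simp
  linear_combination BetO_zd2 d hd

private lemma BetO_Pz {X : AbVar} {d : ℚ} {J : Module.End ℂ X.H1} (hJ : IsKs X d J) (z : ℂ)
    (hz : z * z = -(d : ℂ)) (v : X.H1) : J (Pz J z v) = z • Pz J z v := by
  have hd0 : (d : ℂ) ≠ 0 := by exact_mod_cast hJ.pos.ne'
  have hz0 : z ≠ 0 := by
    intro h0
    rw [h0, mul_zero] at hz
    exact hd0 (neg_eq_zero.mp hz.symm)
  unfold Pz
  rw [map_smul, map_add, map_smul, hJ.sq, smul_smul, smul_comm z, smul_add z, smul_smul z,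
    mul_inv_cancel₀ hz0, one_smul]
  have h1 : z⁻¹ * -(d : ℂ) = z := by
    rw [← hz]
    field_simp
  rw [h1, add_comm]

private lemma BetO_cPz {X : AbVar} {d : ℚ} {J : Module.End ℂ X.H1} (hJ : IsKs X d J)
    {c : X.H1 → X.H1} (hc : IsCc X c) (v : X.H1) (hv : X.IsBetti v) :
    c (Pz J (-zd d) v) = Pz J (zd d) v := by
  unfold Pz
  rw [hc.smul, hc.add, hc.smul, hc.betti v hv, hc.betti (J v) (hJ.endo.betti v hv), map_inv₀,
    map_neg, BetO_zdc, neg_neg]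
  have h1 : conj (1 / 2 : ℂ) = 1 / 2 := by
    rw [map_div₀, map_one, Complex.conj_ofNat]
  rw [h1]

section forms

variable {α β α' β' : Type} [Fintype α] [Fintype β] [Fintype α'] [Fintype β']
  [DecidableEq α] [DecidableEq β] [DecidableEq α'] [DecidableEq β']

private lemma BetO_E (y x : Ix α β Unit → ℂ) :
    (blg (fun p => sw y (p, ())) (fun p => conj (sw x (p, ())))).im = E y x := by
  unfold E H blg
  rw [Fintype.sum_prod_type, Fintype.sum_sum_type]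
  simp only [Finset.univ_unique, Finset.sum_singleton, PUnit.default_eq_unit, sw, Sum.elim_inl,
    Sum.elim_inr, Complex.conj_conj, Complex.sub_im, Complex.add_im, Complex.im_sum]
  rw [sub_eq_add_neg, ← Finset.sum_neg_distrib]
  congr 1
  refine Finset.sum_congr rfl (fun i _ => ?_)
  simp only [Complex.mul_im, Complex.conj_re, Complex.conj_im]
  ring

private lemma BetO_bls (r s : ℂ) (A : Matrix (α' ⊕ β') (α ⊕ β) ℂ) (P : α ⊕ β → ℂ)
    (Q : α' ⊕ β' → ℂ) :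
    blg (A.mulVec (r • P)) (s • Q) = r * s * blg (A.mulVec P) Q := by
  rw [Matrix.mulVec_smul]
  simp only [blg, Pi.smul_apply, smul_eq_mul, mul_sub, Finset.mul_sum]
  congr 1
  · exact Finset.sum_congr rfl fun i _ => by ring
  · exact Finset.sum_congr rfl fun i _ => by ring

private lemma BetO_acta (A : Matrix (α' ⊕ β') (α ⊕ β) ℂ) (x y : Ix α β Unit → ℂ) :
    actR A (x + y) = actR A x + actR A y := by
  unfold actR
  rw [← BetO_swa, BetO_swa x y]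
  congr 1
  funext p
  rw [Pi.add_apply, ← Finset.sum_add_distrib]
  exact Finset.sum_congr rfl fun q _ => by rw [Pi.add_apply]; ring

private lemma BetO_acts (A : Matrix (α' ⊕ β') (α ⊕ β) ℂ) (r : ℝ) (x : Ix α β Unit → ℂ) :
    actR A ((r : ℂ) • x) = (r : ℂ) • actR A x := by
  unfold actR
  rw [← BetO_sws, BetO_sws r x]
  congr 1
  funext p
  rw [Pi.smul_apply, smul_eq_mul, Finset.mul_sum]
  exact Finset.sum_congr rfl fun q _ => by rw [Pi.smul_apply, smul_eq_mul]; ring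

private lemma BetO_swact (A : Matrix (α' ⊕ β') (α ⊕ β) ℂ) (P : α ⊕ β → ℂ) :
    (fun p => sw (actR A (sw fun q : (α ⊕ β) × Unit => P q.1)) (p, ())) = A.mulVec P := by
  funext p
  unfold actR
  rw [BetO_sw]
  dsimp only
  rw [BetO_sw]
  rfl

end forms

/-! ## The values on the lattice -/

private lemma BetO_gen (X : AbVar) (d : ℚ) (J : Module.End ℂ X.H1) (k a b : ℕ)
    (h : 2 * k = a + b) (α₁ β₁ α₂ β₂ : Type) [Fintype α₁] [Fintype β₁] [Fintype α₂] [Fintype β₂]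
    [DecidableEq α₁] [DecidableEq β₁] [DecidableEq α₂] [DecidableEq β₂]
    (wx₁ : (Fin a → X.H1) → α₁ ⊕ β₁ → ℂ)
    (u₂ : α₂ ⊕ β₂ → Fin b → X.H1) (wx₂ wt₂ : (Fin b → X.H1) → α₂ ⊕ β₂ → ℂ) (γ : X.Class (2 * k))
    (A : Matrix (α₂ ⊕ β₂) (α₁ ⊕ β₁) ℂ) (hJ : IsKs X d J) (cc : X.H1 → X.H1) (hcc : IsCc X cc)
    (hEA : EA X d J b α₂ β₂ u₂ wx₂ wt₂) (hγ : X.IsRational k γ) (hA : Mt d J k a b h wx₁ wt₂ γ A)
    (l : Fin a → X.H1) (m : Fin b → X.H1) (hl : ∀ i, X.IsBetti (l i))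
    (hm : ∀ i, X.IsBetti (m i)) :
    ∃ c, BetO_K d c ∧ blg (A.mulVec (wx₁ fun i => Pz J (zd d) (l i)))
      (fun p => conj (wx₂ (fun i => Pz J (zd d) (m i)) p)) = (2 * Complex.I) ^ k * c := by
  have hd := hJ.pos
  have hz2 := BetO_zd2 d hd
  have hz2' : (-zd d) * (-zd d) = -(d : ℂ) := by
    rw [neg_mul_neg, hz2]
  have hJu : ∀ i, J (Pz J (zd d) (l i)) = zd d • Pz J (zd d) (l i) :=
    fun i => BetO_Pz hJ _ hz2 _
  have hJu' : ∀ i, J (Pz J (-zd d) (m i)) = (-zd d) • Pz J (-zd d) (m i) :=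
    fun i => BetO_Pz hJ _ hz2' _
  have hK1 : BetO_K d (1 / 2 : ℂ) := ⟨1 / 2, 0, by push_cast; ring⟩
  have hK2 : BetO_K d ((1 / 2 : ℂ) * (zd d)⁻¹) := BetO_Kh hd
  have hK3 : BetO_K d ((1 / 2 : ℂ) * (-zd d)⁻¹) := by
    obtain ⟨x, y, hxy⟩ := hK2
    refine ⟨-x, -y, ?_⟩
    rw [inv_neg, mul_neg, hxy]
    push_cast
    ring
  -- the value of the class
  have hval : ∃ c, BetO_K d c ∧ γ (Fin.append (fun i => Pz J (zd d) (l i))
      (fun i => Pz J (-zd d) (m i)) ∘ Fin.cast h) = (2 * Real.pi * Complex.I) ^ k * c := by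
    refine BetO_ml d hd ((2 * Real.pi * Complex.I) ^ k)
      (γ : MultilinearMap ℂ (fun _ : Fin (2 * k) => X.H1) ℂ) X.IsBetti ?_ Finset.univ
      _ (fun i hi => absurd (Finset.mem_univ _) hi) ?_
    · intro w hw
      obtain ⟨q, hq⟩ := hγ w hw
      exact ⟨q, ⟨q, 0, by push_cast; ring⟩, hq⟩
    · intro i _
      rw [Function.comp_apply]
      obtain ⟨j, hj⟩ : ∃ j, j = Fin.cast h i := ⟨_, rfl⟩
      rw [← hj]
      clear hj
      refine Fin.addCases (fun j => ?_) (fun j => ?_) j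
      · rw [Fin.append_left]
        refine ⟨_, _, l j, J (l j), hK1, hK2, hl j, hJ.endo.betti _ (hl j), ?_⟩
        unfold Pz
        rw [smul_add, smul_smul]
      · rw [Fin.append_right]
        refine ⟨_, _, m j, J (m j), hK1, hK3, hm j, hJ.endo.betti _ (hm j), ?_⟩
        unfold Pz
        rw [smul_add, smul_smul]
  obtain ⟨c, hc, hcv⟩ := hval
  have hM := hA _ _ hJu hJu'
  rw [hcv] at hM
  have hwT : wt₂ (fun i => Pz J (-zd d) (m i)) =
      fun p => conj (wx₂ (fun i => Pz J (zd d) (m i)) p) := by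
    funext p
    rw [hEA.cc cc hcc _ hJu' p]
    have e1 : (fun i => cc (Pz J (-zd d) (m i))) = fun i => Pz J (zd d) (m i) := by
      funext i
      exact BetO_cPz hJ hcc _ (hm i)
    rw [e1]
  rw [hwT] at hM
  refine ⟨c, hc, ?_⟩
  have hpi : ((Real.pi : ℂ)) ^ k ≠ 0 := pow_ne_zero _ (by exact_mod_cast Real.pi_ne_zero)
  apply mul_left_cancel₀ hpi
  rw [← hM, mul_pow, mul_pow, mul_pow]
  ring

theorem thm_BetO (h1 : St_Cc) : St_BetO := by
  intro X d J k a b h α₁ β₁ α₂ β₂ _ _ _ _ _ _ _ _ u₁ wx₁ wt₁ u₂ wx₂ wt₂ γ A L₁ L₂ χ₂ hk hJ hEA₁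
    hEA₂ hEB₁ hEB₂ hPL hγ hA y hy
  have hd : 0 < d := hJ.pos
  obtain ⟨cc, hcc⟩ := h1 X
  have hd4 : d4 d ≠ 0 := by
    have hdR : (0 : ℝ) < d := by exact_mod_cast hd
    unfold d4
    exact inv_ne_zero (Real.sqrt_pos.2 (Real.sqrt_pos.2 hdR)).ne'
  -- generators
  obtain ⟨G₁, hG₁⟩ : ∃ G : Set (Ix α₁ β₁ Unit → ℂ), G = {x : Ix α₁ β₁ Unit → ℂ |
    ∃ (l : Fin a → X.H1) (x' y' : ℚ), (∀ i, X.IsBetti (l i)) ∧
      x = sw fun p => (d4 d : ℂ) ^ ((a : ℤ) - 1) * ((x' : ℂ) + (y' : ℂ) * zd d) *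
        wx₁ (fun i => Pz J (zd d) (l i)) p.1} := ⟨_, rfl⟩
  obtain ⟨G₂, hG₂⟩ : ∃ G : Set (Ix α₂ β₂ Unit → ℂ), G = {x : Ix α₂ β₂ Unit → ℂ |
    ∃ (l : Fin b → X.H1) (x' y' : ℚ), (∀ i, X.IsBetti (l i)) ∧
      x = sw fun p => (d4 d : ℂ) ^ ((b : ℤ) - 1) * ((x' : ℂ) + (y' : ℂ) * zd d) *
        wx₂ (fun i => Pz J (zd d) (l i)) p.1} := ⟨_, rfl⟩
  have gen : ∀ x ∈ G₁, ∀ x' ∈ G₂, ∃ q : ℚ, E (actR A x) x' = q := by
    intro x hx x' hx'
    rw [hG₁] at hx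
    rw [hG₂] at hx'
    obtain ⟨l, a1, b1, hl, rfl⟩ := hx
    obtain ⟨l', a2, b2, hl', rfl⟩ := hx'
    obtain ⟨c, hc, hcv⟩ := BetO_gen X d J k a b h α₁ β₁ α₂ β₂ wx₁ u₂ wx₂ wt₂ γ A hJ cc hcc
      hEA₂ hγ hA l l' hl hl'
    obtain ⟨c1, hc1⟩ : ∃ c1 : ℂ, c1 = (a1 : ℂ) + (b1 : ℂ) * zd d := ⟨_, rfl⟩
    obtain ⟨c2, hc2⟩ : ∃ c2 : ℂ, c2 = (a2 : ℂ) + (b2 : ℂ) * zd d := ⟨_, rfl⟩
    rw [← hc1, ← hc2]
    obtain ⟨k', rfl⟩ : ∃ k', k = k' + 1 := ⟨k - 1, by omega⟩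
    have hcK : BetO_K d (c1 * conj c2 * c) :=
      BetO_Kmul hd (BetO_Kmul hd ⟨a1, b1, hc1⟩ (BetO_Kc ⟨a2, b2, hc2⟩)) hc
    obtain ⟨q, hq⟩ := BetO_rat d hd 1 k' _ hcK
    refine ⟨q, ?_⟩
    rw [← hq, ← BetO_E]
    have e1 : (fun p => sw (actR A (sw fun p : (α₁ ⊕ β₁) × Unit =>
        (d4 d : ℂ) ^ ((a : ℤ) - 1) * c1 * wx₁ (fun i => Pz J (zd d) (l i)) p.1)) (p, ())) =
        A.mulVec (((d4 d : ℂ) ^ ((a : ℤ) - 1) * c1) • wx₁ (fun i => Pz J (zd d) (l i))) := by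
      exact BetO_swact A (((d4 d : ℂ) ^ ((a : ℤ) - 1) * c1) • wx₁ (fun i => Pz J (zd d) (l i)))
    have e2 : (fun p => conj (sw (sw fun p : (α₂ ⊕ β₂) × Unit =>
        (d4 d : ℂ) ^ ((b : ℤ) - 1) * c2 * wx₂ (fun i => Pz J (zd d) (l' i)) p.1) (p, ()))) =
        ((d4 d : ℂ) ^ ((b : ℤ) - 1) * conj c2) •
          (fun p => conj (wx₂ (fun i => Pz J (zd d) (l' i)) p)) := by
      funext p
      rw [BetO_sw, Pi.smul_apply, smul_eq_mul, map_mul, map_mul, map_zpow₀, Complex.conj_ofReal]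
    rw [e1, e2, BetO_bls, hcv]
    have e3 : (d4 d : ℂ) ^ ((a : ℤ) - 1) * c1 * ((d4 d : ℂ) ^ ((b : ℤ) - 1) * conj c2) *
        ((2 * Complex.I) ^ (k' + 1) * c) =
        (((((1 : ℕ) : ℝ) * d4 d ^ k') * (((1 : ℕ) : ℝ) * d4 d ^ k') : ℝ) : ℂ) *
          ((2 * Complex.I) ^ (k' + 1) * (c1 * conj c2 * c)) := by
      have e4 : (d4 d : ℂ) ^ ((a : ℤ) - 1) * (d4 d : ℂ) ^ ((b : ℤ) - 1) =
          (d4 d : ℂ) ^ k' * (d4 d : ℂ) ^ k' := by
        have hd4' : (d4 d : ℂ) ≠ 0 := by exact_mod_cast hd4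
        rw [← zpow_add₀ hd4', ← zpow_natCast, ← zpow_add₀ hd4']
        have e5 : (a : ℤ) - 1 + ((b : ℤ) - 1) = (k' : ℤ) + k' := by
          omega
        rw [e5]
      push_cast
      linear_combination (c1 * conj c2 * ((2 * Complex.I) ^ (k' + 1) * c)) * e4
    rw [e3, Complex.im_ofReal_mul]
  -- the span
  have hE0l : ∀ x : Ix α₂ β₂ Unit → ℂ, E 0 x = 0 := by
    intro x
    simp [E, H]
  have hE0r : ∀ x : Ix α₂ β₂ Unit → ℂ, E x 0 = 0 := by
    intro x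
    simp [E, H]
  have hzE : ∀ (a : ℤ) (x x' : Ix α₂ β₂ Unit → ℂ), E x (a • x') = a * E x x' := by
    intro a x x'
    rw [BetO_zs, BetO_Er]
  have hzE' : ∀ (a : ℤ) (x x' : Ix α₂ β₂ Unit → ℂ), E (a • x) x' = a * E x x' := by
    intro a x x'
    rw [BetO_zs, BetO_El]
  have hza : ∀ (a : ℤ) (x : Ix α₁ β₁ Unit → ℂ), actR A (a • x) = a • actR A x := by
    intro a x
    rw [BetO_zs, BetO_acts, ← BetO_zs]
  have ha0 : actR A (0 : Ix α₁ β₁ Unit → ℂ) = 0 := by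
    have := hza 0 0
    rwa [zero_smul, zero_smul] at this
  have sp : ∀ x ∈ Submodule.span ℤ G₁, ∀ x' ∈ Submodule.span ℤ G₂,
      ∃ q : ℚ, E (actR A x) x' = q := by
    intro x hx
    induction hx using Submodule.span_induction with
    | mem x hx =>
      intro x' hx'
      induction hx' using Submodule.span_induction with
      | mem x' hx' => exact gen x hx x' hx'
      | zero => exact ⟨0, by rw [hE0r]; simp⟩
      | add a b _ _ ha hb =>
        obtain ⟨q, hq⟩ := ha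
        obtain ⟨q', hq'⟩ := hb
        exact ⟨q + q', by rw [GAM.E_add_right, hq, hq']; push_cast; ring⟩
      | smul c a _ ha =>
        obtain ⟨q, hq⟩ := ha
        exact ⟨c * q, by rw [hzE, hq]; push_cast; ring⟩
    | zero =>
      intro x' _
      exact ⟨0, by rw [ha0, hE0l]; simp⟩
    | add a b _ _ ha hb =>
      intro x' hx'
      obtain ⟨q, hq⟩ := ha x' hx'
      obtain ⟨q', hq'⟩ := hb x' hx'
      exact ⟨q + q', by rw [BetO_acta, GAM.E_add_left, hq, hq']; push_cast; ring⟩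
    | smul c a _ ha =>
      intro x' hx'
      obtain ⟨q, hq⟩ := ha x' hx'
      exact ⟨c * q, by rw [hza, hzE', hq]; push_cast; ring⟩
  obtain ⟨n₁, hn₁, hy₁⟩ := hEB₁.gen y hy
  rw [← hG₁] at hy₁
  have hn₁' : (n₁ : ℝ) ≠ 0 := Nat.cast_ne_zero.2 hn₁
  have rat : ∀ x ∈ L₂, ∃ q : ℚ, E (actR A y) x = q := by
    intro x hx
    obtain ⟨n₂, hn₂, hx₂⟩ := hEB₂.gen x hx
    rw [← hG₂] at hx₂
    have hn₂' : (n₂ : ℝ) ≠ 0 := Nat.cast_ne_zero.2 hn₂
    obtain ⟨q, hq⟩ := sp _ hy₁ _ hx₂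
    rw [hza, hzE, hzE'] at hq
    refine ⟨q / (n₁ * n₂), ?_⟩
    push_cast at hq ⊢
    rw [← hq]
    field_simp
  -- common denominator
  obtain ⟨bb, hb⟩ := hPL.basis
  have hbm : ∀ j, bb j ∈ L₂ := fun j => by
    rw [hb]
    exact Submodule.subset_span ⟨j, rfl⟩
  choose q hq using fun j => rat (bb j) (hbm j)
  refine ⟨∏ j, (q j).den, Finset.prod_ne_zero_iff.2 fun j _ => (q j).den_nz, ?_⟩
  apply hPL.self
  intro l hl
  rw [hb] at hl
  induction hl using Submodule.span_induction with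
  | mem x hx =>
    obtain ⟨j, rfl⟩ := hx
    rw [hzE', hq]
    obtain ⟨e, he⟩ : (q j).den ∣ ∏ j, (q j).den := Finset.dvd_prod_of_mem _ (Finset.mem_univ j)
    refine ⟨(q j).num * e, ?_⟩
    rw [he]
    have h6 : ((q j : ℚ) : ℝ) * ((q j).den : ℝ) = ((q j).num : ℝ) := by
      exact_mod_cast Rat.mul_den_eq_num (q j)
    push_cast
    linear_combination (e : ℝ) * h6
  | zero => exact ⟨0, by rw [hE0r]; simp⟩
  | add a c _ _ ha hc =>
    obtain ⟨r, hr⟩ := ha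
    obtain ⟨r', hr'⟩ := hc
    exact ⟨r + r', by rw [GAM.E_add_right, hr, hr']; push_cast; ring⟩
  | smul c a _ ha =>
    obtain ⟨r, hr⟩ := ha
    exact ⟨c * r, by rw [hzE, hr]; push_cast; ring⟩

end DWG
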