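import Pool.Agent.DWG.St

/-!
# DWG [BijT]: bijective twisted homomorphisms
-/

set_option autoImplicit false

namespace DWG

open scoped ComplexConjugate
open Module
open GAM (H E F pd pdl PLat IsTh OddTor IsDel Gro IsLat)
open PST DWC DWZ
open DWY (cx cy XX XT NS d4 qb)
open Pool.Agent.GPC (AbVar hermForm bilForm)
open Pool.Agent.Helper7 (pData)

private lemma BijT_zd2 (d : ℚ) (hd : 0 < d) : zd d * zd d = -(d : ℂ) := by
  unfold zd
  have h1 : ((Real.sqrt (d : ℝ) : ℝ) : ℂ) * ((Real.sqrt (d : ℝ) : ℝ) : ℂ) = (d : ℂ) := by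
    rw [← Complex.ofReal_mul, Real.mul_self_sqrt (by exact_mod_cast hd.le)]
    push_cast
    rfl
  have h2 : Complex.I * Complex.I = -1 := Complex.I_mul_I
  linear_combination Complex.I * Complex.I * h1 + (d : ℂ) * h2

private lemma BijT_log (δ : Derivation ℚ ℂ ℂ) (m : ℂ) (hm : m ≠ 0) (c : ℕ) :
    δ ((m ^ 2 / Real.pi) ^ c) / (m ^ 2 / Real.pi) ^ c = 2 * (c : ℂ) * tau m δ := by
  have hpi : (Real.pi : ℂ) ≠ 0 := by exact_mod_cast Real.pi_ne_zero
  have h0 : (m ^ 2 / Real.pi : ℂ) ≠ 0 := div_ne_zero (pow_ne_zero _ hm) hpi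
  have h1 : δ ((m ^ 2 / Real.pi : ℂ) * Real.pi) = δ (m * m) := by
    rw [div_mul_cancel₀ _ hpi, pow_two]
  rw [Derivation.leibniz, Derivation.leibniz, smul_eq_mul, smul_eq_mul, smul_eq_mul] at h1
  have h2 : δ (m ^ 2 / Real.pi : ℂ) = (m ^ 2 / Real.pi) * (2 * tau m δ) := by
    unfold tau
    have h3 : δ (m ^ 2 / Real.pi : ℂ) =
        (m * δ m + m * δ m - (m ^ 2 / Real.pi : ℂ) * δ Real.pi) / Real.pi := by
      rw [eq_div_iff hpi]
      linear_combination h1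
    rw [h3]
    field_simp
    ring
  rw [Derivation.leibniz_pow, smul_eq_mul, nsmul_eq_mul, h2]
  obtain ⟨y, hy⟩ : ∃ y : ℂ, y = m ^ 2 / Real.pi := ⟨_, rfl⟩
  rw [← hy] at h0 ⊢
  rcases c with _ | c
  · simp
  · rw [Nat.add_sub_cancel, pow_succ, div_eq_iff (mul_ne_zero (pow_ne_zero _ h0) h0)]
    ring

theorem thm_BijT (h1 : St_NTw) (h2 : St_DimK) : St_BijT := by
  intro d m hU Z Z' J J' c F hJ hJ' hc hT hF
  obtain ⟨δ, hδ⟩ := hU.ne
  have hz2 := BijT_zd2 d hJ.pos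
  have hpi : (Real.pi : ℂ) ≠ 0 := by exact_mod_cast Real.pi_ne_zero
  have hd0 : (d : ℂ) ≠ 0 := by exact_mod_cast hJ.pos.ne'
  have hz : zd d ≠ 0 := by
    intro h0
    rw [h0, zero_mul] at hz2
    exact hd0 (by linear_combination hz2)
  obtain ⟨μ, hμ⟩ : ∃ μ : ℂ, μ = (m ^ 2 / Real.pi) ^ c := ⟨_, rfl⟩
  have hμ0 : μ ≠ 0 := by
    rw [hμ]
    exact pow_ne_zero _ (div_ne_zero (pow_ne_zero _ hU.m0) hpi)
  have hlog : δ μ / μ = 2 * (c : ℂ) * tau m δ := by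
    rw [hμ]
    exact BijT_log δ m hU.m0 c
  rw [← hμ] at hT
  have hN := h1 Z Z' d J J' μ F hJ hJ' hμ0 hT δ
  -- dimensions
  let e : Z.H1 ≃ₗ[ℂ] Z'.H1 := LinearEquiv.ofBijective F hF
  have hfr : ∀ X : AbVar, finrank ℂ X.H1 = 2 * X.g := by
    intro X
    show finrank ℂ (Fin X.g ⊕ Fin X.g → ℂ) = 2 * X.g
    rw [finrank_fintype_fun_eq_card, Fintype.card_sum, Fintype.card_fin, two_mul]
  have hg : Z'.g = Z.g := by
    have h3 := LinearEquiv.finrank_eq e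
    rw [hfr, hfr] at h3
    omega
  -- traces
  have hconj : (pData Z').N δ * J' = e.conj ((pData Z).N δ * J) +
      (2 * (c : ℂ) * tau m δ * zd d) • (1 : Module.End ℂ Z'.H1) := by
    refine LinearMap.ext fun w => ?_
    obtain ⟨v, rfl⟩ := hF.2 w
    have h3 : e.symm (F v) = v := e.symm_apply_apply v
    have h4 : (e.conj ((pData Z).N δ * J)) (F v) = F ((pData Z).N δ (J v)) := by
      rw [LinearEquiv.conj_apply_apply, h3]
      rfl
    rw [LinearMap.add_apply, h4, LinearMap.smul_apply]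
    show (pData Z').N δ (J' (F v)) = F ((pData Z).N δ (J v)) +
      (2 * (c : ℂ) * tau m δ * zd d) • F v
    rw [← hT.comm, hN, hT.comm, hJ'.sq, smul_smul, hlog]
    congr 2
    rw [← hz2]
    field_simp
  have htr : LinearMap.trace ℂ Z'.H1 ((pData Z').N δ * J') =
      LinearMap.trace ℂ Z.H1 ((pData Z).N δ * J) +
        (2 * (c : ℂ) * tau m δ * zd d) * (2 * (Z.g : ℂ)) := by
    rw [hconj, map_add, LinearMap.trace_conj', map_smul, LinearMap.trace_one, hfr, hg,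
      smul_eq_mul]
    push_cast
    ring
  rw [hU.tr Z' J' hJ' δ, hU.tr Z J hJ δ] at htr
  obtain ⟨d1, -⟩ := h2 Z d J hJ
  obtain ⟨d2, -⟩ := h2 Z' d J' hJ'
  obtain ⟨p, hp⟩ : ∃ p, p = finrank ℂ (Z.filEigen J (-(zd d))) := ⟨_, rfl⟩
  obtain ⟨q, hq⟩ : ∃ q, q = finrank ℂ (Z.filEigen J (zd d)) := ⟨_, rfl⟩
  obtain ⟨p', hp'⟩ : ∃ p, p = finrank ℂ (Z'.filEigen J' (-(zd d))) := ⟨_, rfl⟩
  obtain ⟨q', hq'⟩ : ∃ q, q = finrank ℂ (Z'.filEigen J' (zd d)) := ⟨_, rfl⟩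
  rw [← hp, ← hq] at d1
  rw [← hp', ← hq'] at d2
  rw [← hp, ← hq, ← hp', ← hq'] at htr
  rw [← hp, ← hq']
  have h5 : (2 * zd d * tau m δ) * ((p' : ℂ) - q') =
      (2 * zd d * tau m δ) * (((p : ℂ) - q) + 2 * c * Z.g) := by
    linear_combination htr
  have h6 := mul_left_cancel₀ (mul_ne_zero (mul_ne_zero two_ne_zero hz) hδ) h5
  have h7 : (p' : ℂ) + q = p + q' + 2 * c * Z.g := by linear_combination h6
  have h8 : p' + q = p + q' + 2 * c * Z.g := by exact_mod_cast h7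
  rw [hg] at d2
  have h9 : p' = p + c * Z.g := by
    have h10 : 2 * c * Z.g = 2 * (c * Z.g) := by ring
    rw [h10] at h8
    omega
  have h10 : Z.g ≤ c * Z.g := Nat.le_mul_of_pos_left _ hc
  refine ⟨by omega, by omega, fun h2c => ?_⟩
  have h11 : 2 * Z.g ≤ c * Z.g := Nat.mul_le_mul_right _ h2c
  omega

end DWG
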