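import Pool.Agent.DWG.St

/-!
# DWG [Cc]: complex conjugation exists
-/

set_option autoImplicit false

namespace DWG

open scoped ComplexConjugate
open Module
open Pool.Agent.GPC (AbVar)
open Pool.Agent.Helper7 (exists_bettiBasis isBetti_iff)

theorem thm_Cc : St_Cc := by
  intro X
  obtain ⟨ι, fι, b, hb⟩ := exists_bettiBasis X
  let cc : X.H1 → X.H1 := fun v => ∑ i, conj (b.repr v i) • b i
  have hadd : ∀ v w, cc (v + w) = cc v + cc w := by
    intro v w
    show ∑ i, conj (b.repr (v + w) i) • b i = ∑ i, conj (b.repr v i) • b i +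
      ∑ i, conj (b.repr w i) • b i
    rw [← Finset.sum_add_distrib]
    refine Finset.sum_congr rfl fun i _ => ?_
    rw [map_add, Finsupp.add_apply, map_add, add_smul]
  have hsmul : ∀ (c : ℂ) v, cc (c • v) = conj c • cc v := by
    intro c v
    show ∑ i, conj (b.repr (c • v) i) • b i = conj c • ∑ i, conj (b.repr v i) • b i
    rw [Finset.smul_sum]
    refine Finset.sum_congr rfl fun i _ => ?_
    rw [map_smul, Finsupp.smul_apply, smul_eq_mul, map_mul, mul_smul]
  have hcb : ∀ i, cc (b i) = b i := by
    classical
    intro i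
    show ∑ j, conj (b.repr (b i) j) • b j = b i
    rw [Finset.sum_eq_single i]
    · rw [Basis.repr_self, Finsupp.single_eq_same, map_one, one_smul]
    · intro j _ hj
      rw [Basis.repr_self, Finsupp.single_eq_of_ne hj, map_zero, zero_smul]
    · intro h
      exact absurd (Finset.mem_univ i) h
  refine ⟨cc, hadd, hsmul, ?_⟩
  intro v hv
  rw [isBetti_iff, ← hb] at hv
  induction hv using Submodule.span_induction with
  | mem x hx =>
    obtain ⟨i, rfl⟩ := hx
    exact hcb i
  | zero =>
    have h1 := hsmul 0 0
    rw [zero_smul, map_zero, zero_smul] at h1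
    exact h1
  | add x y _ _ hx hy => rw [hadd, hx, hy]
  | smul a x _ hx =>
    have h1 : a • x = (a : ℂ) • x := by
      funext j
      simp [Algebra.smul_def]
    rw [h1, hsmul, hx, map_ratCast]

end DWG
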