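import Pool.Agent.DWG.St

/-!
# DWG [DRO]: the matrix of a class in the de Rham coordinates
-/

set_option autoImplicit false
set_option linter.unusedSectionVars false

namespace DWG

open scoped ComplexConjugate
open Module
open PST DWC DWZ
open Pool.Agent.GPC (AbVar)

section forms

variable {α β : Type} [Fintype α] [Fintype β] [DecidableEq α] [DecidableEq β]

private lemma DRO_J (P : α ⊕ β → ℂ) (M : Matrix (α ⊕ β) (α ⊕ β) ℂ) (q : α ⊕ β) :
    blg P ((Jm α β * M.transpose).mulVec (Pi.single q 1)) = M.mulVec P q := by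
  have h1 : ∀ s, (Jm α β * M.transpose).mulVec (Pi.single q 1) s =
      Sum.elim (fun i => M q (Sum.inl i)) (fun j => -M q (Sum.inr j)) s := by
    intro s
    rw [Matrix.mulVec_single_one, Matrix.col_apply, Matrix.mul_apply, Fintype.sum_sum_type]
    rcases s with s | s
    · simp [Jm, Matrix.fromBlocks, Matrix.one_apply, Matrix.transpose_apply]
    · simp [Jm, Matrix.fromBlocks, Matrix.one_apply, Matrix.transpose_apply]
  unfold blg
  rw [Matrix.mulVec, dotProduct, Fintype.sum_sum_type]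
  simp only [h1, Sum.elim_inl, Sum.elim_inr]
  rw [sub_eq_add_neg, ← Finset.sum_neg_distrib]
  congr 1
  · exact Finset.sum_congr rfl fun i _ => by ring
  · exact Finset.sum_congr rfl fun i _ => by ring

private lemma DRO_bl (r : ℂ) (P Q : α ⊕ β → ℂ) : blg P (r • Q) = r * blg P Q := by
  simp only [blg, Pi.smul_apply, smul_eq_mul, mul_sub, Finset.mul_sum]
  congr 1
  · exact Finset.sum_congr rfl fun i _ => by ring
  · exact Finset.sum_congr rfl fun i _ => by ring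

end forms

private lemma DRO_app {V : Type} {n a b : ℕ} (h : n = a + b) (P : V → Prop) (x : Fin a → V)
    (y : Fin b → V) (hx : ∀ i, P (x i)) (hy : ∀ i, P (y i)) (r : Fin n) :
    P ((Fin.append x y ∘ Fin.cast h) r) := by
  rw [Function.comp_apply]
  obtain ⟨j, hj⟩ : ∃ j, j = Fin.cast h r := ⟨_, rfl⟩
  rw [← hj]
  clear hj
  refine Fin.addCases (fun j => ?_) (fun j => ?_) j
  · rw [Fin.append_left]
    exact hx j
  · rw [Fin.append_right]
    exact hy j

theorem thm_DRO : St_DRO := by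
  intro X d J m k a b h α₁ β₁ α₂ β₂ _ _ _ _ _ _ _ _ wx₁ wt₁ wx₂ wt₂ γ A D₁ D₂ hm h₁ h₂ hγ hA
  have hpi : (Real.pi : ℂ) ≠ 0 := by exact_mod_cast Real.pi_ne_zero
  obtain ⟨t, ht⟩ : ∃ t : ℂ, t = (Real.pi : ℂ) ^ ((b : ℤ) - k) * m ^ ((a : ℤ) - b) := ⟨_, rfl⟩
  have ht0 : t ≠ 0 := by
    rw [ht]
    exact mul_ne_zero (zpow_ne_zero _ hpi) (zpow_ne_zero _ hm)
  have hu : IsUnit D₂.det := isUnit_iff_ne_zero.mpr h₂.det
  refine ⟨t⁻¹ • (D₂⁻¹ * (A * D₁)), ?_, ?_⟩
  · intro q p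
    obtain ⟨w, hw1, hw2, hw3⟩ := h₁.dx p
    obtain ⟨w', hw1', hw2', hw3'⟩ := h₂.dt q
    have h5 := hγ (Fin.append w w' ∘ Fin.cast h) (DRO_app h (fun v => X.IsDeRham v) w w' hw1 hw1')
    rw [hA w w' hw2 hw2', hw3, hw3', Matrix.mulVec_smul, DRO_bl, DRO_J, Matrix.mulVec_smul,
      Matrix.mulVec_mulVec, Matrix.mulVec_mulVec, Matrix.mulVec_single_one, Pi.smul_apply,
      Matrix.col_apply, smul_eq_mul] at h5
    have h6 : (t⁻¹ • (D₂⁻¹ * (A * D₁))) q p =
        (Real.pi : ℂ) ^ k * (((Real.pi : ℂ) ^ b)⁻¹ * m ^ ((b : ℤ) - 1) *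
          (m ^ (1 - (a : ℤ)) * (D₂⁻¹ * (A * D₁)) q p)) := by
      have h7 : t⁻¹ = (Real.pi : ℂ) ^ k * (((Real.pi : ℂ) ^ b)⁻¹) *
          (m ^ ((b : ℤ) - 1) * m ^ (1 - (a : ℤ))) := by
        rw [ht, mul_inv, ← zpow_neg, ← zpow_neg, ← zpow_add₀ hm, ← zpow_natCast, ← zpow_natCast,
          ← zpow_neg, ← zpow_add₀ hpi]
        have h8 : -((b : ℤ) - k) = (k : ℤ) + -(b : ℤ) := by ring
        have h9 : -((a : ℤ) - b) = (b : ℤ) - 1 + (1 - (a : ℤ)) := by ring
        rw [h8, h9]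
      rw [Matrix.smul_apply, smul_eq_mul, h7]
      ring
    rw [h6, ← Matrix.mul_assoc]
    exact h5
  · rw [← ht, Matrix.mul_smul, smul_smul, mul_inv_cancel₀ ht0, one_smul, ← Matrix.mul_assoc,
      Matrix.mul_nonsing_inv _ hu, Matrix.one_mul]

end DWG
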