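import Pool.Agent.DWG.St
import Pool.Agent.Helper7.AFT.Bal

/-!
# DWG, [DimK]: dimensions
-/

set_option autoImplicit false

namespace DWG

open scoped ComplexConjugate
open Module
open GAM (H E F pd pdl PLat IsTh OddTor IsDel Gro IsLat)
open PST DWC DWZ
open DWY (cx cy XX XT NS d4 qb)
open Pool.Agent.GPC (AbVar hermForm bilForm)

private theorem DimK_sq {d : ℚ} (hd : 0 < d) : zd d ^ 2 = -(d : ℂ) := by
  have h1 : (0 : ℝ) ≤ (d : ℝ) := by exact_mod_cast hd.le
  have h2 : ((Real.sqrt (d : ℝ) : ℝ) : ℂ) ^ 2 = (d : ℂ) := by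
    rw [← Complex.ofReal_pow, Real.sq_sqrt h1]
    simp
  unfold zd
  rw [mul_pow, h2, Complex.I_sq]
  ring

private theorem DimK_ne {d : ℚ} (hd : 0 < d) : zd d ≠ 0 := by
  intro h
  have h1 := DimK_sq hd
  rw [h, zero_pow two_ne_zero] at h1
  have h2 : (d : ℂ) = 0 := by
    rw [← neg_eq_zero]
    exact h1.symm
  have h3 : d = 0 := by exact_mod_cast h2
  exact hd.ne' h3

private theorem DimK_mem {X : AbVar} (J : Module.End ℂ X.H1) (z : ℂ) (v : X.H1) :
    v ∈ LinearMap.ker (J - z • (1 : Module.End ℂ X.H1)) ↔ J v = z • v := by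
  rw [LinearMap.mem_ker, LinearMap.sub_apply, LinearMap.smul_apply, Module.End.one_apply,
    sub_eq_zero]

/-- the pairing of the eigenspaces is not degenerate -/
private theorem DimK_le (X : AbVar) (J : Module.End ℂ X.H1)
    (hadj : ∀ u v, X.pol (J u) v = - X.pol u (J v)) (z : ℂ) (hz : z ≠ 0)
    (hdec : ∀ v : X.H1, ∃ a b : X.H1, J a = z • a ∧ J b = (-z) • b ∧ a + b = v) :
    finrank ℂ (LinearMap.ker (J - z • (1 : Module.End ℂ X.H1))) ≤
      finrank ℂ (LinearMap.ker (J - (-z) • (1 : Module.End ℂ X.H1))) := by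
  let K := LinearMap.ker (J - z • (1 : Module.End ℂ X.H1))
  let K' := LinearMap.ker (J - (-z) • (1 : Module.End ℂ X.H1))
  let f : K →ₗ[ℂ] Module.Dual ℂ K' :=
    ((LinearMap.domRestrict₁₂ (X.polForm) K K') : K →ₗ[ℂ] K' →ₗ[ℂ] ℂ)
  have hf : Function.Injective f := by
    rw [← LinearMap.ker_eq_bot, LinearMap.ker_eq_bot']
    intro v hv
    apply Subtype.ext
    apply Pool.Agent.Helper7.polForm_nondeg (A := X)
    intro w
    obtain ⟨a, b, ha, hb, hab⟩ := hdec w
    have h1 : X.polForm v.1 b = 0 := by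
      have h2 := LinearMap.congr_fun hv ⟨b, (DimK_mem J _ b).2 hb⟩
      exact h2
    have h2 : X.polForm v.1 a = 0 := by
      have h3 := hadj v.1 a
      rw [(DimK_mem J z v.1).1 v.2, ha, Pool.Agent.Helper7.pol_eq, Pool.Agent.Helper7.pol_eq,
        map_smul, LinearMap.smul_apply, map_smul, smul_eq_mul] at h3
      have h4 : (2 * z) * X.polForm v.1 a = 0 := by linear_combination h3
      exact (mul_eq_zero.mp h4).resolve_left (mul_ne_zero two_ne_zero hz)
    rw [← hab, map_add, h1, h2, add_zero]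
  calc finrank ℂ K ≤ finrank ℂ (Module.Dual ℂ K') := LinearMap.finrank_le_finrank_of_injective hf
    _ = finrank ℂ K' := Subspace.dual_finrank_eq

/-- [DimK] -/
theorem thm_DimK : St_DimK := by
  intro X d J hJ
  have hz0 : zd d ≠ 0 := DimK_ne hJ.pos
  have hz2 : zd d ^ 2 = -(d : ℂ) := DimK_sq hJ.pos
  refine ⟨?_, ?_⟩
  · have h1 := Pool.Agent.Helper7.AFT.finrank_add (X := X) (J := J) (d := d) hJ.endo hJ.sq hz0 hz2
    rw [add_comm]
    exact h1
  · have hdec : ∀ (z : ℂ), z ≠ 0 → z ^ 2 = -(d : ℂ) → ∀ v : X.H1, ∃ a b : X.H1,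
        J a = z • a ∧ J b = (-z) • b ∧ a + b = v := by
      intro z h1 h2 v
      have h3 : (-z) ^ 2 = -(d : ℂ) := by rw [neg_sq, h2]
      exact ⟨_, _, Pool.Agent.Helper7.AFT.pz_eigen hJ.endo.linear hJ.sq h2 v,
        Pool.Agent.Helper7.AFT.pz_eigen hJ.endo.linear hJ.sq h3 v,
        Pool.Agent.Helper7.AFT.pz_add h1 v⟩
    have hle := DimK_le X J hJ.adj (zd d) hz0 (hdec _ hz0 hz2)
    have hge := DimK_le X J hJ.adj (-zd d) (neg_ne_zero.mpr hz0)
      (hdec _ (neg_ne_zero.mpr hz0) (by rw [neg_sq, hz2]))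
    rw [neg_neg] at hge
    have hsup : LinearMap.ker (J - zd d • (1 : Module.End ℂ X.H1)) ⊔
        LinearMap.ker (J - (-zd d) • (1 : Module.End ℂ X.H1)) = ⊤ := by
      rw [eq_top_iff]
      intro v _
      obtain ⟨a, b, ha, hb, hab⟩ := hdec _ hz0 hz2 v
      rw [← hab]
      exact Submodule.add_mem_sup ((DimK_mem J _ a).2 ha) ((DimK_mem J _ b).2 hb)
    have hinf : LinearMap.ker (J - zd d • (1 : Module.End ℂ X.H1)) ⊓
        LinearMap.ker (J - (-zd d) • (1 : Module.End ℂ X.H1)) = ⊥ := by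
      rw [eq_bot_iff]
      intro v hv
      have h1 := (DimK_mem J _ v).1 hv.1
      have h2 := (DimK_mem J _ v).1 hv.2
      rw [h1] at h2
      have h3 : (2 * zd d) • v = 0 := by
        have h4 : (zd d - -zd d) • v = 0 := by rw [sub_smul, h2, sub_self]
        have h5 : zd d - -zd d = 2 * zd d := by ring
        rwa [h5] at h4
      exact (smul_eq_zero.mp h3).resolve_left (mul_ne_zero two_ne_zero hz0)
    have hsum := Submodule.finrank_sup_add_finrank_inf_eq
      (LinearMap.ker (J - zd d • (1 : Module.End ℂ X.H1)))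
      (LinearMap.ker (J - (-zd d) • (1 : Module.End ℂ X.H1)))
    have hg : finrank ℂ X.H1 = 2 * X.g := by
      rw [Module.finrank_fintype_fun_eq_card]
      simp [two_mul]
    rw [hsup, hinf, finrank_top, finrank_bot, add_zero, hg] at hsum
    omega

end DWG
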