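import Pool.Agent.DWG.St

/-!
# DWG, [EndT]: composites of twisted homomorphisms
-/

set_option autoImplicit false

namespace DWG

open scoped ComplexConjugate
open Module
open GAM (H E F pd pdl PLat IsTh OddTor IsDel Gro IsLat)
open PST DWC DWZ
open DWY (cx cy XX XT NS d4 qb)
open Pool.Agent.GPC (AbVar hermForm bilForm)

private theorem EndT_sq {d : ℚ} (hd : 0 < d) : zd d * zd d = -(d : ℂ) := by
  have h1 : (0 : ℝ) ≤ (d : ℝ) := by exact_mod_cast hd.le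
  have h2 : ((Real.sqrt (d : ℝ) : ℝ) : ℂ) * ((Real.sqrt (d : ℝ) : ℝ) : ℂ) = (d : ℂ) := by
    rw [← Complex.ofReal_mul, Real.mul_self_sqrt h1]
    simp
  unfold zd
  calc (Real.sqrt (d : ℝ) : ℂ) * Complex.I * ((Real.sqrt (d : ℝ) : ℂ) * Complex.I)
      = ((Real.sqrt (d : ℝ) : ℂ) * (Real.sqrt (d : ℝ) : ℂ)) * (Complex.I * Complex.I) := by ring
    _ = -(d : ℂ) := by rw [h2, Complex.I_mul_I]; ring

private theorem EndT_ne {d : ℚ} (hd : 0 < d) : zd d ≠ 0 := by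
  intro h
  have h1 := EndT_sq hd
  rw [h, mul_zero] at h1
  have h2 : (d : ℂ) = 0 := by
    rw [← neg_eq_zero]
    exact h1.symm
  have h3 : d = 0 := by exact_mod_cast h2
  exact hd.ne' h3

private theorem EndT_alg {d : ℚ} (hd : 0 < d) : IsAlgebraic ℚ (zd d) := by
  have h1 : IsAlgebraic ℚ (zd d ^ 2) := by
    rw [pow_two, EndT_sq hd]
    exact (isAlgebraic_ratCast ℚ d).neg
  exact h1.of_pow two_pos

/-- the de Rham eigenvector of `z` -/
private theorem EndT_eig (Y : AbVar) (J : Module.End ℂ Y.H1) (z : ℂ) (hz : IsAlgebraic ℚ z)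
    (hz0 : z ≠ 0) (hJ : ∀ v, Y.IsDeRham v → Y.IsDeRham (J v))
    (hsq : ∀ v, J (J v) = (z * z) • v) (v : Y.H1) (hv : Y.IsDeRham v) :
    Y.IsDeRham ((1 / 2 : ℂ) • (v + z⁻¹ • J v)) ∧
      J ((1 / 2 : ℂ) • (v + z⁻¹ • J v)) = z • ((1 / 2 : ℂ) • (v + z⁻¹ • J v)) := by
  refine ⟨?_, ?_⟩
  · intro j
    have h2 : IsAlgebraic ℚ (1 / 2 : ℂ) := by
      have h3 := isAlgebraic_ratCast (A := ℂ) ℚ (1 / 2 : ℚ)
      have h4 : ((1 / 2 : ℚ) : ℂ) = 1 / 2 := by push_cast; ring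
      rwa [h4] at h3
    show IsAlgebraic ℚ ((1 / 2 : ℂ) * (v j + z⁻¹ * J v j))
    exact h2.mul ((hv j).add (hz.inv.mul (hJ v hv j)))
  · rw [map_smul, map_add, map_smul, hsq, smul_smul, smul_smul, smul_add, smul_add, smul_smul,
      smul_smul]
    have h3 : z⁻¹ * (z * z) = z := by rw [← mul_assoc, inv_mul_cancel₀ hz0, one_mul]
    have h4 : z * (1 / 2) * z⁻¹ = 1 / 2 := by
      rw [mul_comm z, mul_assoc, mul_inv_cancel₀ hz0, mul_one]
    rw [h3, h4, mul_comm z, add_comm]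

/-- the composite on a de Rham eigenvector -/
private theorem EndT_comp (Y Y' : AbVar) (J : Module.End ℂ Y.H1) (J' : Module.End ℂ Y'.H1)
    (F : Y.H1 →ₗ[ℂ] Y'.H1) (G : Y'.H1 →ₗ[ℂ] Y.H1) (z c : ℂ) (hc : c ≠ 0)
    (hcomm : ∀ v, F (J v) = J' (F v))
    (hF : ∀ v, Y.IsDeRham v → J v = z • v → ∃ w, Y'.IsDeRham w ∧ F v = c • w)
    (hG : ∀ v, Y'.IsDeRham v → J' v = z • v → ∃ w, Y.IsDeRham w ∧ G v = c⁻¹ • w)
    (v : Y.H1) (hv : Y.IsDeRham v) (hJ : J v = z • v) : Y.IsDeRham (G (F v)) := by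
  obtain ⟨w, hw1, hw2⟩ := hF v hv hJ
  have h1 : w = c⁻¹ • F v := by rw [hw2, smul_smul, inv_mul_cancel₀ hc, one_smul]
  have h2 : J' w = z • w := by
    rw [h1, map_smul, ← hcomm, hJ, map_smul, smul_comm]
  obtain ⟨u, hu1, hu2⟩ := hG w hw1 h2
  have h3 : G (F v) = u := by
    rw [hw2, map_smul, hu2, smul_smul, mul_inv_cancel₀ hc, one_smul]
  rw [h3]
  exact hu1

/-- [EndT] -/
theorem thm_EndT : St_EndT := by
  intro Y Y' d J J' μ F G hJ hJ' hμ hF hG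
  have hz0 : zd d ≠ 0 := EndT_ne hJ.pos
  have hza : IsAlgebraic ℚ (zd d) := EndT_alg hJ.pos
  have hsq : ∀ v, J (J v) = (zd d * zd d) • v := by
    intro v
    rw [EndT_sq hJ.pos]
    exact hJ.sq v
  have hsq' : ∀ v, J (J v) = (-zd d * -zd d) • v := by
    intro v
    rw [neg_mul_neg]
    exact hsq v
  have hB : ∀ v, Y.IsBetti v → Y.IsBetti (G (F v)) := fun v hv => hG.betti _ (hF.betti v hv)
  have hD : ∀ v, Y.IsDeRham v → Y.IsDeRham (G (F v)) := by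
    intro v hv
    obtain ⟨h1, h2⟩ := EndT_eig Y J (zd d) hza hz0 hJ.endo.deRham hsq v hv
    obtain ⟨h3, h4⟩ := EndT_eig Y J (-zd d) hza.neg (neg_ne_zero.mpr hz0) hJ.endo.deRham hsq' v hv
    have h5 := EndT_comp Y Y' J J' F G (zd d) μ hμ hF.comm hF.dp hG.dp _ h1 h2
    have h6 := EndT_comp Y Y' J J' F G (-zd d) μ⁻¹ (inv_ne_zero hμ) hF.comm hF.dm hG.dm _ h3 h4
    have h7 : v = (1 / 2 : ℂ) • (v + (zd d)⁻¹ • J v) + (1 / 2 : ℂ) • (v + (-zd d)⁻¹ • J v) := by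
      rw [inv_neg, neg_smul, ← smul_add]
      have h8 : v + (zd d)⁻¹ • J v + (v + -((zd d)⁻¹ • J v)) = (2 : ℂ) • v := by
        rw [two_smul]; abel
      rw [h8, smul_smul]
      norm_num
    rw [h7, map_add, map_add]
    intro j
    exact (h5 j).add (h6 j)
  have hlin : IsLinearMap ℂ fun v => G (F v) :=
    ⟨fun u v => by rw [map_add, map_add], fun c v => by rw [map_smul, map_smul]⟩
  exact ⟨hlin, hB, hD, Pool.Agent.GPC.hom_fil Y Y _ hlin hB hD⟩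

end DWG
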