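import Pool.Agent.DWG.St
import Pool.Agent.GAM.ThEx

/-!
# DWG [ExE]: the elliptic curve of the exterior power of degree `0`
-/

set_option autoImplicit false

namespace DWG

open scoped ComplexConjugate
open Module
open GAM (H E F pd pdl PLat IsTh OddTor IsDel Gro IsLat)
open PST DWC DWZ
open DWY (cx cy XX XT NS d4 qb)
open Pool.Agent.GPC (AbVar hermForm bilForm)

theorem ExE_d4 (d : ℚ) (hd : 0 < d) :
    0 < (d4 d)⁻¹ ∧ (d : ℝ) = (d4 d)⁻¹ ^ 2 * Real.sqrt (d : ℝ) := by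
  have h0 : (0 : ℝ) < (d : ℝ) := by exact_mod_cast hd
  have h1 : 0 < Real.sqrt (d : ℝ) := Real.sqrt_pos.mpr h0
  have h2 : 0 < Real.sqrt (Real.sqrt (d : ℝ)) := Real.sqrt_pos.mpr h1
  unfold d4
  rw [inv_inv]
  refine ⟨h2, ?_⟩
  rw [Real.sq_sqrt h1.le, Real.mul_self_sqrt h0.le]

theorem thm_ExE (h1 : DWC.St_LatK) (h2 : DWY.St_NSY) : St_ExE := by
  intro d A m hE
  have hd := hE.pos
  obtain ⟨hr, hrq⟩ := ExE_d4 d hd
  have hIR : IsR (α := Unit) (β := Empty) d (fun _ => (d4 d)⁻¹) (fun _ => d) :=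
    ⟨hd, fun _ => hr, fun _ => hrq⟩
  obtain ⟨L, χ, N, hP, hLK, hN, hKL⟩ := h1 Unit Empty d (fun _ => (d4 d)⁻¹) (fun _ => d) hIR
  obtain ⟨θ, hT, hne⟩ := GAM.thm_ThEx (Ix Unit Empty Unit) L χ hP
  have hk := hE.hat Unit Empty (fun _ => (d4 d)⁻¹) (fun _ => d) L χ θ hIR ⟨Sum.inl ()⟩ hP hLK hT
    hne
  have hm := hE.m0
  have hinv : (m⁻¹ • (1 : Matrix Unit Unit ℂ))⁻¹ = m • 1 := by
    apply Matrix.inv_eq_left_inv
    rw [Matrix.smul_mul, Matrix.one_mul, smul_smul, mul_inv_cancel₀ hm, one_smul]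
  have hop : ∀ δ : Derivation ℚ ℂ ℂ, ∃ k : ℂ, HasHat δ L θ k
      ((m⁻¹ • (1 : Matrix Unit Unit ℂ)) * (m⁻¹ • (1 : Matrix Unit Unit ℂ))⁻¹.map δ)
      ((1 : Matrix Empty Empty ℂ) * (1 : Matrix Empty Empty ℂ)⁻¹.map δ)
      (-(((m⁻¹ • (1 : Matrix Unit Unit ℂ))⁻¹).transpose *
        (0 : Matrix Unit Empty ℂ).map δ * (1 : Matrix Empty Empty ℂ)⁻¹)) := by
    intro δ
    obtain ⟨k, hk⟩ := hk δ
    refine ⟨k, ?_⟩
    have e1 : (m⁻¹ • (1 : Matrix Unit Unit ℂ)) * (m⁻¹ • (1 : Matrix Unit Unit ℂ))⁻¹.map δ =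
        A δ • (1 : Matrix Unit Unit ℂ) := by
      rw [hinv]
      ext i j
      have h3 : (m⁻¹ • (1 : Matrix Unit Unit ℂ)) = fun _ _ => m⁻¹ := by
        ext i j
        simp
      rw [h3]
      have h4 : (m • (1 : Matrix Unit Unit ℂ)).map δ = fun _ _ => A δ * m := by
        ext i j
        rw [Matrix.map_apply, Matrix.smul_apply, Matrix.one_apply_eq, smul_eq_mul, mul_one,
          hE.del δ]
      rw [h4, Matrix.smul_apply, Matrix.one_apply_eq, Matrix.mul_apply]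
      rw [Fintype.sum_unique, smul_eq_mul, mul_one]
      field_simp
    have e2 : (1 : Matrix Empty Empty ℂ) * (1 : Matrix Empty Empty ℂ)⁻¹.map δ =
        A δ • (1 : Matrix Empty Empty ℂ) := by
      ext i
      exact i.elim
    have e3 : (-(((m⁻¹ • (1 : Matrix Unit Unit ℂ))⁻¹).transpose *
        (0 : Matrix Unit Empty ℂ).map δ * (1 : Matrix Empty Empty ℂ)⁻¹)) = 0 := by
      ext i j
      exact j.elim
    rw [e1, e2, e3]
    exact hk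
  obtain ⟨Y, T, S, Ta, Tb, hNY, -⟩ := h2 d Unit Empty (m⁻¹ • (1 : Matrix Unit Unit ℂ)) 1 0 N L
    χ θ hd hN hKL hP hT hne (by
      rw [Matrix.det_smul, Matrix.det_one, mul_one]
      exact pow_ne_zero _ (inv_ne_zero hm)) (by
      rw [Matrix.det_one]
      exact one_ne_zero) hop
  refine ⟨Y, T, S, Ta, Tb, L, hNY, ⟨χ, hP⟩, ?_⟩
  intro y hy
  obtain ⟨a, b, hab⟩ := (hLK y).1 hy
  refine ⟨1, a (Sum.inl ()), b (Sum.inl ()) / d, one_ne_zero, ?_⟩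
  rw [Nat.cast_one, one_smul, hab]
  funext p
  obtain ⟨p1, p2⟩ := p
  rcases p1 with p1 | p1
  · show (((d4 d)⁻¹ : ℝ) : ℂ) * ((a (Sum.inl p1) : ℂ) + (b (Sum.inl p1) : ℂ) / (d : ℂ) * zd d) = _
    push_cast
    rfl
  · exact p1.elim

end DWG
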