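import Pool.Agent.DWG.St
import Pool.Agent.PST.UGr
import Pool.Agent.PST.MapE
import Pool.Agent.GAM.ThEx

/-!
# DWG [ExiG]: existence of the abelian varieties of the exterior powers
-/

set_option autoImplicit false

namespace DWG

open scoped ComplexConjugate
open Module
open GAM (H E F pd pdl PLat IsTh OddTor IsDel Gro IsLat)
open PST DWC DWZ
open DWY (cx cy XX XT NS d4 qb)
open Pool.Agent.GPC (AbVar hermForm bilForm)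
open Pool.Agent.Helper7 (pData)

/-- transport of a lattice, with its stability -/
private theorem ExiG_tr {α β : Type} [Fintype α] [Fintype β] [DecidableEq α] [DecidableEq β]
    (d : ℚ) (N : ℕ) (g : Matrix (α ⊕ β) (α ⊕ β) ℂ) (L₁ : Submodule ℤ (Ix α β Unit → ℂ))
    (χ₁ : (Ix α β Unit → ℂ) → ℂ) (hg : IsU g) (hP₁ : PLat L₁ χ₁) (hK₁ : KL d N L₁) :
    ∃ (L₀ : Submodule ℤ (Ix α β Unit → ℂ)) (χ₀ : (Ix α β Unit → ℂ) → ℂ), PLat L₀ χ₀ ∧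
      Maps g L₁ L₀ χ₁ χ₀ ∧ KL d N L₀ := by
  obtain ⟨-, u2, u3, -, -, u6, -⟩ := thm_UGr α β Unit
  obtain ⟨hiU, hig, hgi, -, -⟩ := u6 g hg
  obtain ⟨gi, hgie⟩ : ∃ gi, gi = Jm α β * g.conjTranspose * Jm α β := ⟨_, rfl⟩
  rw [← hgie] at hiU hig hgi
  have e1 : ∀ x : Ix α β Unit → ℂ, act gi (act g x) = x := fun x => by rw [← u2, hig, u3]
  obtain ⟨L₀, χ₀, hP₀, hM'⟩ := thm_MapE thm_UGr α β Unit gi L₁ χ₁ hiU hP₁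
  refine ⟨L₀, χ₀, hP₀, ⟨hg, fun x => ?_, fun l hl => ?_⟩, ?_⟩
  · rw [hM'.lat (act g x), e1]
  · have h11 : act g l ∈ L₀ := by rw [hM'.lat, e1]; exact hl
    have h12 := hM'.chi (act g l) h11
    rw [e1] at h12
    exact h12.symm
  · intro l hl
    rw [hM'.lat] at hl ⊢
    have h11 : act gi (act (kap α β d N) l) = act (kap α β d N) (act gi l) := by
      rw [← u2, ← u2, kap, Matrix.mul_smul, Matrix.smul_mul, Matrix.mul_one, Matrix.one_mul]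
    rw [h11]
    exact hK₁ _ hl

theorem thm_ExiG (h1 : St_OpN) (h2 : DWZ.St_OpZ) (h3 : DWZ.St_NFN) (h4 : DWC.St_LatK)
    (h5 : DWZ.St_CmsK) (h6 : DWZ.St_CmsG) (h7 : DWZ.St_UEz) (h8 : DWY.St_NSX) (h9 : DWZ.St_HatZ)
    (h10 : DWY.St_NSY) (h11 : DWY.St_XXJ) : St_ExiG := by
  intro X d J N A m hEM hX hJ hz
  have hd := hJ.pos
  obtain ⟨T, S, Tp, Tm, Ta, g, r, q, hN⟩ := h3 X d J N hX hJ hz
  obtain ⟨L₁, χ₁, N₁, hP₁, hL₁, hN₁, hK₁⟩ := h4 (Fin N) Unit d r q hN.isR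
  obtain ⟨L₀, χ₀, hP₀, hM₀, hK₀⟩ := ExiG_tr d N₁ g L₁ χ₁ hN.uni hP₁ hK₁
  obtain ⟨κ, hNX⟩ := h8 X d J (Fin N) Unit T S Tp Tm Ta g r q L₀ L₁ N₁ hJ hN hL₁ hM₀.lat
    hN₁ hK₀
  refine ⟨T, S, Tp, Tm, Ta, S * blk Unit Tp Tm, κ, L₀, fun k hk => ?_⟩
  obtain ⟨hR', hC₁⟩ := h5 N k d r q hN.isR
  obtain ⟨LY₁, χY₁, N₂, hPY₁, hLY₁, hN₂, hKY₁⟩ := h4 (PI N (k + 1)) (PI N k) d (rY N k d r)
    (qY N k d q) hR'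
  obtain ⟨n, M, hCms₁⟩ := hC₁ L₁ LY₁ hL₁ hLY₁
  obtain ⟨LY₀, χY₀, hPY₀, hMY₀, hKY₀⟩ := ExiG_tr d N₂ (ek N k g) LY₁ χY₁ (h7 N k g hN.uni)
    hPY₁ hKY₁
  have hCms : Cms N k ((n : ℝ) * d4 d ^ k) M L₀ LY₀ :=
    h6 N k _ M g L₁ L₀ LY₁ LY₀ hN.uni hM₀.lat hMY₀.lat hCms₁
  obtain ⟨θY₀, hTY₀, hzY₀⟩ := GAM.thm_ThEx (IY N k) LY₀ χY₀ hPY₀
  have hop : ∀ δ : Derivation ℚ ℂ ℂ, ∃ k' : ℂ, HasHat δ LY₀ θY₀ k'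
      (DWZ.TpY N k m Tp * (DWZ.TpY N k m Tp)⁻¹.map δ)
      (DWZ.TmY N k m Tp Tm * (DWZ.TmY N k m Tp Tm)⁻¹.map δ)
      (-(((DWZ.TpY N k m Tp)⁻¹).transpose * (rm N k fun i => κ i ()).map δ *
        (DWZ.TmY N k m Tp Tm)⁻¹)) := by
    rcases Nat.lt_or_ge k N with hlt | hge
    · exact h2 N k hlt X d T S Tp Tm Ta (S * blk Unit Tp Tm) κ g r q L₀ L₁ χ₀ χ₁ LY₀ LY₁ χY₀
        χY₁ θY₀ A m hNX hN.isR hP₀ hP₁ hPY₀ hPY₁ hL₁ hLY₁ hM₀ hMY₀ hN.det hTY₀ hzY₀ hEM.m0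
        hEM.del hEM.hat
    · have hkN : k = N := le_antisymm hk hge
      subst hkN
      exact h1 k X d T S Tp Tm Ta (S * blk Unit Tp Tm) κ g r q L₀ L₁ χ₀ χ₁ LY₀ LY₁ χY₀
        χY₁ θY₀ A m hEM hNX hN.isR hP₀ hP₁ hPY₀ hPY₁ hL₁ hLY₁ hM₀ hMY₀ hN.det hTY₀ hzY₀
  obtain ⟨hdp, hdm, -, -, -⟩ := h9 N k 0 Tp Tm κ m 0 hN.dp hN.dm hEM.m0 (by
    rw [Derivation.coe_zero, Pi.zero_apply, zero_mul])
  obtain ⟨Y, T', S', Ta', Tb', hNY, hgY⟩ := h10 d (PI N (k + 1)) (PI N k) (TpY N k m Tp)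
    (TmY N k m Tp Tm) (rm N k fun i => κ i ()) N₂ LY₀ χY₀ θY₀ hd hN₂ hKY₀ hPY₀ hTY₀ hzY₀ hdp
    hdm hop
  obtain ⟨hX3, hX4⟩ := h11 X d (Fin N) Unit T S Tp Tm Ta _ κ L₀ J hNX
    hP₀.basis hJ.endo hN.jj
  exact ⟨n, M, Y, T', S', Ta', Tb', LY₀,
    { kN := hk
      m0 := hEM.m0
      nx := hNX
      ny := hNY
      cms := hCms
      pl := ⟨χ₀, hP₀⟩
      plY := ⟨χY₀, hPY₀⟩
      jx := hX3
      jt := hX4 }⟩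

end DWG
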