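import Pool.Agent.DWG.St

/-!
# DWG: reduction to eigenvectors
-/

set_option autoImplicit false

namespace DWG

open scoped ComplexConjugate
open Module
open PST DWC DWZ
open Pool.Agent.GPC (AbVar hermForm bilForm)

/-- A linearly independent family has at most `finrank W` members in `W`. -/
theorem Exp_card {V : Type} [AddCommGroup V] [Module ℂ V] [FiniteDimensional ℂ V] {n : ℕ}
    {w : Fin n → V} (hw : LinearIndependent ℂ w) (W : Submodule ℂ V) (t : Finset (Fin n))
    (ht : ∀ i ∈ t, w i ∈ W) : t.card ≤ finrank ℂ W := by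
  have h1 : LinearIndependent ℂ fun i : t => (⟨w i, ht i i.2⟩ : W) := by
    refine LinearIndependent.of_comp W.subtype ?_
    exact hw.comp (fun i : t => (i : Fin n)) Subtype.val_injective
  have h2 := h1.fintype_card_le_finrank
  rwa [Fintype.card_coe] at h2

/-- Sorting the variables. -/
theorem Exp_sort {V : Type} [AddCommGroup V] [Module ℂ V] {n a b : ℕ} (h : n = b + a)
    (γ : V [⋀^Fin n]→ₗ[ℂ] ℂ) (w : Fin n → V) (e : Fin b ⊕ Fin a ≃ Fin n)
    (h0 : γ (Fin.append (fun i => w (e (Sum.inl i))) (fun i => w (e (Sum.inr i))) ∘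
      Fin.cast h) = 0) : γ w = 0 := by
  set σ : Equiv.Perm (Fin n) := (finCongr h).trans (finSumFinEquiv.symm.trans e) with hσ
  have e1 : Fin.append (fun i => w (e (Sum.inl i))) (fun i => w (e (Sum.inr i))) ∘
      Fin.cast h = w ∘ σ := by
    funext i
    have e2 : σ i = e (finSumFinEquiv.symm (Fin.cast h i)) := rfl
    change Fin.append _ _ (Fin.cast h i) = w (σ i)
    rw [e2]
    induction Fin.cast h i using Fin.addCases with
    | left j => rw [Fin.append_left, finSumFinEquiv_symm_apply_castAdd]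
    | right j => rw [Fin.append_right, finSumFinEquiv_symm_apply_natAdd]
  rw [e1, γ.map_perm] at h0
  rcases Int.units_eq_one_or (Equiv.Perm.sign σ) with h2 | h2
  · rw [h2, one_smul] at h0
    exact h0
  · rw [h2, Units.neg_smul, one_smul, neg_eq_zero] at h0
    exact h0

theorem Exp_zd_sq {d : ℚ} (hd : 0 < d) : zd d ^ 2 = -(d : ℂ) := by
  have h0 : (0 : ℝ) ≤ (d : ℝ) := by exact_mod_cast hd.le
  have h1 : ((Real.sqrt (d : ℝ) : ℝ) : ℂ) ^ 2 = (d : ℂ) := by
    rw [← Complex.ofReal_pow, Real.sq_sqrt h0]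
    push_cast
    rfl
  unfold zd
  rw [mul_pow, h1, Complex.I_sq]
  ring

theorem Exp_zd_ne {d : ℚ} (hd : 0 < d) : zd d ≠ 0 := by
  intro h
  have h1 := Exp_zd_sq hd
  rw [h, zero_pow two_ne_zero, eq_comm, neg_eq_zero] at h1
  have h2 : d = 0 := by exact_mod_cast h1
  exact hd.ne' h2

theorem Exp_fil_mem {X : AbVar} {J : X.H1 → X.H1} {z : ℂ} {v : X.H1} (h : J v = z • v)
    (h' : X.IsFil v) : v ∈ X.filEigen J z := Submodule.subset_span ⟨h, h'⟩

/-- The combinatorial core. -/
theorem Exp_core (h1 : St_DimK) (X : AbVar) (d : ℚ) (J : Module.End ℂ X.H1) (N k : ℕ)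
    (γ : X.Class (2 * k)) (hg : X.g = N + 1) (hJ : IsKs X d J)
    (hf : finrank ℂ (X.filEigen J (zd d)) = 1)
    (hyp : ∀ (b a : ℕ) (h' : 2 * k = b + a) (u : Fin b → X.H1) (v : Fin a → X.H1),
      (∀ i, J (u i) = zd d • u i) → (∀ i, J (v i) = (-zd d) • v i) →
      ((a = b ∧ 1 ≤ k ∧ k ≤ N ∧ (∃ i, X.IsFil (u i)) ∧ ∀ i, X.IsFil (v i)) ∨
        (b < a ∧ a ≤ N + 1 ∧ ((∀ i, X.IsFil (v i)) ∨ (∃ i, X.IsFil (u i)) ∨ b + 4 ≤ a))) →
      γ (Fin.append u v ∘ Fin.cast h') = 0) (w : Fin (2 * k) → X.H1) (s s₀ : Finset (Fin (2 * k)))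
    (hs : ∀ i ∈ s, J (w i) = zd d • w i) (hs' : ∀ i ∉ s, J (w i) = (-zd d) • w i)
    (hk : k < s₀.card) (hfil : ∀ i ∈ s₀, X.IsFil (w i)) : γ w = 0 := by
  by_contra hne
  have hli : LinearIndependent ℂ w := by
    by_contra hcon
    exact hne (γ.map_linearDependent w hcon)
  obtain ⟨hd1, hd2⟩ := h1 X d J hJ
  have hz2 := Exp_zd_sq hJ.pos
  have hz0 : zd d ≠ 0 := Exp_zd_ne hJ.pos
  -- the eigenspace for `-z`
  have hker : finrank ℂ (LinearMap.ker (J + zd d • (1 : Module.End ℂ X.H1))) = N + 1 := by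
    have hc : IsCompl (LinearMap.ker (J - zd d • (1 : Module.End ℂ X.H1)))
        (LinearMap.ker (J + zd d • (1 : Module.End ℂ X.H1))) := by
      constructor
      · rw [Submodule.disjoint_def]
        intro x hx hx'
        rw [LinearMap.mem_ker] at hx hx'
        have e1 : J x - zd d • x = 0 := hx
        have e2 : J x + zd d • x = 0 := hx'
        have e3 : (2 * zd d) • x = 0 := by
          have : (2 * zd d) • x = (J x + zd d • x) - (J x - zd d • x) := by
            rw [mul_smul, two_smul]; abel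
          rw [this, e1, e2, sub_zero]
        rcases smul_eq_zero.1 e3 with h | h
        · exact absurd h (mul_ne_zero two_ne_zero hz0)
        · exact h
      · rw [codisjoint_iff, Submodule.eq_top_iff']
        intro x
        rw [Submodule.mem_sup]
        have hJJ := hJ.sq x
        rw [← hz2] at hJJ
        refine ⟨(2 * zd d)⁻¹ • (zd d • x + J x), ?_, (2 * zd d)⁻¹ • (zd d • x - J x), ?_, ?_⟩
        · rw [LinearMap.mem_ker]
          change J ((2 * zd d)⁻¹ • (zd d • x + J x)) - zd d • ((2 * zd d)⁻¹ • (zd d • x + J x)) = 0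
          rw [map_smul, map_add, map_smul, hJJ, smul_comm (zd d), ← smul_sub, smul_add, smul_smul,
            ← pow_two]
          have : zd d • J x + zd d ^ 2 • x - (zd d ^ 2 • x + zd d • J x) = 0 := by abel
          rw [this, smul_zero]
        · rw [LinearMap.mem_ker]
          change J ((2 * zd d)⁻¹ • (zd d • x - J x)) + zd d • ((2 * zd d)⁻¹ • (zd d • x - J x)) = 0
          rw [map_smul, map_sub, map_smul, hJJ, smul_comm (zd d), ← smul_add, smul_sub, smul_smul,
            ← pow_two]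
          have : zd d • J x - zd d ^ 2 • x + (zd d ^ 2 • x - zd d • J x) = 0 := by abel
          rw [this, smul_zero]
        · rw [← smul_add]
          have : zd d • x + J x + (zd d • x - J x) = (2 * zd d) • x := by
            rw [mul_smul, two_smul]; abel
          rw [this, smul_smul, inv_mul_cancel₀ (mul_ne_zero two_ne_zero hz0), one_smul]
    have e1 := Submodule.finrank_add_eq_of_isCompl hc
    have e2 : finrank ℂ X.H1 = X.g + X.g := by
      rw [Module.finrank_fintype_fun_eq_card, Fintype.card_sum, Fintype.card_fin]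
    rw [e2, hd2] at e1
    omega
  -- the cardinalities
  have c1 : (s ∩ s₀).card ≤ 1 := by
    rw [← hf]
    refine Exp_card hli _ _ fun i hi => ?_
    rw [Finset.mem_inter] at hi
    exact Exp_fil_mem (hs i hi.1) (hfil i hi.2)
  have c2 : sᶜ.card ≤ N + 1 := by
    rw [← hker]
    refine Exp_card hli _ _ fun i hi => ?_
    rw [Finset.mem_compl] at hi
    rw [LinearMap.mem_ker]
    change J (w i) + zd d • w i = 0
    rw [hs' i hi, neg_smul, neg_add_cancel]
  have c3 : (sᶜ ∩ s₀).card ≤ N := by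
    have h3 : finrank ℂ (X.filEigen J (-(zd d))) = N := by omega
    rw [← h3]
    refine Exp_card hli _ _ fun i hi => ?_
    rw [Finset.mem_inter, Finset.mem_compl] at hi
    exact Exp_fil_mem (hs' i hi.1) (hfil i hi.2)
  have c4 : (s ∩ s₀).card + (sᶜ ∩ s₀).card = s₀.card := by
    have e1 : s ∩ s₀ = s₀ ∩ s := Finset.inter_comm _ _
    have e2 : sᶜ ∩ s₀ = s₀ \ s := by
      ext i
      simp only [Finset.mem_inter, Finset.mem_compl, Finset.mem_sdiff]
      tauto
    rw [e1, e2]
    exact Finset.card_inter_add_card_sdiff s₀ s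
  have c5 : s.card + sᶜ.card = 2 * k := by
    rw [Finset.card_add_card_compl, Fintype.card_fin]
  have c7 : s₀.card ≤ 2 * k := by
    have := Finset.card_le_univ s₀
    rwa [Fintype.card_fin] at this
  have c6 : (sᶜ ∩ s₀).card ≤ sᶜ.card := Finset.card_le_card Finset.inter_subset_left
  -- sorting
  set e := finSumEquivOfFinset (s := s) rfl rfl with he
  have hsl : ∀ i, e (Sum.inl i) ∈ s := by
    intro i
    rw [he, finSumEquivOfFinset_inl]
    exact Finset.orderEmbOfFin_mem _ _ _
  have hsr : ∀ i, e (Sum.inr i) ∈ sᶜ := by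
    intro i
    rw [he, finSumEquivOfFinset_inr]
    exact Finset.orderEmbOfFin_mem _ _ _
  have hex : (s ∩ s₀).Nonempty → ∃ i, X.IsFil (w (e (Sum.inl i))) := by
    rintro ⟨x, hx⟩
    rw [Finset.mem_inter] at hx
    obtain ⟨y, rfl⟩ := e.surjective x
    cases y with
    | inl i => exact ⟨i, hfil _ hx.2⟩
    | inr i => exact absurd hx.1 (Finset.mem_compl.1 (hsr i))
  have hall : (sᶜ ∩ s₀).card = sᶜ.card → ∀ i, X.IsFil (w (e (Sum.inr i))) := by
    intro hc i
    have e1 : sᶜ ∩ s₀ = sᶜ := Finset.eq_of_subset_of_card_le Finset.inter_subset_left hc.ge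
    have e2 : e (Sum.inr i) ∈ sᶜ ∩ s₀ := by
      rw [e1]
      exact hsr i
    exact hfil _ (Finset.mem_inter.1 e2).2
  refine hne (Exp_sort c5.symm γ w e (hyp _ _ c5.symm _ _ (fun i => hs _ (hsl i))
    (fun i => hs' _ (Finset.mem_compl.1 (hsr i))) ?_))
  rcases Nat.lt_or_ge k sᶜ.card with hlt | hge
  · right
    refine ⟨by omega, c2, ?_⟩
    rcases Nat.lt_or_ge (k + 1) sᶜ.card with h3 | h3
    · right; right; omega
    · rcases Nat.eq_zero_or_pos (s ∩ s₀).card with h4 | h4
      · left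
        exact hall (by omega)
      · right; left
        exact hex (Finset.card_pos.1 h4)
  · left
    refine ⟨by omega, by omega, by omega, hex (Finset.card_pos.1 (by omega)), hall (by omega)⟩

theorem thm_Exp (h1 : St_DimK) : St_Exp := by
  intro X d J N k γ hg hJ hf hyp v hv
  obtain ⟨s₀, hs₀, hfil⟩ := hv
  have hz2 := Exp_zd_sq hJ.pos
  have hz0 : zd d ≠ 0 := Exp_zd_ne hJ.pos
  have hJJ : ∀ x, J (J x) = zd d ^ 2 • x := fun x => by rw [hJ.sq x, hz2]
  have e1 : v = (fun r => (2 * zd d)⁻¹ • (zd d • v r + J (v r))) +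
      (fun r => (2 * zd d)⁻¹ • (zd d • v r - J (v r))) := by
    funext r
    rw [Pi.add_apply, ← smul_add]
    have : zd d • v r + J (v r) + (zd d • v r - J (v r)) = (2 * zd d) • v r := by
      rw [mul_smul, two_smul]; abel
    rw [this, smul_smul, inv_mul_cancel₀ (mul_ne_zero two_ne_zero hz0), one_smul]
  have e2 : γ v = ∑ s : Finset (Fin (2 * k)), γ (s.piecewise
      (fun r => (2 * zd d)⁻¹ • (zd d • v r + J (v r)))
      (fun r => (2 * zd d)⁻¹ • (zd d • v r - J (v r)))) := by
    have e3 := γ.toMultilinearMap.map_add_univ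
      (fun r => (2 * zd d)⁻¹ • (zd d • v r + J (v r)))
      (fun r => (2 * zd d)⁻¹ • (zd d • v r - J (v r)))
    rw [← e1] at e3
    exact e3
  rw [e2]
  refine Finset.sum_eq_zero fun s _ => ?_
  refine Exp_core h1 X d J N k γ hg hJ hf hyp _ s s₀ ?_ ?_ hs₀ ?_
  · intro i hi
    rw [Finset.piecewise_eq_of_mem _ _ _ hi]
    rw [map_smul, map_add, map_smul, hJJ, smul_comm (zd d) (2 * zd d)⁻¹, smul_add (zd d),
      smul_smul (zd d) (zd d), ← pow_two, add_comm]
  · intro i hi
    rw [Finset.piecewise_eq_of_notMem _ _ _ hi]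
    rw [map_smul, map_sub, map_smul, hJJ, smul_comm (-zd d) (2 * zd d)⁻¹, neg_smul,
      smul_sub (zd d), smul_smul (zd d) (zd d), ← pow_two, neg_sub]
  · intro i hi
    have hv := hfil i hi
    have hJv := hJ.endo.hodge _ hv
    by_cases his : i ∈ s
    · rw [Finset.piecewise_eq_of_mem _ _ _ his]
      intro a
      have a1 := hv a
      have a2 := hJv a
      simp only [Pi.smul_apply, Pi.add_apply, a1, a2, smul_zero, add_zero]
    · rw [Finset.piecewise_eq_of_notMem _ _ _ his]
      intro a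
      have a1 := hv a
      have a2 := hJv a
      simp only [Pi.smul_apply, Pi.sub_apply, a1, a2, smul_zero, sub_zero]

end DWG
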