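import Pool.Agent.DWG.St

/-!
# DWG, FGm: from matrices to twisted homomorphisms
-/

set_option autoImplicit false

namespace DWG

open scoped ComplexConjugate
open Module
open PST DWC DWZ
open DWY (cx cy XX XT NS d4 qb)
open Pool.Agent.GPC (AbVar hermForm bilForm)

section mats

variable {a b : Type} [Fintype a] [Fintype b] [DecidableEq a] [DecidableEq b]

private theorem FGm_bl (P : Matrix a a ℂ) (Q : Matrix b b ℂ) (ζ : Ix a b Unit → ℂ) :
    (∀ i, (blk Unit P Q).mulVec ζ (Sum.inl i, ()) =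
      P.mulVec (fun i' => ζ (Sum.inl i', ())) i) ∧
    ∀ j, (blk Unit P Q).mulVec ζ (Sum.inr j, ()) =
      Q.mulVec (fun j' => ζ (Sum.inr j', ())) j := by
  constructor
  · intro i
    simp [Matrix.mulVec, dotProduct, blk, Fintype.sum_prod_type, Fintype.sum_sum_type]
  · intro i
    simp [Matrix.mulVec, dotProduct, blk, Fintype.sum_prod_type, Fintype.sum_sum_type]

private theorem FGm_blt (P : Matrix a a ℂ) (Q : Matrix b b ℂ) (ζ : Ix a b Unit → ℂ) :
    (∀ i, (blk Unit P Q).transpose.mulVec ζ (Sum.inl i, ()) =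
      P.transpose.mulVec (fun i' => ζ (Sum.inl i', ())) i) ∧
    ∀ j, (blk Unit P Q).transpose.mulVec ζ (Sum.inr j, ()) =
      Q.transpose.mulVec (fun j' => ζ (Sum.inr j', ())) j := by
  constructor
  · intro i
    simp [Matrix.mulVec, dotProduct, blk, Fintype.sum_prod_type, Fintype.sum_sum_type]
  · intro i
    simp [Matrix.mulVec, dotProduct, blk, Fintype.sum_prod_type, Fintype.sum_sum_type]

private theorem FGm_qb (K : Matrix a b ℂ) (ζ : Ix a b Unit → ℂ) :
    (∀ i, (qb K).mulVec ζ (Sum.inl i, ()) =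
      K.mulVec (fun i' => ζ (Sum.inr i', ())) i) ∧
    ∀ j, (qb K).mulVec ζ (Sum.inr j, ()) =
      K.transpose.mulVec (fun j' => ζ (Sum.inl j', ())) j := by
  constructor
  · intro i
    simp [Matrix.mulVec, dotProduct, qb, Fintype.sum_prod_type, Fintype.sum_sum_type]
  · intro i
    simp [Matrix.mulVec, dotProduct, qb, Fintype.sum_prod_type, Fintype.sum_sum_type]

/-- The de Rham coordinates of the eigenspace of `-z`. -/
private noncomputable def FGm_E (Tp : Matrix a a ℂ) (Tm : Matrix b b ℂ) (K : Matrix a b ℂ) :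
    Matrix (a ⊕ b) (a ⊕ b) ℂ :=
  Matrix.fromBlocks ((Real.pi : ℂ)⁻¹ • (Tp⁻¹).transpose) 0 0 Tm *
    Matrix.fromBlocks 1 (-K) 0 1

private theorem FGm_JJ : Jm a b * Jm a b = 1 := by
  unfold Jm
  rw [Matrix.fromBlocks_multiply]
  simp

private theorem FGm_JT : (Jm a b).transpose = Jm a b := by
  unfold Jm
  rw [Matrix.fromBlocks_transpose]
  simp

private theorem FGm_Jc : (Jm a b).map conj = Jm a b := by
  ext p q
  unfold Jm
  rcases p with p | p <;> rcases q with q | q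
  · simp [Matrix.one_apply, apply_ite]
  · simp
  · simp
  · simp [Matrix.one_apply, apply_ite]

private theorem FGm_DE (Tp : Matrix a a ℂ) (Tm : Matrix b b ℂ) (K : Matrix a b ℂ)
    (h1 : Tp.det ≠ 0) (h0 : Tm.det ≠ 0) :
    (Dz Tp Tm K).transpose * Jm a b * FGm_E Tp Tm K = (Real.pi : ℂ)⁻¹ • Jm a b := by
  have e1 : Tp.transpose * (Tp⁻¹).transpose = 1 := by
    rw [← Matrix.transpose_mul, Matrix.nonsing_inv_mul _ (isUnit_iff_ne_zero.mpr h1),
      Matrix.transpose_one]
  have e0 : Tm⁻¹ * Tm = 1 := Matrix.nonsing_inv_mul _ (isUnit_iff_ne_zero.mpr h0)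
  have f1 : (Dz Tp Tm K).transpose = Matrix.fromBlocks 1 (-K) 0 1 *
      Matrix.fromBlocks Tp.transpose 0 0 ((Real.pi : ℂ)⁻¹ • Tm⁻¹) := by
    unfold Dz
    rw [Matrix.transpose_mul, Matrix.fromBlocks_transpose, Matrix.fromBlocks_transpose]
    simp only [Matrix.transpose_zero, Matrix.transpose_neg, Matrix.transpose_transpose,
      Matrix.transpose_one, Matrix.transpose_smul]
  have f2 : Matrix.fromBlocks Tp.transpose 0 0 ((Real.pi : ℂ)⁻¹ • Tm⁻¹) * Jm a b *
      Matrix.fromBlocks ((Real.pi : ℂ)⁻¹ • (Tp⁻¹).transpose) 0 0 Tm =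
      (Real.pi : ℂ)⁻¹ • Jm a b := by
    unfold Jm
    simp only [Matrix.fromBlocks_multiply, Matrix.mul_zero,
      Matrix.zero_mul, add_zero, zero_add, Matrix.mul_one, Matrix.mul_smul, e1,
      Matrix.mul_neg, Matrix.neg_mul, Matrix.smul_mul, e0, Matrix.fromBlocks_smul, smul_zero,
      smul_neg, neg_zero]
  have f3 : Matrix.fromBlocks 1 (-K) 0 1 * Jm a b * Matrix.fromBlocks 1 (-K) 0 1 = Jm a b := by
    unfold Jm
    simp only [Matrix.fromBlocks_multiply, Matrix.mul_zero,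
      Matrix.zero_mul, add_zero, zero_add, Matrix.mul_one, Matrix.one_mul,
      Matrix.mul_neg, Matrix.neg_mul, neg_neg, neg_add_cancel, neg_zero]
  rw [f1]
  unfold FGm_E
  calc Matrix.fromBlocks 1 (-K) 0 1 *
        Matrix.fromBlocks Tp.transpose 0 0 ((Real.pi : ℂ)⁻¹ • Tm⁻¹) * Jm a b *
        (Matrix.fromBlocks ((Real.pi : ℂ)⁻¹ • (Tp⁻¹).transpose) 0 0 Tm *
          Matrix.fromBlocks 1 (-K) 0 1)
      = Matrix.fromBlocks 1 (-K) 0 1 *
        (Matrix.fromBlocks Tp.transpose 0 0 ((Real.pi : ℂ)⁻¹ • Tm⁻¹) * Jm a b *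
        Matrix.fromBlocks ((Real.pi : ℂ)⁻¹ • (Tp⁻¹).transpose) 0 0 Tm) *
          Matrix.fromBlocks 1 (-K) 0 1 := by simp only [Matrix.mul_assoc]
    _ = (Real.pi : ℂ)⁻¹ • (Matrix.fromBlocks 1 (-K) 0 1 * Jm a b *
          Matrix.fromBlocks 1 (-K) 0 1) := by
        rw [f2, Matrix.mul_smul, Matrix.smul_mul]
    _ = _ := by rw [f3]

private theorem FGm_Dv (Tp : Matrix a a ℂ) (Tm : Matrix b b ℂ) (K : Matrix a b ℂ)
    (u : a ⊕ b → ℂ) :
    (∀ i, (Dz Tp Tm K).mulVec u (Sum.inl i) = Tp.mulVec (fun i' => u (Sum.inl i')) i) ∧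
    ∀ j, (Dz Tp Tm K).mulVec u (Sum.inr j) = (Real.pi : ℂ)⁻¹ *
      (Tm⁻¹).transpose.mulVec (fun j' => u (Sum.inr j') -
      K.transpose.mulVec (fun i' => u (Sum.inl i')) j') j := by
  unfold Dz
  rw [← Matrix.mulVec_mulVec, Matrix.fromBlocks_mulVec, Matrix.fromBlocks_mulVec]
  constructor
  · intro i
    simp only [Sum.elim_inl, Pi.add_apply, Matrix.zero_mulVec, Pi.zero_apply, add_zero]
    congr 1
    funext i'
    simp only [Function.comp_apply, Sum.elim_inl, Matrix.one_mulVec, Pi.add_apply,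
      Matrix.zero_mulVec, Pi.zero_apply, add_zero]
  · intro j
    simp only [Sum.elim_inr, Pi.add_apply, Matrix.zero_mulVec, Pi.zero_apply, zero_add,
      Matrix.smul_mulVec, Pi.smul_apply, smul_eq_mul]
    congr 2
    funext j'
    simp only [Function.comp_apply, Sum.elim_inr, Matrix.one_mulVec, Pi.add_apply,
      Matrix.neg_mulVec, Pi.neg_apply]
    rw [add_comm, ← sub_eq_add_neg]
    rfl

private theorem FGm_Ev (Tp : Matrix a a ℂ) (Tm : Matrix b b ℂ) (K : Matrix a b ℂ)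
    (u : a ⊕ b → ℂ) :
    (∀ i, (FGm_E Tp Tm K).mulVec u (Sum.inl i) = (Real.pi : ℂ)⁻¹ * (Tp⁻¹).transpose.mulVec
      (fun i' => u (Sum.inl i') - K.mulVec (fun j' => u (Sum.inr j')) i') i) ∧
    ∀ j, (FGm_E Tp Tm K).mulVec u (Sum.inr j) = Tm.mulVec (fun j' => u (Sum.inr j')) j := by
  unfold FGm_E
  rw [← Matrix.mulVec_mulVec, Matrix.fromBlocks_mulVec, Matrix.fromBlocks_mulVec]
  constructor
  · intro i
    simp only [Sum.elim_inl, Pi.add_apply, Matrix.zero_mulVec, Pi.zero_apply, add_zero,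
      Matrix.smul_mulVec, Pi.smul_apply, smul_eq_mul]
    congr 2
    funext i'
    simp only [Function.comp_apply, Sum.elim_inl, Matrix.one_mulVec, Pi.add_apply,
      Matrix.neg_mulVec, Pi.neg_apply]
    rw [← sub_eq_add_neg]
    rfl
  · intro j
    simp only [Sum.elim_inr, Pi.add_apply, Matrix.zero_mulVec, Pi.zero_apply, zero_add]
    congr 1
    funext j'
    simp only [Function.comp_apply, Sum.elim_inr, Matrix.one_mulVec, Pi.add_apply,
      Matrix.zero_mulVec, Pi.zero_apply, zero_add]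

end mats

section two

variable {a b a' b' : Type} [Fintype a] [Fintype b] [DecidableEq a] [DecidableEq b]
  [Fintype a'] [Fintype b'] [DecidableEq a'] [DecidableEq b']

private theorem FGm_com (D E : Matrix (a ⊕ b) (a ⊕ b) ℂ) (D' E' : Matrix (a' ⊕ b') (a' ⊕ b') ℂ)
    (B B'' : Matrix (a ⊕ b) (a' ⊕ b') ℂ) (t c : ℂ) (ht : t ≠ 0)
    (h : D.transpose * Jm a b * E = t • Jm a b)
    (h' : D'.transpose * Jm a' b' * E' = t • Jm a' b') (hB : B * D' = c • (D * B'')) :
    (Jm a' b' * B.transpose * Jm a b) * E = c • (E' * (Jm a' b' * B''.transpose * Jm a b)) := by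
  have h1 : D.transpose * (t⁻¹ • (Jm a b * E * Jm a b)) = 1 := by
    rw [Matrix.mul_smul, ← Matrix.mul_assoc, ← Matrix.mul_assoc, h, Matrix.smul_mul, FGm_JJ,
      smul_smul, inv_mul_cancel₀ ht, one_smul]
  have h1' : D'.transpose * (t⁻¹ • (Jm a' b' * E' * Jm a' b')) = 1 := by
    rw [Matrix.mul_smul, ← Matrix.mul_assoc, ← Matrix.mul_assoc, h', Matrix.smul_mul, FGm_JJ,
      smul_smul, inv_mul_cancel₀ ht, one_smul]
  have h2' : (t⁻¹ • (Jm a' b' * E' * Jm a' b')) * D'.transpose = 1 := mul_eq_one_comm.mp h1'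
  have h3 : D'.transpose * B.transpose = c • (B''.transpose * D.transpose) := by
    rw [← Matrix.transpose_mul, hB, Matrix.transpose_smul, Matrix.transpose_mul]
  have h40 : ∀ (P : Matrix (a ⊕ b) (a ⊕ b) ℂ) (P' : Matrix (a' ⊕ b') (a' ⊕ b') ℂ),
      D.transpose * P = 1 → P' * D'.transpose = 1 →
      B.transpose * P = c • (P' * B''.transpose) := by
    intro P P' g1 g2
    calc B.transpose * P = (P' * D'.transpose) * (B.transpose * P) := by
          rw [g2, Matrix.one_mul]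
      _ = P' * ((D'.transpose * B.transpose) * P) := by
          simp only [Matrix.mul_assoc]
      _ = P' * (c • (B''.transpose * (D.transpose * P))) := by
          rw [h3, Matrix.smul_mul, Matrix.mul_assoc]
      _ = _ := by rw [g1, Matrix.mul_one, Matrix.mul_smul]
  have h4 : B.transpose * (t⁻¹ • (Jm a b * E * Jm a b)) =
      c • ((t⁻¹ • (Jm a' b' * E' * Jm a' b')) * B''.transpose) := h40 _ _ h1 h2'
  have h5 : B.transpose * (Jm a b * E * Jm a b) =
      c • ((Jm a' b' * E' * Jm a' b') * B''.transpose) := by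
    have h6 : t • (B.transpose * (t⁻¹ • (Jm a b * E * Jm a b))) =
      t • (c • ((t⁻¹ • (Jm a' b' * E' * Jm a' b')) * B''.transpose)) := by rw [h4]
    rw [Matrix.mul_smul, smul_smul, mul_inv_cancel₀ ht, one_smul, Matrix.smul_mul,
      smul_comm t c, smul_smul t, mul_inv_cancel₀ ht, one_smul] at h6
    exact h6
  have h7 : (Jm a' b' * B.transpose * Jm a b) * E =
      Jm a' b' * (B.transpose * (Jm a b * E * Jm a b)) * Jm a b := by
    have : Jm a' b' * (B.transpose * (Jm a b * E * Jm a b)) * Jm a b =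
        (Jm a' b' * B.transpose * Jm a b) * E * (Jm a b * Jm a b) := by
      simp only [Matrix.mul_assoc]
    rw [this, FGm_JJ, Matrix.mul_one]
  rw [h7, h5, Matrix.mul_smul, Matrix.smul_mul]
  congr 1
  calc Jm a' b' * (Jm a' b' * E' * Jm a' b' * B''.transpose) * Jm a b
      = (Jm a' b' * Jm a' b') * (E' * (Jm a' b' * B''.transpose * Jm a b)) := by
        simp only [Matrix.mul_assoc]
    _ = _ := by rw [FGm_JJ, Matrix.one_mul]

private theorem FGm_bar (A : Matrix (a' ⊕ b') (a ⊕ b) ℂ) (B : Matrix (a ⊕ b) (a' ⊕ b') ℂ)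
    (ε : ℂ) (hε : ε = 1 ∨ ε = -1)
    (h : A.map conj = ε • (Jm a' b' * B.transpose * Jm a b)) :
    B.map conj = ε • (Jm a b * A.transpose * Jm a' b') := by
  have hεε : ε * ε = 1 := by rcases hε with rfl | rfl <;> norm_num
  have hεc : conj ε = ε := by rcases hε with rfl | rfl <;> simp
  have h1 : A = ε • (Jm a' b' * (B.map conj).transpose * Jm a b) := by
    have h2 : (A.map conj).map conj = A := by
      ext p q
      simp
    rw [← h2, h]
    have h3 : (ε • (Jm a' b' * B.transpose * Jm a b)).map conj =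
        (conj ε) • ((Jm a' b').map conj * (B.map conj).transpose * (Jm a b).map conj) := by
      rw [← Matrix.transpose_map, ← Matrix.map_mul, ← Matrix.map_mul]
      ext p q
      simp only [Matrix.map_apply, Matrix.smul_apply, smul_eq_mul, map_mul]
    rw [h3, hεc, FGm_Jc, FGm_Jc]
  have h4 : A.transpose = ε • (Jm a b * B.map conj * Jm a' b') := by
    rw [h1, Matrix.transpose_smul, Matrix.transpose_mul, Matrix.transpose_mul, FGm_JT, FGm_JT,
      Matrix.transpose_transpose, Matrix.mul_assoc]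
  rw [h4, Matrix.mul_smul, Matrix.smul_mul, smul_smul, hεε, one_smul]
  calc B.map conj = (Jm a b * Jm a b) * B.map conj * (Jm a' b' * Jm a' b') := by
        rw [FGm_JJ, FGm_JJ, Matrix.one_mul, Matrix.mul_one]
    _ = _ := by simp only [Matrix.mul_assoc]

private theorem FGm_blg (P Q : a ⊕ b → ℂ) : blg P Q = P ⬝ᵥ (Jm a b).mulVec Q := by
  unfold blg Jm
  rw [Matrix.fromBlocks_mulVec]
  simp only [dotProduct, Fintype.sum_sum_type, Sum.elim_inl, Sum.elim_inr, Matrix.one_mulVec,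
    Matrix.zero_mulVec, add_zero, zero_add, Matrix.neg_mulVec, Pi.neg_apply,
    Function.comp_apply, mul_neg, Finset.sum_neg_distrib, Pi.add_apply, Pi.zero_apply]
  rfl

private theorem FGm_adj (A : Matrix (a' ⊕ b') (a ⊕ b) ℂ) (C : Matrix (a ⊕ b) (a' ⊕ b') ℂ)
    (ε : ℂ) (h : A.transpose * Jm a' b' = ε • (Jm a b * C)) (P : a ⊕ b → ℂ) (Q : a' ⊕ b' → ℂ) :
    blg (A.mulVec P) Q = ε * blg P (C.mulVec Q) := by
  rw [FGm_blg, FGm_blg, Matrix.mulVec_mulVec]
  have h1 : A.mulVec P ⬝ᵥ (Jm a' b').mulVec Q = P ⬝ᵥ (A.transpose * Jm a' b').mulVec Q := by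
    rw [← Matrix.mulVec_mulVec, Matrix.dotProduct_mulVec P, Matrix.vecMul_transpose]
  rw [h1, h, Matrix.smul_mulVec, dotProduct_smul, smul_eq_mul]

private theorem FGm_comm (P Q : a ⊕ b → ℂ) : blg P Q = blg Q P := by
  unfold blg
  congr 1
  · exact Finset.sum_congr rfl fun i _ => mul_comm _ _
  · exact Finset.sum_congr rfl fun i _ => mul_comm _ _

private theorem FGm_algsum {ι ι' : Type} [Fintype ι] (M : Matrix ι' ι ℂ) (u : ι → ℂ)
    (hM : ∀ p q, IsAlgebraic ℚ (M p q)) (hu : ∀ p, IsAlgebraic ℚ (u p)) (p : ι') :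
    IsAlgebraic ℚ (M.mulVec u p) := by
  have h : ∀ q, M p q * u q ∈ algebraicClosure ℚ ℂ := fun q =>
    mem_algebraicClosure_iff.mpr ((hM p q).mul (hu q))
  exact mem_algebraicClosure_iff.mp (sum_mem fun q _ => h q)

private theorem FGm_algmul {ι ι' ι'' : Type} [Fintype ι] (M : Matrix ι' ι ℂ)
    (N : Matrix ι ι'' ℂ)
    (hM : ∀ p q, IsAlgebraic ℚ (M p q)) (hN : ∀ p q, IsAlgebraic ℚ (N p q)) (p : ι')
    (q : ι'') : IsAlgebraic ℚ ((M * N) p q) :=
  FGm_algsum M (fun r => N r q) hM (fun r => hN r q) p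

private theorem FGm_algJ (p q : a ⊕ b) : IsAlgebraic ℚ (Jm a b p q) := by
  unfold Jm
  rcases p with p | p <;> rcases q with q | q
  · rw [Matrix.fromBlocks_apply₁₁, Matrix.one_apply]
    split_ifs
    · exact isAlgebraic_one
    · exact isAlgebraic_zero
  · rw [Matrix.fromBlocks_apply₁₂]
    exact isAlgebraic_zero
  · rw [Matrix.fromBlocks_apply₂₁]
    exact isAlgebraic_zero
  · rw [Matrix.fromBlocks_apply₂₂, Matrix.neg_apply, Matrix.one_apply]
    split_ifs
    · exact isAlgebraic_one.neg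
    · exact isAlgebraic_zero.neg

private theorem FGm_actR (A : Matrix (a' ⊕ b') (a ⊕ b) ℂ) (n : ℤ) (x : Ix a b Unit → ℂ) :
    actR A (n • x) = n • actR A x := by
  have h1 : ∀ y : Ix a b Unit → ℂ, sw (n • y) = n • sw y := by
    intro y
    funext p
    rcases p with ⟨i | j, k⟩
    · rfl
    · show conj ((n • y) (Sum.inr j, k)) = n • conj (y (Sum.inr j, k))
      rw [Pi.smul_apply, map_zsmul]
  have h2 : ∀ y : Ix a' b' Unit → ℂ, sw (n • y) = n • sw y := by
    intro y
    funext p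
    rcases p with ⟨i | j, k⟩
    · rfl
    · show conj ((n • y) (Sum.inr j, k)) = n • conj (y (Sum.inr j, k))
      rw [Pi.smul_apply, map_zsmul]
  unfold actR
  rw [h1, ← h2]
  congr 1
  funext p
  rw [Pi.smul_apply, Finset.smul_sum]
  refine Finset.sum_congr rfl fun q _ => ?_
  rw [Pi.smul_apply, mul_smul_comm]

end two

/-- The properties of the coordinates. -/
private structure FGm_C (X : AbVar) {a b : Type} [Fintype a] [Fintype b] [DecidableEq a]
    [DecidableEq b] (T : Matrix (Ix a b Unit) (Fin X.g) ℂ) (S : Matrix (Fin X.g) (Ix a b Unit) ℂ)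
    (Tp : Matrix a a ℂ) (Tm : Matrix b b ℂ) (K : Matrix a b ℂ)
    (L : Submodule ℤ (Ix a b Unit → ℂ)) : Prop where
  aX : ∀ u v s, XX X T S (u + v) (s, ()) = XX X T S u (s, ()) + XX X T S v (s, ())
  aT : ∀ u v s, XT X T S (u + v) (s, ()) = XT X T S u (s, ()) + XT X T S v (s, ())
  sX : ∀ (c : ℂ) u s, XX X T S (c • u) (s, ()) = c * XX X T S u (s, ())
  sT : ∀ (c : ℂ) u s, XT X T S (c • u) (s, ()) = c * XT X T S u (s, ())
  uniq : ∀ u v : X.H1, (∀ s, XX X T S u (s, ()) = XX X T S v (s, ())) →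
      (∀ s, XT X T S u (s, ()) = XT X T S v (s, ())) → u = v
  sur : ∀ x y : a ⊕ b → ℂ, ∃ v, (∀ s, XX X T S v (s, ()) = x s) ∧ ∀ s, XT X T S v (s, ()) = y s
  bet : ∀ v, X.IsBetti v ↔ (∀ s, XT X T S v (s, ()) = conj (XX X T S v (s, ()))) ∧
    ∃ n : ℕ, n ≠ 0 ∧ (n : ℤ) • sw (XX X T S v) ∈ L
  dr : ∀ v, X.IsDeRham v ↔ ∃ u w : a ⊕ b → ℂ, (∀ s, IsAlgebraic ℚ (u s)) ∧
      (∀ s, IsAlgebraic ℚ (w s)) ∧
      (∀ s, XX X T S v (s, ()) = (Dz Tp Tm K).mulVec u s) ∧
      ∀ s, XT X T S v (s, ()) = (FGm_E Tp Tm K).mulVec w s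

private theorem FGm_cor (h : DWY.St_CxA) (X : AbVar) (d : ℚ) (a b : Type) [Fintype a] [Fintype b]
    [DecidableEq a] [DecidableEq b] (T : Matrix (Ix a b Unit) (Fin X.g) ℂ)
    (S : Matrix (Fin X.g) (Ix a b Unit) ℂ) (Tp : Matrix a a ℂ) (Tm : Matrix b b ℂ)
    (Ta : Matrix (Ix a b Unit) (Fin X.g) ℂ) (Tb : Matrix (Fin X.g) (Ix a b Unit) ℂ)
    (K : Matrix a b ℂ) (L : Submodule ℤ (Ix a b Unit → ℂ)) (hN : NS X d a b T S Tp Tm Ta Tb K L) :
    FGm_C X T S Tp Tm K L := by
  obtain ⟨hlx, hly, hsur, hinj, hfil, hbet, hdr⟩ := h X d a b T S Tp Tm Ta Tb K L hN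
  refine ⟨?_, ?_, ?_, ?_, ?_, ?_, ?_, ?_⟩
  · rintro u v (i | j)
    · exact congrFun (hlx.map_add u v) (Sum.inl i, ())
    · exact congrFun (hly.map_add u v) (Sum.inr j, ())
  · rintro u v (i | j)
    · exact congrFun (hly.map_add u v) (Sum.inl i, ())
    · exact congrFun (hlx.map_add u v) (Sum.inr j, ())
  · rintro c u (i | j)
    · exact congrFun (hlx.map_smul c u) (Sum.inl i, ())
    · exact congrFun (hly.map_smul c u) (Sum.inr j, ())
  · rintro c u (i | j)
    · exact congrFun (hly.map_smul c u) (Sum.inl i, ())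
    · exact congrFun (hlx.map_smul c u) (Sum.inr j, ())
  · intro u v hx hy
    have e1 : cx X T (u - v) = 0 := by
      rw [show u - v = u + (-1 : ℂ) • v by rw [neg_one_smul, sub_eq_add_neg], hlx.map_add,
        hlx.map_smul, neg_one_smul]
      funext p
      rcases p with ⟨i | j, ⟨⟩⟩
      · exact add_neg_eq_zero.mpr (hx (Sum.inl i))
      · exact add_neg_eq_zero.mpr (hy (Sum.inr j))
    have e2 : cy X S (u - v) = 0 := by
      rw [show u - v = u + (-1 : ℂ) • v by rw [neg_one_smul, sub_eq_add_neg], hly.map_add,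
        hly.map_smul, neg_one_smul]
      funext p
      rcases p with ⟨i | j, ⟨⟩⟩
      · exact add_neg_eq_zero.mpr (hy (Sum.inl i))
      · exact add_neg_eq_zero.mpr (hx (Sum.inr j))
    exact sub_eq_zero.mp (hinj _ e1 e2)
  · intro x y
    obtain ⟨v, h1, h2⟩ := hsur (fun p => Sum.elim (fun i => x (Sum.inl i))
      (fun j => y (Sum.inr j)) p.1) (fun p => Sum.elim (fun i => y (Sum.inl i))
      (fun j => x (Sum.inr j)) p.1)
    refine ⟨v, ?_, ?_⟩
    · rintro (i | j)
      · exact congrFun h1 (Sum.inl i, ())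
      · exact congrFun h2 (Sum.inr j, ())
    · rintro (i | j)
      · exact congrFun h2 (Sum.inl i, ())
      · exact congrFun h1 (Sum.inr j, ())
  · intro v
    have hsw : (∀ p, cy X S v p = conj (cx X T v p)) → sw (XX X T S v) = cx X T v := by
      intro b1
      funext p
      rcases p with ⟨i | j, ⟨⟩⟩
      · rfl
      · show conj (cy X S v (Sum.inr j, ())) = cx X T v (Sum.inr j, ())
        rw [b1, Complex.conj_conj]
    have heq : (∀ p, cy X S v p = conj (cx X T v p)) ↔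
        ∀ s, XT X T S v (s, ()) = conj (XX X T S v (s, ())) := by
      constructor
      · rintro b1 (i | j)
        · exact b1 (Sum.inl i, ())
        · show cx X T v (Sum.inr j, ()) = conj (cy X S v (Sum.inr j, ()))
          rw [b1, Complex.conj_conj]
      · rintro b1 ⟨i | j, ⟨⟩⟩
        · exact b1 (Sum.inl i)
        · have h3 : cx X T v (Sum.inr j, ()) = conj (cy X S v (Sum.inr j, ())) := b1 (Sum.inr j)
          rw [h3, Complex.conj_conj]
    rw [hbet]
    constructor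
    · rintro ⟨b1, b2⟩
      refine ⟨heq.mp b1, ?_⟩
      rw [hsw b1]
      exact b2
    · rintro ⟨b1, b2⟩
      have b1' := heq.mpr b1
      rw [hsw b1'] at b2
      exact ⟨b1', b2⟩
  · intro v
    have key : ∀ u w : a ⊕ b → ℂ, ∀ ζ η : Ix a b Unit → ℂ,
        (∀ i, ζ (Sum.inl i, ()) = u (Sum.inl i)) → (∀ j, ζ (Sum.inr j, ()) = w (Sum.inr j)) →
        (∀ i, η (Sum.inl i, ()) = w (Sum.inl i)) → (∀ j, η (Sum.inr j, ()) = u (Sum.inr j)) →
        ((cx X T v = (blk Unit Tp Tm).mulVec ζ ∧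
        ∀ p, cy X S v p = 1 / Real.pi *
          (blk Unit Tp⁻¹ Tm⁻¹).transpose.mulVec
            (fun p' => η p' - (qb K).mulVec ζ p') p) ↔
        ((∀ s, XX X T S v (s, ()) = (Dz Tp Tm K).mulVec u s) ∧
        ∀ s, XT X T S v (s, ()) = (FGm_E Tp Tm K).mulVec w s)) := by
      intro u w ζ η hz1 hz2 he1 he2
      obtain ⟨A1, A2⟩ := FGm_bl Tp Tm ζ
      obtain ⟨B1, B2⟩ := FGm_blt Tp⁻¹ Tm⁻¹ (fun p' => η p' - (qb K).mulVec ζ p')
      obtain ⟨Q1, Q2⟩ := FGm_qb K ζ
      obtain ⟨D1, D2⟩ := FGm_Dv Tp Tm K u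
      obtain ⟨E1, E2⟩ := FGm_Ev Tp Tm K w
      have hz1' : (fun i => ζ (Sum.inl i, ())) = fun i => u (Sum.inl i) := funext hz1
      have hz2' : (fun j => ζ (Sum.inr j, ())) = fun j => w (Sum.inr j) := funext hz2
      have hx1 : ∀ i, (blk Unit Tp Tm).mulVec ζ (Sum.inl i, ()) =
          (Dz Tp Tm K).mulVec u (Sum.inl i) := by
        intro i
        rw [A1, D1, hz1']
      have hx2 : ∀ j, (blk Unit Tp Tm).mulVec ζ (Sum.inr j, ()) =
            (FGm_E Tp Tm K).mulVec w (Sum.inr j) := by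
        intro j
        rw [A2, E2, hz2']
      have hy1 : ∀ i, 1 / (Real.pi : ℂ) *
          (blk Unit Tp⁻¹ Tm⁻¹).transpose.mulVec
            (fun p' => η p' - (qb K).mulVec ζ p') (Sum.inl i, ()) =
            (FGm_E Tp Tm K).mulVec w (Sum.inl i) := by
        intro i
        have h3 : (fun i' => η (Sum.inl i', ()) - (qb K).mulVec ζ (Sum.inl i', ())) =
            fun i' => w (Sum.inl i') - K.mulVec (fun j' => w (Sum.inr j')) i' := by
          funext i'
          rw [Q1, hz2', he1]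
        rw [B1, E1, h3, one_div]
      have hy2 : ∀ j, 1 / (Real.pi : ℂ) *
          (blk Unit Tp⁻¹ Tm⁻¹).transpose.mulVec
            (fun p' => η p' - (qb K).mulVec ζ p') (Sum.inr j, ()) =
          (Dz Tp Tm K).mulVec u (Sum.inr j) := by
        intro j
        have h3 : (fun j' => η (Sum.inr j', ()) - (qb K).mulVec ζ (Sum.inr j', ())) =
            fun j' => u (Sum.inr j') - K.transpose.mulVec (fun i' => u (Sum.inl i')) j' := by
          funext j'
          rw [Q2, hz1', he2]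
        rw [B2, D2, h3, one_div]
      constructor
      · rintro ⟨hX, hY⟩
        constructor
        · rintro (i | j)
          · rw [← hx1 i, ← hX]
            rfl
          · rw [← hy2 j, ← hY]
            rfl
        · rintro (i | j)
          · rw [← hy1 i, ← hY]
            rfl
          · rw [← hx2 j, ← hX]
            rfl
      · rintro ⟨hX, hY⟩
        constructor
        · funext p
          rcases p with ⟨i | j, ⟨⟩⟩
          · exact (hX (Sum.inl i)).trans (hx1 i).symm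
          · exact (hY (Sum.inr j)).trans (hx2 j).symm
        · intro p
          rcases p with ⟨i | j, ⟨⟩⟩
          · exact (hY (Sum.inl i)).trans (hy1 i).symm
          · exact (hX (Sum.inr j)).trans (hy2 j).symm
    rw [hdr]
    constructor
    · rintro ⟨ζ, η, hζ, hη, hxy⟩
      refine ⟨Sum.elim (fun i => ζ (Sum.inl i, ())) (fun j => η (Sum.inr j, ())),
        Sum.elim (fun i => η (Sum.inl i, ())) (fun j => ζ (Sum.inr j, ())), ?_, ?_,
        (key _ _ ζ η (fun i => rfl) (fun j => rfl) (fun i => rfl) (fun j => rfl)).mp hxy⟩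
      · rintro (i | j)
        · exact hζ _
        · exact hη _
      · rintro (i | j)
        · exact hη _
        · exact hζ _
    · rintro ⟨u, w, hu, hw, hxy⟩
      refine ⟨fun p => Sum.elim (fun i => u (Sum.inl i)) (fun j => w (Sum.inr j)) p.1,
        fun p => Sum.elim (fun i => w (Sum.inl i)) (fun j => u (Sum.inr j)) p.1, ?_, ?_,
        (key u w _ _ (fun i => rfl) (fun j => rfl) (fun i => rfl) (fun j => rfl)).mpr hxy⟩
      · rintro ⟨i | j, ⟨⟩⟩
        · exact hu _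
        · exact hw _
      · rintro ⟨i | j, ⟨⟩⟩
        · exact hw _
        · exact hu _

private theorem FGm_half (Y Y' : AbVar) (d : ℚ) (hd : 0 < d) {a b a' b' : Type} [Fintype a]
    [Fintype b] [Fintype a'] [Fintype b'] [DecidableEq a] [DecidableEq b] [DecidableEq a']
    [DecidableEq b'] (T : Matrix (Ix a b Unit) (Fin Y.g) ℂ)
    (S : Matrix (Fin Y.g) (Ix a b Unit) ℂ) (Tp : Matrix a a ℂ) (Tm : Matrix b b ℂ)
    (K : Matrix a b ℂ) (L : Submodule ℤ (Ix a b Unit → ℂ))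
    (T' : Matrix (Ix a' b' Unit) (Fin Y'.g) ℂ) (S' : Matrix (Fin Y'.g) (Ix a' b' Unit) ℂ)
    (Tp' : Matrix a' a' ℂ) (Tm' : Matrix b' b' ℂ) (K' : Matrix a' b' ℂ)
    (L' : Submodule ℤ (Ix a' b' Unit → ℂ)) (J : Module.End ℂ Y.H1) (J' : Module.End ℂ Y'.H1)
    (μ : ℂ) (A A'' W : Matrix (a' ⊕ b') (a ⊕ b) ℂ)
    (hC : FGm_C Y T S Tp Tm K L) (hC' : FGm_C Y' T' S' Tp' Tm' K' L')
    (jx : ∀ v p, XX Y T S (J v) p = zd d * XX Y T S v p)
    (jt : ∀ v p, XT Y T S (J v) p = -(zd d * XT Y T S v p))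
    (jx' : ∀ v p, XX Y' T' S' (J' v) p = zd d * XX Y' T' S' v p)
    (jt' : ∀ v p, XT Y' T' S' (J' v) p = -(zd d * XT Y' T' S' v p))
    (hμ : μ ≠ 0) (hlat : ∀ y ∈ L, ∃ n : ℕ, n ≠ 0 ∧ (n : ℤ) • actR A y ∈ L')
    (hA'' : ∀ p q, IsAlgebraic ℚ (A'' p q)) (hW : ∀ p q, IsAlgebraic ℚ (W p q))
    (h1 : A * Dz Tp Tm K = μ • (Dz Tp' Tm' K' * A''))
    (h2 : A.map conj * FGm_E Tp Tm K = μ⁻¹ • (FGm_E Tp' Tm' K' * W)) :
    ∃ F : Y.H1 →ₗ[ℂ] Y'.H1, Tw Y Y' J J' (zd d) μ F ∧
      (∀ w s, XX Y' T' S' (F w) (s, ()) = A.mulVec (fun s => XX Y T S w (s, ())) s) ∧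
      ∀ w s, XT Y' T' S' (F w) (s, ()) = (A.map conj).mulVec (fun s => XT Y T S w (s, ())) s := by
  have hz : zd d ≠ 0 := by
    unfold zd
    refine mul_ne_zero ?_ Complex.I_ne_zero
    rw [Ne, Complex.ofReal_eq_zero]
    exact (Real.sqrt_pos.mpr (by exact_mod_cast hd)).ne'
  have hex : ∀ w : Y.H1, ∃ v : Y'.H1,
      (∀ s, XX Y' T' S' v (s, ()) = A.mulVec (fun s => XX Y T S w (s, ())) s) ∧
      ∀ s, XT Y' T' S' v (s, ()) = (A.map conj).mulVec (fun s => XT Y T S w (s, ())) s :=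
    fun w => hC'.sur _ _
  choose f fX fT using hex
  have ladd : ∀ u v, f (u + v) = f u + f v := by
    intro u v
    apply hC'.uniq
    · intro s
      have e : (fun s => XX Y T S (u + v) (s, ())) =
          (fun s => XX Y T S u (s, ())) + fun s => XX Y T S v (s, ()) :=
        funext fun s => hC.aX u v s
      rw [fX, hC'.aX, fX, fX, e, Matrix.mulVec_add, Pi.add_apply]
    · intro s
      have e : (fun s => XT Y T S (u + v) (s, ())) =
          (fun s => XT Y T S u (s, ())) + fun s => XT Y T S v (s, ()) :=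
        funext fun s => hC.aT u v s
      rw [fT, hC'.aT, fT, fT, e, Matrix.mulVec_add, Pi.add_apply]
  have lsmul : ∀ (c : ℂ) u, f (c • u) = c • f u := by
    intro c u
    apply hC'.uniq
    · intro s
      have e : (fun s => XX Y T S (c • u) (s, ())) =
          c • (fun s => XX Y T S u (s, ())) := funext fun s => hC.sX c u s
      rw [fX, hC'.sX, fX, e, Matrix.mulVec_smul, Pi.smul_apply, smul_eq_mul]
    · intro s
      have e : (fun s => XT Y T S (c • u) (s, ())) =
          c • (fun s => XT Y T S u (s, ())) := funext fun s => hC.sT c u s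
      rw [fT, hC'.sT, fT, e, Matrix.mulVec_smul, Pi.smul_apply, smul_eq_mul]
  let F : Y.H1 →ₗ[ℂ] Y'.H1 := { toFun := f, map_add' := ladd, map_smul' := lsmul }
  refine ⟨F, ⟨?_, ?_, ?_, ?_⟩, fX, fT⟩
  · intro v
    show f (J v) = J' (f v)
    apply hC'.uniq
    · intro s
      have e : (fun s => XX Y T S (J v) (s, ())) = zd d • (fun s => XX Y T S v (s, ())) :=
        funext fun s => jx v (s, ())
      rw [fX, jx', fX, e, Matrix.mulVec_smul, Pi.smul_apply, smul_eq_mul]
    · intro s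
      have e : (fun s => XT Y T S (J v) (s, ())) = (-zd d) • (fun s => XT Y T S v (s, ())) :=
        funext fun s => (jt v (s, ())).trans (by rw [Pi.smul_apply, smul_eq_mul, neg_mul])
      rw [fT, jt', fT, e, Matrix.mulVec_smul, Pi.smul_apply, smul_eq_mul, neg_mul]
  · intro v hv
    show Y'.IsBetti (f v)
    obtain ⟨b1, n', hn', b2⟩ := (hC.bet v).1 hv
    have hact : sw (XX Y' T' S' (f v)) = actR A (sw (XX Y T S v)) := by
      have hss : sw (sw (XX Y T S v)) = XX Y T S v := by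
        funext p
        rcases p with ⟨i | j, ⟨⟩⟩
        · rfl
        · show conj (conj (XX Y T S v (Sum.inr j, ()))) = XX Y T S v (Sum.inr j, ())
          rw [Complex.conj_conj]
      unfold actR
      rw [hss]
      congr 1
      funext p
      rcases p with ⟨s, ⟨⟩⟩
      exact fX v s
    refine (hC'.bet (f v)).2 ⟨?_, ?_⟩
    · intro s
      rw [fX, fT]
      simp only [Matrix.mulVec, dotProduct, Matrix.map_apply]
      rw [map_sum]
      refine Finset.sum_congr rfl fun q _ => ?_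
      rw [b1, map_mul]
    · obtain ⟨c, hc, b3⟩ := hlat _ b2
      refine ⟨c * n', Nat.mul_ne_zero hc hn', ?_⟩
      rw [FGm_actR, smul_smul] at b3
      rw [hact]
      push_cast
      exact b3
  · intro v hv hJ
    have hT : ∀ s, XT Y T S v (s, ()) = 0 := by
      intro s
      have e1 := jt v (s, ())
      rw [hJ, hC.sT] at e1
      have e2 : (2 * zd d) * XT Y T S v (s, ()) = 0 := by linear_combination e1
      rcases mul_eq_zero.mp e2 with e3 | e3
      · exact absurd e3 (mul_ne_zero two_ne_zero hz)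
      · exact e3
    obtain ⟨u, w, hu, hw, e1, e2⟩ := (hC.dr v).1 hv
    obtain ⟨w', x1, x2⟩ := hC'.sur ((Dz Tp' Tm' K').mulVec (A''.mulVec u)) 0
    refine ⟨w', (hC'.dr w').2 ⟨A''.mulVec u, 0, FGm_algsum A'' u hA'' hu,
      fun s => isAlgebraic_zero, x1, fun s => ?_⟩, ?_⟩
    · rw [x2, Matrix.mulVec_zero]
    · show f v = μ • w'
      apply hC'.uniq
      · intro s
        have e : (fun s => XX Y T S v (s, ())) = (Dz Tp Tm K).mulVec u := funext fun s => e1 s
        rw [fX, hC'.sX, x1, e, Matrix.mulVec_mulVec, h1, Matrix.smul_mulVec, Pi.smul_apply,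
          smul_eq_mul, Matrix.mulVec_mulVec]
      · intro s
        have e : (fun s => XT Y T S v (s, ())) = 0 := funext fun s => hT s
        rw [fT, hC'.sT, x2, e, Matrix.mulVec_zero, Pi.zero_apply, mul_zero]
  · intro v hv hJ
    have hX : ∀ s, XX Y T S v (s, ()) = 0 := by
      intro s
      have e1 := jx v (s, ())
      rw [hJ, hC.sX] at e1
      have e2 : (2 * zd d) * XX Y T S v (s, ()) = 0 := by linear_combination -e1
      rcases mul_eq_zero.mp e2 with e3 | e3
      · exact absurd e3 (mul_ne_zero two_ne_zero hz)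
      · exact e3
    obtain ⟨u, w, hu, hw, e1, e2⟩ := (hC.dr v).1 hv
    obtain ⟨w', x1, x2⟩ := hC'.sur 0 ((FGm_E Tp' Tm' K').mulVec (W.mulVec w))
    refine ⟨w', (hC'.dr w').2 ⟨0, W.mulVec w, fun s => isAlgebraic_zero,
      FGm_algsum W w hW hw, fun s => ?_, x2⟩, ?_⟩
    · rw [x1, Matrix.mulVec_zero]
    · show f v = μ⁻¹ • w'
      apply hC'.uniq
      · intro s
        have e : (fun s => XX Y T S v (s, ())) = 0 := funext fun s => hX s
        rw [fX, hC'.sX, x1, e, Matrix.mulVec_zero, Pi.zero_apply, mul_zero]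
      · intro s
        have e : (fun s => XT Y T S v (s, ())) = (FGm_E Tp Tm K).mulVec w :=
          funext fun s => e2 s
        rw [fT, hC'.sT, x2, e, Matrix.mulVec_mulVec, h2, Matrix.smul_mulVec, Pi.smul_apply,
          smul_eq_mul, Matrix.mulVec_mulVec]

theorem thm_FGm (h : DWY.St_CxA) : St_FGm := by
  intro Y Y' d α β α' β' _ _ _ _ _ _ _ _ T S Tp Tm Ta Tb κ L T' S' Tp' Tm' Ta' Tb' κ' L' J J'
    μ ε A A'' B B'' hN hN' jx jt jx' jt' hpol hpol' hμ hε hbar hlA hlB hA'' hB'' hAD hBD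
  have hC := FGm_cor h Y d α β T S Tp Tm Ta Tb κ L hN
  have hC' := FGm_cor h Y' d α' β' T' S' Tp' Tm' Ta' Tb' κ' L' hN'
  have hpi : (Real.pi : ℂ)⁻¹ ≠ 0 := inv_ne_zero (by exact_mod_cast Real.pi_ne_zero)
  have hεε : ε * ε = 1 := by rcases hε with rfl | rfl <;> norm_num
  have hεa : IsAlgebraic ℚ ε := by
    rcases hε with rfl | rfl
    · exact isAlgebraic_one
    · exact isAlgebraic_one.neg
  have hbar' := FGm_bar A B ε hε hbar
  have hDE := FGm_DE Tp Tm κ hN.dp hN.dm
  have hDE' := FGm_DE Tp' Tm' κ' hN'.dp hN'.dm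
  have c1 := FGm_com (Dz Tp Tm κ) (FGm_E Tp Tm κ) (Dz Tp' Tm' κ') (FGm_E Tp' Tm' κ') B B''
    (Real.pi : ℂ)⁻¹ μ⁻¹ hpi hDE hDE' hBD
  have c2 := FGm_com (Dz Tp' Tm' κ') (FGm_E Tp' Tm' κ') (Dz Tp Tm κ) (FGm_E Tp Tm κ) A A''
    (Real.pi : ℂ)⁻¹ μ hpi hDE' hDE hAD
  obtain ⟨F, hF, fX, fT⟩ := FGm_half Y Y' d hN.pos T S Tp Tm κ L T' S' Tp' Tm' κ' L' J J' μ A A''
    (ε • (Jm α' β' * B''.transpose * Jm α β)) hC hC' jx jt jx' jt' hμ hlA hA''
    (fun p q => by
      rw [Matrix.smul_apply, smul_eq_mul]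
      exact hεa.mul (FGm_algmul _ _ (FGm_algmul _ _ FGm_algJ fun p q => hB'' q p) FGm_algJ p q))
    hAD (by
      rw [hbar, Matrix.smul_mul, c1, Matrix.mul_smul, smul_comm])
  obtain ⟨G, hG, gX, gT⟩ := FGm_half Y' Y d hN.pos T' S' Tp' Tm' κ' L' T S Tp Tm κ L J' J μ⁻¹ B
    B'' (ε • (Jm α β * A''.transpose * Jm α' β')) hC' hC jx' jt' jx jt (inv_ne_zero hμ) hlB hB''
    (fun p q => by
      rw [Matrix.smul_apply, smul_eq_mul]
      exact hεa.mul (FGm_algmul _ _ (FGm_algmul _ _ FGm_algJ fun p q => hA'' q p) FGm_algJ p q))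
    hBD (by
      rw [hbar', Matrix.smul_mul, c2, Matrix.mul_smul, smul_comm, inv_inv])
  refine ⟨F, G, hF, hG, ?_, gX⟩
  have k1 : A.transpose * Jm α' β' = ε • (Jm α β * B.map conj) := by
    rw [hbar', Matrix.mul_smul, smul_smul, hεε, one_smul, Matrix.mul_assoc, ← Matrix.mul_assoc,
      FGm_JJ, Matrix.one_mul]
  have k2 : B.transpose * Jm α β = ε • (Jm α' β' * A.map conj) := by
    rw [hbar, Matrix.mul_smul, smul_smul, hεε, one_smul, Matrix.mul_assoc, ← Matrix.mul_assoc,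
      FGm_JJ, Matrix.one_mul]
  intro x y
  rw [hpol', hpol]
  have e1 : (fun s => XX Y' T' S' (F x) (s, ())) = A.mulVec (fun s => XX Y T S x (s, ())) :=
    funext fun s => fX x s
  have e2 : (fun s => XT Y' T' S' (F x) (s, ())) =
      (A.map conj).mulVec (fun s => XT Y T S x (s, ())) := funext fun s => fT x s
  have e3 : (fun s => XX Y T S (G y) (s, ())) = B.mulVec (fun s => XX Y' T' S' y (s, ())) :=
    funext fun s => gX y s
  have e4 : (fun s => XT Y T S (G y) (s, ())) =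
      (B.map conj).mulVec (fun s => XT Y' T' S' y (s, ())) := funext fun s => gT y s
  rw [e1, e2, e3, e4, FGm_adj A (B.map conj) ε k1, FGm_adj B (A.map conj) ε k2]
  linear_combination (Real.pi : ℂ) * blg (fun s => XX Y' T' S' y (s, ()))
    ((A.map conj).mulVec fun s => XT Y T S x (s, ())) * hεε

end DWG
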