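import Pool.Agent.DWG.St
import Pool.Agent.Helper39.AF.Proj

/-!
# DWG, module FinG: Grothendieck classes of signature `(n - 1, 1)` are Hodge classes
-/

set_option autoImplicit false

namespace DWG

open scoped ComplexConjugate
open Module
open GAM (H E F pd pdl PLat IsTh OddTor IsDel Gro IsLat)
open PST DWC DWZ
open DWY (cx cy XX XT NS d4 qb)
open Pool.Agent.GPC (AbVar hermForm bilForm)
open Pool.Agent.Helper7 (pData)

private theorem FinG_neg {X : AbVar} {f : X.H1 → X.H1} (hf : X.IsEnd f) :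
    X.IsEnd (fun v => - f v) := by
  have h := Pool.Agent.Helper39.AF.isEnd_ratSmul hf (-1)
  have h2 : (fun v => (((-1 : ℚ)) : ℂ) • f v) = fun v => - f v := by
    funext v
    rw [Rat.cast_neg, Rat.cast_one, neg_smul, one_smul]
  rw [h2] at h
  exact h

private theorem FinG_zd {d : ℚ} (hd : 0 < d) : zd d ^ 2 = -(d : ℂ) := by
  unfold zd
  have h1 : (0 : ℝ) ≤ (d : ℝ) := by exact_mod_cast hd.le
  have h2 : ((Real.sqrt (d : ℝ) : ℝ) : ℂ) ^ 2 = (d : ℂ) := by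
    rw [← Complex.ofReal_pow, Real.sq_sqrt h1]
    norm_cast
  rw [mul_pow, h2, Complex.I_sq]
  ring

private theorem FinG_pol {X : AbVar} (u v : X.H1) : X.pol (-u) v = - X.pol u v ∧
    X.pol u (-v) = - X.pol u v := by
  constructor
  · unfold AbVar.pol
    rw [← Finset.sum_neg_distrib]
    apply Finset.sum_congr rfl
    intro a _
    show (-u (.inl a)) * v (.inr a) - v (.inl a) * (-u (.inr a)) = _
    ring
  · unfold AbVar.pol
    rw [← Finset.sum_neg_distrib]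
    apply Finset.sum_congr rfl
    intro a _
    show u (.inl a) * (-v (.inr a)) - (-v (.inl a)) * u (.inr a) = _
    ring

/-- the data of the exterior power of degree `j` -/
private def FinG_P (X : AbVar) (d : ℚ) (J : Module.End ℂ X.H1) (m : ℂ) (j : ℕ) : Prop :=
  ∃ (α β : Type) (_ : Fintype α) (_ : Fintype β) (_ : DecidableEq α) (_ : DecidableEq β)
    (u : α ⊕ β → Fin j → X.H1) (wx wt : (Fin j → X.H1) → α ⊕ β → ℂ) (Y : AbVar)
    (T : Matrix (Ix α β Unit) (Fin Y.g) ℂ) (S : Matrix (Fin Y.g) (Ix α β Unit) ℂ)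
    (Tp : Matrix α α ℂ) (Tm : Matrix β β ℂ) (Ta : Matrix (Ix α β Unit) (Fin Y.g) ℂ)
    (Tb : Matrix (Fin Y.g) (Ix α β Unit) ℂ) (κ : Matrix α β ℂ)
    (L : Submodule ℤ (Ix α β Unit → ℂ)) (χ : (Ix α β Unit → ℂ) → ℂ),
    NS Y d α β T S Tp Tm Ta Tb κ L ∧ PLat L χ ∧ EA X d J j α β u wx wt ∧
    ED X d J m j α β wx wt (Dz Tp Tm κ) ∧ EB X d J j α β wx L

private theorem FinG_core (h1 : DWY.St_ExM) (h2 : St_UTm) (h3 : St_ExiG) (h4 : St_ExE)
    (h5 : St_OKA) (h6 : St_OKD) (h7 : St_OKB) (h8 : St_O0) (h9 : St_Exp) (h10 : St_HodO)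
    (h11 : St_DimK) (h12 : DWZ.St_HodZ) (X : AbVar) (d : ℚ) (J : Module.End ℂ X.H1)
    (hg : 3 ≤ X.g) (hJ : IsKs X d J) (hf : finrank ℂ (X.filEigen J (zd d)) = 1) (k : ℕ)
    (γ : X.Class (2 * k)) (hγ : X.IsGrothendieckClass k γ) : X.IsInFil k γ := by
  obtain ⟨N, hN⟩ : ∃ N, X.g = N + 1 := ⟨X.g - 1, by omega⟩
  obtain ⟨A, m, m0, hdel, hhat⟩ := h1 d hJ.pos
  have hEM : EM d A m := ⟨hJ.pos, m0, hdel, hhat⟩
  have hUT : UT d m := by
    refine h2 d A m hEM X J hJ ?_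
    intro h
    have h' := (h11 X d J hJ).1
    rw [← h, hf] at h'
    omega
  -- the packages
  have hP0 : FinG_P X d J m 0 := by
    obtain ⟨Y, T, S, Ta, Tb, L, hNS, ⟨χ, hχ⟩, hL⟩ := h4 d A m hEM
    obtain ⟨⟨u, hEA⟩, hED, hEB⟩ := h8 d m X J L m0 hJ hL
    exact ⟨Unit, Empty, inferInstance, inferInstance, inferInstance, inferInstance, u, _, _, Y, T,
      S, _, _, Ta, Tb, _, L, χ, hNS, hχ, hEA, hED, hEB⟩
  have hPs : ∀ j ≤ N, FinG_P X d J m (j + 1) := by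
    intro j hj
    obtain ⟨T, S, Tp, Tm, Ta, Tb, κ, L, hall⟩ := h3 X d J N A m hEM hN hJ hf
    obtain ⟨n, M, Y, T', S', Ta', Tb', LY, hXG⟩ := hall j hj
    obtain ⟨u, hEA⟩ := h5 N j d m n M X Y J T S Tp Tm Ta Tb κ L T' S' Ta' Tb' LY hJ hXG
    have hED := h6 N j d m n M X Y J T S Tp Tm Ta Tb κ L T' S' Ta' Tb' LY hJ hXG
    have hEB := h7 N j d m n M X Y J T S Tp Tm Ta Tb κ L T' S' Ta' Tb' LY hJ hXG
    obtain ⟨χ, hχ⟩ := hXG.plY
    exact ⟨PI N (j + 1), PI N j, inferInstance, inferInstance, inferInstance, inferInstance, u,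
      _, _, Y, T', S', _, _, Ta', Tb', _, LY, χ, hXG.ny, hχ, hEA, hED, hEB⟩
  have hP : ∀ j ≤ N + 1, FinG_P X d J m j := by
    intro j hj
    rcases j with _ | j
    · exact hP0
    · exact hPs j (by omega)
  refine h9 X d J N k γ hN hJ hf ?_
  rintro b a h' u v hu hv (⟨hab, hk1, hkN, hu1, hv1⟩ | ⟨hba, haN, hcase⟩)
  · -- the balanced part
    subst hab
    obtain ⟨k', rfl⟩ : ∃ k', k = k' + 1 := ⟨k - 1, by omega⟩
    obtain rfl : a = k' + 1 := by omega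
    refine h12 X d J N k' (zd d) (by omega) hN hJ (FinG_zd hJ.pos) hf γ hγ _ ?_ ?_ ?_
    · intro i hi
      have h : Fin.cast h' i = Fin.castAdd (k' + 1) ⟨(i : ℕ), hi⟩ := by
        apply Fin.ext
        rfl
      show J (Fin.append u v (Fin.cast h' i)) = _ • Fin.append u v (Fin.cast h' i)
      rw [h, Fin.append_left]
      exact hu _
    · intro i hi
      have h : Fin.cast h' i = Fin.natAdd (k' + 1) ⟨(i : ℕ) - (k' + 1), by omega⟩ := by
        apply Fin.ext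
        show (i : ℕ) = k' + 1 + ((i : ℕ) - (k' + 1))
        omega
      show J (Fin.append u v (Fin.cast h' i)) = _ • Fin.append u v (Fin.cast h' i) ∧
        X.IsFil (Fin.append u v (Fin.cast h' i))
      rw [h, Fin.append_right]
      exact ⟨hv _, hv1 _⟩
    · obtain ⟨i, hi⟩ := hu1
      refine ⟨⟨(i : ℕ), by omega⟩, i.2, ?_⟩
      have h : Fin.cast h' (⟨(i : ℕ), by omega⟩ : Fin (2 * (k' + 1))) =
          Fin.castAdd (k' + 1) i := by
        apply Fin.ext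
        rfl
      show X.IsFil (Fin.append u v (Fin.cast h' _))
      rw [h, Fin.append_left]
      exact hi
  · -- the other parts
    obtain ⟨c, hc⟩ : ∃ c, a = b + 2 * c := ⟨k - b, by omega⟩
    have hc1 : 1 ≤ c := by omega
    obtain ⟨α, β, _, _, _, _, u₁, wx₁, wt₁, Y, T, S, Tp, Tm, Ta, Tb, κ, L, χ, hNS, hχ, hEA, hED,
      hEB⟩ := hP a haN
    obtain ⟨α', β', _, _, _, _, u₂, wx₂, wt₂, Y', T', S', Tp', Tm', Ta', Tb', κ', L', χ', hNS',
      hχ', hEA', hED', hEB'⟩ := hP b (by omega)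
    refine h10 d m hUT X J k a b c h' α β α' β' u₁ wx₁ wt₁ u₂ wx₂ wt₂ Y Y' T S Tp Tm Ta Tb κ L χ
      T' S' Tp' Tm' Ta' Tb' κ' L' χ' hJ hc hc1 hNS hχ hNS' hχ' hEA hEA' hED hED' hEB hEB' γ hγ u v
      hu hv ?_
    rcases hcase with h | h | h
    · exact Or.inl h
    · exact Or.inr (Or.inl h)
    · exact Or.inr (Or.inr (by omega))

theorem thm_FinG (h1 : DWY.St_ExM) (h2 : St_UTm) (h3 : St_ExiG) (h4 : St_ExE) (h5 : St_OKA)
    (h6 : St_OKD) (h7 : St_OKB) (h8 : St_O0) (h9 : St_Exp) (h10 : St_HodO) (h11 : St_DimK)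
    (h12 : DWZ.St_HodZ) : St_FinG := by
  intro X d J z hg hJ hz hfin k γ hγ
  have hzz : z ^ 2 = zd d ^ 2 := by rw [hz, FinG_zd hJ.pos]
  rcases sq_eq_sq_iff_eq_or_eq_neg.mp hzz with h | h
  · subst h
    exact FinG_core h1 h2 h3 h4 h5 h6 h7 h8 h9 h10 h11 h12 X d J hg hJ hfin k γ hγ
  · have hJn : ∀ v, (-J : Module.End ℂ X.H1) v = - J v := fun v => rfl
    have hKs : IsKs X d (-J) := by
      refine ⟨hJ.pos, ?_, fun v => ?_, fun u v => ?_⟩
      · exact FinG_neg hJ.endo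
      · rw [hJn, hJn, map_neg, neg_neg, hJ.sq]
      · rw [hJn, hJn, (FinG_pol _ _).1, (FinG_pol _ _).2, hJ.adj]
    have hfil : X.filEigen (-J : Module.End ℂ X.H1) (zd d) = X.filEigen J z := by
      unfold AbVar.filEigen
      congr 1
      ext v
      show ((-J : Module.End ℂ X.H1) v = zd d • v ∧ X.IsFil v) ↔ (J v = z • v ∧ X.IsFil v)
      rw [hJn, h, neg_smul, neg_eq_iff_eq_neg]
    exact FinG_core h1 h2 h3 h4 h5 h6 h7 h8 h9 h10 h11 h12 X d (-J) hg hKs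
      (by rw [hfil]; exact hfin) k γ hγ

end DWG
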