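import Pool.Agent.DWG.St

/-!
# DWG, HodO: the parts of type `(b, a)`, `b < a`, of a Grothendieck class
-/

set_option autoImplicit false

namespace DWG

open scoped ComplexConjugate
open Module
open GAM (H E F pd pdl PLat IsTh OddTor IsDel Gro IsLat)
open PST DWC DWZ
open DWY (cx cy XX XT NS d4 qb)
open Pool.Agent.GPC (AbVar hermForm bilForm)
open Pool.Agent.Helper7 (pData)

private theorem HodO_mu (m : ℂ) (b k c : ℕ) (a : ℕ) (hk : k = b + c) (ha : a = b + 2 * c) :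
    (Real.pi : ℂ) ^ ((b : ℤ) - k) * m ^ ((a : ℤ) - b) = (m ^ 2 / Real.pi) ^ c := by
  have e1 : ((b : ℤ) - k) = -(c : ℤ) := by
    rw [hk]
    push_cast
    ring
  have e2 : ((a : ℤ) - b) = ((2 * c : ℕ) : ℤ) := by
    rw [ha]
    push_cast
    ring
  rw [e1, e2, zpow_neg, zpow_natCast, zpow_natCast, div_pow, ← pow_mul, div_eq_mul_inv]
  ring

private theorem HodO_mui (m : ℂ) (b k c : ℕ) (a : ℕ) (hk : k = b + c) (ha : a = b + 2 * c) :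
    (Real.pi : ℂ) ^ ((a : ℤ) - k) * m ^ ((b : ℤ) - a) = ((m ^ 2 / Real.pi) ^ c)⁻¹ := by
  have e1 : ((a : ℤ) - k) = (c : ℤ) := by
    rw [hk, ha]
    push_cast
    ring
  have e2 : ((b : ℤ) - a) = -((2 * c : ℕ) : ℤ) := by
    rw [ha]
    push_cast
    ring
  rw [e1, e2, zpow_neg, zpow_natCast, zpow_natCast, div_pow, ← pow_mul, inv_div, div_eq_mul_inv]

theorem thm_HodO (h1 : St_MatO) (h2 : St_BarO) (h3 : St_BetO) (h4 : St_DRO) (h5 : St_PairM) :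
    St_HodO := by
  intro d m hU X J k a b c h' α β α' β' _ _ _ _ _ _ _ _ u₁ wx₁ wt₁ u₂ wx₂ wt₂ Y Y' T S Tp Tm Ta
    Tb κ L χ T' S' Tp' Tm' Ta' Tb' κ' L' χ' hJ hac hc hN hP hN' hP' hA hA' hD hD' hB hB' γ hγ u v
    hu hv hcase
  have h : 2 * k = a + b := by omega
  have hk : k = b + c := by omega
  have hk1 : 1 ≤ k := by omega
  obtain ⟨A, hMA⟩ := h1 X d J k a b h α β α' β' u₁ wx₁ wt₁ u₂ wx₂ wt₂ γ hJ hA hA'
  obtain ⟨B, hMB⟩ := h1 X d J k b a h' α' β' α β u₂ wx₂ wt₂ u₁ wx₁ wt₁ γ hJ hA' hA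
  have hbar := h2 X d J k a b h h' α β α' β' u₁ wx₁ wt₁ u₂ wx₂ wt₂ γ A B hJ hA hA' hγ.2 hMA hMB
  have hbA := h3 X d J k a b h α β α' β' u₁ wx₁ wt₁ u₂ wx₂ wt₂ γ A L L' χ' hk1 hJ hA hA' hB hB'
    hP' hγ.2 hMA
  have hbB := h3 X d J k b a h' α' β' α β u₂ wx₂ wt₂ u₁ wx₁ wt₁ γ B L' L χ hk1 hJ hA' hA hB' hB
    hP hγ.2 hMB
  obtain ⟨A'', hA'', hdA⟩ := h4 X d J m k a b h α β α' β' wx₁ wt₁ wx₂ wt₂ γ A (Dz Tp Tm κ)
    (Dz Tp' Tm' κ') hU.m0 hD hD' hγ.1 hMA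
  obtain ⟨B'', hB'', hdB⟩ := h4 X d J m k b a h' α' β' α β wx₂ wt₂ wx₁ wt₁ γ B
    (Dz Tp' Tm' κ') (Dz Tp Tm κ) hU.m0 hD' hD hγ.1 hMB
  rw [HodO_mu m b k c a hk hac] at hdA
  rw [HodO_mui m b k c a hk hac] at hdB
  obtain ⟨p1, p2, p3⟩ := h5 d m hU Y Y' α β α' β' T S Tp Tm Ta Tb κ L T' S' Tp' Tm' Ta' Tb' κ' L'
    c ((-1 : ℂ) ^ (k + a * b)) A A'' B B'' hc hN hN' (neg_one_pow_eq_or ℂ _) hbar hbA hbB hA'' hB''
    hdA hdB
  have e1 := hMB u v hu hv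
  have hinl : ∀ i, B.mulVec (wx₂ u) (Sum.inl i) = 0 := by
    intro i
    simp only [Matrix.mulVec, dotProduct]
    apply Finset.sum_eq_zero
    intro p _
    rw [p1, zero_mul]
  have hinr : ∀ j, B.mulVec (wx₂ u) (Sum.inr j) * wt₁ v (Sum.inr j) = 0 := by
    intro j
    rcases hcase with hf | hf | hc2
    · rw [hA.filt v hv hf j, mul_zero]
    · have : B.mulVec (wx₂ u) (Sum.inr j) = 0 := by
        simp only [Matrix.mulVec, dotProduct, Fintype.sum_sum_type]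
        rw [Finset.sum_eq_zero, Finset.sum_eq_zero, add_zero]
        · intro q _
          rw [p2, zero_mul]
        · intro q _
          rw [hA'.filx u hu hf q, mul_zero]
      rw [this, zero_mul]
    · rw [p3 hc2, Matrix.zero_mulVec, Pi.zero_apply, zero_mul]
  rw [e1]
  unfold blg
  rw [Finset.sum_eq_zero, Finset.sum_eq_zero, sub_zero, mul_zero]
  · intro j _
    exact hinr j
  · intro i _
    rw [hinl, zero_mul]

end DWG
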