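import Pool.Agent.DWG.St
import Pool.Agent.Helper8.HomFil

/-!
# DWG [Iso0]: isotropic subspaces rational for both structures vanish
-/

set_option autoImplicit false

namespace DWG

open scoped ComplexConjugate
open Module
open Pool.Agent.GPC (AbVar hermForm bilForm HP LieP prP perP LatP mem_LatP period_rsmul
  subspace_theorem)
open Pool.Agent.Helper7 (period_add pol_eq polForm_period hermForm_smul_right)

lemma Iso0_period_zero (B : AbVar) : B.period 0 = 0 := by
  have h := period_rsmul B 0 0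
  rw [zero_smul, zero_smul] at h
  exact h

lemma Iso0_I (B : AbVar) (P : Submodule ℂ B.H1)
    (hb : ∀ v ∈ P, v ∈ Submodule.span ℂ {u | u ∈ P ∧ B.IsBetti u})
    (hd : ∀ v ∈ P, v ∈ Submodule.span ℂ {u | u ∈ P ∧ B.IsDeRham u})
    (l : Fin B.g → ℂ) (hl : B.period l ∈ P) :
    B.period (Complex.I • l) ∈ P := by
  let C : Unit → AbVar := fun _ => B
  let g : B.H1 →ₗ[ℂ] HP C := LinearMap.pi fun _ => LinearMap.id
  set Q : Submodule ℂ (HP C) := P.map g with hQ
  have hmem : ∀ x, x ∈ P → g x ∈ Q := fun x hx => ⟨x, hx, rfl⟩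
  have hmem' : ∀ w ∈ Q, w () ∈ P := by
    rintro _ ⟨x, hx, rfl⟩
    exact hx
  have hPb : ∀ v ∈ Q, v ∈ Submodule.span ℂ {u | u ∈ Q ∧ ∀ j, (C j).IsBetti (u j)} := by
    rintro _ ⟨x, hx, rfl⟩
    have h1 := Submodule.mem_map_of_mem (f := g) (hb x hx)
    rw [Submodule.map_span] at h1
    refine Submodule.span_mono ?_ h1
    rintro _ ⟨u, hu, rfl⟩
    exact ⟨hmem u hu.1, fun _ => hu.2⟩
  have hPd : ∀ v ∈ Q, v ∈ Submodule.span ℂ {u | u ∈ Q ∧ ∀ j, (C j).IsDeRham (u j)} := by
    rintro _ ⟨x, hx, rfl⟩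
    have h1 := Submodule.mem_map_of_mem (f := g) (hd x hx)
    rw [Submodule.map_span] at h1
    refine Submodule.span_mono ?_ h1
    rintro _ ⟨u, hu, rfl⟩
    exact ⟨hmem u hu.1, fun _ => hu.2⟩
  obtain ⟨h1, h2⟩ := subspace_theorem C Q hPb hPd
  have key : ∀ m ∈ Submodule.span ℝ {m | m ∈ LatP C ∧ ∃ p' ∈ Q, prP C p' = m},
      B.period (m ()) ∈ P := by
    intro m hm
    induction hm using Submodule.span_induction with
    | mem m hm =>
      obtain ⟨hlL, p', hp', hpl⟩ := hm
      have h4 := h1 p' hp' (by rw [hpl]; exact hlL)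
      rw [hpl] at h4
      exact hmem' _ h4
    | zero =>
      have h4 : B.period ((0 : LieP C) ()) = 0 := Iso0_period_zero B
      rw [h4]
      exact Submodule.zero_mem _
    | add l m _ _ hl hm =>
      have h4 : B.period ((l + m) ()) = B.period (l ()) + B.period (m ()) :=
        period_add B _ _
      rw [h4]
      exact Submodule.add_mem _ hl hm
    | smul r l _ hl =>
      have h4 : B.period ((r • l) ()) = r • B.period (l ()) := period_rsmul B r _
      have h5 : r • B.period (l ()) = (r : ℂ) • B.period (l ()) := by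
        funext j; simp
      rw [h4, h5]
      exact Submodule.smul_mem _ _ hl
  have h3 := key _ (h2 (g (Complex.I • B.period l)) (hmem _ (Submodule.smul_mem _ _ hl)))
  have h4 : prP C (g (Complex.I • B.period l)) () = Complex.I • l := by
    funext a
    rfl
  rw [h4] at h3
  exact h3

theorem thm_Iso0 : St_Iso0 := by
  intro B P hb hd hiso
  have hz : ∀ u, u ∈ P ∧ B.IsBetti u → u = 0 := by
    rintro u ⟨huP, N, hN, l, _, hNl⟩
    have hNC : (N : ℂ) ≠ 0 := Nat.cast_ne_zero.mpr hN
    have hlP : B.period l ∈ P := by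
      rw [← hNl]
      exact Submodule.smul_mem _ _ huP
    have hIP := Iso0_I B P hb hd l hlP
    have h1 := hiso _ hlP _ hIP
    rw [pol_eq, polForm_period, hermForm_smul_right, Complex.conj_I] at h1
    have h2 : ((((-Complex.I) * hermForm B.H l l).im : ℝ) : ℂ) = 0 :=
      (mul_eq_zero.mp h1).resolve_left Complex.two_pi_I_ne_zero
    have h3 : ((-Complex.I) * hermForm B.H l l).im = 0 := by exact_mod_cast h2
    have h4 : ((-Complex.I) * hermForm B.H l l).im = -(hermForm B.H l l).re := by
      simp [Complex.mul_im]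
    have hl0 : l = 0 := by
      by_contra hne
      have h5 := B.H_pos l hne
      linarith
    rw [hl0, Iso0_period_zero] at hNl
    exact (smul_eq_zero.mp hNl).resolve_left hNC
  rw [Submodule.eq_bot_iff]
  intro v hv
  have h1 : Submodule.span ℂ {u | u ∈ P ∧ B.IsBetti u} ≤ ⊥ := by
    rw [Submodule.span_le]
    intro u hu
    exact (Submodule.mem_bot ℂ).mpr (hz u hu)
  exact (Submodule.mem_bot ℂ).mp (h1 (hb v hv))

end DWG
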