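import Pool.Agent.DWG.St

/-!
# DWG [MatO]: the matrix of a class
-/

set_option autoImplicit false

namespace DWG

open scoped ComplexConjugate
open Module
open GAM (H E F pd pdl PLat IsTh OddTor IsDel Gro IsLat)
open PST DWC DWZ
open DWY (cx cy XX XT NS d4 qb)
open Pool.Agent.GPC (AbVar hermForm bilForm)
open Pool.Agent.Helper7 (pData exists_bettiBasis isBetti_iff)

section ap

variable {V : Type} {n a b : ℕ} (h : n = a + b)

private lemma MatO_ap_a (u : Fin a → V) (v : Fin b → V) (i : Fin a) :
    (Fin.append u v ∘ Fin.cast h) (Fin.cast h.symm (Fin.castAdd b i)) = u i := by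
  subst h
  show Fin.append u v (Fin.castAdd b i) = u i
  rw [Fin.append_left]

private lemma MatO_ap_b (u : Fin a → V) (v : Fin b → V) (i : Fin b) :
    (Fin.append u v ∘ Fin.cast h) (Fin.cast h.symm (Fin.natAdd a i)) = v i := by
  subst h
  show Fin.append u v (Fin.natAdd a i) = v i
  rw [Fin.append_right]

private lemma MatO_upd_a [DecidableEq (Fin a)] (u : Fin a → V) (v : Fin b → V) (i : Fin a)
    (x : V) : Fin.append (Function.update u i x) v ∘ Fin.cast h =
      Function.update (Fin.append u v ∘ Fin.cast h) (Fin.cast h.symm (Fin.castAdd b i)) x := by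
  subst h
  funext r
  refine Fin.addCases (fun j => ?_) (fun j => ?_) r
  · show Fin.append (Function.update u i x) v (Fin.castAdd b j) =
      Function.update (Fin.append u v) (Fin.castAdd b i) x (Fin.castAdd b j)
    rw [Fin.append_left]
    by_cases hj : j = i
    · subst hj
      rw [Function.update_self, Function.update_self]
    · rw [Function.update_of_ne hj, Function.update_of_ne, Fin.append_left]
      intro hh
      exact hj (Fin.castAdd_injective _ _ hh)
  · show Fin.append (Function.update u i x) v (Fin.natAdd a j) =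
      Function.update (Fin.append u v) (Fin.castAdd b i) x (Fin.natAdd a j)
    rw [Fin.append_right, Function.update_of_ne, Fin.append_right]
    intro hh
    have h2 : a + (j : ℕ) = (i : ℕ) := congrArg (fun t : Fin (a + b) => (t : ℕ)) hh
    have h3 := i.2
    omega

private lemma MatO_upd_b [DecidableEq (Fin b)] (u : Fin a → V) (v : Fin b → V) (i : Fin b)
    (x : V) : Fin.append u (Function.update v i x) ∘ Fin.cast h =
      Function.update (Fin.append u v ∘ Fin.cast h) (Fin.cast h.symm (Fin.natAdd a i)) x := by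
  subst h
  funext r
  refine Fin.addCases (fun j => ?_) (fun j => ?_) r
  · show Fin.append u (Function.update v i x) (Fin.castAdd b j) =
      Function.update (Fin.append u v) (Fin.natAdd a i) x (Fin.castAdd b j)
    rw [Fin.append_left, Function.update_of_ne, Fin.append_left]
    intro hh
    have h2 : (j : ℕ) = a + (i : ℕ) := congrArg (fun t : Fin (a + b) => (t : ℕ)) hh
    have h3 := j.2
    omega
  · show Fin.append u (Function.update v i x) (Fin.natAdd a j) =
      Function.update (Fin.append u v) (Fin.natAdd a i) x (Fin.natAdd a j)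
    rw [Fin.append_right]
    by_cases hj : j = i
    · subst hj
      rw [Function.update_self, Function.update_self]
    · rw [Function.update_of_ne hj, Function.update_of_ne, Fin.append_right]
      intro hh
      apply hj
      apply Fin.ext
      have h2 : a + (j : ℕ) = a + (i : ℕ) := congrArg (fun t : Fin (a + b) => (t : ℕ)) hh
      omega

private lemma MatO_comp {W : Type} {m : ℕ} [DecidableEq (Fin m)] (g : W → V)
    (w : Fin m → W) (i : Fin m) (x : W) :
    (fun j => g (Function.update w i x j)) = Function.update (fun j => g (w j)) i (g x) := by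
  funext j
  by_cases h : j = i
  · subst h
    rw [Function.update_self, Function.update_self]
  · rw [Function.update_of_ne h, Function.update_of_ne h]

variable [AddCommGroup V] [Module ℂ V]

/-- the form as a function of the first family -/
private noncomputable def MatO_L (f : V [⋀^Fin n]→ₗ[ℂ] ℂ) (v : Fin b → V) :
    V [⋀^Fin a]→ₗ[ℂ] ℂ where
  toFun x := f (Fin.append x v ∘ Fin.cast h)
  map_update_add' m i x y := by
    rw [MatO_upd_a, MatO_upd_a, MatO_upd_a, AlternatingMap.map_update_add]
  map_update_smul' m i c x := by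
    rw [MatO_upd_a, MatO_upd_a, AlternatingMap.map_update_smul]
  map_eq_zero_of_eq' x i j hij hne := by
    refine f.map_eq_zero_of_eq _ (i := Fin.cast h.symm (Fin.castAdd b i))
      (j := Fin.cast h.symm (Fin.castAdd b j)) ?_ ?_
    · rw [MatO_ap_a, MatO_ap_a, hij]
    · intro hh
      apply hne
      apply Fin.ext
      exact congrArg (fun t : Fin n => (t : ℕ)) hh

/-- the conjugate form as a function of the conjugate second family -/
private noncomputable def MatO_R (f : V [⋀^Fin n]→ₗ[ℂ] ℂ) (c : V → V)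
    (cadd : ∀ v w, c (v + w) = c v + c w) (csm : ∀ (r : ℂ) v, c (r • v) = conj r • c v)
    (u : Fin a → V) : V [⋀^Fin b]→ₗ[ℂ] ℂ where
  toFun x := conj (f (Fin.append u (fun i => c (x i)) ∘ Fin.cast h))
  map_update_add' m i x y := by
    rw [MatO_comp, MatO_comp, MatO_comp, MatO_upd_b, MatO_upd_b, MatO_upd_b, cadd,
      AlternatingMap.map_update_add, map_add]
  map_update_smul' m i r x := by
    rw [MatO_comp, MatO_comp, MatO_upd_b, MatO_upd_b, csm, AlternatingMap.map_update_smul,
      smul_eq_mul, smul_eq_mul, map_mul, Complex.conj_conj]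
  map_eq_zero_of_eq' x i j hij hne := by
    have h0 : f (Fin.append u (fun i => c (x i)) ∘ Fin.cast h) = 0 := by
      refine f.map_eq_zero_of_eq _ (i := Fin.cast h.symm (Fin.natAdd a i))
        (j := Fin.cast h.symm (Fin.natAdd a j)) ?_ ?_
      · rw [MatO_ap_b, MatO_ap_b, hij]
      · intro hh
        apply hne
        apply Fin.ext
        have h2 : a + (i : ℕ) = a + (j : ℕ) := congrArg (fun t : Fin n => (t : ℕ)) hh
        omega
    rw [h0, map_zero]

end ap

/-- signs -/
private def MatO_eps {α β : Type} (q : α ⊕ β) : ℂ :=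
  Sum.elim (fun _ => (1 : ℂ)) (fun _ => (-1 : ℂ)) q

private lemma MatO_eps_sq {α β : Type} (q : α ⊕ β) : MatO_eps q * MatO_eps q = 1 := by
  rcases q with S | S
  · show (1 : ℂ) * 1 = 1
    ring
  · show (-1 : ℂ) * (-1) = 1
    ring

private lemma MatO_blg {α β : Type} [Fintype α] [Fintype β] (P Q : α ⊕ β → ℂ) :
    blg P Q = ∑ q, MatO_eps q * P q * Q q := by
  rw [blg, Fintype.sum_sum_type, sub_eq_add_neg, ← Finset.sum_neg_distrib]
  congr 1
  · refine Finset.sum_congr rfl fun S _ => ?_
    show _ = (1 : ℂ) * _ * _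
    ring
  · refine Finset.sum_congr rfl fun S _ => ?_
    show _ = (-1 : ℂ) * _ * _
    ring

private lemma MatO_zdc (d : ℚ) : conj (zd d) = -zd d := by
  unfold zd
  rw [map_mul, Complex.conj_ofReal, Complex.conj_I]
  ring

theorem thm_MatO (h1 : St_Cc) : St_MatO := by
  intro X d J k a b h α₁ β₁ α₂ β₂ _ _ _ _ _ _ _ _ u₁ wx₁ wt₁ u₂ wx₂ wt₂ γ hK e1 e2
  obtain ⟨c, hc⟩ := h1 X
  obtain ⟨ι, fι, bb, hb⟩ := exists_bettiBasis X
  have hbB : ∀ i, X.IsBetti (bb i) := by
    intro i
    rw [isBetti_iff, ← hb]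
    exact Submodule.subset_span ⟨i, rfl⟩
  have hcc : ∀ v, c (c v) = v := by
    let Λ : X.H1 →ₗ[ℂ] X.H1 :=
      { toFun := fun v => c (c v)
        map_add' := fun v w => by rw [hc.add, hc.add]
        map_smul' := fun r v => by
          rw [hc.smul, hc.smul, Complex.conj_conj, RingHom.id_apply] }
    have hΛ : Λ = LinearMap.id := by
      refine bb.ext fun i => ?_
      show c (c (bb i)) = bb i
      rw [hc.betti _ (hbB i), hc.betti _ (hbB i)]
    intro v
    exact congrArg (fun g : X.H1 →ₗ[ℂ] X.H1 => g v) hΛ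
  have hcJ : ∀ v, c (J (c v)) = J v := by
    let Λ : X.H1 →ₗ[ℂ] X.H1 :=
      { toFun := fun v => c (J (c v))
        map_add' := fun v w => by rw [hc.add, map_add, hc.add]
        map_smul' := fun r v => by
          rw [hc.smul, map_smul, hc.smul, Complex.conj_conj, RingHom.id_apply] }
    have hΛ : Λ = J := by
      refine bb.ext fun i => ?_
      show c (J (c (bb i))) = J (bb i)
      rw [hc.betti _ (hbB i), hc.betti _ (hK.endo.betti _ (hbB i))]
    intro v
    exact congrArg (fun g : X.H1 →ₗ[ℂ] X.H1 => g v) hΛ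
  have hcE : ∀ v, J v = (-zd d) • v → J (c v) = zd d • c v := by
    intro v hv
    have h2 := hcJ v
    have h3 : J (c v) = c (J v) := by rw [← h2, hcc]
    rw [h3, hv, hc.smul, map_neg, MatO_zdc, neg_neg]
  have hpi : (Real.pi : ℂ) ^ k ≠ 0 := pow_ne_zero _ (by exact_mod_cast Real.pi_ne_zero)
  obtain ⟨A0, hA0⟩ : ∃ A0 : α₁ ⊕ β₁ → α₂ ⊕ β₂ → ℂ, A0 = fun p q =>
    γ (Fin.append (u₁ p) (fun i => c (u₂ q i)) ∘ Fin.cast h) := ⟨_, rfl⟩
  refine ⟨Matrix.of fun q p => ((Real.pi : ℂ) ^ k)⁻¹ * MatO_eps q * A0 p q, ?_⟩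
  intro u v hu hv
  have hL : γ (Fin.append u v ∘ Fin.cast h) =
      ∑ p, wx₁ u p * γ (Fin.append (u₁ p) v ∘ Fin.cast h) :=
    e1.univ (MatO_L h γ v) u hu
  have hR : ∀ p, γ (Fin.append (u₁ p) v ∘ Fin.cast h) = ∑ q, wt₂ v q * A0 p q := by
    intro p
    have h4 : conj (γ (Fin.append (u₁ p) (fun i => c (c (v i))) ∘ Fin.cast h)) =
        ∑ q, wx₂ (fun i => c (v i)) q *
          conj (γ (Fin.append (u₁ p) (fun i => c (u₂ q i)) ∘ Fin.cast h)) :=
      e2.univ (MatO_R h γ c hc.add hc.smul (u₁ p)) (fun i => c (v i)) fun i => hcE _ (hv i)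
    have h5 : (fun i => c (c (v i))) = v := by
      funext i
      exact hcc _
    rw [h5] at h4
    have h6 := congrArg conj h4
    rw [Complex.conj_conj, map_sum] at h6
    rw [h6, hA0]
    refine Finset.sum_congr rfl fun q _ => ?_
    rw [map_mul, Complex.conj_conj, e2.cc c hc v hv q]
  rw [hL, MatO_blg, Finset.mul_sum]
  have h7 : ∀ p, wx₁ u p * γ (Fin.append (u₁ p) v ∘ Fin.cast h) =
      ∑ q, wx₁ u p * (wt₂ v q * A0 p q) := by
    intro p
    rw [hR, Finset.mul_sum]
  rw [Finset.sum_congr rfl fun p _ => h7 p, Finset.sum_comm]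
  refine Finset.sum_congr rfl fun q _ => ?_
  rw [Matrix.mulVec, dotProduct, Finset.mul_sum, Finset.sum_mul, Finset.mul_sum]
  refine Finset.sum_congr rfl fun p _ => ?_
  rw [Matrix.of_apply]
  have h8 := MatO_eps_sq q
  have h9 : (Real.pi : ℂ) ^ k * ((Real.pi : ℂ) ^ k)⁻¹ = 1 := mul_inv_cancel₀ hpi
  calc wx₁ u p * (wt₂ v q * A0 p q)
      = ((Real.pi : ℂ) ^ k * ((Real.pi : ℂ) ^ k)⁻¹) *
          (MatO_eps q * MatO_eps q) * (wx₁ u p * (wt₂ v q * A0 p q)) := by rw [h8, h9]; ring
    _ = (Real.pi : ℂ) ^ k * (MatO_eps q *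
          (((Real.pi : ℂ) ^ k)⁻¹ * MatO_eps q * A0 p q * wx₁ u p) * wt₂ v q) := by ring

end DWG
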