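import Pool.Agent.DWG.St

/-!
# DWG, [NSK]: the multiplication by `i √d` of a normal form
-/

set_option autoImplicit false

namespace DWG

open scoped ComplexConjugate
open Module
open GAM (H E F pd pdl PLat IsTh OddTor IsDel Gro IsLat)
open PST DWC DWZ
open DWY (cx cy XX XT NS d4 qb)
open Pool.Agent.GPC (AbVar hermForm bilForm)
open Pool.Agent.Helper7 (pData)

private theorem NSK_dot {m n : Type} [Fintype m] [Fintype n] (T : Matrix m n ℂ) (x : n → ℂ)
    (y : m → ℂ) : ∑ i, x i * T.transpose.mulVec y i = ∑ p, T.mulVec x p * y p := by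
  simp only [Matrix.mulVec, dotProduct, Matrix.transpose_apply, Finset.mul_sum, Finset.sum_mul]
  rw [Finset.sum_comm]
  refine Finset.sum_congr rfl fun p _ => Finset.sum_congr rfl fun i _ => ?_
  ring

private theorem NSK_pol {α β : Type} [Fintype α] [Fintype β] [DecidableEq α] [DecidableEq β]
    (Y : AbVar) (T : Matrix (Ix α β Unit) (Fin Y.g) ℂ) (S : Matrix (Fin Y.g) (Ix α β Unit) ℂ)
    (hST : S * T = 1) (u v : Y.H1) :
    Y.pol u v = (Real.pi : ℂ) * ∑ p, (cx Y T u p * cy Y S v p - cx Y T v p * cy Y S u p) := by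
  have hpi : (Real.pi : ℂ) ≠ 0 := Complex.ofReal_ne_zero.mpr Real.pi_ne_zero
  have hSt : T.transpose * S.transpose = 1 := by
    rw [← Matrix.transpose_mul, hST, Matrix.transpose_one]
  have hwy : ∀ (v : Y.H1) (i : Fin Y.g), v (Sum.inr i) =
      Real.pi * T.transpose.mulVec (cy Y S v) i + Y.q.mulVec (Y.zz v) i := by
    intro v i
    have h1 : cy Y S v = (1 / (Real.pi : ℂ)) • S.transpose.mulVec
        (fun i => v (Sum.inr i) - Y.q.mulVec (Y.zz v) i) := by
      funext a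
      rfl
    rw [h1, Matrix.mulVec_smul, Matrix.mulVec_mulVec, hSt, Matrix.one_mulVec, Pi.smul_apply,
      smul_eq_mul]
    field_simp
    ring
  have hq : ∑ i, Y.zz u i * Y.q.mulVec (Y.zz v) i = ∑ i, Y.zz v i * Y.q.mulVec (Y.zz u) i := by
    have h1 := NSK_dot Y.q (Y.zz u) (Y.zz v)
    rw [Y.q_symm] at h1
    rw [h1]
    refine Finset.sum_congr rfl fun i _ => ?_
    ring
  have h1 : ∀ x y : Y.H1, ∑ a, x (Sum.inl a) * y (Sum.inr a) =
      Real.pi * ∑ p, cx Y T x p * cy Y S y p + ∑ i, Y.zz x i * Y.q.mulVec (Y.zz y) i := by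
    intro x y
    unfold cx
    rw [← NSK_dot, Finset.mul_sum, ← Finset.sum_add_distrib]
    refine Finset.sum_congr rfl fun i _ => ?_
    rw [hwy y i]
    show Y.zz x i * _ = _
    ring
  have h2 : Y.pol u v = ∑ a, u (Sum.inl a) * v (Sum.inr a) - ∑ a, v (Sum.inl a) * u (Sum.inr a) := by
    rw [← Finset.sum_sub_distrib]
    rfl
  rw [h2, h1, h1, hq, Finset.sum_sub_distrib]
  ring

private theorem NSK_blg {α β : Type} [Fintype α] [Fintype β] [DecidableEq α] [DecidableEq β]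
    (Y : AbVar) (T : Matrix (Ix α β Unit) (Fin Y.g) ℂ) (S : Matrix (Fin Y.g) (Ix α β Unit) ℂ)
    (u v : Y.H1) :
    blg (fun s => XX Y T S u (s, ())) (fun s => XT Y T S v (s, ())) -
      blg (fun s => XX Y T S v (s, ())) (fun s => XT Y T S u (s, ())) =
      ∑ p, (cx Y T u p * cy Y S v p - cx Y T v p * cy Y S u p) := by
  have h1 : ∀ u v : Y.H1, blg (fun s => XX Y T S u (s, ())) (fun s => XT Y T S v (s, ())) =
      (∑ i, cx Y T u (Sum.inl i, ()) * cy Y S v (Sum.inl i, ())) -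
      ∑ j, cy Y S u (Sum.inr j, ()) * cx Y T v (Sum.inr j, ()) := fun u v => rfl
  rw [h1, h1, Fintype.sum_prod_type, Fintype.sum_sum_type]
  simp only [Finset.univ_unique, PUnit.default_eq_unit, Finset.sum_singleton,
    Finset.sum_sub_distrib]
  have h2 : ∀ u v : Y.H1, ∑ j, cy Y S u (Sum.inr j, ()) * cx Y T v (Sum.inr j, ()) =
      ∑ j, cx Y T v (Sum.inr j, ()) * cy Y S u (Sum.inr j, ()) := fun u v =>
    Finset.sum_congr rfl fun j _ => mul_comm _ _
  rw [h2 u v, h2 v u]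
  ring

private theorem NSK_blg_l {α β : Type} [Fintype α] [Fintype β] (z : ℂ) (P Q : α ⊕ β → ℂ) :
    blg (fun s => z * P s) Q = z * blg P Q := by
  unfold blg
  rw [mul_sub, Finset.mul_sum, Finset.mul_sum]
  simp only [mul_assoc]

private theorem NSK_blg_r {α β : Type} [Fintype α] [Fintype β] (z : ℂ) (P Q : α ⊕ β → ℂ) :
    blg P (fun s => -(z * Q s)) = -(z * blg P Q) := by
  have h1 : ∀ s, P s * (fun s => -(z * Q s)) s = -(z * (P s * Q s)) := fun s => by
    show P s * -(z * Q s) = _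
    ring
  unfold blg
  simp only [h1]
  rw [Finset.sum_neg_distrib, Finset.sum_neg_distrib, ← Finset.mul_sum, ← Finset.mul_sum]
  ring

/-- [NSK] -/
theorem thm_NSK (h1 : DWY.St_JNS) (_h2 : DWY.St_CxA) : St_NSK := by
  intro Y d α β _ _ _ _ T S Tp Tm Ta Tb κ L hN
  have hpol : ∀ u v, Y.pol u v = (Real.pi : ℂ) * (
      blg (fun s => XX Y T S u (s, ())) (fun s => XT Y T S v (s, ())) -
      blg (fun s => XX Y T S v (s, ())) (fun s => XT Y T S u (s, ()))) := by
    intro u v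
    rw [NSK_blg, NSK_pol Y T S hN.st]
  refine ⟨hpol, ?_⟩
  obtain ⟨J, hJe, hJsq, hJX, hJT⟩ := h1 Y d α β T S Tp Tm Ta Tb κ L hN
  obtain ⟨J', hJ'⟩ : ∃ f : Module.End ℂ Y.H1, ∀ y, f y = J y :=
    ⟨hJe.linear.mk' J, fun y => rfl⟩
  have he : (⇑J' : Y.H1 → Y.H1) = J := funext hJ'
  refine ⟨J', ⟨hN.pos, ?_, ?_, ?_⟩, ?_, ?_⟩
  · rw [he]; exact hJe
  · intro v
    rw [hJ', hJ', hJsq]
  · intro u v
    rw [hJ', hJ', hpol, hpol]
    have e1 : ∀ w, (fun s => XX Y T S (J w) (s, ())) = fun s => zd d * XX Y T S w (s, ()) :=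
      fun w => funext fun s => hJX w _
    have e2 : ∀ w, (fun s => XT Y T S (J w) (s, ())) = fun s => -(zd d * XT Y T S w (s, ())) :=
      fun w => funext fun s => hJT w _
    rw [e1, e1, e2, e2, NSK_blg_l, NSK_blg_l, NSK_blg_r, NSK_blg_r]
    ring
  · intro v p
    rw [hJ', hJX]
  · intro v p
    rw [hJ', hJT]

end DWG
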