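import Pool.Agent.DWG.St

/-!
# DWG, [NTw]: a twisted homomorphism and the comparison operators
-/

set_option autoImplicit false

namespace DWG

open scoped ComplexConjugate
open Module
open GAM (H E F pd pdl PLat IsTh OddTor IsDel Gro IsLat)
open PST DWC DWZ
open DWY (cx cy XX XT NS d4 qb)
open Pool.Agent.GPC (AbVar hermForm bilForm)
open Pool.Agent.Helper7 (pData nabla nabla_add nabla_smul map_nabla opN_apply mem_pData_Q
  single_deRham derivation_eq_zero)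

private theorem NTw_sq {d : ℚ} (hd : 0 < d) : zd d * zd d = -(d : ℂ) := by
  have h1 : (0 : ℝ) ≤ (d : ℝ) := by exact_mod_cast hd.le
  have h2 : ((Real.sqrt (d : ℝ) : ℝ) : ℂ) * ((Real.sqrt (d : ℝ) : ℝ) : ℂ) = (d : ℂ) := by
    rw [← Complex.ofReal_mul, Real.mul_self_sqrt h1]
    simp
  unfold zd
  calc (Real.sqrt (d : ℝ) : ℂ) * Complex.I * ((Real.sqrt (d : ℝ) : ℂ) * Complex.I)
      = ((Real.sqrt (d : ℝ) : ℂ) * (Real.sqrt (d : ℝ) : ℂ)) * (Complex.I * Complex.I) := by ring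
    _ = -(d : ℂ) := by rw [h2, Complex.I_mul_I]; ring

private theorem NTw_ne {d : ℚ} (hd : 0 < d) : zd d ≠ 0 := by
  intro h
  have h1 := NTw_sq hd
  rw [h, mul_zero] at h1
  have h2 : (d : ℂ) = 0 := by
    rw [← neg_eq_zero]
    exact h1.symm
  have h3 : d = 0 := by exact_mod_cast h2
  exact hd.ne' h3

private theorem NTw_alg {d : ℚ} (hd : 0 < d) : IsAlgebraic ℚ (zd d) := by
  have h1 : IsAlgebraic ℚ (zd d ^ 2) := by
    rw [pow_two, NTw_sq hd]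
    exact (isAlgebraic_ratCast ℚ d).neg
  exact h1.of_pow two_pos

/-- the projections on the eigenspaces, up to the factor `1 / 2` -/
private noncomputable def NTw_P {V W : Type*} [AddCommGroup V] [Module ℂ V] [AddCommGroup W]
    [Module ℂ W] (F : V →ₗ[ℂ] W) (J : Module.End ℂ V) (c z : ℂ) : V →ₗ[ℂ] W :=
  (c * (1 / 2)) • (F + z • (F ∘ₗ J))

private theorem NTw_P_apply {V W : Type*} [AddCommGroup V] [Module ℂ V] [AddCommGroup W]
    [Module ℂ W] (F : V →ₗ[ℂ] W) (J : Module.End ℂ V) (c z : ℂ) (v : V) :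
    NTw_P F J c z v = (c * (1 / 2)) • (F v + z • F (J v)) := rfl

private theorem NTw_algP (Y Y' : AbVar) (J : Module.End ℂ Y.H1) (F : Y.H1 →ₗ[ℂ] Y'.H1)
    (z c : ℂ) (hz : IsAlgebraic ℚ z) (hz0 : z ≠ 0) (hc : c ≠ 0)
    (hJ : ∀ v, Y.IsDeRham v → Y.IsDeRham (J v)) (hsq : ∀ v, J (J v) = (z * z) • v)
    (hF : ∀ v, Y.IsDeRham v → J v = z • v → ∃ w, Y'.IsDeRham w ∧ F v = c • w)
    (v : Y.H1) (hv : Y.IsDeRham v) : Y'.IsDeRham (NTw_P F J c⁻¹ z⁻¹ v) := by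
  have hw : Y.IsDeRham ((1 / 2 : ℂ) • (v + z⁻¹ • J v)) := by
    intro j
    have h2 : IsAlgebraic ℚ (1 / 2 : ℂ) := by
      have h3 := isAlgebraic_ratCast (A := ℂ) ℚ (1 / 2 : ℚ)
      have h4 : ((1 / 2 : ℚ) : ℂ) = 1 / 2 := by push_cast; ring
      rwa [h4] at h3
    show IsAlgebraic ℚ ((1 / 2 : ℂ) * (v j + z⁻¹ * J v j))
    exact h2.mul ((hv j).add (hz.inv.mul (hJ v hv j)))
  have he : J ((1 / 2 : ℂ) • (v + z⁻¹ • J v)) = z • ((1 / 2 : ℂ) • (v + z⁻¹ • J v)) := by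
    rw [map_smul, map_add, map_smul, hsq, smul_smul, smul_smul, smul_add, smul_add, smul_smul,
      smul_smul]
    have h3 : z⁻¹ * (z * z) = z := by rw [← mul_assoc, inv_mul_cancel₀ hz0, one_mul]
    have h4 : z * (1 / 2) * z⁻¹ = 1 / 2 := by
      rw [mul_comm z, mul_assoc, mul_inv_cancel₀ hz0, mul_one]
    rw [h3, h4, mul_comm z, add_comm]
  obtain ⟨w, hw1, hw2⟩ := hF _ hw he
  have h5 : NTw_P F J c⁻¹ z⁻¹ v = w := by
    have h6 : NTw_P F J c⁻¹ z⁻¹ v = c⁻¹ • F ((1 / 2 : ℂ) • (v + z⁻¹ • J v)) := by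
      rw [NTw_P_apply, map_smul, map_add, map_smul, smul_smul]
    rw [h6, hw2, smul_smul, inv_mul_cancel₀ hc, one_smul]
  rw [h5]
  exact hw1

/-- [NTw] -/
theorem thm_NTw : St_NTw := by
  intro Y Y' d J J' μ F hJ hJ' hμ hF δ v
  have hz0 : zd d ≠ 0 := NTw_ne hJ.pos
  have hza : IsAlgebraic ℚ (zd d) := NTw_alg hJ.pos
  have hsq : ∀ v, J (J v) = (zd d * zd d) • v := by
    intro v
    rw [NTw_sq hJ.pos]
    exact hJ.sq v
  have hsq' : ∀ v, J (J v) = (-zd d * -zd d) • v := by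
    intro v
    rw [neg_mul_neg]
    exact hsq v
  -- the algebraic parts
  have hA1 := NTw_algP Y Y' J F (zd d) μ hza hz0 hμ hJ.endo.deRham hsq hF.dp
  have hA2 := NTw_algP Y Y' J F (-zd d) μ⁻¹ hza.neg (neg_ne_zero.mpr hz0) (inv_ne_zero hμ)
    hJ.endo.deRham hsq' hF.dm
  rw [inv_inv] at hA2
  have hm1 := map_nabla (Pi.basisFun ℂ (Fin Y.g ⊕ Fin Y.g)) (Pi.basisFun ℂ (Fin Y'.g ⊕ Fin Y'.g))
    (NTw_P F J μ⁻¹ (zd d)⁻¹) (fun i k => by
      rw [Pi.basisFun_apply, Pi.basisFun_repr]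
      exact hA1 _ (single_deRham Y i) k) δ v
  have hm2 := map_nabla (Pi.basisFun ℂ (Fin Y.g ⊕ Fin Y.g)) (Pi.basisFun ℂ (Fin Y'.g ⊕ Fin Y'.g))
    (NTw_P F J μ (-zd d)⁻¹) (fun i k => by
      rw [Pi.basisFun_apply, Pi.basisFun_repr]
      exact hA2 _ (single_deRham Y i) k) δ v
  have hb := map_nabla (pData Y).bB (pData Y').bB F (fun i k => by
      obtain ⟨q, hq⟩ := (pData Y').repr_rat (F ((pData Y).bB i)) (by
        rw [mem_pData_Q]
        apply hF.betti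
        rw [← mem_pData_Q]
        exact (pData Y).basis_mem i) k
      rw [hq]
      exact isAlgebraic_ratCast ℚ q) δ v
  have hdec : ∀ w, F w = μ • NTw_P F J μ⁻¹ (zd d)⁻¹ w + μ⁻¹ • NTw_P F J μ (-zd d)⁻¹ w := by
    intro w
    rw [NTw_P_apply, NTw_P_apply, smul_smul, smul_smul, ← mul_assoc, ← mul_assoc,
      mul_inv_cancel₀ hμ, inv_mul_cancel₀ hμ, one_mul, inv_neg, ← smul_add]
    rw [neg_smul]
    have h1 : F w + (zd d)⁻¹ • F (J w) + (F w + -((zd d)⁻¹ • F (J w))) = (2 : ℂ) • F w := by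
      rw [two_smul]; abel
    rw [h1, smul_smul]
    norm_num
  have hdμ : δ μ⁻¹ = -(δ μ / μ / μ) := by
    have h1 : δ (μ * μ⁻¹) = 0 := by
      rw [mul_inv_cancel₀ hμ]
      exact δ.map_one_eq_zero
    rw [Derivation.leibniz, smul_eq_mul, smul_eq_mul] at h1
    field_simp
    field_simp at h1
    linear_combination h1
  have hde : nabla (Pi.basisFun ℂ (Fin Y'.g ⊕ Fin Y'.g)) δ (F v) =
      F (nabla (Pi.basisFun ℂ (Fin Y.g ⊕ Fin Y.g)) δ v) + (δ μ / μ / zd d) • J' (F v) := by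
    rw [hdec v, nabla_add, nabla_smul, nabla_smul, ← hm1, ← hm2, ← hdec v,
      hdec (nabla (Pi.basisFun ℂ (Fin Y.g ⊕ Fin Y.g)) δ v), ← hF.comm v]
    have h3 : δ μ • NTw_P F J μ⁻¹ (zd d)⁻¹ v + δ μ⁻¹ • NTw_P F J μ (-zd d)⁻¹ v =
        (δ μ / μ / zd d) • F (J v) := by
      rw [hdμ, NTw_P_apply, NTw_P_apply, smul_smul, smul_smul, inv_neg, neg_smul]
      have h4 : δ μ * (μ⁻¹ * (1 / 2)) = δ μ / μ * (1 / 2) := by
        rw [← mul_assoc]; rfl
      have h5 : -(δ μ / μ / μ) * (μ * (1 / 2)) = -(δ μ / μ * (1 / 2)) := by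
        field_simp
      rw [h4, h5, neg_smul, ← sub_eq_add_neg, ← smul_sub]
      have h6 : F v + (zd d)⁻¹ • F (J v) - (F v + -((zd d)⁻¹ • F (J v))) =
          (2 * (zd d)⁻¹) • F (J v) := by
        rw [mul_smul, two_smul]; abel
      rw [h6, smul_smul]
      congr 1
      rw [div_eq_mul_inv (δ μ / μ)]
      ring
    rw [← h3]
    abel
  show nabla (Pi.basisFun ℂ (Fin Y'.g ⊕ Fin Y'.g)) δ (F v) - nabla (pData Y').bB δ (F v) =
    F (nabla (Pi.basisFun ℂ (Fin Y.g ⊕ Fin Y.g)) δ v - nabla (pData Y).bB δ v) +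
      (δ μ / μ / zd d) • J' (F v)
  rw [hde, map_sub, hb]
  abel

end DWG
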