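import Pool.Agent.DWG.St

/-!
# DWG [O0]: degree `0`
-/

set_option autoImplicit false

namespace DWG

open scoped ComplexConjugate
open Module
open GAM (H E F pd pdl PLat IsTh OddTor IsDel Gro IsLat)
open PST DWC DWZ
open DWY (cx cy XX XT NS d4 qb)
open Pool.Agent.GPC (AbVar hermForm bilForm)
open Pool.Agent.Helper7 (pData)

theorem O0_mat {A B : Matrix (Unit ⊕ Empty) (Unit ⊕ Empty) ℂ}
    (h : A (Sum.inl ()) (Sum.inl ()) = B (Sum.inl ()) (Sum.inl ())) : A = B := by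
  ext i j
  rcases i with ⟨⟩ | i
  · rcases j with ⟨⟩ | j
    · exact h
    · exact j.elim
  · exact i.elim

theorem O0_Dz (m : ℂ) : Dz (m⁻¹ • (1 : Matrix Unit Unit ℂ)) (1 : Matrix Empty Empty ℂ) 0 =
    m⁻¹ • (1 : Matrix (Unit ⊕ Empty) (Unit ⊕ Empty) ℂ) := by
  apply O0_mat
  rw [Dz, Matrix.fromBlocks_multiply]
  simp

theorem O0_Jm : Jm Unit Empty = 1 := by
  apply O0_mat
  simp [Jm]

theorem O0_inv {m : ℂ} (hm : m ≠ 0) :
    (m⁻¹ • (1 : Matrix (Unit ⊕ Empty) (Unit ⊕ Empty) ℂ))⁻¹ = m • 1 := by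
  apply Matrix.inv_eq_right_inv
  rw [Matrix.smul_mul, Matrix.one_mul, smul_smul, inv_mul_cancel₀ hm, one_smul]

theorem O0_single (p : Unit ⊕ Empty) : (Pi.single p 1 : Unit ⊕ Empty → ℂ) = fun _ => 1 := by
  funext q
  rcases p with ⟨⟩ | p
  · rcases q with ⟨⟩ | q
    · exact Pi.single_eq_same _ _
    · exact q.elim
  · exact p.elim

theorem thm_O0 : St_O0 := by
  intro d m X J L hm hJ hL
  refine ⟨⟨fun _ i => i.elim0, ?_⟩, ?_, ?_⟩
  · refine ⟨fun p i => i.elim0, fun p => (O0_single p).symm, fun f w hw => ?_, fun c hc w hw p => ?_,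
      fun w hw h => ?_, fun w hw h b => b.elim⟩
    · rw [Fintype.sum_sum_type, Finset.univ_eq_empty (α := Empty), Finset.sum_empty, add_zero,
        Fintype.sum_unique, one_mul]
      exact congrArg f (funext fun i => i.elim0)
    · exact (map_one _).symm
    · obtain ⟨i, -⟩ := h
      exact i.elim0
  · rw [O0_Dz]
    refine ⟨?_, fun p => ⟨fun i => i.elim0, fun i => i.elim0, fun i => i.elim0, ?_⟩,
      fun p => ⟨fun i => i.elim0, fun i => i.elim0, fun i => i.elim0, ?_⟩⟩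
    · rw [Matrix.det_smul, Matrix.det_one, mul_one]
      exact pow_ne_zero _ (inv_ne_zero hm)
    · rw [O0_single, Matrix.smul_mulVec, Matrix.one_mulVec, smul_smul]
      funext q
      show (1 : ℂ) = m ^ (1 - ((0 : ℕ) : ℤ)) * m⁻¹ * 1
      rw [Nat.cast_zero, sub_zero, zpow_one, mul_inv_cancel₀ hm, mul_one]
    · rw [O0_single, O0_Jm, O0_inv hm, Matrix.transpose_smul, Matrix.transpose_one,
        Matrix.one_mul, Matrix.smul_mulVec, Matrix.one_mulVec, smul_smul]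
      funext q
      show (1 : ℂ) = ((Real.pi : ℂ) ^ 0)⁻¹ * m ^ (((0 : ℕ) : ℤ) - 1) * m * 1
      rw [pow_zero, inv_one, one_mul, Nat.cast_zero, zero_sub, zpow_neg_one, inv_mul_cancel₀ hm,
        mul_one]
  · refine ⟨fun y hy => ?_⟩
    obtain ⟨n, a, b, hn, h⟩ := hL y hy
    refine ⟨n, hn, ?_⟩
    rw [h]
    refine Submodule.subset_span ⟨fun i => i.elim0, a, b, fun i => i.elim0, ?_⟩
    funext p
    obtain ⟨⟨⟩ | p, ⟨⟩⟩ := p
    · show _ = (d4 d : ℂ) ^ (((0 : ℕ) : ℤ) - 1) * ((a : ℂ) + (b : ℂ) * zd d) * 1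
      rw [Nat.cast_zero, zero_sub, zpow_neg_one, mul_one]
    · exact p.elim

end DWG
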