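import Pool.Agent.DWG.St
import Pool.Agent.DWY.TLin
import Pool.Agent.Helper8.HomFil

/-!
# DWG [OKA]: the coordinates of the exterior powers
-/

set_option autoImplicit false

namespace DWG

open scoped ComplexConjugate
open Module
open GAM (H E F pd pdl PLat IsTh OddTor IsDel Gro IsLat)
open PST DWC DWZ
open DWY (cx cy XX XT NS d4 qb)
open Pool.Agent.GPC (AbVar hermForm bilForm)
open Pool.Agent.Helper7 (pData exists_bettiBasis isBetti_iff)

private lemma OKA_single (N : ℕ) (a s : Fin N ⊕ Unit) :
    (Pi.single (a, ()) (1 : ℂ) : IX N → ℂ) (s, ()) = (Pi.single a (1 : ℂ) : Fin N ⊕ Unit → ℂ) s := by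
  by_cases h : s = a
  · subst h
    rw [Pi.single_eq_same, Pi.single_eq_same]
  · rw [Pi.single_eq_of_ne h, Pi.single_eq_of_ne (fun hh => h (congrArg Prod.fst hh))]

theorem thm_OKA (h1 : DWZ.St_Lap) (h2 : DWZ.St_Wdv) (h3 : DWY.St_CxA) : St_OKA := by
  intro N k d m n M X Y J T S Tp Tm Ta Tb κ L T' S' Ta' Tb' LY hK hG
  obtain ⟨xl, yl, hs, hi, hF, hB, -⟩ := h3 X d (Fin N) Unit T S Tp Tm Ta Tb κ L hG.nx
  obtain ⟨-, hw1, -, hw2, -⟩ := h2 N k
  have hXX := DWY.TLin_XX_lin X T S xl yl
  have hXT := DWY.TLin_XT_lin X T S xl yl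
  have hsurj : ∀ x y : IX N → ℂ, ∃ v, XX X T S v = x ∧ XT X T S v = y := by
    intro x y
    obtain ⟨v, hv1, hv2⟩ := hs (fun p => Sum.elim (fun _ => x p) (fun _ => y p) p.1)
      (fun p => Sum.elim (fun _ => y p) (fun _ => x p) p.1)
    refine ⟨v, ?_, ?_⟩
    · funext p
      rcases p with ⟨i | j, t⟩
      · rw [DWY.TLin_XX_inl, hv1]; rfl
      · rw [DWY.TLin_XX_inr, hv2]; rfl
    · funext p
      rcases p with ⟨i | j, t⟩
      · rw [DWY.TLin_XT_inl, hv2]; rfl
      · rw [DWY.TLin_XT_inr, hv1]; rfl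
  have hinj : ∀ v, XX X T S v = 0 → XT X T S v = 0 → v = 0 := by
    intro v hv1 hv2
    apply hi
    · funext p
      rcases p with ⟨i | j, t⟩
      · rw [← DWY.TLin_XX_inl X T S v i t, hv1]
      · rw [← DWY.TLin_XT_inr X T S v j t, hv2]
    · funext p
      rcases p with ⟨i | j, t⟩
      · rw [← DWY.TLin_XT_inl X T S v i t, hv2]
      · rw [← DWY.TLin_XX_inr X T S v j t, hv1]
  have ext2 : ∀ v w : X.H1, XX X T S v = XX X T S w → XT X T S v = XT X T S w → v = w := by
    intro v w e1 e2
    apply sub_eq_zero.1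
    apply hinj
    · rw [hXX.map_sub, e1, sub_self]
    · rw [hXT.map_sub, e2, sub_self]
  have hz : zd d ≠ 0 := by
    have hd : (0 : ℝ) < (d : ℝ) := by exact_mod_cast hG.nx.pos
    rw [zd]
    refine mul_ne_zero ?_ Complex.I_ne_zero
    exact_mod_cast (Real.sqrt_pos.2 hd).ne'
  choose e he using fun s : Fin N ⊕ Unit =>
    hsurj (Pi.single (s, ()) 1) 0
  have hT0 : ∀ u, J u = zd d • u → XT X T S u = 0 := by
    intro u hu
    funext p
    have h4 := hG.jt u p
    rw [hu, hXT.map_smul, Pi.smul_apply, smul_eq_mul] at h4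
    have h5 : 2 * zd d * XT X T S u p = 0 := by linear_combination h4
    rcases mul_eq_zero.1 h5 with h6 | h6
    · exact absurd h6 (mul_ne_zero two_ne_zero hz)
    · exact h6
  have hkey : ∀ u, J u = zd d • u →
      u = Fintype.linearCombination ℂ e (fun s => XX X T S u (s, ())) := by
    intro u hu
    have hsum : ∀ (Λ : X.H1 →ₗ[ℂ] (IX N → ℂ)) (x : Fin N ⊕ Unit → ℂ) (p : IX N),
        Λ (Fintype.linearCombination ℂ e x) p = ∑ s, x s * Λ (e s) p := by
      intro Λ x p
      rw [Fintype.linearCombination_apply, map_sum, Finset.sum_apply]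
      refine Finset.sum_congr rfl fun s _ => ?_
      rw [map_smul, Pi.smul_apply, smul_eq_mul]
    apply ext2
    · funext p
      obtain ⟨s, t⟩ := p
      have h4 := hsum (hXX.mk' _) (fun s => XX X T S u (s, ())) (s, ())
      have h5 : ∀ v, (hXX.mk' _) v = XX X T S v := fun v => rfl
      rw [h5] at h4
      show XX X T S u (s, ()) = XX X T S (Fintype.linearCombination ℂ e
        (fun s => XX X T S u (s, ()))) (s, ())
      rw [h4, Finset.sum_eq_single s]
      · rw [h5, (he s).1, Pi.single_eq_same, mul_one]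
      · intro s' _ hs'
        rw [h5, (he s').1, Pi.single_eq_of_ne (fun hh => hs' (congrArg Prod.fst hh).symm),
          mul_zero]
      · intro h; exact absurd (Finset.mem_univ _) h
    · rw [hT0 u hu]
      funext p
      have h4 := hsum (hXT.mk' _) (fun s => XX X T S u (s, ())) p
      have h5 : ∀ v, (hXT.mk' _) v = XT X T S v := fun v => rfl
      rw [h5] at h4
      rw [h4]
      refine (Finset.sum_eq_zero fun s' _ => ?_).symm
      rw [h5, (he s').2, Pi.zero_apply, mul_zero]
  refine ⟨fun p i => e (ix N k p i), fun p i => ?_, fun p => ?_, fun f w hw => ?_,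
    fun c hc w hw p => ?_, fun w _ hw a => ?_, fun w _ hw b => ?_⟩
  · apply ext2
    · funext q
      rw [hG.jx, hXX.map_smul, Pi.smul_apply, smul_eq_mul]
    · funext q
      rw [hG.jt, hXT.map_smul, (he _).2, smul_zero, Pi.zero_apply, mul_zero, neg_zero]
  · rw [← hw1 p]
    unfold wX
    congr 1
    funext i s
    show XX X T S (e (ix N k p i)) (s, ()) = _
    rw [(he _).1, OKA_single]
  · have h4 := h1 N k ℂ (f.compLinearMap (Fintype.linearCombination ℂ e))
      (fun i s => XX X T S (w i) (s, ()))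
    have h5 : f.compLinearMap (Fintype.linearCombination ℂ e)
        (fun i s => XX X T S (w i) (s, ())) = f w := by
      rw [AlternatingMap.compLinearMap_apply]
      congr 1
      funext i
      exact (hkey (w i) (hw i)).symm
    rw [h5] at h4
    rw [h4]
    refine Finset.sum_congr rfl fun p _ => ?_
    rw [smul_eq_mul, AlternatingMap.compLinearMap_apply]
    congr 2
    funext i
    show Fintype.linearCombination ℂ e (Pi.single (ix N k p i) 1) = e (ix N k p i)
    rw [Fintype.linearCombination_apply_single, one_smul]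
  · have hcs : ∀ v : X.H1, XT X T S v = fun q => conj (XX X T S (c v) q) := by
      let Λ : X.H1 →ₗ[ℂ] (IX N → ℂ) :=
        { toFun := fun v q => conj (XX X T S (c v) q)
          map_add' := fun v v' => by
            funext q
            rw [hc.add, hXX.map_add, Pi.add_apply, Pi.add_apply, map_add]
          map_smul' := fun r v => by
            funext q
            rw [hc.smul, hXX.map_smul, Pi.smul_apply, Pi.smul_apply, smul_eq_mul, smul_eq_mul,
              map_mul, Complex.conj_conj, RingHom.id_apply] }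
      obtain ⟨ι, fι, b, hb⟩ := exists_bettiBasis X
      have hbB : ∀ i, X.IsBetti (b i) := by
        intro i
        rw [isBetti_iff, ← hb]
        exact Submodule.subset_span ⟨i, rfl⟩
      have hΛ : hXT.mk' _ = Λ := by
        refine b.ext fun i => ?_
        have h7 := ((hB (b i)).1 (hbB i)).1
        show XT X T S (b i) = fun q => conj (XX X T S (c (b i)) q)
        rw [hc.betti _ (hbB i)]
        funext q
        rcases q with ⟨q | q, t⟩
        · rw [DWY.TLin_XT_inl, DWY.TLin_XX_inl]; exact h7 _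
        · rw [DWY.TLin_XT_inr, DWY.TLin_XX_inr, h7, Complex.conj_conj]
      intro v
      exact congrArg (fun g : X.H1 →ₗ[ℂ] (IX N → ℂ) => g v) hΛ
    have h8 := congrFun (hw2 fun i s => XX X T S (c (w i)) (s, ())) p
    unfold wT wX
    rw [← h8]
    congr 1
    funext i s
    exact congrFun (hcs (w i)) (s, ())
  · obtain ⟨i, hi⟩ := hw
    have h4 := (hF (w i)).1 hi
    unfold wX wdv
    refine Matrix.det_eq_zero_of_row_eq_zero i fun j => ?_
    rw [Matrix.of_apply]
    show XX X T S (w i) (Sum.inl (a.1 j), ()) = 0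
    rw [DWY.TLin_XX_inl, h4, Pi.zero_apply]
  · unfold wT wdv
    refine Matrix.det_eq_zero_of_column_eq_zero (Fin.last k) fun i => ?_
    have h4 := (hF (w i)).1 (hw i)
    have h5 : ix N k (Sum.inr b) (Fin.last k) = Sum.inr () := by
      show Fin.snoc (α := fun _ => Fin N ⊕ Unit) (fun i => Sum.inl (b.1 i)) (Sum.inr ())
        (Fin.last k) = _
      rw [Fin.snoc_last]
    rw [Matrix.of_apply, h5]
    show XT X T S (w i) (Sum.inr (), ()) = 0
    rw [DWY.TLin_XT_inr, h4, Pi.zero_apply]

end DWG
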