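import Pool.Agent.DWG.St
import Pool.Agent.DWY.TLin

/-!
# DWG [OKB]: the Betti structures of the exterior powers
-/

set_option autoImplicit false

namespace DWG

open scoped ComplexConjugate
open Module
open GAM (H E F pd pdl PLat IsTh OddTor IsDel Gro IsLat)
open PST DWC DWZ
open DWY (cx cy XX XT NS d4 qb)
open Pool.Agent.GPC (AbVar hermForm bilForm)
open Pool.Agent.Helper7 (pData)

theorem thm_OKB (_h1 : DWZ.St_Wdv) (_h2 : DWZ.St_Act) (h3 : DWY.St_CxA) : St_OKB := by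
  intro N k d m n M X Y J T S Tp Tm Ta Tb κ L T' S' Ta' Tb' LY hK hG
  obtain ⟨xl, yl, hs, -, -, hB, -⟩ := h3 X d (Fin N) Unit T S Tp Tm Ta Tb κ L hG.nx
  have hXX := DWY.TLin_XX_lin X T S xl yl
  have hz : zd d ≠ 0 := by
    have hd : (0 : ℝ) < (d : ℝ) := by exact_mod_cast hG.nx.pos
    rw [zd]
    refine mul_ne_zero ?_ Complex.I_ne_zero
    exact_mod_cast (Real.sqrt_pos.2 hd).ne'
  have lift : ∀ x, x ∈ L → ∃ v, X.IsBetti v ∧ ∀ p, XX X T S v p = sw x p := by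
    intro x hx
    obtain ⟨v, hv1, hv2⟩ := hs x (fun p => conj (x p))
    refine ⟨v, (hB v).2 ⟨fun p => by rw [hv1, hv2], 1, one_ne_zero, ?_⟩, fun p => ?_⟩
    · rw [hv1, Nat.cast_one, one_smul]
      exact hx
    · rcases p with ⟨p | p, s⟩
      · rw [DWY.TLin_XX_inl, hv1]
        rfl
      · rw [DWY.TLin_XX_inr, hv2]
        rfl
  have hP : ∀ v p, XX X T S (Pz J (zd d) v) p = XX X T S v p := by
    intro v p
    have e1 : XX X T S (Pz J (zd d) v) =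
        (1 / 2 : ℂ) • (XX X T S v + (zd d)⁻¹ • XX X T S (J v)) := by
      unfold Pz
      rw [hXX.map_smul, hXX.map_add, hXX.map_smul]
    rw [e1]
    show (1 / 2 : ℂ) * (XX X T S v p + (zd d)⁻¹ * XX X T S (J v) p) = XX X T S v p
    rw [hG.jx, ← mul_assoc, inv_mul_cancel₀ hz]
    ring
  refine ⟨fun y hy => ⟨M, hG.cms.m0, ?_⟩⟩
  have h4 := hG.cms.onto y hy
  refine Submodule.span_le.2 ?_ h4
  rintro x ⟨l, hl, rfl⟩
  choose v hv hv2 using fun i => lift (l i) (hl i)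
  refine Submodule.subset_span ⟨v, (n : ℚ), 0, hv, ?_⟩
  have hw : wX N k X T S (fun i => Pz J (zd d) (v i)) =
      wdv N k (fun i s => sw (l i) (s, ())) := by
    unfold wX
    congr 1
    funext i s
    show XX X T S (Pz J (zd d) (v i)) (s, ()) = sw (l i) (s, ())
    rw [hP, hv2]
  have hd4 : (d4 d : ℂ) ^ (((k + 1 : ℕ) : ℤ) - 1) = (d4 d : ℂ) ^ k := by
    rw [Nat.cast_add, Nat.cast_one, add_sub_cancel_right, zpow_natCast]
  rw [hw, hd4]
  funext p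
  rcases p with ⟨p | p, s⟩
  · show (((n : ℝ) * d4 d ^ k : ℝ) : ℂ) * wdv N k (fun i s => sw (l i) (s, ())) (Sum.inl p) =
      (d4 d : ℂ) ^ k * (((n : ℚ) : ℂ) + ((0 : ℚ) : ℂ) * zd d) *
        wdv N k (fun i s => sw (l i) (s, ())) (Sum.inl p)
    push_cast
    ring
  · show (((n : ℝ) * d4 d ^ k : ℝ) : ℂ) *
        conj (wdv N k (fun i s => sw (l i) (s, ())) (Sum.inr p)) =
      conj ((d4 d : ℂ) ^ k * (((n : ℚ) : ℂ) + ((0 : ℚ) : ℂ) * zd d) *
        wdv N k (fun i s => sw (l i) (s, ())) (Sum.inr p))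
    have h5 : (d4 d : ℂ) ^ k * (((n : ℚ) : ℂ) + ((0 : ℚ) : ℂ) * zd d) =
        (((n : ℝ) * d4 d ^ k : ℝ) : ℂ) := by
      push_cast
      ring
    rw [h5, map_mul, Complex.conj_ofReal]

end DWG
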