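import Pool.Agent.DWG.St

/-!
# DWG, OKD: the de Rham structures of the exterior powers
-/

set_option autoImplicit false

namespace DWG

open scoped ComplexConjugate
open Module
open PST DWC DWZ
open DWY (cx cy XX XT NS d4 qb)
open Pool.Agent.GPC (AbVar hermForm bilForm)

private lemma OKD_unit (A : Matrix Unit Unit ℂ) : A⁻¹ () () = (A () ())⁻¹ := by
  rw [Matrix.inv_def, Matrix.adjugate_subsingleton, Matrix.det_unique, Ring.inverse_eq_inv',
    Matrix.smul_apply, Matrix.one_apply_eq, smul_eq_mul, mul_one]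

set_option linter.unusedSectionVars false

section blocks

variable {α β : Type} [Fintype α] [Fintype β] [DecidableEq α] [DecidableEq β]

private lemma OKD_blk_inl (A : Matrix α α ℂ) (B : Matrix β β ℂ) (x : Ix α β Unit → ℂ) (i : α) :
    (blk Unit A B).mulVec x (Sum.inl i, ()) = ∑ j, A i j * x (Sum.inl j, ()) := by
  simp [Matrix.mulVec, dotProduct, blk, Fintype.sum_prod_type, Fintype.sum_sum_type]

private lemma OKD_blk_inr (A : Matrix α α ℂ) (B : Matrix β β ℂ) (x : Ix α β Unit → ℂ) (i : β) :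
    (blk Unit A B).mulVec x (Sum.inr i, ()) = ∑ j, B i j * x (Sum.inr j, ()) := by
  simp [Matrix.mulVec, dotProduct, blk, Fintype.sum_prod_type, Fintype.sum_sum_type]

private lemma OKD_blkT_inl (A : Matrix α α ℂ) (B : Matrix β β ℂ) (x : Ix α β Unit → ℂ) (i : α) :
    (blk Unit A B).transpose.mulVec x (Sum.inl i, ()) =
      ∑ j, A.transpose i j * x (Sum.inl j, ()) := by
  simp [Matrix.mulVec, dotProduct, blk, Fintype.sum_prod_type, Fintype.sum_sum_type]

private lemma OKD_blkT_inr (A : Matrix α α ℂ) (B : Matrix β β ℂ) (x : Ix α β Unit → ℂ) (i : β) :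
    (blk Unit A B).transpose.mulVec x (Sum.inr i, ()) =
      ∑ j, B.transpose i j * x (Sum.inr j, ()) := by
  simp [Matrix.mulVec, dotProduct, blk, Fintype.sum_prod_type, Fintype.sum_sum_type]

private lemma OKD_qb_inl (κ : Matrix α β ℂ) (x : Ix α β Unit → ℂ) (i : α) :
    (qb κ).mulVec x (Sum.inl i, ()) = ∑ j, κ i j * x (Sum.inr j, ()) := by
  simp [Matrix.mulVec, dotProduct, qb, Fintype.sum_prod_type, Fintype.sum_sum_type]

private lemma OKD_qb_inr (κ : Matrix α β ℂ) (x : Ix α β Unit → ℂ) (i : β) :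
    (qb κ).mulVec x (Sum.inr i, ()) = ∑ j, κ j i * x (Sum.inl j, ()) := by
  simp [Matrix.mulVec, dotProduct, qb, Fintype.sum_prod_type, Fintype.sum_sum_type]

end blocks

/-! ## matrices -/

/-- the de Rham coordinates of the vectors of the first kind -/
private noncomputable def OKD_D (N : ℕ) (Tp : Matrix (Fin N) (Fin N) ℂ) (Tm : Matrix Unit Unit ℂ)
    (κ : Matrix (Fin N) Unit ℂ) : Matrix (Fin N ⊕ Unit) (Fin N ⊕ Unit) ℂ :=
  Matrix.fromBlocks Tp 0 0 (((Real.pi : ℂ) * Tm () ())⁻¹ • (1 : Matrix Unit Unit ℂ)) *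
    Matrix.fromBlocks 1 0 (-κ).transpose 1

/-- the inverse transpose -/
private noncomputable def OKD_E (N : ℕ) (Tp : Matrix (Fin N) (Fin N) ℂ) (Tm : Matrix Unit Unit ℂ)
    (κ : Matrix (Fin N) Unit ℂ) : Matrix (Fin N ⊕ Unit) (Fin N ⊕ Unit) ℂ :=
  Matrix.fromBlocks (Tp⁻¹).transpose 0 0 (((Real.pi : ℂ) * Tm () ()) • (1 : Matrix Unit Unit ℂ)) *
    Matrix.fromBlocks 1 κ 0 1

/-- the de Rham coordinates of the vectors of the second kind -/
private noncomputable def OKD_D' (N : ℕ) (Tp : Matrix (Fin N) (Fin N) ℂ)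
    (Tm : Matrix Unit Unit ℂ) (κ : Matrix (Fin N) Unit ℂ) :
    Matrix (Fin N ⊕ Unit) (Fin N ⊕ Unit) ℂ :=
  (Real.pi : ℂ)⁻¹ • (Jm (Fin N) Unit * OKD_E N Tp Tm κ * Jm (Fin N) Unit)

private lemma OKD_DE (N : ℕ) (Tp : Matrix (Fin N) (Fin N) ℂ) (Tm : Matrix Unit Unit ℂ)
    (κ : Matrix (Fin N) Unit ℂ) (hp : Tp.det ≠ 0) (hm : Tm () () ≠ 0) :
    (OKD_D N Tp Tm κ).transpose * OKD_E N Tp Tm κ = 1 := by
  have hπ : (Real.pi : ℂ) * Tm () () ≠ 0 :=
    mul_ne_zero (Complex.ofReal_ne_zero.2 Real.pi_ne_zero) hm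
  have h1 : Tp.transpose * (Tp⁻¹).transpose = 1 := by
    rw [← Matrix.transpose_mul, Matrix.nonsing_inv_mul _ (isUnit_iff_ne_zero.2 hp),
      Matrix.transpose_one]
  have h2 : (Matrix.fromBlocks Tp 0 0
      (((Real.pi : ℂ) * Tm () ())⁻¹ • (1 : Matrix Unit Unit ℂ))).transpose *
      Matrix.fromBlocks (Tp⁻¹).transpose 0 0
        (((Real.pi : ℂ) * Tm () ()) • (1 : Matrix Unit Unit ℂ)) = 1 := by
    rw [Matrix.fromBlocks_transpose, Matrix.fromBlocks_multiply]
    simp only [Matrix.transpose_zero, Matrix.zero_mul, Matrix.mul_zero, add_zero, zero_add, h1,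
      Matrix.transpose_smul, Matrix.transpose_one, Matrix.smul_mul, Matrix.mul_smul,
      Matrix.one_mul, smul_smul, mul_inv_cancel₀ hπ, one_smul, smul_zero, Matrix.fromBlocks_one]
  have h3 : (Matrix.fromBlocks (1 : Matrix (Fin N) (Fin N) ℂ) 0 (-κ).transpose
      (1 : Matrix Unit Unit ℂ)).transpose * Matrix.fromBlocks 1 κ 0 1 = 1 := by
    rw [Matrix.fromBlocks_transpose, Matrix.fromBlocks_multiply]
    simp
  rw [OKD_D, OKD_E, Matrix.transpose_mul, Matrix.mul_assoc, ← Matrix.mul_assoc _ _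
    (Matrix.fromBlocks 1 κ 0 1), h2, Matrix.one_mul, h3]

private lemma OKD_J2 (α β : Type) [Fintype α] [Fintype β] [DecidableEq α] [DecidableEq β] :
    Jm α β * Jm α β = 1 := by
  rw [Jm, Matrix.fromBlocks_multiply]
  simp

private lemma OKD_Jt (α β : Type) [Fintype α] [Fintype β] [DecidableEq α] [DecidableEq β] :
    (Jm α β).transpose = Jm α β := by
  rw [Jm, Matrix.fromBlocks_transpose]
  simp

/-- the exterior power of `D` -/
private lemma OKD_ekD (h1 : DWZ.St_Wdv) (h2 : DWZ.St_Blk) (N k : ℕ) (Tp : Matrix (Fin N) (Fin N) ℂ)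
    (Tm : Matrix Unit Unit ℂ) (κ : Matrix (Fin N) Unit ℂ) :
    ek N k (OKD_D N Tp Tm κ) = dRm N k Tp Tm κ := by
  have hB : ek N k (Matrix.fromBlocks 1 0 (-κ).transpose 1) =
      Matrix.fromBlocks 1 0 (-(rm N k fun i => κ i ()).transpose) 1 := by
    have e1 : ek N k (Matrix.fromBlocks 1 0 (-κ).transpose 1) *
        ek N k (Matrix.fromBlocks 1 0 κ.transpose 1) = 1 := by
      rw [← (h1 N k).2.2.2.2, Matrix.fromBlocks_multiply]
      simp only [Matrix.one_mul, Matrix.zero_mul, Matrix.mul_one, add_zero, zero_add,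
        Matrix.transpose_neg, neg_add_cancel, Matrix.fromBlocks_one, Matrix.mul_zero]
      exact (h2 N k).1
    have e2 : ek N k (Matrix.fromBlocks 1 0 κ.transpose 1) *
        Matrix.fromBlocks 1 0 (-(rm N k fun i => κ i ()).transpose) 1 = 1 := by
      rw [(h2 N k).2.2.2.1, Matrix.fromBlocks_multiply]
      simp
    calc ek N k (Matrix.fromBlocks 1 0 (-κ).transpose 1)
        = ek N k (Matrix.fromBlocks 1 0 (-κ).transpose 1) *
          (ek N k (Matrix.fromBlocks 1 0 κ.transpose 1) *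
            Matrix.fromBlocks 1 0 (-(rm N k fun i => κ i ()).transpose) 1) := by
          rw [e2, Matrix.mul_one]
      _ = _ := by rw [← Matrix.mul_assoc, e1, Matrix.one_mul]
  rw [OKD_D, (h1 N k).2.2.2.2, hB, (h2 N k).2.1, dRm]
  simp

private lemma OKD_smul (N k : ℕ) (c : ℂ) (g : Matrix (Fin N ⊕ Unit) (Fin N ⊕ Unit) ℂ) :
    ek N k (c • g) = c ^ (k + 1) • ek N k g := by
  ext p q
  simp only [ek, Matrix.of_apply, Matrix.smul_apply, smul_eq_mul]
  rw [Matrix.submatrix_smul, Pi.smul_apply, Pi.smul_apply, Matrix.det_smul, Fintype.card_fin]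

private lemma OKD_ekD' (h1 : DWZ.St_Wdv) (h2 : DWZ.St_Blk) (N k : ℕ) (Tp : Matrix (Fin N) (Fin N) ℂ)
    (Tm : Matrix Unit Unit ℂ) (κ : Matrix (Fin N) Unit ℂ) :
    ek N k (OKD_D' N Tp Tm κ) = ((Real.pi : ℂ)⁻¹) ^ (k + 1) •
      (Jm (PI N (k + 1)) (PI N k) * ek N k (OKD_E N Tp Tm κ) * Jm (PI N (k + 1)) (PI N k)) := by
  rw [OKD_D', OKD_smul, (h1 N k).2.2.2.2, (h1 N k).2.2.2.2, (h2 N k).2.2.2.2.2]

/-- the coordinates of `D X` -/
private lemma OKD_Dm (N : ℕ) (Tp : Matrix (Fin N) (Fin N) ℂ) (Tm : Matrix Unit Unit ℂ)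
    (κ : Matrix (Fin N) Unit ℂ) (x : Fin N ⊕ Unit → ℂ) :
    (∀ i, (OKD_D N Tp Tm κ).mulVec x (Sum.inl i) = ∑ j, Tp i j * x (Sum.inl j)) ∧
    (OKD_D N Tp Tm κ).mulVec x (Sum.inr ()) = ((Real.pi : ℂ) * Tm () ())⁻¹ *
      (x (Sum.inr ()) - ∑ j, κ j () * x (Sum.inl j)) := by
  rw [OKD_D, Matrix.fromBlocks_multiply]
  refine ⟨fun i => ?_, ?_⟩
  · simp [Matrix.mulVec, dotProduct, Fintype.sum_sum_type]
  · simp only [Matrix.mulVec, dotProduct, Fintype.sum_sum_type, Matrix.fromBlocks_apply₂₁,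
      Matrix.fromBlocks_apply₂₂, Finset.univ_unique, Finset.sum_singleton,
      PUnit.default_eq_unit, Matrix.zero_mul, zero_add, Matrix.smul_mul, Matrix.one_mul,
      Matrix.mul_one, Matrix.smul_apply, Matrix.transpose_apply, Matrix.neg_apply, smul_eq_mul,
      Matrix.one_apply_eq, Matrix.mul_zero, mul_one]
    rw [mul_sub, Finset.mul_sum, sub_eq_neg_add, ← Finset.sum_neg_distrib]
    congr 1
    exact Finset.sum_congr rfl fun j _ => by ring

private lemma OKD_Dm' (N : ℕ) (Tp : Matrix (Fin N) (Fin N) ℂ) (Tm : Matrix Unit Unit ℂ)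
    (κ : Matrix (Fin N) Unit ℂ) (x : Fin N ⊕ Unit → ℂ) :
    (∀ i, (OKD_D' N Tp Tm κ).mulVec x (Sum.inl i) = (Real.pi : ℂ)⁻¹ *
      ∑ j, Tp⁻¹ j i * (x (Sum.inl j) - κ j () * x (Sum.inr ()))) ∧
    (OKD_D' N Tp Tm κ).mulVec x (Sum.inr ()) = Tm () () * x (Sum.inr ()) := by
  have hπ : (Real.pi : ℂ) ≠ 0 := Complex.ofReal_ne_zero.2 Real.pi_ne_zero
  have hJ : Jm (Fin N) Unit * OKD_E N Tp Tm κ * Jm (Fin N) Unit =
      Matrix.fromBlocks (Tp⁻¹).transpose (-((Tp⁻¹).transpose * κ)) 0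
        (((Real.pi : ℂ) * Tm () ()) • (1 : Matrix Unit Unit ℂ)) := by
    rw [OKD_E, Jm, Matrix.fromBlocks_multiply, Matrix.fromBlocks_multiply,
      Matrix.fromBlocks_multiply]
    simp
  rw [OKD_D', hJ]
  refine ⟨fun i => ?_, ?_⟩
  · simp only [Matrix.mulVec, dotProduct, Fintype.sum_sum_type, Matrix.smul_apply,
      Matrix.fromBlocks_apply₁₁, Matrix.fromBlocks_apply₁₂, Finset.univ_unique,
      Finset.sum_singleton, PUnit.default_eq_unit, Matrix.transpose_apply, Matrix.neg_apply,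
      smul_eq_mul, Matrix.mul_apply, mul_neg, neg_mul, ← sub_eq_add_neg]
    rw [Finset.mul_sum, Finset.mul_sum, Finset.sum_mul, ← Finset.sum_sub_distrib]
    exact Finset.sum_congr rfl fun j _ => by ring
  · simp only [Matrix.mulVec, dotProduct, Fintype.sum_sum_type, Matrix.smul_apply,
      Matrix.fromBlocks_apply₂₁, Matrix.fromBlocks_apply₂₂, Finset.univ_unique,
      Finset.sum_singleton, PUnit.default_eq_unit, Matrix.zero_apply, mul_zero, zero_mul,
      Finset.sum_const_zero, zero_add, Matrix.one_apply_eq, smul_eq_mul, mul_one]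
    rw [← mul_assoc, inv_mul_cancel₀ hπ, one_mul]

theorem thm_OKD (h1 : DWZ.St_Wdv) (h2 : DWZ.St_Blk) (_h3 : DWZ.St_Cmp) (h5 : DWZ.St_DCt)
    (h4 : DWY.St_CxA) : St_OKD := by
  intro N k d m n M X Y J T S Tp Tm Ta Tb κ L T' S' Ta' Tb' LY _ hY
  obtain ⟨lx, ly, sur, inj, -, -, dR⟩ := h4 X d (Fin N) Unit T S Tp Tm Ta Tb κ L hY.nx
  have hp : Tp.det ≠ 0 := hY.nx.dp
  have hm : Tm () () ≠ 0 := by
    have := hY.nx.dm
    rwa [Matrix.det_unique] at this
  have hπ : (Real.pi : ℂ) ≠ 0 := Complex.ofReal_ne_zero.2 Real.pi_ne_zero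
  have h0 : IsAlgebraic ℚ (0 : ℂ) := isAlgebraic_zero
  have hinj : ∀ v w, cx X T v = cx X T w → cy X S v = cy X S w → v = w := by
    intro v w e1 e2
    have := inj (v - w) (by rw [lx.map_sub, e1, sub_self]) (by rw [ly.map_sub, e2, sub_self])
    exact sub_eq_zero.1 this
  have hU : ∀ p : Ix (Fin N) Unit Unit, (∃ i, p = (Sum.inl i, ())) ∨ p = (Sum.inr (), ()) := by
    rintro ⟨i | i, j⟩
    · exact Or.inl ⟨i, rfl⟩
    · exact Or.inr rfl
  -- vectors of the first kind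
  have key1 : ∀ x : Fin N ⊕ Unit → ℂ, (∀ s, IsAlgebraic ℚ (x s)) → ∃ u : X.H1, X.IsDeRham u ∧
      J u = zd d • u ∧ ∀ s, XX X T S u (s, ()) = (OKD_D N Tp Tm κ).mulVec x s := by
    intro x hx
    let ζ : Ix (Fin N) Unit Unit → ℂ := fun p => Sum.elim (fun i => x (Sum.inl i)) (fun _ => 0) p.1
    let η : Ix (Fin N) Unit Unit → ℂ := fun p => Sum.elim (fun _ => 0) (fun _ => x (Sum.inr ())) p.1
    obtain ⟨u, ux, uy'⟩ := sur ((blk Unit Tp Tm).mulVec ζ) fun p => 1 / Real.pi *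
      (blk Unit Tp⁻¹ Tm⁻¹).transpose.mulVec (fun p' => η p' - (qb κ).mulVec ζ p') p
    have uy : ∀ p, cy X S u p = 1 / Real.pi *
      (blk Unit Tp⁻¹ Tm⁻¹).transpose.mulVec (fun p' => η p' - (qb κ).mulVec ζ p') p :=
      fun p => congrFun uy' p
    have ux1 : cx X T u (Sum.inr (), ()) = 0 := by
      rw [ux, OKD_blk_inr]
      simp [ζ]
    have uy1 : ∀ i, cy X S u (Sum.inl i, ()) = 0 := by
      intro i
      rw [uy, OKD_blkT_inl]
      simp [ζ, η, OKD_qb_inl]
    have ux2 : ∀ i, cx X T u (Sum.inl i, ()) = (OKD_D N Tp Tm κ).mulVec x (Sum.inl i) := by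
      intro i
      rw [ux, OKD_blk_inl, (OKD_Dm N Tp Tm κ x).1]
      simp [ζ]
    have uy2 : cy X S u (Sum.inr (), ()) = (OKD_D N Tp Tm κ).mulVec x (Sum.inr ()) := by
      rw [uy, OKD_blkT_inr, (OKD_Dm N Tp Tm κ x).2]
      simp only [Finset.univ_unique, Finset.sum_singleton, PUnit.default_eq_unit,
        Matrix.transpose_apply, OKD_unit, OKD_qb_inr, ζ, η, Sum.elim_inl, Sum.elim_inr, mul_inv]
      ring
    have hT0 : ∀ p, XT X T S u p = 0 := by
      intro p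
      obtain ⟨i, rfl⟩ | rfl := hU p
      · exact uy1 i
      · exact ux1
    refine ⟨u, (dR u).2 ⟨ζ, η, ?_, ?_, ux, uy⟩, ?_, ?_⟩
    · rintro ⟨i | i, j⟩
      · exact hx _
      · exact h0
    · rintro ⟨i | i, j⟩
      · exact h0
      · exact hx _
    · refine hinj _ _ (funext fun p => ?_) (funext fun p => ?_)
      · rw [lx.map_smul]
        obtain ⟨i, rfl⟩ | rfl := hU p
        · exact hY.jx u (Sum.inl i, ())
        · have := hY.jt u (Sum.inr (), ())
          rw [hT0] at this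
          have e1 : cx X T (J u) (Sum.inr (), ()) = -(zd d * 0) := this
          rw [e1, Pi.smul_apply, ux1]
          simp
      · rw [ly.map_smul]
        obtain ⟨i, rfl⟩ | rfl := hU p
        · have := hY.jt u (Sum.inl i, ())
          rw [hT0] at this
          have e1 : cy X S (J u) (Sum.inl i, ()) = -(zd d * 0) := this
          rw [e1, Pi.smul_apply, uy1]
          simp
        · exact hY.jx u (Sum.inr (), ())
    · rintro (i | i)
      · exact ux2 i
      · exact uy2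
  -- vectors of the second kind
  have key2 : ∀ x : Fin N ⊕ Unit → ℂ, (∀ s, IsAlgebraic ℚ (x s)) → ∃ u : X.H1, X.IsDeRham u ∧
      J u = (-zd d) • u ∧ ∀ s, XT X T S u (s, ()) = (OKD_D' N Tp Tm κ).mulVec x s := by
    intro x hx
    let ζ : Ix (Fin N) Unit Unit → ℂ := fun p => Sum.elim (fun _ => 0) (fun _ => x (Sum.inr ())) p.1
    let η : Ix (Fin N) Unit Unit → ℂ := fun p => Sum.elim (fun i => x (Sum.inl i)) (fun _ => 0) p.1
    obtain ⟨u, ux, uy'⟩ := sur ((blk Unit Tp Tm).mulVec ζ) fun p => 1 / Real.pi *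
      (blk Unit Tp⁻¹ Tm⁻¹).transpose.mulVec (fun p' => η p' - (qb κ).mulVec ζ p') p
    have uy : ∀ p, cy X S u p = 1 / Real.pi *
      (blk Unit Tp⁻¹ Tm⁻¹).transpose.mulVec (fun p' => η p' - (qb κ).mulVec ζ p') p :=
      fun p => congrFun uy' p
    have ux1 : ∀ i, cx X T u (Sum.inl i, ()) = 0 := by
      intro i
      rw [ux, OKD_blk_inl]
      simp [ζ]
    have uy1 : cy X S u (Sum.inr (), ()) = 0 := by
      rw [uy, OKD_blkT_inr]
      simp [ζ, η, OKD_qb_inr]
    have ux2 : cx X T u (Sum.inr (), ()) = (OKD_D' N Tp Tm κ).mulVec x (Sum.inr ()) := by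
      rw [ux, OKD_blk_inr, (OKD_Dm' N Tp Tm κ x).2]
      simp [ζ]
    have uy2 : ∀ i, cy X S u (Sum.inl i, ()) = (OKD_D' N Tp Tm κ).mulVec x (Sum.inl i) := by
      intro i
      rw [uy, OKD_blkT_inl, (OKD_Dm' N Tp Tm κ x).1]
      simp only [Finset.univ_unique, Finset.sum_singleton, PUnit.default_eq_unit,
        Matrix.transpose_apply, OKD_qb_inl, ζ, η, Sum.elim_inl, Sum.elim_inr, one_div]
    have hT0 : ∀ p, XX X T S u p = 0 := by
      intro p
      obtain ⟨i, rfl⟩ | rfl := hU p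
      · exact ux1 i
      · exact uy1
    refine ⟨u, (dR u).2 ⟨ζ, η, ?_, ?_, ux, uy⟩, ?_, ?_⟩
    · rintro ⟨i | i, j⟩
      · exact h0
      · exact hx _
    · rintro ⟨i | i, j⟩
      · exact hx _
      · exact h0
    · refine hinj _ _ (funext fun p => ?_) (funext fun p => ?_)
      · rw [lx.map_smul]
        obtain ⟨i, rfl⟩ | rfl := hU p
        · have := hY.jx u (Sum.inl i, ())
          rw [hT0] at this
          have e1 : cx X T (J u) (Sum.inl i, ()) = zd d * 0 := this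
          rw [e1, Pi.smul_apply, ux1]
          simp
        · have := hY.jt u (Sum.inr (), ())
          have e1 : cx X T (J u) (Sum.inr (), ()) = -(zd d * cx X T u (Sum.inr (), ())) := this
          rw [e1, Pi.smul_apply, smul_eq_mul, neg_mul]
      · rw [ly.map_smul]
        obtain ⟨i, rfl⟩ | rfl := hU p
        · have := hY.jt u (Sum.inl i, ())
          have e1 : cy X S (J u) (Sum.inl i, ()) = -(zd d * cy X S u (Sum.inl i, ())) := this
          rw [e1, Pi.smul_apply, smul_eq_mul, neg_mul]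
        · have := hY.jx u (Sum.inr (), ())
          rw [hT0] at this
          have e1 : cy X S (J u) (Sum.inr (), ()) = zd d * 0 := this
          rw [e1, Pi.smul_apply, uy1]
          simp
    · rintro (i | i)
      · exact uy2 i
      · exact ux2
  have algs : ∀ (t s : Fin N ⊕ Unit), IsAlgebraic ℚ ((Pi.single t (1 : ℂ) : Fin N ⊕ Unit → ℂ) s) := by
    intro t s
    by_cases h : s = t
    · subst h
      rw [Pi.single_eq_same]
      exact isAlgebraic_one
    · rw [Pi.single_eq_of_ne h]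
      exact h0
  have algJ : ∀ (t s : Fin N ⊕ Unit),
      IsAlgebraic ℚ ((Jm (Fin N) Unit).mulVec (Pi.single t (1 : ℂ)) s) := by
    intro t s
    rw [Matrix.mulVec_single_one]
    show IsAlgebraic ℚ (Jm (Fin N) Unit s t)
    unfold Jm
    rcases s with s | s <;> rcases t with t | t
    · rw [Matrix.fromBlocks_apply₁₁, Matrix.one_apply]
      split_ifs
      · exact isAlgebraic_one
      · exact h0
    · rw [Matrix.fromBlocks_apply₁₂]
      exact h0
    · rw [Matrix.fromBlocks_apply₂₁]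
      exact h0
    · rw [Matrix.fromBlocks_apply₂₂, Matrix.neg_apply, Matrix.one_apply]
      split_ifs
      · exact isAlgebraic_one.neg
      · exact h0.neg
  choose uu u1 u2 u3 using fun t : Fin N ⊕ Unit => key1 (Pi.single t 1) (algs t)
  choose vv v1 v2 v3 using fun t : Fin N ⊕ Unit =>
    key2 ((Jm (Fin N) Unit).mulVec (Pi.single t 1)) (algJ t)
  have hwX : ∀ p, wX N k X T S (fun i => uu (ix N k p i)) =
      (dRm N k Tp Tm κ).mulVec (Pi.single p 1) := by
    intro p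
    rw [← OKD_ekD h1 h2, ← (h1 N k).2.1 p, ← (h1 N k).2.2.1]
    unfold wX
    congr 1
    funext i s
    exact u3 _ s
  have hwT : ∀ p, wT N k X T S (fun i => vv (ix N k p i)) =
      (ek N k (OKD_D' N Tp Tm κ * Jm (Fin N) Unit)).mulVec (Pi.single p 1) := by
    intro p
    rw [← (h1 N k).2.1 p, ← (h1 N k).2.2.1]
    unfold wT
    congr 1
    funext i s
    rw [← Matrix.mulVec_mulVec]
    exact v3 _ s
  -- the inverse
  have hGt : (dRm N k Tp Tm κ).transpose * ek N k (OKD_E N Tp Tm κ) = 1 := by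
    rw [← OKD_ekD h1 h2, ← ((h2 N k).2.2.2.2.1 _).1, ← (h1 N k).2.2.2.2, OKD_DE N Tp Tm κ hp hm,
      (h2 N k).1]
  have hG1 : (ek N k (OKD_E N Tp Tm κ)).transpose * dRm N k Tp Tm κ = 1 := by
    have := congrArg Matrix.transpose hGt
    rwa [Matrix.transpose_mul, Matrix.transpose_transpose, Matrix.transpose_one] at this
  have hG2 : dRm N k Tp Tm κ * (ek N k (OKD_E N Tp Tm κ)).transpose = 1 := mul_eq_one_comm.1 hG1
  have hmk : m ^ k ≠ 0 := pow_ne_zero _ hY.m0
  have hC0 : (cmp N k Tp).det ≠ 0 := ((h5 N k).2.2 0 Tp hp).1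
  have hD : Dz (DWZ.TpY N k m Tp) (DWZ.TmY N k m Tp Tm) (rm N k fun i => κ i ()) =
      m ^ k • dRm N k Tp Tm κ := by
    have hinv : (DWZ.TmY N k m Tp Tm)⁻¹ = (m ^ k * (Tm () ())⁻¹) • (cmp N k Tp).transpose := by
      apply Matrix.inv_eq_right_inv
      rw [DWZ.TmY, Matrix.smul_mul, Matrix.mul_smul, smul_smul, ← Matrix.transpose_mul,
        Matrix.mul_nonsing_inv _ (isUnit_iff_ne_zero.2 hC0), Matrix.transpose_one]
      have : (m⁻¹) ^ k * Tm () () * (m ^ k * (Tm () ())⁻¹) = 1 := by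
        rw [inv_pow]
        field_simp
      rw [this, one_smul]
    rw [Dz, hinv, DWZ.TpY, dRm, Matrix.transpose_smul, Matrix.transpose_transpose,
      ← Matrix.smul_mul, Matrix.fromBlocks_smul, smul_zero, smul_smul, smul_smul, smul_zero]
    congr 3
    rw [mul_inv]
    ring
  have hDinv : (Dz (DWZ.TpY N k m Tp) (DWZ.TmY N k m Tp Tm) (rm N k fun i => κ i ())) *
      ((m ^ k)⁻¹ • (ek N k (OKD_E N Tp Tm κ)).transpose) = 1 := by
    rw [hD, Matrix.smul_mul, Matrix.mul_smul, smul_smul, mul_inv_cancel₀ hmk, one_smul, hG2]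
  have hDi : (Dz (DWZ.TpY N k m Tp) (DWZ.TmY N k m Tp Tm) (rm N k fun i => κ i ()))⁻¹ =
      (m ^ k)⁻¹ • (ek N k (OKD_E N Tp Tm κ)).transpose := Matrix.inv_eq_right_inv hDinv
  have hz1 : m ^ (1 - ((k + 1 : ℕ) : ℤ)) = (m ^ k)⁻¹ := by
    rw [show (1 : ℤ) - ((k + 1 : ℕ) : ℤ) = -(k : ℤ) by push_cast; ring, zpow_neg, zpow_natCast]
  have hz2 : m ^ (((k + 1 : ℕ) : ℤ) - 1) = m ^ k := by
    rw [show ((k + 1 : ℕ) : ℤ) - 1 = (k : ℤ) by push_cast; ring, zpow_natCast]
  refine ⟨?_, ?_, ?_⟩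
  · exact (Matrix.isUnit_det_of_right_inverse hDinv).ne_zero
  · intro p
    refine ⟨fun i => uu (ix N k p i), fun i => u1 _, fun i => u2 _, ?_⟩
    rw [hwX, hD, hz1, Matrix.smul_mulVec, smul_smul, inv_mul_cancel₀ hmk, one_smul]
  · intro p
    refine ⟨fun i => vv (ix N k p i), fun i => v1 _, fun i => v2 _, ?_⟩
    have hc : ((Real.pi : ℂ) ^ (k + 1))⁻¹ * m ^ k * (m ^ k)⁻¹ = ((Real.pi : ℂ) ^ (k + 1))⁻¹ := by
      rw [mul_assoc, mul_inv_cancel₀ hmk, mul_one]
    have hJ : Jm (PI N (k + 1)) (PI N k) * ek N k (OKD_E N Tp Tm κ) * Jm (PI N (k + 1)) (PI N k) *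
        Jm (PI N (k + 1)) (PI N k) = Jm (PI N (k + 1)) (PI N k) * ek N k (OKD_E N Tp Tm κ) := by
      rw [Matrix.mul_assoc, OKD_J2, Matrix.mul_one]
    rw [hwT, (h1 N k).2.2.2.2, (h2 N k).2.2.2.2.2, OKD_ekD' h1 h2, hDi, hz2,
      Matrix.transpose_smul, Matrix.transpose_transpose, Matrix.mul_smul, Matrix.smul_mulVec,
      smul_smul, hc, Matrix.smul_mul, Matrix.smul_mulVec, hJ, inv_pow]

end DWG
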