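import Pool.Agent.DWG.St
import Pool.Agent.GAM.ThEx
import Pool.Agent.PST.UGr

/-!
# DWG [OpN]: the operator of the exterior power of degree `N + 1`
-/

set_option autoImplicit false

namespace DWG

open scoped ComplexConjugate
open Module
open GAM (H E F pd pdl PLat IsTh OddTor IsDel Gro IsLat)
open PST DWC DWZ
open DWY (cx cy XX XT NS d4 qb)
open Pool.Agent.GPC (AbVar hermForm bilForm)
open Pool.Agent.Helper7 (pData)

theorem OpN_empty (N : ℕ) : IsEmpty (PI N (N + 1)) := by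
  refine ⟨fun f => ?_⟩
  have h : Function.Injective f.1 := (show StrictMono f.1 from fun a b hab => f.2 a b hab).injective
  have h1 := Fintype.card_le_of_injective _ h
  rw [Fintype.card_fin, Fintype.card_fin] at h1
  omega

theorem OpN_sub (N : ℕ) : Subsingleton (PI N N) := by
  refine ⟨fun f g => Subtype.ext ?_⟩
  have hf : StrictMono f.1 := fun a b hab => f.2 a b hab
  have hg : StrictMono g.1 := fun a b hab => g.2 a b hab
  refine (StrictMono.range_inj hf hg).1 ?_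
  rw [(Finite.injective_iff_surjective.1 hf.injective).range_eq,
    (Finite.injective_iff_surjective.1 hg.injective).range_eq]

/-- the element of `PI N N` -/
def OpN_id (N : ℕ) : PI N N := ⟨fun i => i, fun _ _ h => h⟩

theorem OpN_ek (hD : DWZ.St_DetZ) (N : ℕ) (g : Matrix (Fin N ⊕ Unit) (Fin N ⊕ Unit) ℂ)
    (hg : g.det = 1) : ek N N g = 1 := by
  have h := hD N N g hg
  have he := OpN_empty N
  have hs := OpN_sub N
  have hu : Subsingleton (PI N (N + 1) ⊕ PI N N) := by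
    refine ⟨fun a b => ?_⟩
    rcases a with a | a
    · exact he.elim a
    · rcases b with b | b
      · exact he.elim b
      · exact congrArg Sum.inr (Subsingleton.elim a b)
  have h1 := Matrix.det_eq_elem_of_subsingleton (ek N N g) (Sum.inr (OpN_id N))
  rw [h] at h1
  ext i j
  rw [Subsingleton.elim i (Sum.inr (OpN_id N)), Subsingleton.elim j (Sum.inr (OpN_id N)), ← h1,
    Matrix.one_apply_eq]

theorem thm_OpN (h1 : DWZ.St_CmsK) (h2 : DWZ.St_HatZ) (h3 : DWZ.St_DetZ) (h5 : DWZ.St_DCt)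
    (h6 : DWY.St_HatX) (h8 : DWC.St_CoreH) (h9 : DWC.St_CocK) : St_OpN := by
  intro N X d T S Tp Tm Ta Tb κ g r q L₀ L₁ χ₀ χ₁ LY₀ LY₁ χY₀ χY₁ θY₀ A m hEM hNS hR hP₀ hP₁
    hPY₀ hPY₁ hL₁ hLY₁ hM hMY hg hTY₀ hzY₀ δ
  have he := OpN_empty N
  have hs := OpN_sub N
  have hne : Nonempty (PI N N) := ⟨OpN_id N⟩
  have hne' : Nonempty (PI N (N + 1) ⊕ PI N N) := ⟨Sum.inr (OpN_id N)⟩
  have hne'' : Nonempty (Fin N ⊕ Unit) := ⟨Sum.inr ()⟩
  obtain ⟨-, -, u3, -⟩ := thm_UGr (PI N (N + 1)) (PI N N) Unit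
  obtain ⟨hRY, -⟩ := h1 N N d r q hR
  have hek := OpN_ek h3 N g hg
  have hLY : IsLK d (rY N N d r) (qY N N d q) LY₀ := by
    have hE : LY₀ = LY₁ := by
      ext x
      rw [hMY.lat x, hek, u3]
    rw [hE]
    exact hLY₁
  obtain ⟨k', hk'⟩ := hEM.hat (PI N (N + 1)) (PI N N) (rY N N d r) (qY N N d q) LY₀ χY₀ θY₀ hRY
    hne' hPY₀ hLY hTY₀ hzY₀ δ
  obtain ⟨N₀, hN, hK₀⟩ := hNS.kl
  have hC₀ : CocH 12 L₀ := h9 (Fin N) Unit d N₀ L₀ χ₀ hNS.pos hN hP₀ hK₀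
  obtain ⟨θ₀, hT₀, hz₀⟩ := GAM.thm_ThEx (IX N) L₀ χ₀ hP₀
  obtain ⟨θ₁, hT₁, hz₁⟩ := GAM.thm_ThEx (IX N) L₁ χ₁ hP₁
  obtain ⟨k₀, hk₀⟩ := h6 X d (Fin N) Unit T S Tp Tm Ta Tb κ L₀ χ₀ θ₀ δ hNS hP₀ hT₀ hz₀
  obtain ⟨k₁, hk₁⟩ := hEM.hat (Fin N) Unit r q L₁ χ₁ θ₁ hR inferInstance hP₁ hL₁ hT₁ hz₁ δ
  have hdet : δ g.det = 0 := by
    rw [hg]
    exact Derivation.map_one_eq_zero δ
  have t1 := h8 (Fin N) Unit Unit δ g L₀ L₁ χ₀ θ₀ χ₁ θ₁ 12 k₀ k₁ _ _ _ _ _ _ ⟨()⟩ (by norm_num)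
    hP₀ hP₁ hT₀ hT₁ hz₀ hz₁ hM hdet hC₀ hk₀ hk₁
  have hmt : (Tm * Tm⁻¹.map δ).trace = (Tm * Tm⁻¹.map δ) () () := by
    simp [Matrix.trace]
  rw [Matrix.trace_smul, Matrix.trace_smul, Matrix.trace_one, Matrix.trace_one, smul_eq_mul,
    smul_eq_mul, hmt] at t1
  simp only [Fintype.card_fin, Fintype.card_unit, Nat.cast_one] at t1
  obtain ⟨d1, -, -⟩ := h5 N N
  have d3 := d1 (Tp * Tp⁻¹.map δ)
  have hc1 : Fintype.card (PI N N) = 1 := Fintype.card_eq_one_iff_nonempty_unique.2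
    ⟨⟨⟨OpN_id N⟩, fun a => Subsingleton.elim a _⟩⟩
  have hc2 : (dC N (N + 1) (Tp * Tp⁻¹.map δ)).trace = 0 := by
    rw [Matrix.trace, Finset.univ_eq_empty, Finset.sum_empty]
  have hc3 : (dC N N (Tp * Tp⁻¹.map δ)).trace =
      dC N N (Tp * Tp⁻¹.map δ) (OpN_id N) (OpN_id N) := by
    rw [Matrix.trace]
    exact Fintype.sum_subsingleton _ _
  rw [hc1, hc2, hc3, zero_add, Nat.cast_one, one_mul] at d3
  obtain ⟨-, -, y1, y2, y3⟩ := h2 N N δ Tp Tm κ m (A δ) hNS.dp hNS.dm hEM.m0 (hEM.del δ)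
  refine ⟨k', ?_⟩
  have z1 : TpY N N m Tp * (TpY N N m Tp)⁻¹.map δ = A δ • 1 := by
    ext i
    exact he.elim i
  have z3 : -(((TpY N N m Tp)⁻¹).transpose * (rm N N fun i => κ i ()).map δ *
      (TmY N N m Tp Tm)⁻¹) = 0 := by
    ext i
    exact he.elim i
  have z2 : TmY N N m Tp Tm * (TmY N N m Tp Tm)⁻¹.map δ = A δ • 1 := by
    rw [y2]
    ext i j
    rw [Subsingleton.elim i (OpN_id N), Subsingleton.elim j (OpN_id N), Matrix.sub_apply,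
      Matrix.smul_apply, Matrix.smul_apply, Matrix.one_apply_eq, Matrix.transpose_apply, d3,
      smul_eq_mul, smul_eq_mul, mul_one, mul_one]
    linear_combination -t1
  rw [z1, z2, z3]
  exact hk'

end DWG
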