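import Pool.Agent.DWG.St

/-!
# DWG [PairM]: the pairs of matrices
-/

set_option autoImplicit false

namespace DWG

open scoped ComplexConjugate
open Module
open GAM (H E F pd pdl PLat IsTh OddTor IsDel Gro IsLat)
open PST DWC DWZ
open DWY (cx cy XX XT NS d4 qb)
open Pool.Agent.GPC (AbVar hermForm bilForm)
open Pool.Agent.Helper7 (pData)

theorem thm_PairM (h1 : St_NSK) (h2 : St_FGm) (h3 : St_PairT) (h4 : DWY.St_CxA) : St_PairM := by
  intro d m hUT Y Y' α β α' β' _ _ _ _ _ _ _ _ T S Tp Tm Ta Tb κ L T' S' Tp' Tm' Ta' Tb' κ' L'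
    c ε A A'' B B'' hc hNS hNS' hε hAB hL hL' hA'' hB'' hAD hBD
  obtain ⟨hpol, J, hJ, hJX, hJT⟩ := h1 Y d α β T S Tp Tm Ta Tb κ L hNS
  obtain ⟨hpol', J', hJ', hJX', hJT'⟩ := h1 Y' d α' β' T' S' Tp' Tm' Ta' Tb' κ' L' hNS'
  have hπ : (Real.pi : ℂ) ≠ 0 := Complex.ofReal_ne_zero.mpr Real.pi_ne_zero
  have hμ : ((m ^ 2 / Real.pi) ^ c : ℂ) ≠ 0 := pow_ne_zero _ (div_ne_zero (pow_ne_zero _ hUT.m0) hπ)
  have hε0 : ε ≠ 0 := by
    rcases hε with h | h <;> rw [h] <;> norm_num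
  obtain ⟨F, G, hF, hG, hadj, hGX⟩ := h2 Y Y' d α β α' β' T S Tp Tm Ta Tb κ L T' S' Tp' Tm' Ta'
    Tb' κ' L' J J' _ ε A A'' B B'' hNS hNS' hJX hJT hJX' hJT' hpol hpol' hμ hε hAB hL hL' hA''
    hB'' hAD hBD
  obtain ⟨hp1, hp2, hp3⟩ := h3 d m hUT Y Y' J J' c ε F G hJ hJ' hc hε0 hF hG hadj
  obtain ⟨hcxl, hcyl, -, -, hfil, -, -⟩ := h4 Y d α β T S Tp Tm Ta Tb κ L hNS
  obtain ⟨hcxl', hcyl', hsur', hinj', hfil', -, -⟩ :=
    h4 Y' d α' β' T' S' Tp' Tm' Ta' Tb' κ' L' hNS'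
  -- the test vectors
  have key : ∀ p : α' ⊕ β', ∃ y : Y'.H1, J' y = zd d • y ∧
      (∀ s, XX Y' T' S' y (s, ()) = (Pi.single p (1 : ℂ) : α' ⊕ β' → ℂ) s) ∧
      ∀ s, XT Y' T' S' y s = 0 := by
    intro p
    obtain ⟨y, hy1, hy2⟩ := hsur'
      (fun q => Sum.elim (fun _ => (Pi.single p (1 : ℂ) : α' ⊕ β' → ℂ) q.1) (fun _ => 0) q.1)
      (fun q => Sum.elim (fun _ => 0) (fun _ => (Pi.single p (1 : ℂ) : α' ⊕ β' → ℂ) q.1) q.1)
    have hX : ∀ s, XX Y' T' S' y (s, ()) = (Pi.single p (1 : ℂ) : α' ⊕ β' → ℂ) s := by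
      rintro (s | s)
      · show cx Y' T' y (Sum.inl s, ()) = _
        rw [hy1]
        rfl
      · show cy Y' S' y (Sum.inr s, ()) = _
        rw [hy2]
        rfl
    have hT : ∀ s, XT Y' T' S' y s = 0 := by
      rintro ⟨s | s, u⟩
      · show cy Y' S' y (Sum.inl s, u) = _
        rw [hy2]
        rfl
      · show cx Y' T' y (Sum.inr s, u) = _
        rw [hy1]
        rfl
    refine ⟨y, ?_, hX, hT⟩
    rw [← sub_eq_zero]
    have ex : cx Y' T' (J' y - zd d • y) = cx Y' T' (J' y) - zd d • cx Y' T' y := by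
      rw [hcxl'.map_sub, hcxl'.map_smul]
    have ey : cy Y' S' (J' y - zd d • y) = cy Y' S' (J' y) - zd d • cy Y' S' y := by
      rw [hcyl'.map_sub, hcyl'.map_smul]
    apply hinj'
    · rw [ex]
      funext q
      rcases q with ⟨s | s, u⟩
      · have := hJX' y (Sum.inl s, u)
        rw [Pi.sub_apply, Pi.smul_apply, smul_eq_mul, Pi.zero_apply, sub_eq_zero]
        exact this
      · have h5 := hJT' y (Sum.inr s, u)
        have h6 := hT (Sum.inr s, u)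
        rw [h6, mul_zero, neg_zero] at h5
        have h5' : cx Y' T' (J' y) (Sum.inr s, u) = 0 := h5
        have h6' : cx Y' T' y (Sum.inr s, u) = 0 := h6
        rw [Pi.sub_apply, Pi.smul_apply, smul_eq_mul, Pi.zero_apply, h5', h6', mul_zero, sub_zero]
    · rw [ey]
      funext q
      rcases q with ⟨s | s, u⟩
      · have h5 := hJT' y (Sum.inl s, u)
        have h6 := hT (Sum.inl s, u)
        rw [h6, mul_zero, neg_zero] at h5
        have h5' : cy Y' S' (J' y) (Sum.inl s, u) = 0 := h5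
        have h6' : cy Y' S' y (Sum.inl s, u) = 0 := h6
        rw [Pi.sub_apply, Pi.smul_apply, smul_eq_mul, Pi.zero_apply, h5', h6', mul_zero, sub_zero]
      · have := hJX' y (Sum.inr s, u)
        rw [Pi.sub_apply, Pi.smul_apply, smul_eq_mul, Pi.zero_apply, sub_eq_zero]
        exact this
  have hB : ∀ (p : α' ⊕ β') (y : Y'.H1),
      (∀ s, XX Y' T' S' y (s, ()) = (Pi.single p (1 : ℂ) : α' ⊕ β' → ℂ) s) →
      ∀ s, XX Y T S (G y) (s, ()) = B s p := by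
    intro p y hy s
    rw [hGX, show (fun s => XX Y' T' S' y (s, ())) = (Pi.single p (1 : ℂ) : α' ⊕ β' → ℂ) from
      funext hy, Matrix.mulVec_single_one]
    rfl
  have hX0 : ∀ q, XX Y T S 0 q = 0 := by
    rintro ⟨s | s, u⟩
    · show cx Y T 0 (Sum.inl s, u) = 0
      rw [hcxl.map_zero]
      rfl
    · show cy Y S 0 (Sum.inr s, u) = 0
      rw [hcyl.map_zero]
      rfl
  refine ⟨fun i p => ?_, fun p j => ?_, fun hc2 => ?_⟩
  · obtain ⟨y, hy1, hy2, hy3⟩ := key p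
    have h5 := (hfil (G y)).mp (hp1 y hy1)
    rw [← hB p y hy2 (Sum.inl i)]
    show cx Y T (G y) (Sum.inl i, ()) = 0
    rw [h5]
    rfl
  · obtain ⟨y, hy1, hy2, hy3⟩ := key (Sum.inr j)
    have h5 : Y'.IsFil y := by
      rw [hfil']
      funext q
      rcases q with ⟨s | s, u⟩
      · have := hy2 (Sum.inl s)
        rw [Pi.single_eq_of_ne (by simp)] at this
        exact this
      · exact hy3 (Sum.inr s, u)
    rw [← hB (Sum.inr j) y hy2 p, hp2 y hy1 h5, hX0]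
  · ext s p
    obtain ⟨y, hy1, hy2, hy3⟩ := key p
    rw [← hB p y hy2 s, hp3 hc2 y, hX0]
    rfl

end DWG
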