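import Pool.Agent.DWG.St

/-!
# DWG, [PairT]: a pair of adjoint twisted homomorphisms
-/

set_option autoImplicit false

namespace DWG

open scoped ComplexConjugate
open Module
open GAM (H E F pd pdl PLat IsTh OddTor IsDel Gro IsLat)
open PST DWC DWZ
open DWY (cx cy XX XT NS d4 qb)
open Pool.Agent.GPC (AbVar hermForm bilForm)

private theorem PairT_swap (X : AbVar) (u v : X.H1) : X.pol u v = -X.pol v u := by
  unfold AbVar.pol
  rw [← Finset.sum_neg_distrib]
  exact Finset.sum_congr rfl fun a _ => by ring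

private theorem PairT_sub (X : AbVar) (u v w : X.H1) :
    X.pol u (v - w) = X.pol u v - X.pol u w := by
  unfold AbVar.pol
  rw [← Finset.sum_sub_distrib]
  refine Finset.sum_congr rfl fun a _ => ?_
  rw [Pi.sub_apply, Pi.sub_apply]
  ring

private theorem PairT_nd (X : AbVar) (w : X.H1) (h : ∀ u, X.pol u w = 0) : w = 0 := by
  funext j
  rcases j with a | a
  · have h1 := h (Pi.single (Sum.inr a) 1)
    unfold AbVar.pol at h1
    rw [Finset.sum_eq_single a] at h1
    · rw [Pi.single_eq_same, Pi.single_eq_of_ne (by simp), zero_mul, mul_one, zero_sub,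
        neg_eq_zero] at h1
      exact h1
    · intro b _ hb
      rw [Pi.single_eq_of_ne (by simp),
        Pi.single_eq_of_ne (fun hh => hb (Sum.inr_injective hh)), zero_mul, mul_zero, sub_zero]
    · intro h; exact absurd (Finset.mem_univ _) h
  · have h1 := h (Pi.single (Sum.inl a) 1)
    unfold AbVar.pol at h1
    rw [Finset.sum_eq_single a] at h1
    · rw [Pi.single_eq_same, Pi.single_eq_of_ne (by simp), mul_zero, one_mul, sub_zero] at h1
      exact h1
    · intro b _ hb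
      rw [Pi.single_eq_of_ne (fun hh => hb (Sum.inl_injective hh)),
        Pi.single_eq_of_ne (by simp), zero_mul, mul_zero, sub_zero]
    · intro h; exact absurd (Finset.mem_univ _) h

/-- membership in the eigenspace of `F^0` -/
private theorem PairT_mem (X : AbVar) (J : Module.End ℂ X.H1) (z : ℂ) (v : X.H1) :
    v ∈ X.filEigen J z ↔ J v = z • v ∧ X.IsFil v := by
  constructor
  · intro h
    refine Submodule.span_induction (p := fun v _ => J v = z • v ∧ X.IsFil v)
      (fun v hv => hv) ?_ ?_ ?_ h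
    · exact ⟨by rw [map_zero, smul_zero], fun a => rfl⟩
    · rintro v w _ _ ⟨h1, h2⟩ ⟨h3, h4⟩
      refine ⟨by rw [map_add, h1, h3, smul_add], fun a => ?_⟩
      rw [Pi.add_apply, h2 a, h4 a, add_zero]
    · rintro c v _ ⟨h1, h2⟩
      refine ⟨by rw [map_smul, h1, smul_comm], fun a => ?_⟩
      rw [Pi.smul_apply, h2 a, smul_zero]
  · intro h
    exact Submodule.subset_span h

theorem thm_PairT (h1 : St_EndT) (h2 : St_SymE) (h3 : St_KerT) (h4 : St_SubK) (h5 : St_DimK)
    (h6 : St_BijT) : St_PairT := by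
  intro d m hU Y Y' J J' c ε F G hJ hJ' hc hε hF hG hA
  obtain ⟨μ, hμ⟩ : ∃ μ : ℂ, μ = (m ^ 2 / Real.pi) ^ c := ⟨_, rfl⟩
  rw [← hμ] at hF hG
  have hμ0 : μ ≠ 0 := by
    rw [hμ]
    refine pow_ne_zero _ (div_ne_zero (pow_ne_zero _ hU.m0) ?_)
    exact_mod_cast Real.pi_ne_zero
  have hA' : ∀ x y, Y.pol (G y) x = ε⁻¹ * Y'.pol y (F x) := by
    intro x y
    have e1 := hA x y
    rw [PairT_swap Y, PairT_swap Y' y, e1]
    field_simp
  -- the symmetric endomorphism
  obtain ⟨S, hS⟩ : ∃ S : Module.End ℂ Y.H1, S = G ∘ₗ F := ⟨_, rfl⟩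
  have hSa : ∀ v, S v = G (F v) := fun v => by rw [hS]; rfl
  have hSf : (⇑S : Y.H1 → Y.H1) = fun v => G (F v) := funext hSa
  have hSE : Y.IsEnd S := by
    rw [hSf]
    exact h1 Y Y' d J J' μ F G hJ hJ' hμ0 hF hG
  have hSS : Y.IsAdjoint S S := by
    intro u v
    rw [hSa, hSa, hA' v (F u), hA u (F v), ← mul_assoc, inv_mul_cancel₀ hε, one_mul]
  obtain ⟨e, u, heE, huE, hee, huu, he2, huS, hSu, hSe, heu, hue, hcom⟩ := h2 Y S hSE hSS
  have ap : ∀ {f g : Module.End ℂ Y.H1}, f = g → ∀ v, f v = g v := fun h v => by rw [h]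
  have he2' : ∀ v, e (e v) = e v := ap he2
  have huS' : ∀ v, u (G (F v)) = e v := fun v => by rw [← hSa]; exact ap huS v
  have hSu' : ∀ v, G (F (u v)) = e v := fun v => by rw [← hSa]; exact ap hSu v
  have hSe' : ∀ v, G (F (e v)) = G (F v) := fun v => by
    rw [← hSa, ← hSa]; exact ap hSe v
  have heu' : ∀ v, e (u v) = u v := ap heu
  have hue' : ∀ v, u (e v) = u v := ap hue
  have hSJ : J * S = S * J := by
    refine LinearMap.ext fun v => ?_
    show J (S v) = S (J v)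
    rw [hSa, hSa, hF.comm, hG.comm]
  obtain ⟨hJe, hJu⟩ := hcom J hSJ
  have hJe' : ∀ v, J (e v) = e (J v) := ap hJe
  have hJu' : ∀ v, J (u v) = u (J v) := ap hJu
  -- `F e = F`
  have hFe : ∀ v, F (e v) = F v := by
    intro v
    have e1 := h3 Y Y' d J J' μ ε F G hJ hJ' hμ0 hε hF hG hA (v - e v) (by
      rw [map_sub, map_sub, hSe', sub_self])
    rw [map_sub, sub_eq_zero] at e1
    exact e1.symm
  -- `e G = G`
  have heG : ∀ y, e (G y) = G y := by
    intro y
    have e1 : G y - e (G y) = 0 := by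
      apply PairT_nd
      intro x
      rw [PairT_sub, ← hee x (G y)]
      have e2 := hA x y
      have e3 := hA (e x) y
      rw [hFe, e2] at e3
      rw [mul_left_cancel₀ hε e3, sub_self]
    exact (sub_eq_zero.1 e1).symm
  -- the idempotent of `Y'`
  obtain ⟨f, hf⟩ : ∃ f : Module.End ℂ Y'.H1, f = F ∘ₗ u ∘ₗ G := ⟨_, rfl⟩
  have hfa : ∀ y, f y = F (u (G y)) := fun y => by rw [hf]; rfl
  have hGf : ∀ y, G (f y) = G y := fun y => by rw [hfa, hSu', heG]
  have hfF : ∀ x, f (F x) = F x := fun x => by rw [hfa, huS', hFe]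
  have hff : f * f = f := by
    refine LinearMap.ext fun y => ?_
    show f (f y) = f y
    rw [hfa y, hfF]
  have hfadj : Y'.IsAdjoint f f := by
    intro x y
    rw [hfa, hfa, hA]
    have e1 : Y.pol (u (G x)) (G y) = Y.pol (G x) (u (G y)) := huu (G x) (G y)
    rw [e1, hA', ← mul_assoc, mul_inv_cancel₀ hε, one_mul]
  have huG : Tw Y' Y J' J (zd d) μ⁻¹ (u ∘ₗ G) := by
    refine ⟨fun y => ?_, fun y hy => huE.betti _ (hG.betti y hy), fun y hy hJy => ?_,
      fun y hy hJy => ?_⟩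
    · show u (G (J' y)) = J (u (G y))
      rw [hG.comm, hJu']
    · obtain ⟨w, hw, hw'⟩ := hG.dp y hy hJy
      refine ⟨u w, huE.deRham _ hw, ?_⟩
      show u (G y) = _
      rw [hw', map_smul]
    · obtain ⟨w, hw, hw'⟩ := hG.dm y hy hJy
      refine ⟨u w, huE.deRham _ hw, ?_⟩
      show u (G y) = _
      rw [hw', map_smul]
  have hfE : Y'.IsEnd f := by
    have hff' : (⇑f : Y'.H1 → Y'.H1) = fun y => F ((u ∘ₗ G) y) := funext hfa
    rw [hff']
    refine h1 Y' Y d J' J μ⁻¹ (u ∘ₗ G) F hJ' hJ (inv_ne_zero hμ0) huG ?_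
    rw [inv_inv]
    exact hF
  have hfJ : f * J' = J' * f := by
    refine LinearMap.ext fun y => ?_
    show f (J' y) = J' (f y)
    rw [hfa, hfa, hG.comm, ← hJu', hF.comm]
  -- the abelian subvarieties
  obtain ⟨Z, JZ, ι, π, hZ, hι, hπ, z1, z2, z3, z4⟩ := h4 Y d J e hJ heE hee he2 hJe.symm
  obtain ⟨Z', JZ', ι', π', hZ', hι', hπ', y1, y2, y3, y4⟩ := h4 Y' d J' f hJ' hfE hfadj hff hfJ
  have heι : ∀ y, e (ι y) = ι y := fun y => by rw [← z2, z1]
  have hfι : ∀ y, f (ι' y) = ι' y := fun y => by rw [← y2, y1]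
  have hTw : Tw Z Z' JZ JZ' (zd d) μ (π' ∘ₗ F ∘ₗ ι) := by
    refine ⟨fun y => ?_, fun y hy => hπ'.betti _ (hF.betti _ (hι.betti y hy)),
      fun y hy hJy => ?_, fun y hy hJy => ?_⟩
    · show π' (F (ι (JZ y))) = JZ' (π' (F (ι y)))
      rw [z3, hF.comm, y4]
    · obtain ⟨w, hw, hw'⟩ := hF.dp (ι y) (hι.deRham _ hy) (by rw [← z3, hJy, map_smul])
      refine ⟨π' w, hπ'.deRham _ hw, ?_⟩
      show π' (F (ι y)) = _
      rw [hw', map_smul]
    · obtain ⟨w, hw, hw'⟩ := hF.dm (ι y) (hι.deRham _ hy) (by rw [← z3, hJy, map_smul])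
      refine ⟨π' w, hπ'.deRham _ hw, ?_⟩
      show π' (F (ι y)) = _
      rw [hw', map_smul]
  have hbij : Function.Bijective (π' ∘ₗ F ∘ₗ ι) := by
    refine Function.bijective_iff_has_inverse.2 ⟨fun y => π (u (G (ι' y))), fun y => ?_,
      fun y => ?_⟩
    · show π (u (G (ι' (π' (F (ι y)))))) = y
      rw [y2, hfF, huS', heι, z1]
    · show π' (F (ι (π (u (G (ι' y)))))) = y
      rw [z2, heu', ← hfa, hfι, y1]
  rw [hμ] at hTw
  obtain ⟨b1, b2, b3⟩ := h6 d m hU Z Z' JZ JZ' c (π' ∘ₗ F ∘ₗ ι) hZ hZ' hc hTw hbij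
  obtain ⟨d1, d2⟩ := h5 Z d JZ hZ
  -- the eigenspace of `z` of `Z` is in `F^0`
  have hfil : ∀ v, JZ v = zd d • v → Z.IsFil v := by
    intro v hv
    have e1 : Z.filEigen JZ (zd d) ≤ LinearMap.ker (JZ - zd d • (1 : Module.End ℂ Z.H1)) := by
      intro w hw
      rw [PairT_mem] at hw
      rw [LinearMap.mem_ker, LinearMap.sub_apply, LinearMap.smul_apply, Module.End.one_apply,
        hw.1, sub_self]
    have e2 : finrank ℂ (Z.filEigen JZ (zd d)) =
        finrank ℂ (LinearMap.ker (JZ - zd d • (1 : Module.End ℂ Z.H1))) := by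
      rw [d2]
      omega
    have e3 := Submodule.eq_of_le_of_finrank_eq e1 e2
    have e4 : v ∈ Z.filEigen JZ (zd d) := by
      rw [e3, LinearMap.mem_ker, LinearMap.sub_apply, LinearMap.smul_apply, Module.End.one_apply,
        hv, sub_self]
    exact ((PairT_mem Z JZ (zd d) v).1 e4).2
  refine ⟨fun y hy => ?_, fun y hy hyF => ?_, fun hc2 y => ?_⟩
  · rw [← heG, ← z2]
    refine hι.hodge _ (hfil _ ?_)
    rw [← z4, ← hG.comm, hy, map_smul, map_smul]
  · have e1 : π' y ∈ Z'.filEigen JZ' (zd d) := by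
      rw [PairT_mem]
      refine ⟨?_, hπ'.hodge _ hyF⟩
      rw [← y4, hy, map_smul]
    rw [Submodule.finrank_eq_zero.1 b2, Submodule.mem_bot] at e1
    rw [← hGf, ← y2, e1, map_zero, map_zero]
  · have hg := b3 hc2
    have e1 : ∀ w : Z.H1, w = 0 := by
      intro w
      funext j
      rcases j with j | j <;> exact absurd (lt_of_lt_of_eq j.2 hg) (Nat.not_lt_zero _)
    rw [← heG, ← z2, e1 (π (G y)), map_zero]

end DWG
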