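import Pool.Agent.DWG.St
import Pool.Agent.Helper39.AF.SubMap

/-!
# DWG, [SubK]: the abelian subvariety of a symmetric idempotent
-/

set_option autoImplicit false

namespace DWG

open scoped ComplexConjugate
open Module
open GAM (H E F pd pdl PLat IsTh OddTor IsDel Gro IsLat)
open PST DWC DWZ
open DWY (cx cy XX XT NS d4 qb)
open Pool.Agent.GPC (AbVar hermForm bilForm)
open Pool.Agent.Helper7 (pData)

/-- [SubK] -/
theorem thm_SubK : St_SubK := by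
  intro X d J e hJ he hadj hid hcomm
  have hid' : ∀ v, e (e v) = e v := by
    intro v
    have h1 := congrArg (fun f : Module.End ℂ X.H1 => f v) hid
    exact h1
  have hcm : ∀ v, e (J v) = J (e v) := by
    intro v
    have h1 := congrArg (fun f : Module.End ℂ X.H1 => f v) hcomm
    exact h1
  obtain ⟨Z, ι, π, hι, hπ, h1, h2, h3⟩ :=
    Pool.Agent.Helper39.AF.sub_abVar X e he hid' hadj
  have hei : ∀ y, e (ι y) = ι y := by
    intro y
    rw [← h2, h1]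
  have hpe : ∀ x, π (e x) = π x := by
    intro x
    rw [← h2, h1]
  obtain ⟨ι', hι'⟩ : ∃ f : Z.H1 →ₗ[ℂ] X.H1, ∀ y, f y = ι y :=
    ⟨hι.linear.mk' ι, fun y => rfl⟩
  obtain ⟨π', hπ'⟩ : ∃ f : X.H1 →ₗ[ℂ] Z.H1, ∀ y, f y = π y :=
    ⟨hπ.linear.mk' π, fun y => rfl⟩
  have hιe : (⇑ι' : Z.H1 → X.H1) = ι := funext hι'
  have hπe : (⇑π' : X.H1 → Z.H1) = π := funext hπ'
  obtain ⟨JZ, hJZ⟩ : ∃ f : Module.End ℂ Z.H1, ∀ y, f y = π (J (ι y)) :=
    ⟨π' ∘ₗ J ∘ₗ ι', fun y => by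
      show π' (J (ι' y)) = π (J (ι y))
      rw [hι', hπ']⟩
  refine ⟨Z, JZ, ι', π', ?_, ?_, ?_, ?_, ?_, ?_, ?_⟩
  · refine ⟨hJ.pos, ⟨JZ.isLinear, ?_, ?_, ?_⟩, ?_, ?_⟩
    · intro v hv
      rw [hJZ]
      exact hπ.betti _ (hJ.endo.betti _ (hι.betti _ hv))
    · intro v hv
      rw [hJZ]
      exact hπ.deRham _ (hJ.endo.deRham _ (hι.deRham _ hv))
    · intro v hv
      rw [hJZ]
      exact hπ.hodge _ (hJ.endo.hodge _ (hι.hodge _ hv))
    · intro v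
      rw [hJZ, hJZ, h2, hcm, hei, hJ.sq, ← hπ', map_smul, hπ', h1]
    · intro u v
      rw [← h3, ← h3, hJZ, hJZ, h2, h2, hadj, hei, ← hadj, hei]
      exact hJ.adj _ _
  · rw [hιe]; exact hι
  · rw [hπe]; exact hπ
  · intro y
    rw [hι', hπ', h1]
  · intro x
    rw [hι', hπ', h2]
  · intro y
    rw [hι', hι', hJZ, h2, hcm, hei]
  · intro x
    rw [hπ', hπ', hJZ, h2, ← hcm, hpe]

end DWG
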