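import Pool.Agent.DWG.St
import Pool.Agent.Helper71.AF.Cases

/-!
# DWG, [SymE]: the pseudo inverse of a symmetric endomorphism
-/

set_option autoImplicit false

namespace DWG

open scoped ComplexConjugate
open Module
open Pool.Agent.GPC (AbVar hermForm bilForm)
open Pool.Agent.Helper7 (pData isEnd_of_isDRB isDRB_of_isEnd)
open Pool.Agent.Helper71.AF

theorem SymE_ker (X : AbVar) (S : Module.End ℂ X.H1) (hE : X.IsEnd S) (hS : X.IsAdjoint S S) :
    ∀ v, S (S v) = 0 → S v = 0 := by
  have hk2 : ∀ a ∈ VR X, S (S a) = 0 → S a = 0 := by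
    intro a ha h0
    by_contra hne
    have h1 := hf_adj X S S hE hE hS (u := a) (v := S a) ha (VR_map X _ hE.betti ha)
    rw [h0] at h1
    have h3 : hf X a 0 = 0 := by
      have h4 : hf X a 0 = conj (hf X 0 a) := hf_symm X 0 a
      have h5 : hf X 0 a = 0 := by
        show hermForm X.H (X.zz 0) (X.zz a) = 0
        rw [map_zero]
        simp [hermForm]
      rw [h4, h5, map_zero]
    rw [h3] at h1
    have h6 := hf_pos X (VR_map X S hE.betti ha) hne
    have h7 : (hf X (S a) (S a)).re = 0 := by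
      rw [h1]; rfl
    exact absurd h7 h6.ne'
  intro v hv
  obtain ⟨a, ha, b, hb, rfl⟩ := exists_decomp X v
  rw [map_add, map_smul, map_add, map_smul] at hv
  obtain ⟨h1, h2⟩ := VR_disjoint X
    (VR_map X _ hE.betti (VR_map X _ hE.betti ha))
    (VR_map X _ hE.betti (VR_map X _ hE.betti hb)) hv
  rw [map_add, map_smul, hk2 a ha h1, hk2 b hb h2, smul_zero, add_zero]

theorem SymE_mem (X : AbVar) (S : Module.End ℂ X.H1) (hE : X.IsEnd S) (q : Polynomial ℚ) :
    X.IsEnd (Polynomial.aeval S q) := by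
  apply isEnd_of_isDRB X
  have h1 : Polynomial.aeval S q ∈ Algebra.adjoin ℚ {S} :=
    Polynomial.aeval_mem_adjoin_singleton ℚ S
  have h2 : Algebra.adjoin ℚ {S} ≤ DD (pData X) := by
    apply Algebra.adjoin_le
    intro T hT
    rw [Set.mem_singleton_iff] at hT
    rw [hT]
    exact isDRB_of_isEnd X S hE
  exact h2 h1

theorem SymE_comm (X : AbVar) (S f : Module.End ℂ X.H1) (hf : f * S = S * f)
    (q : Polynomial ℚ) : f * Polynomial.aeval S q = Polynomial.aeval S q * f := by
  have h1 : Polynomial.aeval S q ∈ Algebra.adjoin ℚ {S} :=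
    Polynomial.aeval_mem_adjoin_singleton ℚ S
  have h2 : Algebra.adjoin ℚ {S} ≤ Subalgebra.centralizer ℚ {f} := by
    apply Algebra.adjoin_le
    rintro _ rfl
    rw [SetLike.mem_coe, Subalgebra.mem_centralizer_iff]
    rintro _ rfl
    exact hf
  exact (Subalgebra.mem_centralizer_iff ℚ).mp (h2 h1) f rfl

theorem SymE_add_l (X : AbVar) (u v w : X.H1) :
    X.pol (u + v) w = X.pol u w + X.pol v w := by
  unfold AbVar.pol
  rw [← Finset.sum_add_distrib]
  refine Finset.sum_congr rfl fun a _ => ?_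
  rw [Pi.add_apply, Pi.add_apply]
  ring

theorem SymE_add_r (X : AbVar) (u v w : X.H1) :
    X.pol u (v + w) = X.pol u v + X.pol u w := by
  unfold AbVar.pol
  rw [← Finset.sum_add_distrib]
  refine Finset.sum_congr rfl fun a _ => ?_
  rw [Pi.add_apply, Pi.add_apply]
  ring

theorem SymE_smul_l (X : AbVar) (c : ℂ) (u v : X.H1) :
    X.pol (c • u) v = c * X.pol u v := by
  unfold AbVar.pol
  rw [Finset.mul_sum]
  refine Finset.sum_congr rfl fun a _ => ?_
  rw [Pi.smul_apply, Pi.smul_apply, smul_eq_mul, smul_eq_mul]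
  ring

theorem SymE_smul_r (X : AbVar) (c : ℂ) (u v : X.H1) :
    X.pol u (c • v) = c * X.pol u v := by
  unfold AbVar.pol
  rw [Finset.mul_sum]
  refine Finset.sum_congr rfl fun a _ => ?_
  rw [Pi.smul_apply, Pi.smul_apply, smul_eq_mul, smul_eq_mul]
  ring

theorem SymE_pow (X : AbVar) (S : Module.End ℂ X.H1) (hS : X.IsAdjoint S S) (m : ℕ) :
    X.IsAdjoint (S ^ m : Module.End ℂ X.H1) (S ^ m : Module.End ℂ X.H1) := by
  induction m with
  | zero =>
    intro u v
    rw [pow_zero]
    rfl
  | succ m ih =>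
    intro u v
    have h1 : (S ^ (m + 1) : Module.End ℂ X.H1) u = (S ^ m : Module.End ℂ X.H1) (S u) := by
      rw [pow_succ, Module.End.mul_apply]
    have h2 : (S ^ (m + 1) : Module.End ℂ X.H1) v = S ((S ^ m : Module.End ℂ X.H1) v) := by
      rw [pow_succ', Module.End.mul_apply]
    rw [h1, h2, ih, hS]

theorem SymE_sym (X : AbVar) (S : Module.End ℂ X.H1) (hS : X.IsAdjoint S S)
    (q : Polynomial ℚ) : X.IsAdjoint (Polynomial.aeval S q) (Polynomial.aeval S q) := by
  induction q using Polynomial.induction_on' with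
  | add p q hp hq =>
    intro u v
    rw [map_add, LinearMap.add_apply, LinearMap.add_apply, SymE_add_l, SymE_add_r, hp, hq]
  | monomial m a =>
    intro u v
    have h1 : ∀ w : X.H1, Polynomial.aeval S (Polynomial.monomial m a) w =
        (a : ℂ) • ((S ^ m : Module.End ℂ X.H1) w) := by
      intro w
      rw [Polynomial.aeval_monomial, Module.End.mul_apply, Algebra.algebraMap_eq_smul_one,
        LinearMap.smul_apply, Module.End.one_apply]
      funext j
      rw [Pi.smul_apply, Pi.smul_apply, Algebra.smul_def, smul_eq_mul, eq_ratCast]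
    rw [h1, h1, SymE_smul_l, SymE_smul_r, SymE_pow X S hS m u v]

theorem SymE_rel (X : AbVar) (S : Module.End ℂ X.H1) (hE : X.IsEnd S) (hS : X.IsAdjoint S S) :
    ∃ q : Polynomial ℚ, S * (1 - S * Polynomial.aeval S q) = 0 := by
  classical
  have hfin := finite_DD (pData X)
  have hint : IsIntegral ℚ S := by
    have h1 := (Algebra.IsIntegral.of_finite ℚ (DD (pData X))).isIntegral
      (⟨S, isDRB_of_isEnd X S hE⟩ : DD (pData X))
    exact h1.map (DD (pData X)).val
  obtain ⟨p, hpm, hp⟩ := hint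
  have hp0 : p ≠ 0 := hpm.ne_zero
  obtain ⟨r, hr, hndvd⟩ := Polynomial.exists_eq_pow_rootMultiplicity_mul_and_not_dvd p hp0 0
  obtain ⟨k, hk⟩ : ∃ k, k = Polynomial.rootMultiplicity 0 p := ⟨_, rfl⟩
  rw [← hk, Polynomial.C_0, sub_zero] at hr
  rw [Polynomial.C_0, sub_zero] at hndvd
  have hr0 : r.coeff 0 ≠ 0 := by
    intro h0
    exact hndvd (Polynomial.X_dvd_iff.mpr h0)
  have hSR : S * Polynomial.aeval S r = 0 := by
    have h1 : S ^ k * Polynomial.aeval S r = 0 := by
      have h2 : Polynomial.aeval S p = 0 := by rw [Polynomial.aeval_def]; exact hp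
      rw [hr, map_mul, map_pow, Polynomial.aeval_X] at h2
      exact h2
    have h5 : ∀ (m : ℕ) (w : X.H1), (S ^ m : Module.End ℂ X.H1) w = 0 → S w = 0 := by
      intro m
      induction m with
      | zero =>
        intro w hw
        rw [pow_zero, Module.End.one_apply] at hw
        rw [hw, map_zero]
      | succ m ih =>
        intro w hw
        rw [pow_succ, Module.End.mul_apply] at hw
        exact SymE_ker X S hE hS w (ih _ hw)
    apply LinearMap.ext
    intro v
    rw [Module.End.mul_apply, LinearMap.zero_apply]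
    apply h5 k
    have h6 := congrArg (fun g : Module.End ℂ X.H1 => g v) h1
    exact h6
  obtain ⟨c, hc⟩ : ∃ c, c = r.coeff 0 := ⟨_, rfl⟩
  rw [← hc] at hr0
  have hh : r = Polynomial.C c + Polynomial.X * r.divX := by
    rw [hc, mul_comm, add_comm]
    exact (Polynomial.divX_mul_X_add r).symm
  refine ⟨Polynomial.C (-c⁻¹) * r.divX, ?_⟩
  have h3 : (1 : Module.End ℂ X.H1) - S * Polynomial.aeval S (Polynomial.C (-c⁻¹) * r.divX) =
      Polynomial.aeval S (Polynomial.C c⁻¹ * r) := by
    have h4 : Polynomial.C c⁻¹ * r =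
        1 - Polynomial.X * (Polynomial.C (-c⁻¹) * r.divX) := by
      have h5 : Polynomial.C c⁻¹ * Polynomial.C c = 1 := by
        rw [← Polynomial.C_mul, inv_mul_cancel₀ hr0, Polynomial.C_1]
      have h6 : Polynomial.C (-c⁻¹) = -Polynomial.C c⁻¹ := by rw [Polynomial.C_neg]
      rw [h6]
      calc Polynomial.C c⁻¹ * r = Polynomial.C c⁻¹ * (Polynomial.C c + Polynomial.X * r.divX) := by
            rw [← hh]
        _ = Polynomial.C c⁻¹ * Polynomial.C c + Polynomial.C c⁻¹ * (Polynomial.X * r.divX) := by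
            ring
        _ = 1 - Polynomial.X * (-Polynomial.C c⁻¹ * r.divX) := by
            rw [h5]
            ring
    rw [h4, map_sub, map_one, map_mul (Polynomial.aeval S) Polynomial.X, Polynomial.aeval_X]
  rw [h3, map_mul, Polynomial.aeval_C, ← mul_assoc, ← Algebra.commutes, mul_assoc, hSR, mul_zero]

theorem thm_SymE : St_SymE := by
  intro X S hE hS
  obtain ⟨q, hq⟩ := SymE_rel X S hE hS
  obtain ⟨Q, hQ⟩ : ∃ Q : Module.End ℂ X.H1, Q = Polynomial.aeval S q := ⟨_, rfl⟩
  rw [← hQ] at hq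
  have hQS : Q * S = S * Q := by
    rw [hQ]
    exact (SymE_comm X S S rfl q).symm
  have h1 : S * (S * Q) = S := by
    rw [mul_sub, mul_one, sub_eq_zero] at hq
    exact hq.symm
  have h2 : (S * Q) * (S * Q) = S * Q := by
    calc (S * Q) * (S * Q) = S * (Q * S) * Q := by simp only [mul_assoc]
      _ = (S * (S * Q)) * Q := by rw [hQS]
      _ = S * Q := by rw [h1]
  have he : S * Q = Polynomial.aeval S (Polynomial.X * q) := by
    rw [map_mul, Polynomial.aeval_X, hQ]
  have hu : S * Q * Q = Polynomial.aeval S (Polynomial.X * q * q) := by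
    rw [map_mul, map_mul, Polynomial.aeval_X, hQ]
  refine ⟨S * Q, S * Q * Q, ?_, ?_, ?_, ?_, h2, ?_, ?_, h1, ?_, ?_, ?_⟩
  · rw [he]
    exact SymE_mem X S hE _
  · rw [hu]
    exact SymE_mem X S hE _
  · rw [he]
    exact SymE_sym X S hS _
  · rw [hu]
    exact SymE_sym X S hS _
  · rw [mul_assoc (S * Q), hQS, h2]
  · rw [← mul_assoc S, h1]
  · rw [← mul_assoc, h2]
  · rw [mul_assoc (S * Q), ← mul_assoc Q, hQS, mul_assoc S Q Q, ← mul_assoc (S * Q),
      mul_assoc S Q S, hQS, h1]
  · intro f hf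
    constructor
    · rw [he]
      exact SymE_comm X S f hf _
    · rw [hu]
      exact SymE_comm X S f hf _

end DWG
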