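import Pool.Agent.DWG.St
import Pool.Agent.GAM.ThEx
import Pool.Agent.PST.UGr
import Pool.Agent.PST.MapE
import Pool.Agent.Helper7.AFT.Bal

/-!
# DWG, module UTm: the universal traces
-/

set_option autoImplicit false
set_option linter.unusedSectionVars false

namespace DWG

open scoped ComplexConjugate
open Module Matrix
open GAM (H E F pd pdl PLat IsTh OddTor IsDel Gro IsLat)
open PST DWC DWZ
open DWY (cx cy XX XT NS d4 qb)
open Pool.Agent.GPC (AbVar hermForm bilForm)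
open Pool.Agent.Helper7 (pData)

private lemma UTm_zd_sq (d : ℚ) (hd : 0 < d) : zd d ^ 2 = -(d : ℂ) := by
  unfold zd
  rw [mul_pow, Complex.I_sq, ← Complex.ofReal_pow, Real.sq_sqrt (by exact_mod_cast hd.le)]
  push_cast
  ring

private lemma UTm_conj_zd (d : ℚ) : conj (zd d) = -zd d := by
  unfold zd
  rw [map_mul, Complex.conj_ofReal, Complex.conj_I]
  ring

section aux

variable {α β : Type} [Fintype α] [Fintype β] [DecidableEq α] [DecidableEq β]

/-- the eigenvalues -/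
private noncomputable def UTm_c (d : ℚ) (p : Ix α β Unit) : ℂ :=
  Sum.elim (fun _ => zd d) (fun _ => -zd d) p.1

private lemma UTm_rgt (d : ℚ) (x : Ix α β Unit → ℂ) (p : Ix α β Unit) :
    (x ᵥ* rgt α β (zd d • (1 : Matrix Unit Unit ℂ))) p = UTm_c d p * x p := by
  unfold Matrix.vecMul dotProduct
  rw [Finset.sum_eq_single p]
  · obtain ⟨s, u⟩ := p
    rcases s with i | j
    · simp [rgt, UTm_c, mul_comm]
    · simp [rgt, UTm_c, mul_comm, UTm_conj_zd]
  · intro q _ hq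
    have h1 : q.1 ≠ p.1 := fun h => hq (Prod.ext h (Subsingleton.elim _ _))
    simp [rgt, h1]
  · intro h
    exact absurd (Finset.mem_univ _) h

/-- extension by zero -/
private def UTm_ext (x : β → ℂ) : Ix α β Unit → ℂ := fun p => Sum.elim (fun _ => 0) x p.1

/-- the map from the coordinates of the second kind to `F^0` -/
private noncomputable def UTm_F {g : ℕ} (T : Matrix (Ix α β Unit) (Fin g) ℂ) :
    (β → ℂ) →ₗ[ℂ] (Fin g ⊕ Fin g → ℂ) where
  toFun x := Sum.elim (fun _ => 0) ((UTm_ext x : Ix α β Unit → ℂ) ᵥ* T)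
  map_add' x y := by
    have h1 : (UTm_ext (x + y) : Ix α β Unit → ℂ) = UTm_ext x + UTm_ext y := by
      funext p
      obtain ⟨s, u⟩ := p
      rcases s with i | j <;> simp [UTm_ext]
    funext s
    rcases s with a | a
    · simp
    · simp only [Sum.elim_inr, Pi.add_apply]
      rw [h1, Matrix.add_vecMul, Pi.add_apply]
  map_smul' c x := by
    have h1 : (UTm_ext (c • x) : Ix α β Unit → ℂ) = c • UTm_ext x := by
      funext p
      obtain ⟨s, u⟩ := p
      rcases s with i | j <;> simp [UTm_ext]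
    funext s
    rcases s with a | a
    · simp
    · simp only [Sum.elim_inr, Pi.smul_apply, RingHom.id_apply]
      rw [h1, Matrix.smul_vecMul, Pi.smul_apply]

private lemma UTm_F_inj {g : ℕ} (T : Matrix (Ix α β Unit) (Fin g) ℂ)
    (S : Matrix (Fin g) (Ix α β Unit) ℂ) (ts : T * S = 1) : Function.Injective (UTm_F T) := by
  rw [← LinearMap.ker_eq_bot, LinearMap.ker_eq_bot']
  intro x hx
  have h1 : (UTm_ext x : Ix α β Unit → ℂ) ᵥ* T = 0 := by
    funext a
    exact congrFun hx (.inr a)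
  have h2 : (UTm_ext x : Ix α β Unit → ℂ) = 0 := by
    rw [← Matrix.vecMul_one (UTm_ext x : Ix α β Unit → ℂ), ← ts, ← Matrix.vecMul_vecMul, h1,
      Matrix.zero_vecMul]
  funext j
  exact congrFun h2 (.inr j, ())

end aux

private lemma UTm_pol_fil (X : AbVar) (u v : X.H1) (hu : X.IsFil u) :
    X.pol u v = -((fun a => u (.inr a)) ⬝ᵥ X.zz v) := by
  unfold AbVar.pol dotProduct
  rw [← Finset.sum_neg_distrib]
  refine Finset.sum_congr rfl fun a _ => ?_
  rw [hu a]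
  simp only [AbVar.zz_apply]
  ring

private lemma UTm_finrank (X : AbVar) (d : ℚ) (J : Module.End ℂ X.H1)
    (α β : Type) [Fintype α] [Fintype β] [DecidableEq α] [DecidableEq β]
    (T : Matrix (Ix α β Unit) (Fin X.g) ℂ) (S : Matrix (Fin X.g) (Ix α β Unit) ℂ)
    (hd : 0 < d) (hE : X.IsEnd J) (adj : ∀ u v, X.pol (J u) v = - X.pol u (J v))
    (ts : T * S = 1) (st : S * T = 1)
    (jj : ∀ v, T.mulVec (X.zz (J v)) =
      (rgt α β (zd d • (1 : Matrix Unit Unit ℂ))).mulVec (T.mulVec (X.zz v))) :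
    finrank ℂ (X.filEigen J (zd d)) = Fintype.card β := by
  have hl := hE.linear
  have hz0 : zd d ≠ 0 := Pool.Agent.Helper7.AFT.z_ne hd (UTm_zd_sq d hd)
  have hR : LinearMap.range (UTm_F T : (β → ℂ) →ₗ[ℂ] X.H1) = X.filEigen J (zd d) := by
    apply le_antisymm
    · rintro _ ⟨x, rfl⟩
      have hf : X.IsFil (UTm_F T x) := fun a => rfl
      rw [Pool.Agent.Helper7.AFT.mem_filEigen hl]
      refine ⟨?_, hf⟩
      rw [← sub_eq_zero]
      apply Pool.Agent.Helper7.polForm_nondeg X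
      intro v
      rw [map_sub, LinearMap.sub_apply, map_smul, LinearMap.smul_apply, smul_eq_mul,
        ← Pool.Agent.Helper7.pol_eq, ← Pool.Agent.Helper7.pol_eq, adj,
        UTm_pol_fil X _ _ hf, UTm_pol_fil X _ _ hf]
      have h1 : (fun a => UTm_F T x (.inr a)) = (UTm_ext x : Ix α β Unit → ℂ) ᵥ* T := rfl
      rw [h1, ← Matrix.dotProduct_mulVec, ← Matrix.dotProduct_mulVec, jj,
        Matrix.dotProduct_mulVec]
      have h2 : (UTm_ext x : Ix α β Unit → ℂ) ᵥ* rgt α β (zd d • (1 : Matrix Unit Unit ℂ)) =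
          (-zd d) • UTm_ext x := by
        funext p
        rw [UTm_rgt]
        obtain ⟨s, u⟩ := p
        rcases s with i | j <;> simp [UTm_ext, UTm_c]
      rw [h2, smul_dotProduct, smul_eq_mul]
      ring
    · intro v hv
      obtain ⟨hv1, hv2⟩ := (Pool.Agent.Helper7.AFT.mem_filEigen hl _ v).mp hv
      set y : Ix α β Unit → ℂ := (fun a => v (.inr a)) ᵥ* S with hy
      have hyT : y ᵥ* T = fun a => v (.inr a) := by
        rw [hy, Matrix.vecMul_vecMul, st, Matrix.vecMul_one]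
      have hy0 : ∀ i, y (.inl i, ()) = 0 := by
        intro i
        set p : Ix α β Unit := (.inl i, ()) with hp
        set w : X.H1 := Sum.elim (S.mulVec (Pi.single p 1)) (fun _ => 0) with hw
        have hzw : X.zz w = S.mulVec (Pi.single p 1) := rfl
        have hTw : T.mulVec (X.zz w) = Pi.single p 1 := by
          rw [hzw, Matrix.mulVec_mulVec, ts, Matrix.one_mulVec]
        have h1 := adj v w
        rw [UTm_pol_fil X _ _ hv2, hv1, UTm_pol_fil X (zd d • v) w (fun a => by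
          rw [Pi.smul_apply, hv2 a, smul_zero])] at h1
        have h2 : (fun a => (zd d • v) (.inr a)) = zd d • (y ᵥ* T) := by
          rw [hyT]
          rfl
        rw [h2, ← hyT, smul_dotProduct, ← Matrix.dotProduct_mulVec y T (X.zz w),
          ← Matrix.dotProduct_mulVec y T (X.zz (J w)), jj, hTw, Matrix.dotProduct_mulVec,
          dotProduct_single, dotProduct_single, UTm_rgt, hp, smul_eq_mul, mul_one,
          mul_one] at h1
        have h3 : UTm_c d ((.inl i, ()) : Ix α β Unit) = zd d := rfl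
        rw [h3] at h1
        have h4 : (2 * zd d) * y (.inl i, ()) = 0 := by linear_combination -h1
        exact (mul_eq_zero.mp h4).resolve_left (mul_ne_zero two_ne_zero hz0)
      refine ⟨fun j => y (.inr j, ()), ?_⟩
      have h1 : (UTm_ext (fun j => y (.inr j, ())) : Ix α β Unit → ℂ) = y := by
        funext p
        obtain ⟨s, u⟩ := p
        rcases s with i | j
        · exact (hy0 i).symm
        · rfl
      funext s
      rcases s with a | a
      · exact (hv2 a).symm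
      · show ((UTm_ext (fun j => y (.inr j, ())) : Ix α β Unit → ℂ) ᵥ* T) a = v (.inr a)
        rw [h1, hyT]
  rw [← hR, LinearMap.finrank_range_of_inj (UTm_F_inj T S ts), finrank_fintype_fun_eq_card]



theorem UTm_trace (h1 : DWC.St_CoreH) (h2 : DWC.St_CocK) (h3 : DWC.St_LatK)
    (h6 : DWC.St_HatK) (h7 : DWC.St_TrK) {d : ℚ} {A : Derivation ℚ ℂ ℂ → ℂ} {m : ℂ}
    (hE : EM d A m) (X : AbVar) (J : Module.End ℂ X.H1) (hJ : IsKs X d J)
    (α β : Type) [Fintype α] [Fintype β] [DecidableEq α] [DecidableEq β]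
    (T : Matrix (Ix α β Unit) (Fin X.g) ℂ) (S : Matrix (Fin X.g) (Ix α β Unit) ℂ)
    (Tp : Matrix α α ℂ) (Tm : Matrix β β ℂ) (Ta : Matrix (Ix α β Unit) (Fin X.g) ℂ)
    (g : Matrix (α ⊕ β) (α ⊕ β) ℂ) (r : α ⊕ β → ℝ) (q : α ⊕ β → ℚ)
    (hne : Nonempty (α ⊕ β)) (hN : NFK X d J α β T S Tp Tm Ta g r q)
    (δ : Derivation ℚ ℂ ℂ) : LinearMap.trace ℂ X.H1 ((pData X).N δ * J) =
      2 * zd d * (((Fintype.card α : ℂ) - Fintype.card β) *
        (A δ - δ Real.pi / (2 * Real.pi))) := by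
  have h10 : PST.St_UGr := PST.thm_UGr
  have h9 : PST.St_MapE := PST.thm_MapE h10
  obtain ⟨L₁, χ₁, N, hP₁, hL₁, hN0, hK₁⟩ := h3 α β d r q hN.isR
  obtain ⟨-, u2, u3, -, -, u6, -⟩ := h10 α β Unit
  obtain ⟨hiU, hig, hgi, -, -⟩ := u6 g hN.uni
  obtain ⟨gi, hgie⟩ : ∃ gi, gi = Jm α β * g.conjTranspose * Jm α β := ⟨_, rfl⟩
  rw [← hgie] at hiU hig hgi
  have e1 : ∀ x : Ix α β Unit → ℂ, act gi (act g x) = x := fun x => by rw [← u2, hig, u3]
  have e2 : ∀ x : Ix α β Unit → ℂ, act g (act gi x) = x := fun x => by rw [← u2, hgi, u3]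
  obtain ⟨L₀, χ₀, hP₀, hM'⟩ := h9 α β Unit gi L₁ χ₁ hiU hP₁
  have hM : Maps g L₁ L₀ χ₁ χ₀ := by
    refine ⟨hN.uni, fun x => ?_, fun l hl => ?_⟩
    · rw [hM'.lat (act g x), e1]
    · have h11 : act g l ∈ L₀ := by rw [hM'.lat, e1]; exact hl
      have h12 := hM'.chi (act g l) h11
      rw [e1] at h12
      exact h12.symm
  have hK₀ : KL d N L₀ := by
    intro l hl
    rw [hM'.lat] at hl ⊢
    have h11 : act gi (act (kap α β d N) l) = act (kap α β d N) (act gi l) := by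
      rw [← u2, ← u2, kap, Matrix.mul_smul, Matrix.smul_mul, Matrix.mul_one, Matrix.one_mul]
    rw [h11]
    exact hK₁ _ hl
  obtain ⟨θ₀, hT₀, hz₀⟩ := GAM.thm_ThEx (Ix α β Unit) L₀ χ₀ hP₀
  obtain ⟨θ₁, hT₁, hz₁⟩ := GAM.thm_ThEx (Ix α β Unit) L₁ χ₁ hP₁
  have hC : CocH 12 L₀ := h2 α β d N L₀ χ₀ hJ.pos hN0 hP₀ hK₀
  obtain ⟨k₀, c₀, hh₀⟩ := h6 X d J α β T S Tp Tm Ta g r q L₀ χ₀ θ₀ δ hJ hN hP₀ hT₀ hz₀ (by
    intro l hl
    rw [hM'.lat] at hl
    obtain ⟨a, b, hab⟩ := (hL₁ _).1 hl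
    refine ⟨fun s => a s, fun s => (b s : ℚ) / q s, ?_⟩
    rw [← e2 l, hab]
    congr 2
    funext p
    push_cast
    rfl)
  obtain ⟨k₁, hh₁⟩ := hE.hat α β r q L₁ χ₁ θ₁ hN.isR hne hP₁ hL₁ hT₁ hz₁ δ
  have hdet : δ g.det = 0 := by
    rw [hN.det]
    exact Derivation.map_one_eq_zero δ
  have key := h1 α β Unit δ g L₀ L₁ χ₀ θ₀ χ₁ θ₁ 12 k₀ k₁ _ _ _ _ c₀ 0 ⟨()⟩ (by norm_num) hP₀ hP₁
    hT₀ hT₁ hz₀ hz₁ hM hdet hC hh₀ hh₁
  rw [Matrix.trace_smul, Matrix.trace_smul, Matrix.trace_one, Matrix.trace_one, smul_eq_mul,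
    smul_eq_mul] at key
  have h8 : LinearMap.trace ℂ X.H1 ((pData X).N δ * J) =
    2 * zd d * ((Tp * Tp⁻¹.map δ).trace - (Tm * Tm⁻¹.map δ).trace -
      ((Fintype.card α : ℂ) - Fintype.card β) / 2 * (δ Real.pi / Real.pi)) :=
    h7 X d J α β T S Tp Tm Ta g r q δ hJ hN
  rw [h8, key]
  have hpi : (Real.pi : ℂ) ≠ 0 := by exact_mod_cast Real.pi_ne_zero
  have e3 : δ Real.pi / (2 * Real.pi) = 1 / 2 * (δ Real.pi / Real.pi) := by
    field_simp
  rw [e3]
  ring

/-- [UTm] the universal traces. The last hypothesis is `DWC.St_TorG`. -/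
theorem thm_UTm (h1 : DWC.St_NFK) (h2 : DWC.St_HatK) (h3 : DWC.St_CoreH) (h4 : DWC.St_CocK)
    (h5 : DWC.St_LatK) (h6 : DWC.St_TrK)
    (h7 : ∀ (X : AbVar) (d : ℚ) (J : Module.End ℂ X.H1), IsKs X d J →
      ((∀ δ : Derivation ℚ ℂ ℂ,
        LinearMap.trace ℂ X.H1 ((Pool.Agent.Helper7.pData X).N δ * J) = 0) ↔
      finrank ℂ (X.filEigen J (zd d)) = finrank ℂ (X.filEigen J (-(zd d))))) : St_UTm := by
  intro d A m hE X₀ J₀ hJ₀ hne₀
  have hpi : (Real.pi : ℂ) ≠ 0 := by exact_mod_cast Real.pi_ne_zero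
  have htau : ∀ δ : Derivation ℚ ℂ ℂ, tau m δ = A δ - δ Real.pi / (2 * Real.pi) := by
    intro δ
    have h8 : δ m / m = A δ := by
      rw [hE.del δ, mul_div_cancel_right₀ _ hE.m0]
    have h9 : δ Real.pi / Real.pi / 2 = δ Real.pi / (2 * Real.pi) := by
      rw [div_div, mul_comm]
    unfold tau
    rw [h8, h9]
  have htr : ∀ (X : AbVar) (J : Module.End ℂ X.H1), IsKs X d J → ∀ δ : Derivation ℚ ℂ ℂ,
      LinearMap.trace ℂ X.H1 ((pData X).N δ * J) = 2 * zd d *
        ((finrank ℂ (X.filEigen J (-(zd d))) : ℂ) - finrank ℂ (X.filEigen J (zd d))) *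
          tau m δ := by
    intro X J hJ δ
    obtain ⟨α, β, _, _, _, _, T, S, Tp, Tm, Ta, g, r, q, hN⟩ := h1 X d J hJ
    have hz := UTm_zd_sq d hJ.pos
    have hz0 : zd d ≠ 0 := Pool.Agent.Helper7.AFT.z_ne hJ.pos hz
    have f1 := UTm_finrank X d J α β T S hJ.pos hJ.endo hJ.adj hN.ts hN.st hN.jj
    have f2 := Pool.Agent.Helper7.AFT.finrank_add hJ.endo hJ.sq hz0 hz
    have f3 : Fintype.card α + Fintype.card β = X.g := by
      have f4 := (Matrix.toLin'OfInv hN.ts hN.st).finrank_eq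
      rw [finrank_fintype_fun_eq_card, finrank_fintype_fun_eq_card, Fintype.card_fin,
        Fintype.card_prod, Fintype.card_sum, Fintype.card_unit, mul_one] at f4
      omega
    have f5 : finrank ℂ (X.filEigen J (-(zd d))) = Fintype.card α := by omega
    rw [f1, f5, htau δ]
    by_cases hne : Nonempty (α ⊕ β)
    · rw [UTm_trace h3 h4 h5 h2 h6 hE X J hJ α β T S Tp Tm Ta g r q hne hN δ]
      ring
    · rw [not_nonempty_iff] at hne
      have ha : IsEmpty α := ⟨fun i => hne.false (Sum.inl i)⟩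
      have hb : IsEmpty β := ⟨fun i => hne.false (Sum.inr i)⟩
      have h8 : LinearMap.trace ℂ X.H1 ((pData X).N δ * J) =
        2 * zd d * ((Tp * Tp⁻¹.map δ).trace - (Tm * Tm⁻¹.map δ).trace -
          ((Fintype.card α : ℂ) - Fintype.card β) / 2 * (δ Real.pi / Real.pi)) :=
        h6 X d J α β T S Tp Tm Ta g r q δ hJ hN
      rw [h8, Fintype.card_eq_zero (α := α), Fintype.card_eq_zero (α := β)]
      simp [Matrix.trace]
  refine ⟨hE.pos, hE.m0, htr, ?_⟩
  by_contra hcon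
  push Not at hcon
  apply hne₀
  refine (h7 X₀ d J₀ hJ₀).1 fun δ => ?_
  have h8 := htr X₀ J₀ hJ₀ δ
  rw [hcon δ, mul_zero] at h8
  exact h8

end DWG
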