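import Pool.Agent.DWZ.All
import Pool.Agent.DWC.TorG
import Pool.Agent.DWG.BarO
import Pool.Agent.DWG.BetO
import Pool.Agent.DWG.BijT
import Pool.Agent.DWG.Cc
import Pool.Agent.DWG.DRO
import Pool.Agent.DWG.DimK
import Pool.Agent.DWG.EndT
import Pool.Agent.DWG.ExE
import Pool.Agent.DWG.ExiG
import Pool.Agent.DWG.Exp
import Pool.Agent.DWG.FGm
import Pool.Agent.DWG.FinG
import Pool.Agent.DWG.HodO
import Pool.Agent.DWG.Iso0
import Pool.Agent.DWG.KerT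
import Pool.Agent.DWG.MatO
import Pool.Agent.DWG.NSK
import Pool.Agent.DWG.NTw
import Pool.Agent.DWG.O0
import Pool.Agent.DWG.OKA
import Pool.Agent.DWG.OKB
import Pool.Agent.DWG.OKD
import Pool.Agent.DWG.OpN
import Pool.Agent.DWG.PairM
import Pool.Agent.DWG.PairT
import Pool.Agent.DWG.SubK
import Pool.Agent.DWG.SymE
import Pool.Agent.DWG.UTm

/-!
# DWG: assembly
-/

set_option autoImplicit false

namespace DWG

namespace All

theorem UTm_ : St_UTm := thm_UTm DWC.All.NFK_ DWC.All.HatK_ DWC.All.CoreH_ DWC.All.CocK_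
  DWC.All.LatK_ DWC.All.TrK_ DWC.All.TorG_
theorem NTw_ : St_NTw := thm_NTw
theorem EndT_ : St_EndT := thm_EndT
theorem Iso0_ : St_Iso0 := thm_Iso0
theorem SymE_ : St_SymE := thm_SymE
theorem KerT_ : St_KerT := thm_KerT EndT_ Iso0_ SymE_
theorem SubK_ : St_SubK := thm_SubK
theorem DimK_ : St_DimK := thm_DimK
theorem BijT_ : St_BijT := thm_BijT NTw_ DimK_
theorem PairT_ : St_PairT := thm_PairT EndT_ SymE_ KerT_ SubK_ DimK_ BijT_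
theorem NSK_ : St_NSK := thm_NSK DWY.All.JNS_ DWY.All.CxA_
theorem FGm_ : St_FGm := thm_FGm DWY.All.CxA_
theorem PairM_ : St_PairM := thm_PairM NSK_ FGm_ PairT_ DWY.All.CxA_
theorem Cc_ : St_Cc := thm_Cc
theorem MatO_ : St_MatO := thm_MatO Cc_
theorem BarO_ : St_BarO := thm_BarO Cc_
theorem BetO_ : St_BetO := thm_BetO Cc_
theorem DRO_ : St_DRO := thm_DRO
theorem HodO_ : St_HodO := thm_HodO MatO_ BarO_ BetO_ DRO_ PairM_
theorem OKA_ : St_OKA := thm_OKA DWZ.All.Lap_ DWZ.All.Wdv_ DWY.All.CxA_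
theorem OKD_ : St_OKD := thm_OKD DWZ.All.Wdv_ DWZ.All.Blk_ DWZ.All.Cmp_ DWZ.All.DCt_ DWY.All.CxA_
theorem OKB_ : St_OKB := thm_OKB DWZ.All.Wdv_ DWZ.All.Act_ DWY.All.CxA_
theorem ExE_ : St_ExE := thm_ExE DWC.All.LatK_ DWY.All.NSY_
theorem O0_ : St_O0 := thm_O0
theorem OpN_ : St_OpN := thm_OpN DWZ.All.CmsK_ DWZ.All.HatZ_ DWZ.All.DetZ_ DWZ.All.DCt_
  DWY.All.HatX_ DWC.All.CoreH_ DWC.All.CocK_
theorem ExiG_ : St_ExiG := thm_ExiG OpN_ DWZ.All.OpZ_ DWZ.All.NFN_ DWC.All.LatK_ DWZ.All.CmsK_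
  DWZ.All.CmsG_ DWZ.All.UEz_ DWY.All.NSX_ DWZ.All.HatZ_ DWY.All.NSY_ DWY.All.XXJ_
theorem Exp_ : St_Exp := thm_Exp DimK_
theorem FinG_ : St_FinG := thm_FinG DWY.All.ExM_ UTm_ ExiG_ ExE_ OKA_ OKD_ OKB_ O0_ Exp_ HodO_
  DimK_ DWZ.All.HodZ_

end All

end DWG
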