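import Pool.Agent.DWG.Defs

/-!
# DWG: frozen statements

Every module `Pool/Agent/DWG/<X>.lean` imports this file and proves `theorem thm_<X> : St_<X>` (with
the hypotheses named in its offer), namespace `DWG`, own lemmas with names starting with the name
of the module. The docstrings contain the proofs.
-/

set_option autoImplicit false

namespace DWG

open scoped ComplexConjugate
open Module
open GAM (H E F pd pdl PLat IsTh OddTor IsDel Gro IsLat)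
open PST DWC DWZ
open DWY (cx cy XX XT NS d4 qb)
open Pool.Agent.GPC (AbVar hermForm bilForm)
open Pool.Agent.Helper7 (pData)

/-! ## Part I. Abelian varieties with multiplication by `i √d` -/

/-- [UTm] the universal traces. PROOF. Normal form (`St_NFK`), lattices `L₁` (`St_LatK`) and
`L₀ = g L₁` with theta functions, `St_HatK` at `L₀` and `EM.hat` at `L₁`, `St_CoreH` (with
`St_CocK`, `det g = 1`): `tr (Tp δ(Tp⁻¹)) - tr (Tm δ(Tm⁻¹)) = (|α| - |β|) A δ`; then `St_TrK`, with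
`|β| = finrank (filEigen J (zd d))`, `|α| = finrank (filEigen J (-zd d))` (see DWZ/NFN.lean) and
`A δ = δ m / m`. The case `X.g = 0` is trivial. `ne`: `St_TorG` for the given unbalanced `X`. -/
def St_UTm : Prop := ∀ (d : ℚ) (A : Derivation ℚ ℂ ℂ → ℂ) (m : ℂ), EM d A m →
  ∀ (X : AbVar) (J : Module.End ℂ X.H1), IsKs X d J →
  finrank ℂ (X.filEigen J (zd d)) ≠ finrank ℂ (X.filEigen J (-(zd d))) → UT d m

/-- [NTw] a twisted homomorphism and the comparison operators. PROOF. `N δ v = δ v` (the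
derivation of the coordinates) for `v` in the Betti structure. Let `M` be the matrix of `F`. For
`v` Betti `F v` is Betti, so `N' (F v) = δ (M v) = (δ M) v + M (δ v) = (δ M) v + F (N v)`. The
projections `(1 ± z⁻¹ J) / 2` have algebraic matrices, so `F = μ A₁ + μ⁻¹ A₂` with algebraic
`A₁ = μ⁻¹ F (1 + z⁻¹ J) / 2`, `A₂ = μ F (1 - z⁻¹ J) / 2`, and
`δ M = (δ μ / μ) (μ A₁ - μ⁻¹ A₂) = (δ μ / μ) z⁻¹ F J`. Betti vectors span. -/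
def St_NTw : Prop := ∀ (Y Y' : AbVar) (d : ℚ) (J : Module.End ℂ Y.H1)
  (J' : Module.End ℂ Y'.H1) (μ : ℂ) (F : Y.H1 →ₗ[ℂ] Y'.H1), IsKs Y d J → IsKs Y' d J' →
  μ ≠ 0 → Tw Y Y' J J' (zd d) μ F → ∀ (δ : Derivation ℚ ℂ ℂ) (v : Y.H1),
    (pData Y').N δ (F v) = F ((pData Y).N δ v) + (δ μ / μ / zd d) • J' (F v)

/-- [EndT] the composite of twisted homomorphisms with inverse factors is an endomorphism.
PROOF. De Rham vectors are sums of de Rham eigenvectors (`J` respects the de Rham structure,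
`zd d` is algebraic); the Hodge filtration by `Pool.Agent.GPC.hom_fil`. -/
def St_EndT : Prop := ∀ (Y Y' : AbVar) (d : ℚ) (J : Module.End ℂ Y.H1)
  (J' : Module.End ℂ Y'.H1) (μ : ℂ) (F : Y.H1 →ₗ[ℂ] Y'.H1) (G : Y'.H1 →ₗ[ℂ] Y.H1),
  IsKs Y d J → IsKs Y' d J' → μ ≠ 0 → Tw Y Y' J J' (zd d) μ F → Tw Y' Y J' J (zd d) μ⁻¹ G →
  Y.IsEnd fun v => G (F v)

/-- [Iso0] an isotropic subspace which is rational for both structures is zero. PROOF.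
`Pool.Agent.GPC.subspace_theorem` for the family with the one member `B` : for lattice vectors
`l` in the image of `P` in `Lie` the period of `l` lies in `P`, and these `l` span the image over
`ℝ`. The image is a complex subspace, the period map is real linear, so `period (i l)` lies in `P`
too, and `pol (period l) (period (i l))` is a non zero multiple of `H l l`. So all `l` vanish; the
Betti vectors of `P` are (up to integers) periods of such `l`, so `P = ⊥`. -/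
def St_Iso0 : Prop := ∀ (B : AbVar) (P : Submodule ℂ B.H1),
  (∀ v ∈ P, v ∈ Submodule.span ℂ {u | u ∈ P ∧ B.IsBetti u}) →
  (∀ v ∈ P, v ∈ Submodule.span ℂ {u | u ∈ P ∧ B.IsDeRham u}) →
  (∀ u ∈ P, ∀ v ∈ P, B.pol u v = 0) → P = ⊥

/-- [SymE] pseudo inverse of a symmetric endomorphism. PROOF. As in
Pool/Agent/Helper39/AF/Idem.lean: `ker S² = ker S` by positivity, `S` is integral over `ℚ`, so
`S p(S) = 0` for a rational polynomial with `p(0) = 1`; put `1 - p(X) = X q(X)`, `e = S q(S)`,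
`u = e q(S)`. -/
def St_SymE : Prop := ∀ (X : AbVar) (S : Module.End ℂ X.H1), X.IsEnd S → X.IsAdjoint S S →
  ∃ e u : Module.End ℂ X.H1, X.IsEnd e ∧ X.IsEnd u ∧ X.IsAdjoint e e ∧ X.IsAdjoint u u ∧
    e * e = e ∧ u * S = e ∧ S * u = e ∧ S * e = S ∧ e * u = u ∧ u * e = u ∧
    ∀ f : Module.End ℂ X.H1, f * S = S * f → f * e = e * f ∧ f * u = u * f

/-- [KerT] PROOF. Let `e` be the idempotent of `St_SymE` for `S = G F` (symmetric by `Adj`,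
endomorphism by `St_EndT`); `ker S = range (1 - e)`. `P = F (range (1 - e))` is spanned by the
`F ((1 - e) v)`, `v` Betti, and by the vectors `w` with `F ((1 - e) v) = μ^(±1) w`, `v` a de Rham
eigenvector; `pol' (F x) (F y) = ε pol x (G F y) = 0` for `y` in `ker S`. `St_Iso0`. -/
def St_KerT : Prop := ∀ (Y Y' : AbVar) (d : ℚ) (J : Module.End ℂ Y.H1)
  (J' : Module.End ℂ Y'.H1) (μ ε : ℂ) (F : Y.H1 →ₗ[ℂ] Y'.H1) (G : Y'.H1 →ₗ[ℂ] Y.H1),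
  IsKs Y d J → IsKs Y' d J' → μ ≠ 0 → ε ≠ 0 → Tw Y Y' J J' (zd d) μ F →
  Tw Y' Y J' J (zd d) μ⁻¹ G → Adj Y Y' ε F G → ∀ v, G (F v) = 0 → F v = 0

/-- [SubK] the abelian subvariety of a symmetric idempotent. PROOF.
`Pool.Agent.Helper39.AF.sub_abVar` (Pool/Agent/Helper39/AF/SubMap.lean), `JZ = π J ι`. -/
def St_SubK : Prop := ∀ (X : AbVar) (d : ℚ) (J e : Module.End ℂ X.H1), IsKs X d J →
  X.IsEnd e → X.IsAdjoint e e → e * e = e → e * J = J * e →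
  ∃ (Z : AbVar) (JZ : Module.End ℂ Z.H1) (ι : Z.H1 →ₗ[ℂ] X.H1) (π : X.H1 →ₗ[ℂ] Z.H1),
    IsKs Z d JZ ∧ Z.IsMor X ι ∧ X.IsMor Z π ∧ (∀ y, π (ι y) = y) ∧ (∀ x, ι (π x) = e x) ∧
    (∀ y, ι (JZ y) = J (ι y)) ∧ ∀ x, π (J x) = JZ (π x)

/-- [DimK] dimensions. PROOF. Normal form (`St_NFK`, DWZ/NFN.lean): `|β|` and `|α|` are the
dimensions of the two parts of `F^0`, `|α| + |β| = g`. The eigenspaces of `J` are dual to each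
other (`adj`, `pol` is not degenerate) and `H_1` is their sum, so both have dimension `g`. -/
def St_DimK : Prop := ∀ (X : AbVar) (d : ℚ) (J : Module.End ℂ X.H1), IsKs X d J →
  finrank ℂ (X.filEigen J (-(zd d))) + finrank ℂ (X.filEigen J (zd d)) = X.g ∧
  finrank ℂ (LinearMap.ker (J - zd d • (1 : Module.End ℂ X.H1))) = X.g

/-- [BijT] PROOF. `N' = F N F⁻¹ + (δ μ / μ) z⁻¹ J'` by `St_NTw`, so
`tr (N' J') = tr (N J) + (δ μ / μ) z⁻¹ tr (J'²)`, `tr (J'²) = -d * 2 r = 2 r z²`, `r = Z.g = Z'.g`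
(`F` is bijective), `δ μ / μ = 2 c τ`. By `UT.tr` `2 z (p' - q') τ = 2 z (p - q) τ + 4 r c z τ`
with `p + q = p' + q' = r` (`St_DimK`; `p` belongs to `-z`), so `p' = p + r c ≤ r`. -/
def St_BijT : Prop := ∀ (d : ℚ) (m : ℂ), UT d m → ∀ (Z Z' : AbVar) (J : Module.End ℂ Z.H1)
  (J' : Module.End ℂ Z'.H1) (c : ℕ) (F : Z.H1 →ₗ[ℂ] Z'.H1), IsKs Z d J → IsKs Z' d J' →
  1 ≤ c → Tw Z Z' J J' (zd d) ((m ^ 2 / Real.pi) ^ c) F → Function.Bijective F →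
  finrank ℂ (Z.filEigen J (-(zd d))) = 0 ∧ finrank ℂ (Z'.filEigen J' (zd d)) = 0 ∧
    (2 ≤ c → Z.g = 0)

/-- [PairT] PROOF. `S = G F` is a symmetric endomorphism (`St_EndT`); `e, u` from `St_SymE`;
`f = F u G` is a symmetric idempotent endomorphism of `Y'` (`u G` is twisted as `G`). By
`St_KerT` `F (1 - e) = 0`, hence `(1 - e) G = 0` (adjoint) and `F (1 - e) G = F G (1 - f) = 0`,
`G (1 - f) = 0` (`St_KerT` with `G, F` exchanged). `F` is a bijection from `range e` to `range f`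
with the inverse `u G`. Let `Z`, `Z'` be the abelian subvarieties (`St_SubK`); `π' F ι` is twisted
and bijective, so (`St_BijT`) `Z` has no `F^0` for `-z`, so its `z`-eigenspace lies in `F^0`
(dimensions: `St_DimK`), and `Z'` has no `F^0` for `z`. For `y` with `J' y = z y`: `G y = e (G y)`
lies in the `z`-eigenspace of the image of `Z`, so in `F^0`; if `y` is in `F^0`, so is `f y`, hence
`f y = 0` and `G y = G (f y) = 0`. If `c ≥ 2` then `Z.g = 0`, `e = 0`, `G = e G = 0`. -/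
def St_PairT : Prop := ∀ (d : ℚ) (m : ℂ), UT d m → ∀ (Y Y' : AbVar)
  (J : Module.End ℂ Y.H1) (J' : Module.End ℂ Y'.H1) (c : ℕ) (ε : ℂ) (F : Y.H1 →ₗ[ℂ] Y'.H1)
  (G : Y'.H1 →ₗ[ℂ] Y.H1), IsKs Y d J → IsKs Y' d J' → 1 ≤ c → ε ≠ 0 →
  Tw Y Y' J J' (zd d) ((m ^ 2 / Real.pi) ^ c) F →
  Tw Y' Y J' J (zd d) ((m ^ 2 / Real.pi) ^ c)⁻¹ G → Adj Y Y' ε F G →
  (∀ y, J' y = zd d • y → Y.IsFil (G y)) ∧
  (∀ y, J' y = zd d • y → Y'.IsFil y → G y = 0) ∧ (2 ≤ c → ∀ y, G y = 0)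

/-! ## Part II. Normal forms -/

/-- [NSK] the multiplication by `i √d` of a normal form. PROOF. `DWY.St_JNS`, and
`pol u v = π (cx u · cy v - cx v · cy u)` because `T S = 1`, `q` is symmetric. -/
def St_NSK : Prop := ∀ (Y : AbVar) (d : ℚ) (α β : Type) [Fintype α] [Fintype β] [DecidableEq α]
  [DecidableEq β] (T : Matrix (Ix α β Unit) (Fin Y.g) ℂ)
  (S : Matrix (Fin Y.g) (Ix α β Unit) ℂ) (Tp : Matrix α α ℂ) (Tm : Matrix β β ℂ)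
  (Ta : Matrix (Ix α β Unit) (Fin Y.g) ℂ) (Tb : Matrix (Fin Y.g) (Ix α β Unit) ℂ)
  (κ : Matrix α β ℂ) (L : Submodule ℤ (Ix α β Unit → ℂ)), NS Y d α β T S Tp Tm Ta Tb κ L →
  (∀ u v, Y.pol u v = (Real.pi : ℂ) * (
    blg (fun s => XX Y T S u (s, ())) (fun s => XT Y T S v (s, ())) -
    blg (fun s => XX Y T S v (s, ())) (fun s => XT Y T S u (s, ())))) ∧
  ∃ J : Module.End ℂ Y.H1, IsKs Y d J ∧ (∀ v p, XX Y T S (J v) p = zd d * XX Y T S v p) ∧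
    ∀ v p, XT Y T S (J v) p = -(zd d * XT Y T S v p)

/-- [FGm] from matrices to twisted homomorphisms. PROOF. `F` is defined by `XX (F w) = A XX w`,
`XT (F w) = conj A XT w` (`DWY.St_CxA`: `(cx, cy)` is an isomorphism), `G` in the same way by `B`.
Betti: `cx (F w) = actR A (cx w)`, `cy = conj cx` is preserved. De Rham, `J w = z w`: `XT w = 0`,
`XX w = Dz ζ` with `ζ` algebraic, `A Dz = μ Dz' A''`. De Rham, `J w = -z w`: `XX w = 0`,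
`XT w = π⁻¹ Jm (Dz⁻¹)ᵀ η`, `conj A Jm (Dz⁻¹)ᵀ = ε Jm' Bᵀ (Dz⁻¹)ᵀ = μ⁻¹ ε Jm' (Dz'⁻¹)ᵀ B''ᵀ`.
Adjoint: `conj A = ε Jm' Bᵀ Jm`, `Aᵀ Jm' = ε Jm conj B`, and the formula for `pol`. -/
def St_FGm : Prop := ∀ (Y Y' : AbVar) (d : ℚ) (α β α' β' : Type) [Fintype α] [Fintype β]
  [Fintype α'] [Fintype β'] [DecidableEq α] [DecidableEq β] [DecidableEq α'] [DecidableEq β']
  (T : Matrix (Ix α β Unit) (Fin Y.g) ℂ) (S : Matrix (Fin Y.g) (Ix α β Unit) ℂ)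
  (Tp : Matrix α α ℂ) (Tm : Matrix β β ℂ) (Ta : Matrix (Ix α β Unit) (Fin Y.g) ℂ)
  (Tb : Matrix (Fin Y.g) (Ix α β Unit) ℂ) (κ : Matrix α β ℂ)
  (L : Submodule ℤ (Ix α β Unit → ℂ))
  (T' : Matrix (Ix α' β' Unit) (Fin Y'.g) ℂ) (S' : Matrix (Fin Y'.g) (Ix α' β' Unit) ℂ)
  (Tp' : Matrix α' α' ℂ) (Tm' : Matrix β' β' ℂ) (Ta' : Matrix (Ix α' β' Unit) (Fin Y'.g) ℂ)
  (Tb' : Matrix (Fin Y'.g) (Ix α' β' Unit) ℂ) (κ' : Matrix α' β' ℂ)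
  (L' : Submodule ℤ (Ix α' β' Unit → ℂ)) (J : Module.End ℂ Y.H1) (J' : Module.End ℂ Y'.H1)
  (μ ε : ℂ) (A A'' : Matrix (α' ⊕ β') (α ⊕ β) ℂ) (B B'' : Matrix (α ⊕ β) (α' ⊕ β') ℂ),
  NS Y d α β T S Tp Tm Ta Tb κ L → NS Y' d α' β' T' S' Tp' Tm' Ta' Tb' κ' L' →
  (∀ v p, XX Y T S (J v) p = zd d * XX Y T S v p) →
  (∀ v p, XT Y T S (J v) p = -(zd d * XT Y T S v p)) →
  (∀ v p, XX Y' T' S' (J' v) p = zd d * XX Y' T' S' v p) →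
  (∀ v p, XT Y' T' S' (J' v) p = -(zd d * XT Y' T' S' v p)) →
  (∀ u v, Y.pol u v = (Real.pi : ℂ) * (
    blg (fun s => XX Y T S u (s, ())) (fun s => XT Y T S v (s, ())) -
    blg (fun s => XX Y T S v (s, ())) (fun s => XT Y T S u (s, ())))) →
  (∀ u v, Y'.pol u v = (Real.pi : ℂ) * (
    blg (fun s => XX Y' T' S' u (s, ())) (fun s => XT Y' T' S' v (s, ())) -
    blg (fun s => XX Y' T' S' v (s, ())) (fun s => XT Y' T' S' u (s, ())))) →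
  μ ≠ 0 → (ε = 1 ∨ ε = -1) → A.map conj = ε • (Jm α' β' * B.transpose * Jm α β) →
  (∀ y ∈ L, ∃ n : ℕ, n ≠ 0 ∧ (n : ℤ) • actR A y ∈ L') →
  (∀ y ∈ L', ∃ n : ℕ, n ≠ 0 ∧ (n : ℤ) • actR B y ∈ L) →
  (∀ p q, IsAlgebraic ℚ (A'' p q)) → (∀ p q, IsAlgebraic ℚ (B'' p q)) →
  A * Dz Tp Tm κ = μ • (Dz Tp' Tm' κ' * A'') → B * Dz Tp' Tm' κ' = μ⁻¹ • (Dz Tp Tm κ * B'') →
  ∃ (F : Y.H1 →ₗ[ℂ] Y'.H1) (G : Y'.H1 →ₗ[ℂ] Y.H1),
    Tw Y Y' J J' (zd d) μ F ∧ Tw Y' Y J' J (zd d) μ⁻¹ G ∧ Adj Y Y' ε F G ∧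
    ∀ w s, XX Y T S (G w) (s, ()) = B.mulVec (fun s => XX Y' T' S' w (s, ())) s

/-- [PairM] PROOF. `St_NSK` for `Y` and `Y'`, `St_FGm` with `μ = (m² / π)^c`, `St_PairT`. For
`y` with `XT y = 0`, `XX y` arbitrary (`DWY.St_CxA`), `J' y = z y`; `G y` is in `F^0` if and only
if `cx (G y) = 0`, so `B XX y` has no part in `α`; `y` is in `F^0` if `XX y` has no part in `α'`. -/
def St_PairM : Prop := ∀ (d : ℚ) (m : ℂ), UT d m → ∀ (Y Y' : AbVar) (α β α' β' : Type)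
  [Fintype α] [Fintype β]
  [Fintype α'] [Fintype β'] [DecidableEq α] [DecidableEq β] [DecidableEq α'] [DecidableEq β']
  (T : Matrix (Ix α β Unit) (Fin Y.g) ℂ) (S : Matrix (Fin Y.g) (Ix α β Unit) ℂ)
  (Tp : Matrix α α ℂ) (Tm : Matrix β β ℂ) (Ta : Matrix (Ix α β Unit) (Fin Y.g) ℂ)
  (Tb : Matrix (Fin Y.g) (Ix α β Unit) ℂ) (κ : Matrix α β ℂ)
  (L : Submodule ℤ (Ix α β Unit → ℂ))
  (T' : Matrix (Ix α' β' Unit) (Fin Y'.g) ℂ) (S' : Matrix (Fin Y'.g) (Ix α' β' Unit) ℂ)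
  (Tp' : Matrix α' α' ℂ) (Tm' : Matrix β' β' ℂ) (Ta' : Matrix (Ix α' β' Unit) (Fin Y'.g) ℂ)
  (Tb' : Matrix (Fin Y'.g) (Ix α' β' Unit) ℂ) (κ' : Matrix α' β' ℂ)
  (L' : Submodule ℤ (Ix α' β' Unit → ℂ)) (c : ℕ) (ε : ℂ)
  (A A'' : Matrix (α' ⊕ β') (α ⊕ β) ℂ) (B B'' : Matrix (α ⊕ β) (α' ⊕ β') ℂ), 1 ≤ c →
  NS Y d α β T S Tp Tm Ta Tb κ L → NS Y' d α' β' T' S' Tp' Tm' Ta' Tb' κ' L' →
  (ε = 1 ∨ ε = -1) → A.map conj = ε • (Jm α' β' * B.transpose * Jm α β) →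
  (∀ y ∈ L, ∃ n : ℕ, n ≠ 0 ∧ (n : ℤ) • actR A y ∈ L') →
  (∀ y ∈ L', ∃ n : ℕ, n ≠ 0 ∧ (n : ℤ) • actR B y ∈ L) →
  (∀ p q, IsAlgebraic ℚ (A'' p q)) → (∀ p q, IsAlgebraic ℚ (B'' p q)) →
  A * Dz Tp Tm κ = ((m ^ 2 / Real.pi) ^ c : ℂ) • (Dz Tp' Tm' κ' * A'') →
  B * Dz Tp' Tm' κ' = (((m ^ 2 / Real.pi) ^ c)⁻¹ : ℂ) • (Dz Tp Tm κ * B'') →
  (∀ i p, B (Sum.inl i) p = 0) ∧ (∀ p j, B p (Sum.inr j) = 0) ∧ (2 ≤ c → B = 0)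

/-! ## Part III. Classes -/

/-- [Cc] complex conjugation exists. PROOF. Coordinates with respect to a Betti basis
(`Pool.Agent.Helper7.exists_bettiBasis`); a Betti vector has rational coordinates. -/
def St_Cc : Prop := ∀ X : AbVar, ∃ c, IsCc X c

/-- [MatO] the matrix of a class. PROOF. `univ` in the first `a` variables, and in the last `b`
variables: for `v` in the eigenspace of `-z`, `conj (γ (…, conj v))` is `univ` for the conjugate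
form, so a form `f` has `f v = ∑ q, wt₂ v q * f (c ∘ u₂ q)` (`c` a conjugation, `St_Cc`,
`c ∘ c = id`). `A q p = ± π^(-k) γ (append (u₁ p) (c ∘ u₂ q))`. -/
def St_MatO : Prop := ∀ (X : AbVar) (d : ℚ) (J : Module.End ℂ X.H1) (k a b : ℕ)
  (h : 2 * k = a + b) (α₁ β₁ α₂ β₂ : Type) [Fintype α₁] [Fintype β₁] [Fintype α₂] [Fintype β₂]
  [DecidableEq α₁] [DecidableEq β₁] [DecidableEq α₂] [DecidableEq β₂]
  (u₁ : α₁ ⊕ β₁ → Fin a → X.H1) (wx₁ wt₁ : (Fin a → X.H1) → α₁ ⊕ β₁ → ℂ)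
  (u₂ : α₂ ⊕ β₂ → Fin b → X.H1) (wx₂ wt₂ : (Fin b → X.H1) → α₂ ⊕ β₂ → ℂ) (γ : X.Class (2 * k)),
  IsKs X d J → EA X d J a α₁ β₁ u₁ wx₁ wt₁ → EA X d J b α₂ β₂ u₂ wx₂ wt₂ →
  ∃ A : Matrix (α₂ ⊕ β₂) (α₁ ⊕ β₁) ℂ, Mt d J k a b h wx₁ wt₂ γ A

/-- [BarO] conjugation. PROOF. As DWZ/Abar.lean: `conj (γ w) = (-1)^k γ (c ∘ w)`,
`γ (append x y) = (-1)^(a b) γ (append y x)`; take `u = u₁ p`, `v = c ∘ u₂ q`. -/
def St_BarO : Prop := ∀ (X : AbVar) (d : ℚ) (J : Module.End ℂ X.H1) (k a b : ℕ)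
  (h : 2 * k = a + b) (h' : 2 * k = b + a) (α₁ β₁ α₂ β₂ : Type) [Fintype α₁] [Fintype β₁]
  [Fintype α₂] [Fintype β₂]
  [DecidableEq α₁] [DecidableEq β₁] [DecidableEq α₂] [DecidableEq β₂]
  (u₁ : α₁ ⊕ β₁ → Fin a → X.H1) (wx₁ wt₁ : (Fin a → X.H1) → α₁ ⊕ β₁ → ℂ)
  (u₂ : α₂ ⊕ β₂ → Fin b → X.H1) (wx₂ wt₂ : (Fin b → X.H1) → α₂ ⊕ β₂ → ℂ) (γ : X.Class (2 * k))
  (A : Matrix (α₂ ⊕ β₂) (α₁ ⊕ β₁) ℂ) (B : Matrix (α₁ ⊕ β₁) (α₂ ⊕ β₂) ℂ),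
  IsKs X d J → EA X d J a α₁ β₁ u₁ wx₁ wt₁ → EA X d J b α₂ β₂ u₂ wx₂ wt₂ →
  X.IsRational k γ → Mt d J k a b h wx₁ wt₂ γ A → Mt d J k b a h' wx₂ wt₁ γ B →
  A.map conj = ((-1 : ℂ) ^ (k + a * b)) • (Jm α₂ β₂ * B.transpose * Jm α₁ β₁)

/-- [BetO] lattices. PROOF. As DWZ/Abet.lean. For `y = sw (s₁ (x + y z) wx₁ (Pz l))` and
`y'' = sw (s₂ (x' + y' z) wx₂ (Pz l''))`: `E (actR A y) y'' = Im (blg (A sw y) (conj sw y''))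
= Im (s₁ s₂ (x + y z) (x' - y' z) π^(-k) γ (append (Pz l) (c ∘ Pz l'')))`, the value of `γ` is in
`(2 π i)^k ℚ(z)`, and `s₁ s₂ = (√d)^(-(k - 1))`, so this is rational for both parities of `k`
(`1 ≤ k`). `L₂` is finitely generated, and `PLat.self`. -/
def St_BetO : Prop := ∀ (X : AbVar) (d : ℚ) (J : Module.End ℂ X.H1) (k a b : ℕ)
  (h : 2 * k = a + b) (α₁ β₁ α₂ β₂ : Type) [Fintype α₁] [Fintype β₁] [Fintype α₂] [Fintype β₂]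
  [DecidableEq α₁] [DecidableEq β₁] [DecidableEq α₂] [DecidableEq β₂]
  (u₁ : α₁ ⊕ β₁ → Fin a → X.H1) (wx₁ wt₁ : (Fin a → X.H1) → α₁ ⊕ β₁ → ℂ)
  (u₂ : α₂ ⊕ β₂ → Fin b → X.H1) (wx₂ wt₂ : (Fin b → X.H1) → α₂ ⊕ β₂ → ℂ) (γ : X.Class (2 * k))
  (A : Matrix (α₂ ⊕ β₂) (α₁ ⊕ β₁) ℂ) (L₁ : Submodule ℤ (Ix α₁ β₁ Unit → ℂ))
  (L₂ : Submodule ℤ (Ix α₂ β₂ Unit → ℂ)) (χ₂ : (Ix α₂ β₂ Unit → ℂ) → ℂ), 1 ≤ k →
  IsKs X d J → EA X d J a α₁ β₁ u₁ wx₁ wt₁ → EA X d J b α₂ β₂ u₂ wx₂ wt₂ →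
  EB X d J a α₁ β₁ wx₁ L₁ → EB X d J b α₂ β₂ wx₂ L₂ → PLat L₂ χ₂ →
  X.IsRational k γ → Mt d J k a b h wx₁ wt₂ γ A →
  ∀ y ∈ L₁, ∃ n : ℕ, n ≠ 0 ∧ (n : ℤ) • actR A y ∈ L₂

/-- [DRO] de Rham coordinates. PROOF. `γ` is algebraic on the tuples of `ED.dx p` (degree `a`) and
`ED.dt q` (degree `b`): `π^k blg (A (m^(1-a) D₁ e_p)) (π^(-b) m^(b-1) Jm (D₂⁻¹)ᵀ e_q) =
π^(k-b) m^(b-a) (D₂⁻¹ A D₁) q p`. -/
def St_DRO : Prop := ∀ (X : AbVar) (d : ℚ) (J : Module.End ℂ X.H1) (m : ℂ) (k a b : ℕ)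
  (h : 2 * k = a + b) (α₁ β₁ α₂ β₂ : Type) [Fintype α₁] [Fintype β₁] [Fintype α₂] [Fintype β₂]
  [DecidableEq α₁] [DecidableEq β₁] [DecidableEq α₂] [DecidableEq β₂]
  (wx₁ wt₁ : (Fin a → X.H1) → α₁ ⊕ β₁ → ℂ) (wx₂ wt₂ : (Fin b → X.H1) → α₂ ⊕ β₂ → ℂ)
  (γ : X.Class (2 * k)) (A : Matrix (α₂ ⊕ β₂) (α₁ ⊕ β₁) ℂ)
  (D₁ : Matrix (α₁ ⊕ β₁) (α₁ ⊕ β₁) ℂ) (D₂ : Matrix (α₂ ⊕ β₂) (α₂ ⊕ β₂) ℂ), m ≠ 0 →
  ED X d J m a α₁ β₁ wx₁ wt₁ D₁ → ED X d J m b α₂ β₂ wx₂ wt₂ D₂ →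
  (∀ v : Fin (2 * k) → X.H1, (∀ r, X.IsDeRham (v r)) → IsAlgebraic ℚ (γ v)) →
  Mt d J k a b h wx₁ wt₂ γ A →
  ∃ A'' : Matrix (α₂ ⊕ β₂) (α₁ ⊕ β₁) ℂ, (∀ p q, IsAlgebraic ℚ (A'' p q)) ∧
    A * D₁ = ((Real.pi : ℂ) ^ ((b : ℤ) - k) * m ^ ((a : ℤ) - b)) • (D₂ * A'')

/-- [HodO] the parts of type `(b, a)`, `a = b + 2 c`, `c ≥ 1`, of a Grothendieck class. PROOF.
`A` and `B` from `St_MatO` for `(a, b)` and `(b, a)`; `St_BarO`, `St_BetO`, `St_DRO` (twice;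
`π^(b-k) m^(a-b) = (m²/π)^c`), `St_PairM`; then `γ (append u v) = π^k blg (B wx₂ u) (wt₁ v)` with
`EA.filx`, `EA.filt`. -/
def St_HodO : Prop := ∀ (d : ℚ) (m : ℂ), UT d m → ∀ (X : AbVar) (J : Module.End ℂ X.H1)
  (k a b c : ℕ) (h' : 2 * k = b + a) (α β α' β' : Type) [Fintype α] [Fintype β]
  [Fintype α'] [Fintype β'] [DecidableEq α] [DecidableEq β] [DecidableEq α'] [DecidableEq β']
  (u₁ : α ⊕ β → Fin a → X.H1) (wx₁ wt₁ : (Fin a → X.H1) → α ⊕ β → ℂ)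
  (u₂ : α' ⊕ β' → Fin b → X.H1) (wx₂ wt₂ : (Fin b → X.H1) → α' ⊕ β' → ℂ) (Y Y' : AbVar)
  (T : Matrix (Ix α β Unit) (Fin Y.g) ℂ) (S : Matrix (Fin Y.g) (Ix α β Unit) ℂ)
  (Tp : Matrix α α ℂ) (Tm : Matrix β β ℂ) (Ta : Matrix (Ix α β Unit) (Fin Y.g) ℂ)
  (Tb : Matrix (Fin Y.g) (Ix α β Unit) ℂ) (κ : Matrix α β ℂ)
  (L : Submodule ℤ (Ix α β Unit → ℂ)) (χ : (Ix α β Unit → ℂ) → ℂ)
  (T' : Matrix (Ix α' β' Unit) (Fin Y'.g) ℂ) (S' : Matrix (Fin Y'.g) (Ix α' β' Unit) ℂ)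
  (Tp' : Matrix α' α' ℂ) (Tm' : Matrix β' β' ℂ) (Ta' : Matrix (Ix α' β' Unit) (Fin Y'.g) ℂ)
  (Tb' : Matrix (Fin Y'.g) (Ix α' β' Unit) ℂ) (κ' : Matrix α' β' ℂ)
  (L' : Submodule ℤ (Ix α' β' Unit → ℂ)) (χ' : (Ix α' β' Unit → ℂ) → ℂ),
  IsKs X d J → a = b + 2 * c → 1 ≤ c →
  NS Y d α β T S Tp Tm Ta Tb κ L → PLat L χ →
  NS Y' d α' β' T' S' Tp' Tm' Ta' Tb' κ' L' → PLat L' χ' →
  EA X d J a α β u₁ wx₁ wt₁ → EA X d J b α' β' u₂ wx₂ wt₂ →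
  ED X d J m a α β wx₁ wt₁ (Dz Tp Tm κ) → ED X d J m b α' β' wx₂ wt₂ (Dz Tp' Tm' κ') →
  EB X d J a α β wx₁ L → EB X d J b α' β' wx₂ L' →
  ∀ γ : X.Class (2 * k), X.IsGrothendieckClass k γ → ∀ (u : Fin b → X.H1) (v : Fin a → X.H1),
    (∀ i, J (u i) = zd d • u i) → (∀ i, J (v i) = (-zd d) • v i) →
    ((∀ i, X.IsFil (v i)) ∨ (∃ i, X.IsFil (u i)) ∨ 2 ≤ c) →
    γ (Fin.append u v ∘ Fin.cast h') = 0

/-! ## Part IV. The exterior powers -/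

/-- [OKA] PROOF. `u p` is the tuple with `XX (u p i) = e_(ix p i)`, `XT (u p i) = 0`
(`DWY.St_CxA`); `DWZ.St_Lap`, `DWZ.St_Wdv`; `XT w = conj (XX (c w))` (check on Betti vectors); for
`w i` in `F^0`, `J (w i) = z (w i)`: `XX (w i)` has no part in `Fin N` (row zero in the determinant
of `inl`); for `v i` in `F^0`: `XT (v i)` has no part in `Unit` (last column zero for `inr`). -/
def St_OKA : Prop := ∀ (N k : ℕ) (d : ℚ) (m : ℂ) (n M : ℕ) (X Y : AbVar)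
  (J : Module.End ℂ X.H1) (T : Matrix (IX N) (Fin X.g) ℂ) (S : Matrix (Fin X.g) (IX N) ℂ)
  (Tp : Matrix (Fin N) (Fin N) ℂ) (Tm : Matrix Unit Unit ℂ) (Ta : Matrix (IX N) (Fin X.g) ℂ)
  (Tb : Matrix (Fin X.g) (IX N) ℂ) (κ : Matrix (Fin N) Unit ℂ) (L : Submodule ℤ (IX N → ℂ))
  (T' : Matrix (IY N k) (Fin Y.g) ℂ) (S' : Matrix (Fin Y.g) (IY N k) ℂ)
  (Ta' : Matrix (IY N k) (Fin Y.g) ℂ) (Tb' : Matrix (Fin Y.g) (IY N k) ℂ)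
  (LY : Submodule ℤ (IY N k → ℂ)), IsKs X d J →
  XG N k d m n M X Y J T S Tp Tm Ta Tb κ L T' S' Ta' Tb' LY →
  ∃ u, EA X d J (k + 1) (PI N (k + 1)) (PI N k) u (wX N k X T S) (wT N k X T S)

/-- [OKD] PROOF. `Dz (TpY) (TmY) (rm κ) = m^k dRm` (`DWZ.St_Cmp`, `DWZ.St_DCt` for the inverse),
`dRm = ek (Dz Tp Tm κ)` (`DWZ.St_Blk`). `dx p`: the de Rham vectors `w i` with
`XX (w i) = Dz Tp Tm κ e_(ix p i)`, `XT (w i) = 0`. `dt p`: the de Rham vectors with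
`XT (w i) = ± π⁻¹ Jm (Dz⁻¹)ᵀ e_(ix p i)`, `XX (w i) = 0` (as in DWZ/AdR.lean). -/
def St_OKD : Prop := ∀ (N k : ℕ) (d : ℚ) (m : ℂ) (n M : ℕ) (X Y : AbVar)
  (J : Module.End ℂ X.H1) (T : Matrix (IX N) (Fin X.g) ℂ) (S : Matrix (Fin X.g) (IX N) ℂ)
  (Tp : Matrix (Fin N) (Fin N) ℂ) (Tm : Matrix Unit Unit ℂ) (Ta : Matrix (IX N) (Fin X.g) ℂ)
  (Tb : Matrix (Fin X.g) (IX N) ℂ) (κ : Matrix (Fin N) Unit ℂ) (L : Submodule ℤ (IX N → ℂ))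
  (T' : Matrix (IY N k) (Fin Y.g) ℂ) (S' : Matrix (Fin Y.g) (IY N k) ℂ)
  (Ta' : Matrix (IY N k) (Fin Y.g) ℂ) (Tb' : Matrix (Fin Y.g) (IY N k) ℂ)
  (LY : Submodule ℤ (IY N k → ℂ)), IsKs X d J →
  XG N k d m n M X Y J T S Tp Tm Ta Tb κ L T' S' Ta' Tb' LY →
  ED X d J m (k + 1) (PI N (k + 1)) (PI N k) (wX N k X T S) (wT N k X T S)
    (Dz (DWZ.TpY N k m Tp) (DWZ.TmY N k m Tp Tm) (rm N k fun i => κ i ()))

/-- [OKB] PROOF. `XG.cms.onto`, `we N k (cx l) = sw (wX l)`, `wX l = wX (Pz l)` (`XX` vanishes on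
the eigenspace of `-z`), elements of `L` are (up to integers) coordinates of Betti vectors
(`DWY.St_CxA`). -/
def St_OKB : Prop := ∀ (N k : ℕ) (d : ℚ) (m : ℂ) (n M : ℕ) (X Y : AbVar)
  (J : Module.End ℂ X.H1) (T : Matrix (IX N) (Fin X.g) ℂ) (S : Matrix (Fin X.g) (IX N) ℂ)
  (Tp : Matrix (Fin N) (Fin N) ℂ) (Tm : Matrix Unit Unit ℂ) (Ta : Matrix (IX N) (Fin X.g) ℂ)
  (Tb : Matrix (Fin X.g) (IX N) ℂ) (κ : Matrix (Fin N) Unit ℂ) (L : Submodule ℤ (IX N → ℂ))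
  (T' : Matrix (IY N k) (Fin Y.g) ℂ) (S' : Matrix (Fin Y.g) (IY N k) ℂ)
  (Ta' : Matrix (IY N k) (Fin Y.g) ℂ) (Tb' : Matrix (Fin Y.g) (IY N k) ℂ)
  (LY : Submodule ℤ (IY N k → ℂ)), IsKs X d J →
  XG N k d m n M X Y J T S Tp Tm Ta Tb κ L T' S' Ta' Tb' LY →
  EB X d J (k + 1) (PI N (k + 1)) (PI N k) (wX N k X T S) LY

/-- [ExE] the elliptic curve of the exterior power of degree `0`. PROOF. `DWC.St_LatK` for
`r = (d4 d)⁻¹`, `q = d` on `Unit ⊕ Empty`; `EM.hat`; `m⁻¹ * δ m = A δ`; `DWY.St_NSY`. -/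
def St_ExE : Prop := ∀ (d : ℚ) (A : Derivation ℚ ℂ ℂ → ℂ) (m : ℂ), EM d A m →
  ∃ (Y : AbVar) (T : Matrix (Ix Unit Empty Unit) (Fin Y.g) ℂ)
    (S : Matrix (Fin Y.g) (Ix Unit Empty Unit) ℂ) (Ta : Matrix (Ix Unit Empty Unit) (Fin Y.g) ℂ)
    (Tb : Matrix (Fin Y.g) (Ix Unit Empty Unit) ℂ) (L : Submodule ℤ (Ix Unit Empty Unit → ℂ)),
    NS Y d Unit Empty T S (m⁻¹ • (1 : Matrix Unit Unit ℂ)) 1 Ta Tb 0 L ∧ (∃ χ, PLat L χ) ∧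
    ∀ y ∈ L, ∃ (n : ℕ) (a b : ℚ), n ≠ 0 ∧
      (n : ℤ) • y = fun _ => (d4 d : ℂ)⁻¹ * ((a : ℂ) + (b : ℂ) * zd d)

/-- [O0] degree `0`. PROOF. All tuples `Fin 0 → X.H1` are equal; `wx = wt = 1`. -/
def St_O0 : Prop := ∀ (d : ℚ) (m : ℂ) (X : AbVar) (J : Module.End ℂ X.H1)
  (L : Submodule ℤ (Ix Unit Empty Unit → ℂ)), m ≠ 0 → IsKs X d J →
  (∀ y ∈ L, ∃ (n : ℕ) (a b : ℚ), n ≠ 0 ∧
    (n : ℤ) • y = fun _ => (d4 d : ℂ)⁻¹ * ((a : ℂ) + (b : ℂ) * zd d)) →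
  (∃ u, EA X d J 0 Unit Empty u (fun _ _ => 1) fun _ _ => 1) ∧
  ED X d J m 0 Unit Empty (fun _ _ => 1) (fun _ _ => 1)
    (Dz (m⁻¹ • (1 : Matrix Unit Unit ℂ)) (1 : Matrix Empty Empty ℂ) 0) ∧
  EB X d J 0 Unit Empty (fun _ _ => 1) L

/-- [OpN] the operator of the exterior power of degree `N + 1`. PROOF. `PI N (N + 1)` is empty,
`PI N N` has one element, `ek N N g = det g = 1`, so `LY₀ = LY₁` and `EM.hat` applies to `LY₀`.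
It remains `TmY δ(TmY⁻¹) = A δ`, i.e. (`DWZ.St_HatZ`)
`N A + δ(det Tp)/det Tp - δ Tm / Tm = A`; this is `St_CoreH` for `L₀, L₁` (as in DWZ/OpZ.lean):
`tr (Tp δ(Tp⁻¹)) - tr (Tm δ(Tm⁻¹)) = (N - 1) A`. -/
def St_OpN : Prop := ∀ (N : ℕ) (X : AbVar) (d : ℚ) (T : Matrix (IX N) (Fin X.g) ℂ)
  (S : Matrix (Fin X.g) (IX N) ℂ) (Tp : Matrix (Fin N) (Fin N) ℂ) (Tm : Matrix Unit Unit ℂ)
  (Ta : Matrix (IX N) (Fin X.g) ℂ) (Tb : Matrix (Fin X.g) (IX N) ℂ)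
  (κ : Matrix (Fin N) Unit ℂ) (g : Matrix (Fin N ⊕ Unit) (Fin N ⊕ Unit) ℂ)
  (r : Fin N ⊕ Unit → ℝ) (q : Fin N ⊕ Unit → ℚ)
  (L₀ L₁ : Submodule ℤ (IX N → ℂ)) (χ₀ χ₁ : (IX N → ℂ) → ℂ)
  (LY₀ LY₁ : Submodule ℤ (IY N N → ℂ)) (χY₀ χY₁ θY₀ : (IY N N → ℂ) → ℂ)
  (A : Derivation ℚ ℂ ℂ → ℂ) (m : ℂ), EM d A m →
  NS X d (Fin N) Unit T S Tp Tm Ta Tb κ L₀ →
  IsR d r q → PLat L₀ χ₀ → PLat L₁ χ₁ → PLat LY₀ χY₀ → PLat LY₁ χY₁ → IsLK d r q L₁ →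
  IsLK d (DWZ.rY N N d r) (DWZ.qY N N d q) LY₁ → Maps g L₁ L₀ χ₁ χ₀ →
  Maps (ek N N g) LY₁ LY₀ χY₁ χY₀ → g.det = 1 → IsTh LY₀ χY₀ θY₀ → (∃ v, θY₀ v ≠ 0) →
  ∀ δ : Derivation ℚ ℂ ℂ, ∃ k' : ℂ, HasHat δ LY₀ θY₀ k'
    (DWZ.TpY N N m Tp * (DWZ.TpY N N m Tp)⁻¹.map δ)
    (DWZ.TmY N N m Tp Tm * (DWZ.TmY N N m Tp Tm)⁻¹.map δ)
    (-(((DWZ.TpY N N m Tp)⁻¹).transpose * (rm N N fun i => κ i ()).map δ *
      (DWZ.TmY N N m Tp Tm)⁻¹))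

/-- [ExiG] existence of all abelian varieties of the exterior powers, with the same `m` and the
same coordinates of `X`. PROOF. DWZ/ExiZ.lean; nothing on the side of `X` depends on `k`; for
`k = N` use `St_OpN` instead of `DWZ.St_OpZ`. -/
def St_ExiG : Prop := ∀ (X : AbVar) (d : ℚ) (J : Module.End ℂ X.H1) (N : ℕ)
  (A : Derivation ℚ ℂ ℂ → ℂ) (m : ℂ), EM d A m →
  X.g = N + 1 → IsKs X d J → finrank ℂ (X.filEigen J (zd d)) = 1 →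
  ∃ (T : Matrix (IX N) (Fin X.g) ℂ) (S : Matrix (Fin X.g) (IX N) ℂ)
    (Tp : Matrix (Fin N) (Fin N) ℂ) (Tm : Matrix Unit Unit ℂ) (Ta : Matrix (IX N) (Fin X.g) ℂ)
    (Tb : Matrix (Fin X.g) (IX N) ℂ) (κ : Matrix (Fin N) Unit ℂ) (L : Submodule ℤ (IX N → ℂ)),
    ∀ k ≤ N, ∃ (n M : ℕ) (Y : AbVar)
      (T' : Matrix (IY N k) (Fin Y.g) ℂ) (S' : Matrix (Fin Y.g) (IY N k) ℂ)
      (Ta' : Matrix (IY N k) (Fin Y.g) ℂ) (Tb' : Matrix (Fin Y.g) (IY N k) ℂ)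
      (LY : Submodule ℤ (IY N k → ℂ)),
      XG N k d m n M X Y J T S Tp Tm Ta Tb κ L T' S' Ta' Tb' LY

/-! ## Part V. The theorem -/

/-- [Exp] reduction to eigenvectors. PROOF. `H_1` is the sum of the eigenspaces of `J`, `J`
respects `F^0`; `F^0` has dimension `1` in the eigenspace of `z` and `N` in the one of `-z`, which
have dimension `N + 1`. Expand `γ v` and sort the variables (`γ` is alternating): `b` vectors `u i`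
in the eigenspace of `z`, `a` vectors `v i` in that of `-z`, at least `k + 1` of all in `F^0`. If
two `u i` are in `F^0` the value is zero (proportional); the same if `a ≥ N + 2`, or if the `v i`
in `F^0` are more than `N`. So at most one `u i` and at least `k` of the `v i` are in `F^0`, and
`a ≥ k`. If `a = k = b`: one `u i` and all `v i`, `k ≤ N`. If `a = k + 1 = b + 2`: all `v i`, or one
`u i`. Otherwise `a ≥ b + 4`. -/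
def St_Exp : Prop := ∀ (X : AbVar) (d : ℚ) (J : Module.End ℂ X.H1) (N k : ℕ)
  (γ : X.Class (2 * k)), X.g = N + 1 → IsKs X d J → finrank ℂ (X.filEigen J (zd d)) = 1 →
  (∀ (b a : ℕ) (h' : 2 * k = b + a) (u : Fin b → X.H1) (v : Fin a → X.H1),
    (∀ i, J (u i) = zd d • u i) → (∀ i, J (v i) = (-zd d) • v i) →
    ((a = b ∧ 1 ≤ k ∧ k ≤ N ∧ (∃ i, X.IsFil (u i)) ∧ ∀ i, X.IsFil (v i)) ∨
      (b < a ∧ a ≤ N + 1 ∧ ((∀ i, X.IsFil (v i)) ∨ (∃ i, X.IsFil (u i)) ∨ b + 4 ≤ a))) →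
    γ (Fin.append u v ∘ Fin.cast h') = 0) → X.IsInFil k γ

/-- [FinG] Grothendieck classes on abelian varieties of signature `(n - 1, 1)` are Hodge classes.
PROOF. `z = zd d` or `z = -zd d` (replace `J` by `-J`). `DWY.St_ExM`, `St_UTm`, `St_ExiG`,
`St_ExE`, `St_OKA`, `St_OKD`, `St_OKB`, `St_O0`, `St_Exp`; the case `a = b` is `DWZ.St_HodZ`
(degree `k - 1`), the case `b < a` is `St_HodO` with `c = (a - b) / 2`, the exterior powers of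
degree `a` (`k = a - 1 ≤ N`) and `b` (`k = b - 1`, or degree `0`). -/
def St_FinG : Prop := ∀ (X : AbVar) (d : ℚ) (J : Module.End ℂ X.H1) (z : ℂ), 3 ≤ X.g →
  IsKs X d J → z ^ 2 = -(d : ℂ) → finrank ℂ (X.filEigen J z) = 1 → ∀ (k : ℕ)
  (γ : X.Class (2 * k)), X.IsGrothendieckClass k γ → X.IsInFil k γ

end DWG
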