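import Pool.Agent.DWZ.StC

/-!
# DWG: Grothendieck classes on all abelian varieties of signature `(n - 1, 1)` (definitions)
-/

set_option autoImplicit false

namespace DWG

open scoped ComplexConjugate
open Module
open GAM (H E F pd pdl PLat IsTh OddTor IsDel Gro IsLat)
open PST DWC DWZ
open DWY (cx cy XX XT NS d4 qb)
open Pool.Agent.GPC (AbVar hermForm bilForm)
open Pool.Agent.Helper7 (pData)

/-! ## The constant of the field -/

/-- The logarithmic derivative of `m / √π`. -/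
noncomputable def tau (m : ℂ) (δ : Derivation ℚ ℂ ℂ) : ℂ := δ m / m - δ Real.pi / Real.pi / 2

/-- The exponents `A` of the points with complex multiplication, and the period `m`. -/
structure EM (d : ℚ) (A : Derivation ℚ ℂ ℂ → ℂ) (m : ℂ) : Prop where
  pos : 0 < d
  m0 : m ≠ 0
  del : ∀ δ : Derivation ℚ ℂ ℂ, δ m = A δ * m
  hat : ∀ (α β : Type) [Fintype α] [Fintype β] [DecidableEq α] [DecidableEq β] (r : α ⊕ β → ℝ)
    (q : α ⊕ β → ℚ) (L : Submodule ℤ (Ix α β Unit → ℂ)) (χ θ : (Ix α β Unit → ℂ) → ℂ),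
    IsR d r q → Nonempty (α ⊕ β) → PLat L χ → IsLK d r q L → IsTh L χ θ → (∃ v, θ v ≠ 0) →
    ∀ δ, ∃ k : ℂ, HasHat δ L θ k (A δ • (1 : Matrix α α ℂ)) (A δ • (1 : Matrix β β ℂ)) 0

/-- The traces of the comparison operators are universal. -/
structure UT (d : ℚ) (m : ℂ) : Prop where
  pos : 0 < d
  m0 : m ≠ 0
  tr : ∀ (X : AbVar) (J : Module.End ℂ X.H1), IsKs X d J → ∀ δ : Derivation ℚ ℂ ℂ,
    LinearMap.trace ℂ X.H1 ((pData X).N δ * J) = 2 * zd d *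
      ((finrank ℂ (X.filEigen J (-(zd d))) : ℂ) - finrank ℂ (X.filEigen J (zd d))) * tau m δ
  ne : ∃ δ : Derivation ℚ ℂ ℂ, tau m δ ≠ 0

/-! ## Twisted homomorphisms -/

/-- `F` commutes with `J` and respects the Betti structures; it respects the de Rham structures
up to the factor `μ` on the eigenspace of `z` and `μ⁻¹` on the eigenspace of `-z`. -/
structure Tw (Y Y' : AbVar) (J : Module.End ℂ Y.H1) (J' : Module.End ℂ Y'.H1) (z μ : ℂ)
    (F : Y.H1 →ₗ[ℂ] Y'.H1) : Prop where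
  comm : ∀ v, F (J v) = J' (F v)
  betti : ∀ v, Y.IsBetti v → Y'.IsBetti (F v)
  dp : ∀ v, Y.IsDeRham v → J v = z • v → ∃ w, Y'.IsDeRham w ∧ F v = μ • w
  dm : ∀ v, Y.IsDeRham v → J v = (-z) • v → ∃ w, Y'.IsDeRham w ∧ F v = μ⁻¹ • w

/-- `F` and `G` are adjoint up to the factor `ε`. -/
def Adj (Y Y' : AbVar) (ε : ℂ) (F : Y.H1 →ₗ[ℂ] Y'.H1) (G : Y'.H1 →ₗ[ℂ] Y.H1) : Prop :=
  ∀ x y, Y'.pol (F x) y = ε * Y.pol x (G y)

/-! ## Matrices -/

section mats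

variable {α β α' β' : Type} [Fintype α] [Fintype β] [Fintype α'] [Fintype β']
  [DecidableEq α] [DecidableEq β] [DecidableEq α'] [DecidableEq β']

/-- The bilinear form with the matrix `diag (1, -1)`. -/
def blg (P Q : α ⊕ β → ℂ) : ℂ :=
  (∑ i, P (Sum.inl i) * Q (Sum.inl i)) - ∑ j, P (Sum.inr j) * Q (Sum.inr j)

/-- The action of a rectangular matrix on the coordinates `x`. -/
def actR (A : Matrix (α' ⊕ β') (α ⊕ β) ℂ) (x : Ix α β Unit → ℂ) : Ix α' β' Unit → ℂ :=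
  sw fun p => ∑ q, A p.1 q * sw x (q, p.2)

/-- The de Rham coordinates of the eigenspace of `z`. -/
noncomputable def Dz (Tp : Matrix α α ℂ) (Tm : Matrix β β ℂ) (κ : Matrix α β ℂ) :
    Matrix (α ⊕ β) (α ⊕ β) ℂ :=
  Matrix.fromBlocks Tp 0 0 ((Real.pi : ℂ)⁻¹ • (Tm⁻¹).transpose) *
    Matrix.fromBlocks 1 0 (-κ.transpose) 1

end mats

/-! ## Exterior powers -/

/-- Complex conjugation on the homology. -/
structure IsCc (X : AbVar) (cc : X.H1 → X.H1) : Prop where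
  add : ∀ v w, cc (v + w) = cc v + cc w
  smul : ∀ (c : ℂ) v, cc (c • v) = conj c • cc v
  betti : ∀ v, X.IsBetti v → cc v = v

/-- The projection on the eigenspace of `z`. -/
noncomputable def Pz {X : AbVar} (J : Module.End ℂ X.H1) (z : ℂ) (v : X.H1) : X.H1 :=
  (1 / 2 : ℂ) • (v + z⁻¹ • J v)

/-- The coordinates `wx` and `wt` of the exterior powers of degree `j` of the eigenspaces of
`i √d` and of `-i √d`. -/
structure EA (X : AbVar) (d : ℚ) (J : Module.End ℂ X.H1) (j : ℕ) (α β : Type) [Fintype α]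
    [Fintype β] [DecidableEq α] [DecidableEq β] (u : α ⊕ β → Fin j → X.H1)
    (wx wt : (Fin j → X.H1) → α ⊕ β → ℂ) : Prop where
  eig : ∀ p i, J (u p i) = zd d • u p i
  one : ∀ p, wx (u p) = Pi.single p 1
  univ : ∀ (f : X.H1 [⋀^Fin j]→ₗ[ℂ] ℂ) (w : Fin j → X.H1), (∀ i, J (w i) = zd d • w i) →
    f w = ∑ p, wx w p * f (u p)
  cc : ∀ c, IsCc X c → ∀ w : Fin j → X.H1, (∀ i, J (w i) = (-zd d) • w i) →
    ∀ p, wt w p = conj (wx (fun i => c (w i)) p)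
  filx : ∀ w : Fin j → X.H1, (∀ i, J (w i) = zd d • w i) → (∃ i, X.IsFil (w i)) →
    ∀ a, wx w (Sum.inl a) = 0
  filt : ∀ w : Fin j → X.H1, (∀ i, J (w i) = (-zd d) • w i) → (∀ i, X.IsFil (w i)) →
    ∀ b, wt w (Sum.inr b) = 0

/-- The de Rham structures of the exterior powers; `D` is the matrix of the de Rham coordinates
of the abelian variety of the exterior power. -/
structure ED (X : AbVar) (d : ℚ) (J : Module.End ℂ X.H1) (m : ℂ) (j : ℕ) (α β : Type)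
    [Fintype α] [Fintype β] [DecidableEq α] [DecidableEq β]
    (wx wt : (Fin j → X.H1) → α ⊕ β → ℂ) (D : Matrix (α ⊕ β) (α ⊕ β) ℂ) : Prop where
  det : D.det ≠ 0
  dx : ∀ p : α ⊕ β, ∃ w : Fin j → X.H1, (∀ i, X.IsDeRham (w i)) ∧
    (∀ i, J (w i) = zd d • w i) ∧ wx w = m ^ (1 - (j : ℤ)) • D.mulVec (Pi.single p 1)
  dt : ∀ p : α ⊕ β, ∃ w : Fin j → X.H1, (∀ i, X.IsDeRham (w i)) ∧
    (∀ i, J (w i) = (-zd d) • w i) ∧
    wt w = (((Real.pi : ℂ) ^ j)⁻¹ * m ^ ((j : ℤ) - 1)) •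
      (Jm α β * (D⁻¹).transpose).mulVec (Pi.single p 1)

/-- The Betti structures of the exterior powers; `L` is the lattice of the abelian variety of
the exterior power. -/
structure EB (X : AbVar) (d : ℚ) (J : Module.End ℂ X.H1) (j : ℕ) (α β : Type)
    [Fintype α] [Fintype β] [DecidableEq α] [DecidableEq β]
    (wx : (Fin j → X.H1) → α ⊕ β → ℂ) (L : Submodule ℤ (Ix α β Unit → ℂ)) : Prop where
  gen : ∀ y ∈ L, ∃ n : ℕ, n ≠ 0 ∧ (n : ℤ) • y ∈ Submodule.span ℤ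
    {x : Ix α β Unit → ℂ | ∃ (l : Fin j → X.H1) (a b : ℚ), (∀ i, X.IsBetti (l i)) ∧
      x = sw fun p => (d4 d : ℂ) ^ ((j : ℤ) - 1) * ((a : ℂ) + (b : ℂ) * zd d) *
        wx (fun i => Pz J (zd d) (l i)) p.1}

/-- `A` is the matrix of the part of type `(a, b)` of the class `α`. -/
def Mt {X : AbVar} (d : ℚ) (J : Module.End ℂ X.H1) (k a b : ℕ) (h : 2 * k = a + b)
    {α₁ β₁ α₂ β₂ : Type} [Fintype α₁] [Fintype β₁] [Fintype α₂] [Fintype β₂]
    (wx : (Fin a → X.H1) → α₁ ⊕ β₁ → ℂ) (wt : (Fin b → X.H1) → α₂ ⊕ β₂ → ℂ)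
    (γ : X.Class (2 * k)) (A : Matrix (α₂ ⊕ β₂) (α₁ ⊕ β₁) ℂ) : Prop :=
  ∀ (u : Fin a → X.H1) (v : Fin b → X.H1), (∀ i, J (u i) = zd d • u i) →
    (∀ i, J (v i) = (-zd d) • v i) →
    γ (Fin.append u v ∘ Fin.cast h) = (Real.pi : ℂ) ^ k * blg (A.mulVec (wx u)) (wt v)

/-- The abelian variety `X` of signature `(N, 1)` and the abelian variety `Y` of its exterior
power of degree `k + 1`, `k ≤ N`. -/
structure XG (N k : ℕ) (d : ℚ) (m : ℂ) (n M : ℕ) (X Y : AbVar) (J : Module.End ℂ X.H1)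
    (T : Matrix (IX N) (Fin X.g) ℂ) (S : Matrix (Fin X.g) (IX N) ℂ)
    (Tp : Matrix (Fin N) (Fin N) ℂ) (Tm : Matrix Unit Unit ℂ) (Ta : Matrix (IX N) (Fin X.g) ℂ)
    (Tb : Matrix (Fin X.g) (IX N) ℂ) (κ : Matrix (Fin N) Unit ℂ) (L : Submodule ℤ (IX N → ℂ))
    (T' : Matrix (IY N k) (Fin Y.g) ℂ) (S' : Matrix (Fin Y.g) (IY N k) ℂ)
    (Ta' : Matrix (IY N k) (Fin Y.g) ℂ) (Tb' : Matrix (Fin Y.g) (IY N k) ℂ)
    (LY : Submodule ℤ (IY N k → ℂ)) : Prop where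
  kN : k ≤ N
  m0 : m ≠ 0
  nx : NS X d (Fin N) Unit T S Tp Tm Ta Tb κ L
  ny : NS Y d (PI N (k + 1)) (PI N k) T' S' (DWZ.TpY N k m Tp) (DWZ.TmY N k m Tp Tm) Ta' Tb'
    (rm N k fun i => κ i ()) LY
  cms : DWZ.Cms N k ((n : ℝ) * d4 d ^ k) M L LY
  pl : ∃ χ, PLat L χ
  plY : ∃ χ, PLat LY χ
  jx : ∀ v p, XX X T S (J v) p = zd d * XX X T S v p
  jt : ∀ v p, XT X T S (J v) p = -(zd d * XT X T S v p)

end DWG
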