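import Pool.Agent.DWG.St

/-!
# DWG, [KerT]: the kernel of the composite of adjoint twisted homomorphisms
-/

set_option autoImplicit false

namespace DWG

open scoped ComplexConjugate
open Module
open GAM (H E F pd pdl PLat IsTh OddTor IsDel Gro IsLat)
open PST DWC DWZ
open DWY (cx cy XX XT NS d4 qb)
open Pool.Agent.GPC (AbVar hermForm bilForm span_betti span_deRham)
open Pool.Agent.Helper7 (pData mem_pData_Q)

private theorem KerT_sq {d : ℚ} (hd : 0 < d) : zd d * zd d = -(d : ℂ) := by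
  have h1 : (0 : ℝ) ≤ (d : ℝ) := by exact_mod_cast hd.le
  have h2 : ((Real.sqrt (d : ℝ) : ℝ) : ℂ) * ((Real.sqrt (d : ℝ) : ℝ) : ℂ) = (d : ℂ) := by
    rw [← Complex.ofReal_mul, Real.mul_self_sqrt h1]
    simp
  unfold zd
  calc (Real.sqrt (d : ℝ) : ℂ) * Complex.I * ((Real.sqrt (d : ℝ) : ℂ) * Complex.I)
      = ((Real.sqrt (d : ℝ) : ℂ) * (Real.sqrt (d : ℝ) : ℂ)) * (Complex.I * Complex.I) := by ring
    _ = -(d : ℂ) := by rw [h2, Complex.I_mul_I]; ring

private theorem KerT_ne {d : ℚ} (hd : 0 < d) : zd d ≠ 0 := by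
  intro h
  have h1 := KerT_sq hd
  rw [h, mul_zero] at h1
  have h2 : (d : ℂ) = 0 := by
    rw [← neg_eq_zero]
    exact h1.symm
  have h3 : d = 0 := by exact_mod_cast h2
  exact hd.ne' h3

private theorem KerT_alg {d : ℚ} (hd : 0 < d) : IsAlgebraic ℚ (zd d) := by
  have h1 : IsAlgebraic ℚ (zd d ^ 2) := by
    rw [pow_two, KerT_sq hd]
    exact (isAlgebraic_ratCast ℚ d).neg
  exact h1.of_pow two_pos

/-- the projection on an eigenspace -/
private theorem KerT_eig (Y : AbVar) (J : Module.End ℂ Y.H1) (z : ℂ) (hz : IsAlgebraic ℚ z)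
    (hz0 : z ≠ 0) (hJ : ∀ v, Y.IsDeRham v → Y.IsDeRham (J v)) (hsq : ∀ v, J (J v) = (z * z) • v)
    (v : Y.H1) (hv : Y.IsDeRham v) : Y.IsDeRham ((1 / 2 : ℂ) • (v + z⁻¹ • J v)) ∧
      J ((1 / 2 : ℂ) • (v + z⁻¹ • J v)) = z • ((1 / 2 : ℂ) • (v + z⁻¹ • J v)) := by
  constructor
  · intro j
    have h2 : IsAlgebraic ℚ (1 / 2 : ℂ) := by
      have h3 := isAlgebraic_ratCast (A := ℂ) ℚ (1 / 2 : ℚ)
      have h4 : ((1 / 2 : ℚ) : ℂ) = 1 / 2 := by push_cast; ring
      rwa [h4] at h3
    show IsAlgebraic ℚ ((1 / 2 : ℂ) * (v j + z⁻¹ * J v j))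
    exact h2.mul ((hv j).add (hz.inv.mul (hJ v hv j)))
  · rw [map_smul, map_add, map_smul, hsq, smul_smul, smul_smul, smul_add, smul_add, smul_smul,
      smul_smul]
    have h3 : z⁻¹ * (z * z) = z := by rw [← mul_assoc, inv_mul_cancel₀ hz0, one_mul]
    have h4 : z * (1 / 2) * z⁻¹ = 1 / 2 := by
      rw [mul_comm z, mul_assoc, mul_inv_cancel₀ hz0, mul_one]
    rw [h3, h4, mul_comm z, add_comm]

private theorem KerT_betti_sub (Y : AbVar) (u v : Y.H1) (hu : Y.IsBetti u) (hv : Y.IsBetti v) :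
    Y.IsBetti (u - v) := by
  rw [← mem_pData_Q] at hu hv ⊢
  exact (pData Y).Q.sub_mem hu hv

/-- [KerT] -/
theorem thm_KerT (h1 : St_EndT) (h2 : St_Iso0) (h3 : St_SymE) : St_KerT := by
  intro Y Y' d J J' μ ε F G hJ hJ' hμ hε hF hG hA
  have hz0 : zd d ≠ 0 := KerT_ne hJ.pos
  have hza : IsAlgebraic ℚ (zd d) := KerT_alg hJ.pos
  have hsq : ∀ v, J (J v) = (zd d * zd d) • v := by
    intro v
    rw [KerT_sq hJ.pos]
    exact hJ.sq v
  have hsq' : ∀ v, J (J v) = (-zd d * -zd d) • v := by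
    intro v
    rw [neg_mul_neg]
    exact hsq v
  obtain ⟨S, hS⟩ : ∃ S : Module.End ℂ Y.H1, ∀ v, S v = G (F v) := ⟨G ∘ₗ F, fun v => rfl⟩
  have hSf : (⇑S : Y.H1 → Y.H1) = fun v => G (F v) := funext hS
  have hSe : Y.IsEnd S := by
    rw [hSf]
    exact h1 Y Y' d J J' μ F G hJ hJ' hμ hF hG
  have hanti : ∀ (A : AbVar) (u v : A.H1), A.pol u v = -A.pol v u := by
    intro A u v
    unfold Pool.Agent.GPC.AbVar.pol
    rw [← Finset.sum_neg_distrib]
    refine Finset.sum_congr rfl fun a _ => ?_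
    ring
  have hSadj : Y.IsAdjoint S S := by
    intro u v
    rw [hS, hS]
    apply mul_left_cancel₀ hε
    rw [← hA, hanti Y (G (F u)) v, mul_neg, ← hA, ← hanti Y']
  obtain ⟨e, u, hee, -, -, -, hid, huS, -, hSe', -, -, hcen⟩ := h3 Y S hSe hSadj
  -- `e` commutes with `J`
  have hJS : J * S = S * J := by
    apply LinearMap.ext
    intro v
    show J (S v) = S (J v)
    rw [hS, hS, hF.comm, hG.comm]
  have hJe : ∀ v, J (e v) = e (J v) := by
    intro v
    have h4 := congrArg (fun f : Module.End ℂ Y.H1 => f v) (hcen J hJS).1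
    exact h4
  have huS' : ∀ v, u (S v) = e v := by
    intro v
    have h4 := congrArg (fun f : Module.End ℂ Y.H1 => f v) huS
    exact h4
  have hSe2 : ∀ v, S (e v) = S v := by
    intro v
    have h4 := congrArg (fun f : Module.End ℂ Y.H1 => f v) hSe'
    exact h4
  have hker : ∀ v, S v = 0 → v - e v = v := by
    intro v hv
    rw [← huS', hv, map_zero, sub_zero]
  have hker' : ∀ v, G (F (v - e v)) = 0 := by
    intro v
    rw [← hS, map_sub, hSe2, sub_self]
  -- the subspace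
  obtain ⟨P, hP⟩ : ∃ P : Submodule ℂ Y'.H1, ∀ w, w ∈ P ↔ ∃ v, F (v - e v) = w :=
    ⟨LinearMap.range (F ∘ₗ (1 - e)), fun w => LinearMap.mem_range⟩
  have hbot : P = ⊥ := by
    apply h2 Y' P
    · intro w hw
      obtain ⟨v, rfl⟩ := (hP w).1 hw
      have hv := span_betti Y v
      induction hv using Submodule.span_induction with
      | mem x hx =>
        refine Submodule.subset_span ⟨(hP _).2 ⟨x, rfl⟩, ?_⟩
        exact hF.betti _ (KerT_betti_sub Y _ _ hx (hee.betti _ hx))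
      | zero => rw [map_zero, sub_zero, map_zero]; exact Submodule.zero_mem _
      | add x y _ _ hx hy =>
        have h5 : F (x + y - e (x + y)) = F (x - e x) + F (y - e y) := by
          rw [← map_add, map_add e]
          congr 1
          abel
        rw [h5]
        exact Submodule.add_mem _ (hx ((hP _).2 ⟨x, rfl⟩)) (hy ((hP _).2 ⟨y, rfl⟩))
      | smul c x _ hx =>
        have h5 : F (c • x - e (c • x)) = c • F (x - e x) := by
          rw [map_smul e, ← smul_sub, map_smul]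
        rw [h5]
        exact Submodule.smul_mem _ _ (hx ((hP _).2 ⟨x, rfl⟩))
    · intro w hw
      obtain ⟨v, rfl⟩ := (hP w).1 hw
      have hv := span_deRham Y v
      induction hv using Submodule.span_induction with
      | mem x hx =>
        have key : ∀ (z c : ℂ), IsAlgebraic ℚ z → z ≠ 0 → c ≠ 0 →
            (∀ v, J (J v) = (z * z) • v) →
            (∀ v, Y.IsDeRham v → J v = z • v → ∃ w, Y'.IsDeRham w ∧ F v = c • w) →
            F ((1 / 2 : ℂ) • (x + z⁻¹ • J x) - e ((1 / 2 : ℂ) • (x + z⁻¹ • J x))) ∈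
              Submodule.span ℂ {u | u ∈ P ∧ Y'.IsDeRham u} := by
          intro z c hz hz1 hc hsqz hFz
          obtain ⟨h6, h7⟩ := KerT_eig Y J z hz hz1 hJ.endo.deRham hsqz x hx
          obtain ⟨x', hx'⟩ : ∃ x', x' = (1 / 2 : ℂ) • (x + z⁻¹ • J x) := ⟨_, rfl⟩
          rw [← hx'] at h6 h7 ⊢
          have h8 : Y.IsDeRham (x' - e x') := by
            intro j
            show IsAlgebraic ℚ (x' j - e x' j)
            exact (h6 j).sub (hee.deRham _ h6 j)
          have h9 : J (x' - e x') = z • (x' - e x') := by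
            rw [map_sub, hJe, h7, map_smul, smul_sub]
          obtain ⟨w, hw1, hw2⟩ := hFz _ h8 h9
          rw [hw2]
          refine Submodule.smul_mem _ _ (Submodule.subset_span ⟨?_, hw1⟩)
          have h10 : w = c⁻¹ • F (x' - e x') := by
            rw [hw2, smul_smul, inv_mul_cancel₀ hc, one_smul]
          rw [h10]
          exact P.smul_mem _ ((hP _).2 ⟨x', rfl⟩)
        have k1 := key (zd d) μ hza hz0 hμ hsq hF.dp
        have k2 := key (-zd d) μ⁻¹ hza.neg (neg_ne_zero.mpr hz0) (inv_ne_zero hμ) hsq' hF.dm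
        have k3 : F (x - e x) =
            F ((1 / 2 : ℂ) • (x + (zd d)⁻¹ • J x) - e ((1 / 2 : ℂ) • (x + (zd d)⁻¹ • J x))) +
            F ((1 / 2 : ℂ) • (x + (-zd d)⁻¹ • J x) - e ((1 / 2 : ℂ) • (x + (-zd d)⁻¹ • J x))) := by
          obtain ⟨x1, hx1⟩ : ∃ x1, x1 = (1 / 2 : ℂ) • (x + (zd d)⁻¹ • J x) := ⟨_, rfl⟩
          obtain ⟨x2, hx2⟩ : ∃ x2, x2 = (1 / 2 : ℂ) • (x + (-zd d)⁻¹ • J x) := ⟨_, rfl⟩
          rw [← hx1, ← hx2, ← map_add]
          have h11 : x = x1 + x2 := by
            rw [hx1, hx2, inv_neg, neg_smul, ← smul_add]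
            have h12 : x + (zd d)⁻¹ • J x + (x + -((zd d)⁻¹ • J x)) = (2 : ℂ) • x := by
              rw [two_smul]; abel
            rw [h12, smul_smul]
            norm_num
          congr 1
          conv_lhs => rw [h11]
          rw [map_add]
          abel
        rw [k3]
        exact Submodule.add_mem _ k1 k2
      | zero => rw [map_zero, sub_zero, map_zero]; exact Submodule.zero_mem _
      | add x y _ _ hx hy =>
        have h5 : F (x + y - e (x + y)) = F (x - e x) + F (y - e y) := by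
          rw [← map_add, map_add e]
          congr 1
          abel
        rw [h5]
        exact Submodule.add_mem _ (hx ((hP _).2 ⟨x, rfl⟩)) (hy ((hP _).2 ⟨y, rfl⟩))
      | smul c x _ hx =>
        have h5 : F (c • x - e (c • x)) = c • F (x - e x) := by
          rw [map_smul e, ← smul_sub, map_smul]
        rw [h5]
        exact Submodule.smul_mem _ _ (hx ((hP _).2 ⟨x, rfl⟩))
    · intro a ha b hb
      obtain ⟨x, rfl⟩ := (hP a).1 ha
      obtain ⟨y, rfl⟩ := (hP b).1 hb
      rw [hA, hker']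
      have h5 : Y.pol (x - e x) 0 = 0 := by
        unfold Pool.Agent.GPC.AbVar.pol
        simp
      rw [h5, mul_zero]
  intro v hv
  have h4 : F v ∈ P := by
    rw [hP]
    refine ⟨v, ?_⟩
    rw [hker v (by rw [hS]; exact hv)]
  rw [hbot] at h4
  exact (Submodule.mem_bot ℂ).1 h4

end DWG
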